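import Pool.Agent.Split938.Defs

set_option autoImplicit false
open MeasureTheory Metric Set Filter Topology

namespace Pool.Agent.Split938

variable {f g h : ℂ → ℂ} {z : ℂ}

theorem dbar_add (hf : DifferentiableAt ℝ f z) (hg : DifferentiableAt ℝ g z) :
    dbar (fun z => f z + g z) z = dbar f z + dbar g z := by
  unfold dbar
  rw [fderiv_fun_add hf hg]
  simp only [ContinuousLinearMap.add_apply]
  ring

theorem dz_add (hf : DifferentiableAt ℝ f z) (hg : DifferentiableAt ℝ g z) :
    dz (fun z => f z + g z) z = dz f z + dz g z := by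
  unfold dz
  rw [fderiv_fun_add hf hg]
  simp only [ContinuousLinearMap.add_apply]
  ring

theorem dbar_mul (hf : DifferentiableAt ℝ f z) (hg : DifferentiableAt ℝ g z) :
    dbar (fun z => f z * g z) z = f z * dbar g z + dbar f z * g z := by
  unfold dbar
  rw [fderiv_fun_mul hf hg]
  simp only [ContinuousLinearMap.add_apply, ContinuousLinearMap.smul_apply, smul_eq_mul]
  ring

theorem dz_mul (hf : DifferentiableAt ℝ f z) (hg : DifferentiableAt ℝ g z) :
    dz (fun z => f z * g z) z = f z * dz g z + dz f z * g z := by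
  unfold dz
  rw [fderiv_fun_mul hf hg]
  simp only [ContinuousLinearMap.add_apply, ContinuousLinearMap.smul_apply, smul_eq_mul]
  ring

theorem dbar_const_mul (c : ℂ) (hf : DifferentiableAt ℝ f z) :
    dbar (fun z => c * f z) z = c * dbar f z := by
  unfold dbar
  rw [fderiv_const_mul hf c]
  simp only [ContinuousLinearMap.smul_apply, smul_eq_mul]
  ring

theorem dz_const_mul (c : ℂ) (hf : DifferentiableAt ℝ f z) :
    dz (fun z => c * f z) z = c * dz f z := by
  unfold dz
  rw [fderiv_const_mul hf c]
  simp only [ContinuousLinearMap.smul_apply, smul_eq_mul]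
  ring

theorem dbar_congr (h : f =ᶠ[𝓝 z] g) : dbar f z = dbar g z := by
  unfold dbar; rw [h.fderiv_eq]

theorem dz_congr (h : f =ᶠ[𝓝 z] g) : dz f z = dz g z := by
  unfold dz; rw [h.fderiv_eq]

theorem fderiv_of_hasDerivAt {f' : ℂ} (hf : HasDerivAt f f' z) (v : ℂ) :
    fderiv ℝ f z v = v * f' := by
  have h1 : HasFDerivAt f ((ContinuousLinearMap.smulRight (1 : ℂ →L[ℂ] ℂ) f').restrictScalars ℝ) z :=
    (hf.hasFDerivAt).restrictScalars ℝ
  rw [h1.fderiv]
  simp

theorem dbar_of_hasDerivAt {f' : ℂ} (hf : HasDerivAt f f' z) : dbar f z = 0 := by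
  unfold dbar
  rw [fderiv_of_hasDerivAt hf, fderiv_of_hasDerivAt hf]
  have := Complex.I_mul_I
  linear_combination (f' / 2) * this

theorem dz_of_hasDerivAt {f' : ℂ} (hf : HasDerivAt f f' z) : dz f z = f' := by
  unfold dz
  rw [fderiv_of_hasDerivAt hf, fderiv_of_hasDerivAt hf]
  have := Complex.I_mul_I
  linear_combination (-f' / 2) * this

theorem dbar_continuous (hf : ContDiff ℝ 1 f) : Continuous (dbar f) := by
  have h1 : Continuous (fderiv ℝ f) := hf.continuous_fderiv (by norm_num)
  unfold dbar
  have h2 : Continuous fun z => fderiv ℝ f z 1 := h1.clm_apply continuous_const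
  have h3 : Continuous fun z => fderiv ℝ f z Complex.I := h1.clm_apply continuous_const
  fun_prop

theorem dz_continuous (hf : ContDiff ℝ 1 f) : Continuous (dz f) := by
  have h1 : Continuous (fderiv ℝ f) := hf.continuous_fderiv (by norm_num)
  unfold dz
  have h2 : Continuous fun z => fderiv ℝ f z 1 := h1.clm_apply continuous_const
  have h3 : Continuous fun z => fderiv ℝ f z Complex.I := h1.clm_apply continuous_const
  fun_prop

theorem dbar_zero_off (hz : z ∉ tsupport f) : dbar f z = 0 := by
  have h1 : f =ᶠ[𝓝 z] fun _ => 0 := notMem_tsupport_iff_eventuallyEq.1 hz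
  rw [dbar_congr h1]; unfold dbar; simp

theorem dz_zero_off (hz : z ∉ tsupport f) : dz f z = 0 := by
  have h1 : f =ᶠ[𝓝 z] fun _ => 0 := notMem_tsupport_iff_eventuallyEq.1 hz
  rw [dz_congr h1]; unfold dz; simp

theorem dbar_tsupport : tsupport (dbar f) ⊆ tsupport f := by
  apply closure_minimal _ (isClosed_tsupport f)
  intro z hz
  by_contra h
  exact hz (dbar_zero_off h)

theorem dz_tsupport : tsupport (dz f) ⊆ tsupport f := by
  apply closure_minimal _ (isClosed_tsupport f)
  intro z hz
  by_contra h
  exact hz (dz_zero_off h)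

theorem dbar_hcs (hf : HasCompactSupport f) : HasCompactSupport (dbar f) :=
  hf.mono' (subset_closure.trans dbar_tsupport)

theorem dz_hcs (hf : HasCompactSupport f) : HasCompactSupport (dz f) :=
  hf.mono' (subset_closure.trans dz_tsupport)

end Pool.Agent.Split938
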