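import Pool.Agent.Split938.Defs

set_option autoImplicit false
open MeasureTheory Metric Set Filter Topology

namespace Pool.Agent.Split938.J1a

/-- continuous with decay of order `n` -/
def Dec (n : ℕ) (f : ℂ → ℂ) : Prop :=
  Continuous f ∧ ∃ C : ℝ, 0 ≤ C ∧ ∀ x, ‖f x‖ ≤ C * ((1 + ‖x‖) ^ n)⁻¹

lemma Dec.mul {n m : ℕ} {f g : ℂ → ℂ} (hf : Dec n f) (hg : Dec m g) :
    Dec (n + m) (fun x => f x * g x) := by
  obtain ⟨cf, Cf, hCf, hf⟩ := hf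
  obtain ⟨cg, Cg, hCg, hg⟩ := hg
  refine ⟨cf.mul cg, Cf * Cg, mul_nonneg hCf hCg, fun x => ?_⟩
  rw [norm_mul, pow_add, mul_inv]
  have h1 := hf x
  have h2 := hg x
  have h0 : (0:ℝ) ≤ ((1 + ‖x‖) ^ n)⁻¹ := by positivity
  have h3 : (0:ℝ) ≤ ((1 + ‖x‖) ^ m)⁻¹ := by positivity
  calc ‖f x‖ * ‖g x‖ ≤ (Cf * ((1 + ‖x‖) ^ n)⁻¹) * (Cg * ((1 + ‖x‖) ^ m)⁻¹) :=
        mul_le_mul h1 h2 (norm_nonneg _) (by positivity)
    _ = _ := by ring

lemma Dec.conj {n : ℕ} {f : ℂ → ℂ} (hf : Dec n f) :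
    Dec n (fun x => (starRingEnd ℂ) (f x)) := by
  obtain ⟨cf, Cf, hCf, hf⟩ := hf
  exact ⟨Complex.continuous_conj.comp cf, Cf, hCf, fun x => by simpa using hf x⟩

lemma Dec.shift {n : ℕ} {f : ℂ → ℂ} (hf : Dec n f) (a : ℂ) :
    Dec n (fun x => f (x - a)) := by
  obtain ⟨cf, Cf, hCf, hf⟩ := hf
  refine ⟨cf.comp (continuous_id.sub continuous_const), Cf * (1 + ‖a‖) ^ n, by positivity,
    fun x => ?_⟩
  refine (hf _).trans ?_
  have h1 : 1 + ‖x‖ ≤ (1 + ‖a‖) * (1 + ‖x - a‖) := by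
    have : ‖x‖ ≤ ‖x - a‖ + ‖a‖ := by
      simpa using norm_add_le (x - a) a
    nlinarith [norm_nonneg a, norm_nonneg (x - a)]
  have h2 : (1 + ‖x‖) ^ n ≤ (1 + ‖a‖) ^ n * (1 + ‖x - a‖) ^ n := by
    rw [← mul_pow]
    exact pow_le_pow_left₀ (by positivity) h1 n
  rw [mul_assoc]
  refine mul_le_mul_of_nonneg_left ?_ hCf
  rw [inv_le_iff_one_le_mul₀ (by positivity)]
  have h3 : (0:ℝ) < (1 + ‖x‖) ^ n := by positivity
  calc (1:ℝ) = ((1 + ‖x‖) ^ n)⁻¹ * (1 + ‖x‖) ^ n := by field_simp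
    _ ≤ ((1 + ‖x‖) ^ n)⁻¹ * ((1 + ‖a‖) ^ n * (1 + ‖x - a‖) ^ n) :=
        mul_le_mul_of_nonneg_left h2 (by positivity)
    _ = _ := by ring

lemma Dec.int3 {f : ℂ → ℂ} (hf : Dec 3 f) : Integrable f := by
  obtain ⟨cf, Cf, hCf, hf⟩ := hf
  have h1 : Integrable (fun x : ℂ => (1 + ‖x‖) ^ (-(3:ℝ))) := by
    apply integrable_one_add_norm
    rw [Complex.finrank_real_complex]
    norm_num
  refine (h1.const_mul Cf).mono' cf.aestronglyMeasurable (Eventually.of_forall fun x => ?_)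
  refine (hf x).trans (le_of_eq ?_)
  congr 1
  rw [Real.rpow_neg (by positivity)]
  norm_cast

lemma Dec.mono {n : ℕ} {f : ℂ → ℂ} (hf : Dec (n + 1) f) : Dec n f := by
  obtain ⟨cf, Cf, hCf, hf⟩ := hf
  refine ⟨cf, Cf, hCf, fun x => (hf x).trans ?_⟩
  refine mul_le_mul_of_nonneg_left ?_ hCf
  apply inv_anti₀ (by positivity)
  exact pow_le_pow_right₀ (by linarith [norm_nonneg x]) (Nat.le_succ n)

lemma Dec.int4 {f : ℂ → ℂ} (hf : Dec 4 f) : Integrable f := (Dec.mono hf).int3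

/-- the directional derivatives of `ck` -/
noncomputable def e1 (δ : ℝ) (w : ℂ) : ℂ := bk δ w + pk δ w
noncomputable def e2 (δ : ℝ) (w : ℂ) : ℂ := Complex.I * (bk δ w - pk δ w)
noncomputable def ee (δ : ℝ) (w : ℂ) : ℂ :=
  (Real.pi : ℂ)⁻¹ * (2 * Complex.I * (((starRingEnd ℂ) w) ^ 3 + δ ^ 2 * w) /
    (w * (starRingEnd ℂ) w + δ ^ 2) ^ 3)

lemma nn (δ : ℝ) (w : ℂ) : ((‖w‖ ^ 2 + δ ^ 2 : ℝ) : ℂ) = w * (starRingEnd ℂ) w + δ ^ 2 := by
  push_cast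
  rw [Complex.mul_conj']

lemma nn0 (δ : ℝ) (hδ : 0 < δ) (w : ℂ) : w * (starRingEnd ℂ) w + (δ : ℂ) ^ 2 ≠ 0 := by
  rw [← nn]
  have : (0:ℝ) < ‖w‖ ^ 2 + δ ^ 2 := by positivity
  exact_mod_cast this.ne'

lemma ck_eq (δ : ℝ) (w : ℂ) :
    ck δ w = (Real.pi : ℂ)⁻¹ * ((starRingEnd ℂ) w / (w * (starRingEnd ℂ) w + δ ^ 2)) := by
  unfold ck
  rw [nn]

lemma bk_eq (δ : ℝ) (w : ℂ) :
    bk δ w = -((Real.pi : ℂ)⁻¹ * (((starRingEnd ℂ) w) ^ 2 /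
      (w * (starRingEnd ℂ) w + δ ^ 2) ^ 2)) := by
  unfold bk
  rw [← nn]
  push_cast
  rfl

lemma pk_eq (δ : ℝ) (w : ℂ) :
    pk δ w = (Real.pi : ℂ)⁻¹ * (δ ^ 2 / (w * (starRingEnd ℂ) w + δ ^ 2) ^ 2) := by
  unfold pk
  rw [← nn]
  push_cast
  rfl

lemma e1_eq (δ : ℝ) (w : ℂ) :
    e1 δ w = (Real.pi : ℂ)⁻¹ * ((δ ^ 2 - ((starRingEnd ℂ) w) ^ 2) /
      (w * (starRingEnd ℂ) w + δ ^ 2) ^ 2) := by
  unfold e1
  rw [bk_eq, pk_eq]
  ring

lemma e2_eq (δ : ℝ) (w : ℂ) :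
    e2 δ w = (Real.pi : ℂ)⁻¹ * ((-Complex.I * (((starRingEnd ℂ) w) ^ 2 + δ ^ 2)) /
      (w * (starRingEnd ℂ) w + δ ^ 2) ^ 2) := by
  unfold e2
  rw [bk_eq, pk_eq]
  ring

lemma hz (w v : ℂ) : HasDerivAt (fun t : ℝ => w + t • v) v 0 := by
  have h := ((hasDerivAt_id (0:ℝ)).smul_const v).const_add w
  simpa using h

lemma hzc (w v : ℂ) : HasDerivAt (fun t : ℝ => (starRingEnd ℂ) (w + t • v))
    ((starRingEnd ℂ) v) 0 := by
  have h := ((hasDerivAt_id (0:ℝ)).smul_const ((starRingEnd ℂ) v)).const_add ((starRingEnd ℂ) w)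
  simpa using h

lemma ck_1 (δ : ℝ) (hδ : 0 < δ) (w : ℂ) : HasLineDerivAt ℝ (ck δ) (e1 δ w) w 1 := by
  unfold HasLineDerivAt
  have h0 := nn0 δ hδ w
  have h := ((hzc w 1).div (((hz w 1).mul (hzc w 1)).add_const ((δ:ℂ) ^ 2))
    (by simpa using h0)).const_mul ((Real.pi : ℂ)⁻¹)
  have h2 : (fun t : ℝ => ck δ (w + t • 1)) = fun t : ℝ => (Real.pi : ℂ)⁻¹ *
      ((starRingEnd ℂ) (w + t • 1) / ((w + t • 1) * (starRingEnd ℂ) (w + t • 1) + δ ^ 2)) := by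
    funext t; rw [ck_eq]
  rw [h2]
  convert! h using 1
  rw [e1_eq]
  simp only [zero_smul, add_zero, map_one, one_mul]
  simp only [Pi.mul_apply, zero_smul, add_zero, map_one, one_mul, mul_one]
  congr 1
  congr 1
  ring

lemma ck_I (δ : ℝ) (hδ : 0 < δ) (w : ℂ) : HasLineDerivAt ℝ (ck δ) (e2 δ w) w Complex.I := by
  unfold HasLineDerivAt
  have h0 := nn0 δ hδ w
  have h := ((hzc w Complex.I).div (((hz w Complex.I).mul (hzc w Complex.I)).add_const ((δ:ℂ) ^ 2))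
    (by simpa using h0)).const_mul ((Real.pi : ℂ)⁻¹)
  have h2 : (fun t : ℝ => ck δ (w + t • Complex.I)) = fun t : ℝ => (Real.pi : ℂ)⁻¹ *
      ((starRingEnd ℂ) (w + t • Complex.I) /
        ((w + t • Complex.I) * (starRingEnd ℂ) (w + t • Complex.I) + δ ^ 2)) := by
    funext t; rw [ck_eq]
  rw [h2]
  convert! h using 1
  rw [e2_eq]
  simp only [Pi.mul_apply, zero_smul, add_zero, Complex.conj_I]
  congr 1
  congr 1
  ring

lemma e2_1 (δ : ℝ) (hδ : 0 < δ) (w : ℂ) : HasLineDerivAt ℝ (e2 δ) (ee δ w) w 1 := by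
  unfold HasLineDerivAt
  have h0 := nn0 δ hδ w
  have h := (((((hzc w 1).pow 2).add_const ((δ:ℂ) ^ 2)).const_mul (-Complex.I)).div
    ((((hz w 1).mul (hzc w 1)).add_const ((δ:ℂ) ^ 2)).pow 2)
    (by simpa using h0)).const_mul ((Real.pi : ℂ)⁻¹)
  have h2 : (fun t : ℝ => e2 δ (w + t • 1)) = fun t : ℝ => (Real.pi : ℂ)⁻¹ *
      ((-Complex.I * (((starRingEnd ℂ) (w + t • 1)) ^ 2 + δ ^ 2)) /
      ((w + t • 1) * (starRingEnd ℂ) (w + t • 1) + δ ^ 2) ^ 2) := by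
    funext t; rw [e2_eq]
  rw [h2]
  convert! h using 1
  unfold ee
  simp only [Pi.mul_apply, Pi.pow_apply, zero_smul, add_zero, map_one, one_mul, mul_one]
  congr 1
  rw [div_eq_div_iff (pow_ne_zero _ h0) (pow_ne_zero _ (pow_ne_zero _ h0))]
  push_cast
  ring

lemma e1_I (δ : ℝ) (hδ : 0 < δ) (w : ℂ) : HasLineDerivAt ℝ (e1 δ) (ee δ w) w Complex.I := by
  unfold HasLineDerivAt
  have h0 := nn0 δ hδ w
  have h := (((((hzc w Complex.I).pow 2).const_sub ((δ:ℂ) ^ 2))).div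
    ((((hz w Complex.I).mul (hzc w Complex.I)).add_const ((δ:ℂ) ^ 2)).pow 2)
    (by simpa using h0)).const_mul ((Real.pi : ℂ)⁻¹)
  have h2 : (fun t : ℝ => e1 δ (w + t • Complex.I)) = fun t : ℝ => (Real.pi : ℂ)⁻¹ *
      ((δ ^ 2 - ((starRingEnd ℂ) (w + t • Complex.I)) ^ 2) /
      ((w + t • Complex.I) * (starRingEnd ℂ) (w + t • Complex.I) + δ ^ 2) ^ 2) := by
    funext t; rw [e1_eq]
  rw [h2]
  convert! h using 1
  unfold ee
  simp only [Pi.mul_apply, Pi.pow_apply, zero_smul, add_zero, Complex.conj_I]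
  congr 1
  rw [div_eq_div_iff (pow_ne_zero _ h0) (pow_ne_zero _ (pow_ne_zero _ h0))]
  push_cast
  ring

lemma bdN (δ : ℝ) (hδ : 0 < δ) (w : ℂ) :
    (‖w‖ ^ 2 + δ ^ 2)⁻¹ ≤ (2 * (1 + (δ ^ 2)⁻¹)) * ((1 + ‖w‖) ^ 2)⁻¹ := by
  have h1 : (1 + ‖w‖) ^ 2 ≤ (2 * (1 + (δ ^ 2)⁻¹)) * (‖w‖ ^ 2 + δ ^ 2) := by
    have h2 : (δ ^ 2)⁻¹ * δ ^ 2 = 1 := by field_simp
    have h3 : 0 ≤ (δ ^ 2)⁻¹ * ‖w‖ ^ 2 := by positivity
    nlinarith [sq_nonneg (1 - ‖w‖), sq_nonneg δ]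
  rw [inv_le_iff_one_le_mul₀ (by positivity)]
  have h3 : (0:ℝ) < (1 + ‖w‖) ^ 2 := by positivity
  calc (1:ℝ) = ((1 + ‖w‖) ^ 2)⁻¹ * (1 + ‖w‖) ^ 2 := by field_simp
    _ ≤ ((1 + ‖w‖) ^ 2)⁻¹ * ((2 * (1 + (δ ^ 2)⁻¹)) * (‖w‖ ^ 2 + δ ^ 2)) :=
        mul_le_mul_of_nonneg_left h1 (by positivity)
    _ = _ := by ring

lemma normN (δ : ℝ) (w : ℂ) : ‖w * (starRingEnd ℂ) w + (δ:ℂ) ^ 2‖ = ‖w‖ ^ 2 + δ ^ 2 := by
  rw [← nn, Complex.norm_real, Real.norm_of_nonneg (by positivity)]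

lemma cN (δ : ℝ) : Continuous fun w : ℂ => w * (starRingEnd ℂ) w + (δ:ℂ) ^ 2 :=
  (continuous_id.mul Complex.continuous_conj).add continuous_const

lemma dec_ck (δ : ℝ) (hδ : 0 < δ) : Dec 1 (ck δ) := by
  have hp := Real.pi_pos
  refine ⟨?_, Real.pi⁻¹ * (2 * (1 + (δ ^ 2)⁻¹)), by positivity, fun x => ?_⟩
  · rw [show ck δ = fun w => (Real.pi : ℂ)⁻¹ * ((starRingEnd ℂ) w /
      (w * (starRingEnd ℂ) w + δ ^ 2)) from funext (ck_eq δ)]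
    exact continuous_const.mul (Complex.continuous_conj.div (cN δ) (nn0 δ hδ))
  · rw [ck_eq, norm_mul, norm_div, normN, norm_inv, Complex.norm_real,
      Real.norm_of_nonneg hp.le, Complex.norm_conj, mul_assoc]
    refine mul_le_mul_of_nonneg_left ?_ (by positivity)
    rw [div_eq_mul_inv]
    calc ‖x‖ * (‖x‖ ^ 2 + δ ^ 2)⁻¹ ≤
        (1 + ‖x‖) * ((2 * (1 + (δ ^ 2)⁻¹)) * ((1 + ‖x‖) ^ 2)⁻¹) :=
          mul_le_mul (by linarith) (bdN δ hδ x) (by positivity) (by positivity)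
      _ = _ := by field_simp

lemma dec_bk (δ : ℝ) (hδ : 0 < δ) : Dec 2 (bk δ) := by
  have hp := Real.pi_pos
  refine ⟨?_, Real.pi⁻¹ * (2 * (1 + (δ ^ 2)⁻¹)), by positivity, fun x => ?_⟩
  · rw [show bk δ = _ from funext (bk_eq δ)]
    exact (continuous_const.mul ((Complex.continuous_conj.pow 2).div ((cN δ).pow 2)
      (fun x => pow_ne_zero 2 (nn0 δ hδ x)))).neg
  · rw [bk_eq, norm_neg, norm_mul, norm_div, norm_pow, norm_pow, normN, norm_inv,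
      Complex.norm_real, Real.norm_of_nonneg hp.le, Complex.norm_conj, mul_assoc]
    refine mul_le_mul_of_nonneg_left ?_ (by positivity)
    refine le_trans ?_ (bdN δ hδ x)
    have h0 : 0 < ‖x‖ ^ 2 + δ ^ 2 := by positivity
    rw [div_le_iff₀ (by positivity)]
    calc ‖x‖ ^ 2 ≤ ‖x‖ ^ 2 + δ ^ 2 := by nlinarith [sq_nonneg δ]
      _ = _ := by field_simp

lemma dec_pk (δ : ℝ) (hδ : 0 < δ) : Dec 2 (pk δ) := by
  have hp := Real.pi_pos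
  refine ⟨?_, Real.pi⁻¹ * (2 * (1 + (δ ^ 2)⁻¹)), by positivity, fun x => ?_⟩
  · rw [show pk δ = _ from funext (pk_eq δ)]
    exact (continuous_const.mul (continuous_const.div ((cN δ).pow 2)
      (fun x => pow_ne_zero 2 (nn0 δ hδ x))))
  · rw [pk_eq, norm_mul, norm_div, norm_pow, norm_pow, normN, norm_inv,
      Complex.norm_real, Real.norm_of_nonneg hp.le, Complex.norm_real,
      Real.norm_of_nonneg hδ.le, mul_assoc]
    refine mul_le_mul_of_nonneg_left ?_ (by positivity)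
    refine le_trans ?_ (bdN δ hδ x)
    have h0 : 0 < ‖x‖ ^ 2 + δ ^ 2 := by positivity
    rw [div_le_iff₀ (by positivity)]
    calc δ ^ 2 ≤ ‖x‖ ^ 2 + δ ^ 2 := by nlinarith [sq_nonneg ‖x‖]
      _ = _ := by field_simp

lemma Dec.add {n : ℕ} {f g : ℂ → ℂ} (hf : Dec n f) (hg : Dec n g) :
    Dec n (fun x => f x + g x) := by
  obtain ⟨cf, Cf, hCf, hf⟩ := hf
  obtain ⟨cg, Cg, hCg, hg⟩ := hg
  refine ⟨cf.add cg, Cf + Cg, by positivity, fun x => (norm_add_le _ _).trans ?_⟩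
  rw [add_mul]
  exact add_le_add (hf x) (hg x)

lemma Dec.cmul {n : ℕ} {f : ℂ → ℂ} (hf : Dec n f) (c : ℂ) :
    Dec n (fun x => c * f x) := by
  obtain ⟨cf, Cf, hCf, hf⟩ := hf
  refine ⟨continuous_const.mul cf, ‖c‖ * Cf, by positivity, fun x => ?_⟩
  rw [norm_mul, mul_assoc]
  exact mul_le_mul_of_nonneg_left (hf x) (norm_nonneg c)

lemma dec_e1 (δ : ℝ) (hδ : 0 < δ) : Dec 2 (e1 δ) := (dec_bk δ hδ).add (dec_pk δ hδ)

lemma dec_e2 (δ : ℝ) (hδ : 0 < δ) : Dec 2 (e2 δ) := by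
  have h := ((dec_bk δ hδ).add ((dec_pk δ hδ).cmul (-1))).cmul Complex.I
  convert! h using 1
  funext x
  unfold e2
  ring

lemma dec_ee (δ : ℝ) (hδ : 0 < δ) : Dec 3 (ee δ) := by
  have hp := Real.pi_pos
  refine ⟨?_, Real.pi⁻¹ * (2 * (2 * (1 + (δ ^ 2)⁻¹)) ^ 2), by positivity, fun x => ?_⟩
  · unfold ee
    exact continuous_const.mul ((continuous_const.mul ((Complex.continuous_conj.pow 3).add
      (continuous_const.mul continuous_id))).div ((cN δ).pow 3)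
      (fun x => pow_ne_zero 3 (nn0 δ hδ x)))
  · unfold ee
    rw [norm_mul, norm_div, norm_pow, normN, norm_inv,
      Complex.norm_real, Real.norm_of_nonneg hp.le, mul_assoc (Real.pi⁻¹)]
    refine mul_le_mul_of_nonneg_left ?_ (by positivity)
    have h0 : 0 < ‖x‖ ^ 2 + δ ^ 2 := by positivity
    have h1 : ‖2 * Complex.I * (((starRingEnd ℂ) x) ^ 3 + (δ:ℂ) ^ 2 * x)‖ ≤
        2 * (‖x‖ * (‖x‖ ^ 2 + δ ^ 2)) := by
      rw [norm_mul, norm_mul, Complex.norm_I, mul_one]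
      have : ‖(2:ℂ)‖ = 2 := by simp
      rw [this]
      refine mul_le_mul_of_nonneg_left ?_ (by norm_num)
      refine (norm_add_le _ _).trans (le_of_eq ?_)
      rw [norm_mul, norm_pow, norm_pow, Complex.norm_conj, Complex.norm_real,
        Real.norm_of_nonneg hδ.le]
      ring
    have hb := bdN δ hδ x
    calc ‖2 * Complex.I * (((starRingEnd ℂ) x) ^ 3 + (δ:ℂ) ^ 2 * x)‖ / (‖x‖ ^ 2 + δ ^ 2) ^ 3
        ≤ 2 * (‖x‖ * (‖x‖ ^ 2 + δ ^ 2)) / (‖x‖ ^ 2 + δ ^ 2) ^ 3 := by gcongr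
      _ = 2 * ‖x‖ * ((‖x‖ ^ 2 + δ ^ 2)⁻¹) ^ 2 := by field_simp
      _ ≤ 2 * (1 + ‖x‖) * ((2 * (1 + (δ ^ 2)⁻¹)) * ((1 + ‖x‖) ^ 2)⁻¹) ^ 2 := by
          have h5 : ((‖x‖ ^ 2 + δ ^ 2)⁻¹) ^ 2 ≤
            ((2 * (1 + (δ ^ 2)⁻¹)) * ((1 + ‖x‖) ^ 2)⁻¹) ^ 2 :=
            pow_le_pow_left₀ (by positivity) hb 2
          exact mul_le_mul (by linarith) h5 (by positivity) (by positivity)
      _ = _ := by field_simp

lemma line_shift {f f' : ℂ → ℂ} {v : ℂ} (a : ℂ) (h : ∀ w, HasLineDerivAt ℝ f (f' w) w v)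
    (x : ℂ) : HasLineDerivAt ℝ (fun x => f (x - a)) (f' (x - a)) x v := by
  have := h (x - a)
  unfold HasLineDerivAt at this ⊢
  convert! this using 1
  funext t
  congr 1
  ring

lemma line_conj {f f' : ℂ → ℂ} {v : ℂ} (h : ∀ w, HasLineDerivAt ℝ f (f' w) w v)
    (x : ℂ) : HasLineDerivAt ℝ (fun x => (starRingEnd ℂ) (f x)) ((starRingEnd ℂ) (f' x)) x v := by
  have := h x
  unfold HasLineDerivAt at this ⊢
  exact (Complex.conjCLE.toContinuousLinearMap.hasFDerivAt.comp_hasDerivAt (0:ℝ) this)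

lemma ibp {f f' g g' : ℂ → ℂ} {v : ℂ} (hf : ∀ x, HasLineDerivAt ℝ f (f' x) x v)
    (hg : ∀ x, HasLineDerivAt ℝ g (g' x) x v)
    (h1 : Integrable (fun x => f' x * g x)) (h2 : Integrable (fun x => f x * g' x))
    (h3 : Integrable (fun x => f x * g x)) :
    ∫ x, f x * g' x = - ∫ x, f' x * g x :=
  integral_bilinear_hasLineDerivAt_right_eq_neg_left_of_integrable
    (B := ContinuousLinearMap.mul ℝ ℂ) h1 h2 h3 (fun x _ => hf x) (fun x _ => hg x)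

/-- kernel identity behind the `L²` isometry of the Beurling transform -/
theorem main (δ : ℝ) (hδ : 0 < δ) (a b : ℂ) :
    ∫ x : ℂ, bk δ (x - a) * (starRingEnd ℂ) (bk δ (x - b)) =
      ∫ x : ℂ, pk δ (x - a) * (starRingEnd ℂ) (pk δ (x - b)) := by
  have du := (dec_ck δ hδ).shift a
  have du1 := (dec_e1 δ hδ).shift a
  have du2 := (dec_e2 δ hδ).shift a
  have dv1 := ((dec_e1 δ hδ).shift b).conj
  have dv2 := ((dec_e2 δ hδ).shift b).conj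
  have dw := ((dec_ee δ hδ).shift b).conj
  have lu1 := line_shift a (ck_1 δ hδ)
  have lu2 := line_shift a (ck_I δ hδ)
  have lv1 := line_conj (line_shift b (e1_I δ hδ))
  have lv2 := line_conj (line_shift b (e2_1 δ hδ))
  have I1 := ibp lv2 lu1 (dw.mul du).int4 (dv2.mul du1).int4 (dv2.mul du).int3
  have I2 := ibp lv1 lu2 (dw.mul du).int4 (dv1.mul du2).int4 (dv1.mul du).int3
  have I3 := I1.trans I2.symm
  have hp : Integrable (fun x : ℂ => pk δ (x - a) * (starRingEnd ℂ) (pk δ (x - b))) :=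
    (((dec_pk δ hδ).shift a).mul (((dec_pk δ hδ).shift b).conj)).int4
  have h12 := (dv2.mul du1).int4
  have h21 := (dv1.mul du2).int4
  have key : ∀ x : ℂ, bk δ (x - a) * (starRingEnd ℂ) (bk δ (x - b)) =
      pk δ (x - a) * (starRingEnd ℂ) (pk δ (x - b)) + (Complex.I / 2) *
        ((starRingEnd ℂ) (e2 δ (x - b)) * e1 δ (x - a) -
          (starRingEnd ℂ) (e1 δ (x - b)) * e2 δ (x - a)) := by
    intro x
    unfold e1 e2
    simp only [map_add, map_mul, map_sub, Complex.conj_I]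
    ring_nf
    rw [Complex.I_sq]
    ring
  simp_rw [key]
  have h3 : Integrable (fun x : ℂ => (Complex.I / 2) *
        ((starRingEnd ℂ) (e2 δ (x - b)) * e1 δ (x - a) -
          (starRingEnd ℂ) (e1 δ (x - b)) * e2 δ (x - a))) := (h12.sub h21).const_mul _
  rw [integral_add hp h3, integral_const_mul,
    integral_sub h12 h21, I3, sub_self, mul_zero, add_zero]

end Pool.Agent.Split938.J1a
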