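import Pool.Agent.Split938.Defs

set_option autoImplicit false
open MeasureTheory Metric Set Filter Topology

namespace Pool.Agent.Split938.J1b

/-- kernels of the class considered here -/
structure KB (k : ℂ → ℂ) : Prop where
  cont : Continuous k
  bd : ∃ M : ℝ, 0 ≤ M ∧ ∀ w, ‖k w‖ ≤ M * (1 + ‖w‖ ^ 2)⁻¹

theorem int_base : Integrable (fun w : ℂ => ((1 + ‖w‖ ^ 2)⁻¹) ^ 2) := by
  have h := integrable_rpow_neg_one_add_norm_sq (E := ℂ) (μ := volume) (r := 4)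
    (by rw [Complex.finrank_real_complex]; norm_num)
  refine h.congr (Eventually.of_forall fun w => ?_)
  have h0 : (0 : ℝ) < 1 + ‖w‖ ^ 2 := by positivity
  show (1 + ‖w‖ ^ 2) ^ (-(4 : ℝ) / 2) = ((1 + ‖w‖ ^ 2)⁻¹) ^ 2
  rw [show (-(4 : ℝ) / 2) = -(2 : ℝ) by norm_num, Real.rpow_neg h0.le, Real.rpow_two, inv_pow]

theorem KB.sq_int {k : ℂ → ℂ} (h : KB k) : Integrable (fun w => ‖k w‖ ^ 2) := by
  obtain ⟨M, hM, hb⟩ := h.bd
  refine (int_base.const_mul (M ^ 2)).mono' (h.cont.norm.pow 2).aestronglyMeasurable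
    (Eventually.of_forall fun w => ?_)
  rw [Real.norm_of_nonneg (by positivity), ← mul_pow]
  exact pow_le_pow_left₀ (norm_nonneg _) (hb w) 2

theorem KB.bound {k : ℂ → ℂ} (h : KB k) : ∃ M : ℝ, 0 ≤ M ∧ ∀ w, ‖k w‖ ≤ M := by
  obtain ⟨M, hM, hb⟩ := h.bd
  refine ⟨M, hM, fun w => (hb w).trans ?_⟩
  apply mul_le_of_le_one_right hM
  apply inv_le_one_of_one_le₀
  have := sq_nonneg ‖w‖
  linarith

theorem KB.mul_le {k : ℂ → ℂ} (a b x : ℂ) : ‖k (x - a) * (starRingEnd ℂ) (k (x - b))‖ ≤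
    (‖k (x - a)‖ ^ 2 + ‖k (x - b)‖ ^ 2) / 2 := by
  rw [norm_mul, RCLike.norm_conj]
  nlinarith [sq_nonneg (‖k (x - a)‖ - ‖k (x - b)‖)]

theorem KB.sum_int {k : ℂ → ℂ} (h : KB k) (a b : ℂ) :
    Integrable (fun x => (‖k (x - a)‖ ^ 2 + ‖k (x - b)‖ ^ 2) / 2) :=
  ((h.sq_int.comp_sub_right a).add (h.sq_int.comp_sub_right b)).div_const 2

theorem KB.mul_int {k : ℂ → ℂ} (h : KB k) (a b : ℂ) :
    Integrable (fun x => k (x - a) * (starRingEnd ℂ) (k (x - b))) := by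
  refine (h.sum_int a b).mono' ?_ (Eventually.of_forall fun x => KB.mul_le a b x)
  have h1 : Continuous fun x => k (x - a) := h.cont.comp (continuous_id.sub continuous_const)
  have h2 : Continuous fun x => k (x - b) := h.cont.comp (continuous_id.sub continuous_const)
  exact (h1.mul (Complex.continuous_conj.comp h2)).aestronglyMeasurable

theorem KB.mul_bound {k : ℂ → ℂ} (h : KB k) (a b : ℂ) :
    ∫ x, ‖k (x - a) * (starRingEnd ℂ) (k (x - b))‖ ≤ ∫ w, ‖k w‖ ^ 2 := by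
  refine (integral_mono (h.mul_int a b).norm (h.sum_int a b)
    (fun x => KB.mul_le a b x)).trans (le_of_eq ?_)
  rw [integral_div, integral_add (h.sq_int.comp_sub_right a) (h.sq_int.comp_sub_right b),
    integral_sub_right_eq_self (fun x => ‖k x‖ ^ 2) a,
    integral_sub_right_eq_self (fun x => ‖k x‖ ^ 2) b]
  ring

/-- the operator with kernel `k` -/
noncomputable def TK (k : ℂ → ℂ) (E : ℂ → ℂ) (z : ℂ) : ℂ := ∫ ζ : ℂ, k (z - ζ) * E ζ

/-- the function on the triple product -/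
noncomputable def GK (k : ℂ → ℂ) (E : ℂ → ℂ) (q : ℂ × (ℂ × ℂ)) : ℂ :=
  (k (q.1 - q.2.1) * E q.2.1) * (starRingEnd ℂ) (k (q.1 - q.2.2) * E q.2.2)

theorem GK_meas {k : ℂ → ℂ} (h : KB k) {E : ℂ → ℂ} (hE : Integrable E) :
    AEStronglyMeasurable (GK k E)
      ((volume : Measure ℂ).prod ((volume : Measure ℂ).prod (volume : Measure ℂ))) := by
  have e1 : AEStronglyMeasurable (fun q : ℂ × (ℂ × ℂ) => E q.2.1)
      ((volume : Measure ℂ).prod ((volume : Measure ℂ).prod (volume : Measure ℂ))) :=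
    (hE.1.comp_fst (ν := (volume : Measure ℂ))).comp_snd
  have e2 : AEStronglyMeasurable (fun q : ℂ × (ℂ × ℂ) => E q.2.2)
      ((volume : Measure ℂ).prod ((volume : Measure ℂ).prod (volume : Measure ℂ))) :=
    (hE.1.comp_snd (μ := (volume : Measure ℂ))).comp_snd
  have c1 : Continuous (fun q : ℂ × (ℂ × ℂ) => k (q.1 - q.2.1)) := h.cont.comp (by fun_prop)
  have c2 : Continuous (fun q : ℂ × (ℂ × ℂ) => k (q.1 - q.2.2)) := h.cont.comp (by fun_prop)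
  exact (c1.aestronglyMeasurable.mul e1).mul
    (Complex.continuous_conj.comp_aestronglyMeasurable (c2.aestronglyMeasurable.mul e2))

theorem GK_eq (k : ℂ → ℂ) (E : ℂ → ℂ) (x : ℂ) (y : ℂ × ℂ) :
    GK k E (x, y) = (E y.1 * (starRingEnd ℂ) (E y.2)) *
      (k (x - y.1) * (starRingEnd ℂ) (k (x - y.2))) := by
  unfold GK
  rw [map_mul]
  ring

theorem GK_int {k : ℂ → ℂ} (h : KB k) {E : ℂ → ℂ} (hE : Integrable E) :
    Integrable (GK k E)
      ((volume : Measure ℂ).prod ((volume : Measure ℂ).prod (volume : Measure ℂ))) := by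
  have hm := GK_meas h hE
  refine (integrable_prod_iff' hm).2 ⟨Eventually.of_forall fun y => ?_, ?_⟩
  · simp only [GK_eq]
    exact (h.mul_int y.1 y.2).const_mul _
  · have h1 : Integrable (fun y : ℂ × ℂ => ‖E y.1‖ * ‖E y.2‖ * ∫ w, ‖k w‖ ^ 2)
        ((volume : Measure ℂ).prod (volume : Measure ℂ)) :=
      (hE.norm.mul_prod hE.norm).mul_const _
    refine h1.mono' ?_ (Eventually.of_forall fun y => ?_)
    · exact (hm.norm.prod_swap).integral_prod_right'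
    · rw [Real.norm_of_nonneg (integral_nonneg fun _ => norm_nonneg _)]
      have h2 : ∀ x, ‖GK k E (x, y)‖ = (‖E y.1‖ * ‖E y.2‖) *
          ‖k (x - y.1) * (starRingEnd ℂ) (k (x - y.2))‖ := by
        intro x
        rw [GK_eq, norm_mul, norm_mul, RCLike.norm_conj]
      simp only [h2]
      rw [integral_const_mul]
      exact mul_le_mul_of_nonneg_left (h.mul_bound y.1 y.2) (by positivity)

theorem GK_inner (k : ℂ → ℂ) (E : ℂ → ℂ) (x : ℂ) :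
    ∫ y, GK k E (x, y) ∂((volume : Measure ℂ).prod (volume : Measure ℂ)) =
      ((‖TK k E x‖ ^ 2 : ℝ) : ℂ) := by
  unfold GK
  simp only
  rw [integral_prod_mul (fun a => k (x - a) * E a)
    (fun b => (starRingEnd ℂ) (k (x - b) * E b)), integral_conj]
  show TK k E x * (starRingEnd ℂ) (TK k E x) = _
  rw [Complex.mul_conj, Complex.normSq_eq_norm_sq]

theorem TK_meas {k : ℂ → ℂ} (h : KB k) {E : ℂ → ℂ} (hE : Integrable E) :
    AEStronglyMeasurable (TK k E) volume := by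
  have c1 : Continuous (fun q : ℂ × ℂ => k (q.1 - q.2)) := h.cont.comp (by fun_prop)
  have h1 : AEStronglyMeasurable (fun q : ℂ × ℂ => k (q.1 - q.2) * E q.2)
      ((volume : Measure ℂ).prod (volume : Measure ℂ)) :=
    c1.aestronglyMeasurable.mul hE.1.comp_snd
  exact h1.integral_prod_right'

theorem TK_sq_int {k : ℂ → ℂ} (h : KB k) {E : ℂ → ℂ} (hE : Integrable E) :
    Integrable (fun x => ‖TK k E x‖ ^ 2) := by
  have h1 := (GK_int h hE).integral_prod_left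
  simp only [GK_inner] at h1
  have h2 := h1.norm
  refine h2.congr (Eventually.of_forall fun x => ?_)
  show ‖((‖TK k E x‖ ^ 2 : ℝ) : ℂ)‖ = _
  rw [Complex.norm_real, Real.norm_of_nonneg (by positivity)]

theorem TK_identity {k : ℂ → ℂ} (h : KB k) {E : ℂ → ℂ} (hE : Integrable E) :
    ((∫ x, ‖TK k E x‖ ^ 2 : ℝ) : ℂ) = ∫ y : ℂ × ℂ, (E y.1 * (starRingEnd ℂ) (E y.2)) *
      (∫ x, k (x - y.1) * (starRingEnd ℂ) (k (x - y.2)))
        ∂((volume : Measure ℂ).prod (volume : Measure ℂ)) := by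
  rw [← integral_complex_ofReal]
  simp only [← GK_inner]
  rw [integral_integral_swap (f := fun x y => GK k E (x, y)) (GK_int h hE)]
  refine integral_congr_ae (Eventually.of_forall fun y => ?_)
  simp only [GK_eq]
  rw [integral_const_mul]

theorem den_bound {δ : ℝ} (hδ : 0 < δ) : ∃ M : ℝ, 0 ≤ M ∧ ∀ w : ℂ,
    Real.pi⁻¹ * (‖w‖ ^ 2 + δ ^ 2)⁻¹ ≤ M * (1 + ‖w‖ ^ 2)⁻¹ := by
  refine ⟨Real.pi⁻¹ * (1 + (δ ^ 2)⁻¹), by positivity, fun w => ?_⟩
  rw [mul_assoc]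
  apply mul_le_mul_of_nonneg_left _ (by positivity)
  have h1 : 0 < ‖w‖ ^ 2 + δ ^ 2 := by positivity
  have h2 : 0 < 1 + ‖w‖ ^ 2 := by positivity
  rw [← div_eq_mul_inv, inv_eq_one_div, div_le_div_iff₀ h1 h2, one_mul]
  have h3 : (δ ^ 2)⁻¹ * δ ^ 2 = 1 := inv_mul_cancel₀ (by positivity)
  have h4 : 0 ≤ (δ ^ 2)⁻¹ * ‖w‖ ^ 2 := by positivity
  nlinarith [sq_nonneg δ]

theorem bk_KB {δ : ℝ} (hδ : 0 < δ) : KB (bk δ) := by
  have hden : ∀ w : ℂ, (((‖w‖ ^ 2 + δ ^ 2) ^ 2 : ℝ) : ℂ) ≠ 0 := fun w => by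
    have : (0 : ℝ) < (‖w‖ ^ 2 + δ ^ 2) ^ 2 := by positivity
    exact_mod_cast this.ne'
  constructor
  · unfold bk
    refine (continuous_const.mul (Continuous.div ?_ ?_ hden)).neg
    · exact (Complex.continuous_conj).pow 2
    · exact Complex.continuous_ofReal.comp (by fun_prop)
  · obtain ⟨M, hM, hb⟩ := den_bound hδ
    refine ⟨M, hM, fun w => (le_trans ?_ (hb w))⟩
    unfold bk
    rw [norm_neg, norm_mul, norm_inv, norm_div, norm_pow, RCLike.norm_conj, Complex.norm_real,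
      Complex.norm_real, Real.norm_of_nonneg Real.pi_pos.le,
      Real.norm_of_nonneg (by positivity : (0 : ℝ) ≤ (‖w‖ ^ 2 + δ ^ 2) ^ 2)]
    apply mul_le_mul_of_nonneg_left _ (by positivity)
    have h1 : 0 < ‖w‖ ^ 2 + δ ^ 2 := by positivity
    rw [inv_eq_one_div, div_le_div_iff₀ (by positivity) h1]
    nlinarith [sq_nonneg δ, sq_nonneg ‖w‖]

theorem pk_norm (δ : ℝ) (w : ℂ) :
    ‖pk δ w‖ = Real.pi⁻¹ * (δ ^ 2 / (‖w‖ ^ 2 + δ ^ 2) ^ 2) := by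
  unfold pk
  rw [Complex.norm_real, Real.norm_of_nonneg (by positivity)]

theorem pk_KB {δ : ℝ} (hδ : 0 < δ) : KB (pk δ) := by
  constructor
  · unfold pk
    refine Complex.continuous_ofReal.comp (continuous_const.mul (Continuous.div (by fun_prop)
      (by fun_prop) fun w => ?_))
    have : (0 : ℝ) < (‖w‖ ^ 2 + δ ^ 2) ^ 2 := by positivity
    exact this.ne'
  · obtain ⟨M, hM, hb⟩ := den_bound hδ
    refine ⟨M, hM, fun w => (le_trans ?_ (hb w))⟩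
    rw [pk_norm]
    apply mul_le_mul_of_nonneg_left _ (by positivity)
    have h1 : 0 < ‖w‖ ^ 2 + δ ^ 2 := by positivity
    rw [inv_eq_one_div, div_le_div_iff₀ (by positivity) h1]
    nlinarith [sq_nonneg δ, sq_nonneg ‖w‖]

/-- real kernel -/
noncomputable def pr (δ : ℝ) (w : ℂ) : ℝ := Real.pi⁻¹ * (δ ^ 2 / (‖w‖ ^ 2 + δ ^ 2) ^ 2)

theorem pr_one_int : Integrable (pr 1) := by
  refine (int_base.const_mul Real.pi⁻¹).congr (Eventually.of_forall fun w => ?_)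
  unfold pr
  simp only [one_pow]
  rw [add_comm, inv_pow, one_div]

theorem pr_scale {δ : ℝ} (hδ : 0 < δ) (w : ℂ) : pr δ w = (δ ^ 2)⁻¹ * pr 1 (δ⁻¹ • w) := by
  unfold pr
  rw [norm_smul, Real.norm_of_nonneg (by positivity : (0 : ℝ) ≤ δ⁻¹)]
  have h1 : (δ⁻¹ * ‖w‖) ^ 2 + 1 ^ 2 = (δ ^ 2)⁻¹ * (‖w‖ ^ 2 + δ ^ 2) := by
    field_simp
  rw [h1]
  have h2 : 0 < ‖w‖ ^ 2 + δ ^ 2 := by positivity
  field_simp
  try norm_num

theorem pr_int {δ : ℝ} (hδ : 0 < δ) : Integrable (pr δ) := by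
  have h1 : Integrable (fun w : ℂ => pr 1 (δ⁻¹ • w)) :=
    pr_one_int.comp_smul (inv_ne_zero hδ.ne')
  refine (h1.const_mul (δ ^ 2)⁻¹).congr (Eventually.of_forall fun w => ?_)
  exact (pr_scale hδ w).symm

theorem pr_integral {δ : ℝ} (hδ : 0 < δ) : ∫ w, pr δ w = ∫ w, pr 1 w := by
  have h1 : ∫ w, pr δ w = ∫ w, (δ ^ 2)⁻¹ * pr 1 (δ⁻¹ • w) :=
    integral_congr_ae (Eventually.of_forall fun w => pr_scale hδ w)
  rw [h1, integral_const_mul, Measure.integral_comp_smul, Complex.finrank_real_complex,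
    smul_eq_mul, abs_of_pos (by positivity)]
  field_simp

theorem pr_nonneg (δ : ℝ) (w : ℂ) : 0 ≤ pr δ w := by unfold pr; positivity

theorem pr_cont {δ : ℝ} (hδ : 0 < δ) : Continuous (pr δ) := by
  unfold pr
  refine continuous_const.mul (Continuous.div (by fun_prop) (by fun_prop) fun w => ?_)
  have : (0 : ℝ) < (‖w‖ ^ 2 + δ ^ 2) ^ 2 := by positivity
  exact this.ne'

theorem pr_bdd {δ : ℝ} (hδ : 0 < δ) : ∃ M : ℝ, ∀ w, ‖pr δ w‖ ≤ M := by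
  obtain ⟨M, -, hM⟩ := (pk_KB hδ).bound
  refine ⟨M, fun w => ?_⟩
  rw [Real.norm_of_nonneg (pr_nonneg δ w)]
  have := hM w
  rwa [pk_norm] at this

theorem pk_point {δ : ℝ} (hδ : 0 < δ) {E : ℂ → ℂ} (hE : Integrable E) (hE2 : MemLp E 2) (z : ℂ) :
    ‖Pk δ E z‖ ^ 2 ≤ (∫ w, pr 1 w) * ∫ ζ, ‖E ζ‖ ^ 2 * pr δ (z - ζ) := by
  obtain ⟨M, hM⟩ := pr_bdd hδ
  have hc : Continuous fun ζ => pr δ (z - ζ) := (pr_cont hδ).comp (continuous_const.sub continuous_id)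
  have i0 : Integrable (fun ζ => pr δ (z - ζ)) := (pr_int hδ).comp_sub_left z
  have i1 : Integrable (fun ζ => pr δ (z - ζ) * ‖E ζ‖) :=
    hE.norm.bdd_mul hc.aestronglyMeasurable (Eventually.of_forall fun ζ => hM (z - ζ))
  have hE2' : Integrable (fun ζ => ‖E ζ‖ ^ 2) := (memLp_two_iff_integrable_sq_norm hE.1).1 hE2
  have i2 : Integrable (fun ζ => pr δ (z - ζ) * ‖E ζ‖ ^ 2) :=
    hE2'.bdd_mul hc.aestronglyMeasurable (Eventually.of_forall fun ζ => hM (z - ζ))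
  have h0 : ∫ ζ, pr δ (z - ζ) = ∫ w, pr 1 w := by
    rw [integral_sub_left_eq_self (fun w => pr δ w) volume z, pr_integral hδ]
  have h1 : ‖Pk δ E z‖ ≤ ∫ ζ, pr δ (z - ζ) * ‖E ζ‖ := by
    unfold Pk
    refine (norm_integral_le_integral_norm _).trans (le_of_eq ?_)
    refine integral_congr_ae (Eventually.of_forall fun ζ => ?_)
    show ‖pk δ (z - ζ) * E ζ‖ = _
    rw [norm_mul, pk_norm]; rfl
  have h2 : ∀ t : ℝ, 0 ≤ (∫ ζ, pr δ (z - ζ)) * (t * t) +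
      (-2 * ∫ ζ, pr δ (z - ζ) * ‖E ζ‖) * t + ∫ ζ, pr δ (z - ζ) * ‖E ζ‖ ^ 2 := by
    intro t
    have h3 : ∫ ζ, pr δ (z - ζ) * (t - ‖E ζ‖) ^ 2 = (∫ ζ, pr δ (z - ζ)) * (t * t) +
      (-2 * ∫ ζ, pr δ (z - ζ) * ‖E ζ‖) * t + ∫ ζ, pr δ (z - ζ) * ‖E ζ‖ ^ 2 := by
      have e1 : ∀ ζ, pr δ (z - ζ) * (t - ‖E ζ‖) ^ 2 = (t * t) * pr δ (z - ζ) +
          (-2 * t) * (pr δ (z - ζ) * ‖E ζ‖) + pr δ (z - ζ) * ‖E ζ‖ ^ 2 := fun ζ => by ring
      simp only [e1]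
      have j1 : Integrable (fun ζ => (t * t) * pr δ (z - ζ) +
          (-2 * t) * (pr δ (z - ζ) * ‖E ζ‖)) := (i0.const_mul _).add (i1.const_mul _)
      rw [integral_add j1 i2, integral_add (i0.const_mul _) (i1.const_mul _),
        integral_const_mul, integral_const_mul]
      ring
    rw [← h3]
    exact integral_nonneg fun ζ => mul_nonneg (pr_nonneg _ _) (sq_nonneg _)
  have h4 := discrim_le_zero h2
  unfold discrim at h4
  rw [h0] at h4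
  have h5 : ‖Pk δ E z‖ ^ 2 ≤ (∫ ζ, pr δ (z - ζ) * ‖E ζ‖) ^ 2 :=
    pow_le_pow_left₀ (norm_nonneg _) h1 2
  have h6 : ∫ ζ, ‖E ζ‖ ^ 2 * pr δ (z - ζ) = ∫ ζ, pr δ (z - ζ) * ‖E ζ‖ ^ 2 :=
    integral_congr_ae (Eventually.of_forall fun ζ => mul_comm _ _)
  rw [h6]
  nlinarith

theorem pk_total {δ : ℝ} (hδ : 0 < δ) {E : ℂ → ℂ} (hE : Integrable E) (hE2 : MemLp E 2) :
    ∫ z, ‖Pk δ E z‖ ^ 2 ≤ (∫ w, pr 1 w) ^ 2 * ∫ ζ, ‖E ζ‖ ^ 2 := by
  have hE2' : Integrable (fun ζ => ‖E ζ‖ ^ 2) := (memLp_two_iff_integrable_sq_norm hE.1).1 hE2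
  have hci := hE2'.integrable_convolution (ContinuousLinearMap.mul ℝ ℝ) (pr_int hδ)
  have hcv := integral_convolution (ν := volume) (μ := volume)
    (ContinuousLinearMap.mul ℝ ℝ) hE2' (pr_int hδ)
  have e1 : ∀ z, (MeasureTheory.convolution (fun ζ => ‖E ζ‖ ^ 2) (pr δ)
      (ContinuousLinearMap.mul ℝ ℝ) volume) z = ∫ ζ, ‖E ζ‖ ^ 2 * pr δ (z - ζ) := fun z => rfl
  calc ∫ z, ‖Pk δ E z‖ ^ 2 ≤ ∫ z, (∫ w, pr 1 w) * (MeasureTheory.convolution
        (fun ζ => ‖E ζ‖ ^ 2) (pr δ) (ContinuousLinearMap.mul ℝ ℝ) volume) z := by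
        refine integral_mono_of_nonneg (Eventually.of_forall fun z => by positivity)
          (hci.const_mul _) (Eventually.of_forall fun z => ?_)
        have e2 := pk_point hδ hE hE2 z
        rw [← e1] at e2
        exact e2
    _ = (∫ w, pr 1 w) * ((∫ ζ, ‖E ζ‖ ^ 2) * ∫ w, pr δ w) := by
        rw [integral_const_mul, hcv]; rfl
    _ = (∫ w, pr 1 w) ^ 2 * ∫ ζ, ‖E ζ‖ ^ 2 := by
        rw [pr_integral hδ]; ring

/-- uniform `L²` bound, from the kernel identity -/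
theorem main (hid : ∀ (δ : ℝ), 0 < δ → ∀ (a b : ℂ),
      ∫ x : ℂ, bk δ (x - a) * (starRingEnd ℂ) (bk δ (x - b)) =
      ∫ x : ℂ, pk δ (x - a) * (starRingEnd ℂ) (pk δ (x - b))) :
    ∃ C : ℝ, 0 < C ∧ ∀ δ : ℝ, 0 < δ → ∀ E : ℂ → ℂ, Integrable E → MemLp E 2 →
      MemLp (Bk δ E) 2 ∧ ∫ z, ‖Bk δ E z‖ ^ 2 ≤ C * ∫ ζ, ‖E ζ‖ ^ 2 := by
  refine ⟨(∫ w, pr 1 w) ^ 2 + 1, by positivity, fun δ hδ E hE hE2 => ⟨?_, ?_⟩⟩
  · exact (memLp_two_iff_integrable_sq_norm (TK_meas (bk_KB hδ) hE)).2 (TK_sq_int (bk_KB hδ) hE)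
  · have h1 := TK_identity (bk_KB hδ) hE
    have h2 := TK_identity (pk_KB hδ) hE
    simp only [hid δ hδ] at h1
    rw [← h2] at h1
    have h3 : ∫ z, ‖Bk δ E z‖ ^ 2 = ∫ z, ‖Pk δ E z‖ ^ 2 := by exact_mod_cast h1
    rw [h3]
    refine (pk_total hδ hE hE2).trans ?_
    have h4 : 0 ≤ ∫ ζ, ‖E ζ‖ ^ 2 := integral_nonneg fun ζ => by positivity
    nlinarith

end Pool.Agent.Split938.J1b
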