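import Pool.Agent.Split938.Defs

set_option autoImplicit false
open MeasureTheory Metric Set Filter Topology

namespace Pool.Agent.Split938.J2

theorem sq_eq (a : ℂ) (s : ℝ) : sq a s = Complex.measurableEquivRealProd ⁻¹'
    (Ico a.re (a.re + s) ×ˢ Ico a.im (a.im + s)) := by
  ext z
  simp only [sq, mem_setOf_eq, mem_preimage, mem_prod, mem_Ico, Complex.measurableEquivRealProd_apply]
  tauto

theorem meas_sq (a : ℂ) (s : ℝ) : MeasurableSet (sq a s) := by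
  rw [sq_eq]
  exact Complex.measurableEquivRealProd.measurable (measurableSet_Ico.prod measurableSet_Ico)

theorem vol_sq (a : ℂ) (s : ℝ) : volume (sq a s) = ENNReal.ofReal s * ENNReal.ofReal s := by
  rw [sq_eq, Complex.volume_preserving_equiv_real_prod.measure_preimage
    (measurableSet_Ico.prod measurableSet_Ico).nullMeasurableSet, Measure.volume_eq_prod,
    Measure.prod_prod, Real.volume_Ico, Real.volume_Ico]
  congr 2 <;> ring

theorem volr_sq (a : ℂ) (s : ℝ) (hs : 0 < s) : volume.real (sq a s) = s ^ 2 := by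
  rw [Measure.real, vol_sq, ENNReal.toReal_mul, ENNReal.toReal_ofReal hs.le]
  ring

theorem vol_fin (a : ℂ) (s : ℝ) : volume (sq a s) ≠ ⊤ := by
  rw [vol_sq]
  exact ENNReal.mul_ne_top ENNReal.ofReal_ne_top ENNReal.ofReal_ne_top

/-- the four children cover -/
theorem sq_union (a : ℂ) (s : ℝ) (hs : 0 < s) : sq a s =
    ((sq a (s/2) ∪ sq (a + ((s / 2 : ℝ) : ℂ)) (s / 2)) ∪ sq (a + ((s / 2 : ℝ) : ℂ) * Complex.I) (s / 2))
      ∪ sq (a + ((s / 2 : ℝ) : ℂ) + ((s / 2 : ℝ) : ℂ) * Complex.I) (s / 2) := by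
  ext z
  simp only [sq, mem_setOf_eq, mem_union, Complex.add_re, Complex.add_im, Complex.mul_re,
    Complex.mul_im, Complex.ofReal_re, Complex.ofReal_im, Complex.I_re, Complex.I_im]
  constructor
  · rintro ⟨h1, h2, h3, h4⟩
    rcases lt_or_ge z.re (a.re + s / 2) with h | h <;> rcases lt_or_ge z.im (a.im + s / 2) with h' | h'
    · left; left; left
      refine ⟨by linarith, by linarith, by linarith, by linarith⟩
    · left; right
      refine ⟨by linarith, by linarith, by linarith, by linarith⟩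
    · left; left; right
      refine ⟨by linarith, by linarith, by linarith, by linarith⟩
    · right
      refine ⟨by linarith, by linarith, by linarith, by linarith⟩
  · rintro (((⟨h1, h2, h3, h4⟩ | ⟨h1, h2, h3, h4⟩) | ⟨h1, h2, h3, h4⟩) | ⟨h1, h2, h3, h4⟩) <;>
      refine ⟨by linarith, by linarith, by linarith, by linarith⟩

theorem d01 (a : ℂ) (s : ℝ) : Disjoint (sq a (s/2)) (sq (a + ((s / 2 : ℝ) : ℂ)) (s / 2)) := by
  rw [Set.disjoint_left]
  intro z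
  simp only [sq, mem_setOf_eq, Complex.add_re, Complex.add_im, Complex.mul_re,
    Complex.mul_im, Complex.ofReal_re, Complex.ofReal_im, Complex.I_re, Complex.I_im]
  rintro ⟨h1, h2, h3, h4⟩ ⟨h5, h6, h7, h8⟩
  linarith

theorem d02 (a : ℂ) (s : ℝ) :
    Disjoint (sq a (s/2)) (sq (a + ((s / 2 : ℝ) : ℂ) * Complex.I) (s / 2)) := by
  rw [Set.disjoint_left]
  intro z
  simp only [sq, mem_setOf_eq, Complex.add_re, Complex.add_im, Complex.mul_re,
    Complex.mul_im, Complex.ofReal_re, Complex.ofReal_im, Complex.I_re, Complex.I_im]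
  rintro ⟨h1, h2, h3, h4⟩ ⟨h5, h6, h7, h8⟩
  linarith

theorem d12 (a : ℂ) (s : ℝ) : Disjoint (sq (a + ((s / 2 : ℝ) : ℂ)) (s / 2))
    (sq (a + ((s / 2 : ℝ) : ℂ) * Complex.I) (s / 2)) := by
  rw [Set.disjoint_left]
  intro z
  simp only [sq, mem_setOf_eq, Complex.add_re, Complex.add_im, Complex.mul_re,
    Complex.mul_im, Complex.ofReal_re, Complex.ofReal_im, Complex.I_re, Complex.I_im]
  rintro ⟨h1, h2, h3, h4⟩ ⟨h5, h6, h7, h8⟩
  linarith

theorem d03 (a : ℂ) (s : ℝ) : Disjoint (sq a (s/2))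
    (sq (a + ((s / 2 : ℝ) : ℂ) + ((s / 2 : ℝ) : ℂ) * Complex.I) (s / 2)) := by
  rw [Set.disjoint_left]
  intro z
  simp only [sq, mem_setOf_eq, Complex.add_re, Complex.add_im, Complex.mul_re,
    Complex.mul_im, Complex.ofReal_re, Complex.ofReal_im, Complex.I_re, Complex.I_im]
  rintro ⟨h1, h2, h3, h4⟩ ⟨h5, h6, h7, h8⟩
  linarith

theorem d13 (a : ℂ) (s : ℝ) : Disjoint (sq (a + ((s / 2 : ℝ) : ℂ)) (s / 2))
    (sq (a + ((s / 2 : ℝ) : ℂ) + ((s / 2 : ℝ) : ℂ) * Complex.I) (s / 2)) := by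
  rw [Set.disjoint_left]
  intro z
  simp only [sq, mem_setOf_eq, Complex.add_re, Complex.add_im, Complex.mul_re,
    Complex.mul_im, Complex.ofReal_re, Complex.ofReal_im, Complex.I_re, Complex.I_im]
  rintro ⟨h1, h2, h3, h4⟩ ⟨h5, h6, h7, h8⟩
  linarith

theorem d23 (a : ℂ) (s : ℝ) : Disjoint (sq (a + ((s / 2 : ℝ) : ℂ) * Complex.I) (s / 2))
    (sq (a + ((s / 2 : ℝ) : ℂ) + ((s / 2 : ℝ) : ℂ) * Complex.I) (s / 2)) := by
  rw [Set.disjoint_left]
  intro z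
  simp only [sq, mem_setOf_eq, Complex.add_re, Complex.add_im, Complex.mul_re,
    Complex.mul_im, Complex.ofReal_re, Complex.ofReal_im, Complex.I_re, Complex.I_im]
  rintro ⟨h1, h2, h3, h4⟩ ⟨h5, h6, h7, h8⟩
  linarith

theorem step_int (E : ℂ → ℂ) : ∀ (n : ℕ) (a : ℂ) (s : ℝ), 0 < s → StepOn E n a s →
    IntegrableOn (fun z => ‖E z‖) (sq a s) volume := by
  intro n
  induction n with
  | zero =>
    rintro a s hs ⟨c, hc⟩
    have h1 : IntegrableOn (fun _ : ℂ => ‖c‖) (sq a s) volume :=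
      integrableOn_const (vol_fin a s)
    exact h1.congr_fun (fun z hz => by simp only [hc z hz]) (meas_sq a s)
  | succ n ih =>
    rintro a s hs ⟨h0, h1, h2, h3⟩
    have hs' : 0 < s / 2 := by positivity
    rw [sq_union a s hs]
    exact ((((ih _ _ hs' h0).union (ih _ _ hs' h1)).union (ih _ _ hs' h2)).union (ih _ _ hs' h3))

theorem int_split (E : ℂ → ℂ) (n : ℕ) (a : ℂ) (s : ℝ) (hs : 0 < s) (h : StepOn E (n+1) a s) :
    ∫ z in sq a s, ‖E z‖ = (∫ z in sq a (s/2), ‖E z‖) + (∫ z in sq (a + ((s / 2 : ℝ) : ℂ)) (s / 2), ‖E z‖)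
      + (∫ z in sq (a + ((s / 2 : ℝ) : ℂ) * Complex.I) (s / 2), ‖E z‖)
      + (∫ z in sq (a + ((s / 2 : ℝ) : ℂ) + ((s / 2 : ℝ) : ℂ) * Complex.I) (s / 2), ‖E z‖) := by
  obtain ⟨h0, h1, h2, h3⟩ := h
  have hs' : 0 < s / 2 := by positivity
  have i0 := step_int E n _ _ hs' h0
  have i1 := step_int E n _ _ hs' h1
  have i2 := step_int E n _ _ hs' h2
  have i3 := step_int E n _ _ hs' h3
  rw [sq_union a s hs, setIntegral_union _ (meas_sq _ _) ((i0.union i1).union i2) i3,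
    setIntegral_union _ (meas_sq _ _) (i0.union i1) i2,
    setIntegral_union (d01 a s) (meas_sq _ _) i0 i1]
  · rw [Set.disjoint_union_left]
    exact ⟨d02 a s, d12 a s⟩
  · rw [Set.disjoint_union_left, Set.disjoint_union_left]
    exact ⟨⟨d03 a s, d13 a s⟩, d23 a s⟩

theorem nn_int (E : ℂ → ℂ) (a : ℂ) (s : ℝ) : 0 ≤ ∫ z in sq a s, ‖E z‖ :=
  integral_nonneg (fun z => norm_nonneg _)

/-- the property of a family of squares in a square -/
def Fam (E : ℂ → ℂ) (t : ℝ) (a : ℂ) (s : ℝ) (F : Finset (ℂ × ℝ)) : Prop :=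
  (∀ q ∈ F, 0 < q.2 ∧ (∫ z in sq q.1 q.2, ‖E z‖) ≤ 4 * t * q.2 ^ 2 ∧ sq q.1 q.2 ⊆ sq a s) ∧
    (F : Set (ℂ × ℝ)).PairwiseDisjoint (fun q => sq q.1 q.2) ∧
    (∑ q ∈ F, t * q.2 ^ 2 ≤ ∫ z in sq a s, ‖E z‖) ∧
    ∀ z ∈ sq a s, (∀ q ∈ F, z ∉ sq q.1 q.2) → ‖E z‖ ≤ t

theorem fam_union {E : ℂ → ℂ} {t : ℝ} (ht : 0 < t) {A B : Set ℂ} (hAB : Disjoint A B)
    {F G : Finset (ℂ × ℝ)} {x y : ℝ}
    (hF : (∀ q ∈ F, 0 < q.2 ∧ (∫ z in sq q.1 q.2, ‖E z‖) ≤ 4 * t * q.2 ^ 2 ∧ sq q.1 q.2 ⊆ A) ∧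
    (F : Set (ℂ × ℝ)).PairwiseDisjoint (fun q => sq q.1 q.2) ∧
    (∑ q ∈ F, t * q.2 ^ 2 ≤ x) ∧ ∀ z ∈ A, (∀ q ∈ F, z ∉ sq q.1 q.2) → ‖E z‖ ≤ t)
    (hG : (∀ q ∈ G, 0 < q.2 ∧ (∫ z in sq q.1 q.2, ‖E z‖) ≤ 4 * t * q.2 ^ 2 ∧ sq q.1 q.2 ⊆ B) ∧
    (G : Set (ℂ × ℝ)).PairwiseDisjoint (fun q => sq q.1 q.2) ∧
    (∑ q ∈ G, t * q.2 ^ 2 ≤ y) ∧ ∀ z ∈ B, (∀ q ∈ G, z ∉ sq q.1 q.2) → ‖E z‖ ≤ t) :
    ∃ H : Finset (ℂ × ℝ), (∀ q ∈ H, 0 < q.2 ∧ (∫ z in sq q.1 q.2, ‖E z‖) ≤ 4 * t * q.2 ^ 2 ∧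
      sq q.1 q.2 ⊆ A ∪ B) ∧
    (H : Set (ℂ × ℝ)).PairwiseDisjoint (fun q => sq q.1 q.2) ∧
    (∑ q ∈ H, t * q.2 ^ 2 ≤ x + y) ∧ ∀ z ∈ A ∪ B, (∀ q ∈ H, z ∉ sq q.1 q.2) → ‖E z‖ ≤ t := by
  classical
  obtain ⟨f1, f2, f3, f4⟩ := hF
  obtain ⟨g1, g2, g3, g4⟩ := hG
  refine ⟨F ∪ G, ?_, ?_, ?_, ?_⟩
  · intro q hq
    rcases Finset.mem_union.1 hq with h | h
    · exact ⟨(f1 q h).1, (f1 q h).2.1, (f1 q h).2.2.trans subset_union_left⟩
    · exact ⟨(g1 q h).1, (g1 q h).2.1, (g1 q h).2.2.trans subset_union_right⟩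
  · intro p hp q hq hpq
    rcases Finset.mem_union.1 (Finset.mem_coe.1 hp) with h | h <;>
      rcases Finset.mem_union.1 (Finset.mem_coe.1 hq) with h' | h'
    · exact f2 (Finset.mem_coe.2 h) (Finset.mem_coe.2 h') hpq
    · exact Disjoint.mono (f1 p h).2.2 (g1 q h').2.2 hAB
    · exact Disjoint.mono (g1 p h).2.2 (f1 q h').2.2 hAB.symm
    · exact g2 (Finset.mem_coe.2 h) (Finset.mem_coe.2 h') hpq
  · have h := Finset.sum_union_inter (s₁ := F) (s₂ := G) (f := fun q : ℂ × ℝ => t * q.2 ^ 2)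
    have h2 : 0 ≤ ∑ q ∈ F ∩ G, t * q.2 ^ 2 :=
      Finset.sum_nonneg (fun q _ => mul_nonneg ht.le (sq_nonneg _))
    linarith
  · intro z hz hq
    rcases hz with hz | hz
    · exact f4 z hz (fun q h => hq q (Finset.mem_union_left _ h))
    · exact g4 z hz (fun q h => hq q (Finset.mem_union_right _ h))

theorem loc (E : ℂ → ℂ) (t : ℝ) (ht : 0 < t) : ∀ (n : ℕ) (a : ℂ) (s : ℝ), 0 < s → StepOn E n a s →
    (∫ z in sq a s, ‖E z‖) ≤ t * s ^ 2 → ∃ F : Finset (ℂ × ℝ), Fam E t a s F := by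
  intro n
  induction n with
  | zero =>
    rintro a s hs ⟨c, hc⟩ hI
    refine ⟨∅, ?_, ?_, ?_, ?_⟩
    · simp
    · simp
    · simpa using nn_int E a s
    · intro z hz _
      have h1 : ∫ z in sq a s, ‖E z‖ = s ^ 2 * ‖c‖ := by
        have h2 : ∫ z in sq a s, ‖E z‖ = ∫ z in sq a s, ‖c‖ :=
          setIntegral_congr_fun (meas_sq a s) (fun z hz => by simp only [hc z hz])
        rw [h2, setIntegral_const, volr_sq a s hs, smul_eq_mul]
      rw [h1] at hI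
      rw [hc z hz]
      have hs2 : 0 < s ^ 2 := by positivity
      by_contra hcon
      push Not at hcon
      nlinarith
  | succ n ih =>
    intro a s hs h hI
    have hsplit := int_split E n a s hs h
    obtain ⟨h0, h1, h2, h3⟩ := h
    have hs' : 0 < s / 2 := by positivity
    have n0 := nn_int E a (s/2)
    have n1 := nn_int E (a + ((s / 2 : ℝ) : ℂ)) (s / 2)
    have n2 := nn_int E (a + ((s / 2 : ℝ) : ℂ) * Complex.I) (s / 2)
    have n3 := nn_int E (a + ((s / 2 : ℝ) : ℂ) + ((s / 2 : ℝ) : ℂ) * Complex.I) (s / 2)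
    -- every child has a family
    have key : ∀ b : ℂ, StepOn E n b (s/2) → (∫ z in sq b (s/2), ‖E z‖) ≤ t * s ^ 2 →
        ∃ F : Finset (ℂ × ℝ), Fam E t b (s/2) F := by
      intro b hb hbI
      by_cases hc : (∫ z in sq b (s/2), ‖E z‖) ≤ t * (s/2) ^ 2
      · exact ih b (s/2) hs' hb hc
      · push Not at hc
        refine ⟨{(b, s/2)}, ?_, ?_, ?_, ?_⟩
        · intro q hq
          rw [Finset.mem_singleton] at hq
          subst hq
          refine ⟨hs', ?_, subset_rfl⟩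
          calc (∫ z in sq b (s/2), ‖E z‖) ≤ t * s ^ 2 := hbI
            _ = 4 * t * (s/2) ^ 2 := by ring
        · simp
        · rw [Finset.sum_singleton]
          exact hc.le
        · intro z hz hq
          exact absurd hz (hq (b, s/2) (Finset.mem_singleton_self _))
    obtain ⟨F0, hF0⟩ := key _ h0 (by linarith)
    obtain ⟨F1, hF1⟩ := key _ h1 (by linarith)
    obtain ⟨F2, hF2⟩ := key _ h2 (by linarith)
    obtain ⟨F3, hF3⟩ := key _ h3 (by linarith)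
    obtain ⟨G1, hG1⟩ := fam_union ht (d01 a s) hF0 hF1
    obtain ⟨G2, hG2⟩ := fam_union ht (by
      rw [Set.disjoint_union_left]
      exact ⟨d02 a s, d12 a s⟩) hG1 hF2
    obtain ⟨G3, hG3⟩ := fam_union ht (by
      rw [Set.disjoint_union_left, Set.disjoint_union_left]
      exact ⟨⟨d03 a s, d13 a s⟩, d23 a s⟩) hG2 hF3
    refine ⟨G3, ?_⟩
    unfold Fam
    rw [hsplit]
    rw [← sq_union a s hs] at hG3
    exact hG3

/-- Calderon-Zygmund stopping time decomposition for dyadic step functions -/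
theorem main (n : ℕ) (a : ℂ) (s : ℝ) (hs : 0 < s) (E : ℂ → ℂ) (hE : StepOn E n a s)
    (h0 : ∀ z, z ∉ sq a s → E z = 0) (t : ℝ) (ht : 0 < t) :
    ∃ F : Finset (ℂ × ℝ), (∀ q ∈ F, 0 < q.2 ∧ ∫ z in sq q.1 q.2, ‖E z‖ ≤ 4 * t * q.2 ^ 2) ∧
      (F : Set (ℂ × ℝ)).PairwiseDisjoint (fun q => sq q.1 q.2) ∧
      (∑ q ∈ F, q.2 ^ 2 ≤ (∫ z, ‖E z‖) / t) ∧
      ∀ z, (∀ q ∈ F, z ∉ sq q.1 q.2) → ‖E z‖ ≤ t := by
  have hall : ∫ z in sq a s, ‖E z‖ = ∫ z, ‖E z‖ := by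
    apply setIntegral_eq_integral_of_forall_compl_eq_zero
    intro z hz
    rw [h0 z hz, norm_zero]
  have hint : Integrable (fun z => ‖E z‖) volume := by
    have h1 := step_int E n a s hs hE
    rw [← integrable_indicator_iff (meas_sq a s)] at h1
    refine h1.congr (Filter.Eventually.of_forall (fun z => ?_))
    by_cases hz : z ∈ sq a s
    · rw [indicator_of_mem hz]
    · rw [indicator_of_notMem hz]
      simp only [h0 z hz, norm_zero]
  by_cases hc : (∫ z in sq a s, ‖E z‖) ≤ t * s ^ 2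
  · obtain ⟨F, f1, f2, f3, f4⟩ := loc E t ht n a s hs hE hc
    refine ⟨F, fun q hq => ⟨(f1 q hq).1, (f1 q hq).2.1⟩, f2, ?_, ?_⟩
    · rw [le_div_iff₀ ht, ← hall, Finset.sum_mul]
      refine le_trans (le_of_eq ?_) f3
      exact Finset.sum_congr rfl (fun q _ => by ring)
    · intro z hz
      by_cases hza : z ∈ sq a s
      · exact f4 z hza hz
      · rw [h0 z hza, norm_zero]
        exact ht.le
  · push Not at hc
    set I := ∫ z, ‖E z‖ with hI
    rw [hall] at hc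
    have hIt : s ^ 2 < I / t := by
      rw [lt_div_iff₀ ht]
      linarith
    have hS : s ≤ Real.sqrt (I / t) := Real.le_sqrt_of_sq_le hIt.le
    have hS2 : Real.sqrt (I / t) ^ 2 = I / t := Real.sq_sqrt (le_trans (sq_nonneg s) hIt.le)
    have hIpos : 0 < I := lt_of_le_of_lt (by positivity) hc
    have hsub : sq a s ⊆ sq a (Real.sqrt (I / t)) := by
      rintro z ⟨h1, h2, h3, h4⟩
      exact ⟨h1, by linarith, h3, by linarith⟩
    refine ⟨{(a, Real.sqrt (I / t))}, ?_, ?_, ?_, ?_⟩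
    · intro q hq
      rw [Finset.mem_singleton] at hq
      subst hq
      refine ⟨lt_of_lt_of_le hs hS, ?_⟩
      simp only
      rw [hS2]
      calc (∫ z in sq a (Real.sqrt (I / t)), ‖E z‖) ≤ I :=
            setIntegral_le_integral hint (Filter.Eventually.of_forall (fun z => norm_nonneg _))
        _ ≤ 4 * I := by linarith
        _ = 4 * t * (I / t) := by field_simp
    · simp
    · rw [Finset.sum_singleton]
      simp only
      rw [hS2]
    · intro z hz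
      have h1 : z ∉ sq a s := fun h => hz (a, Real.sqrt (I / t)) (Finset.mem_singleton_self _) (hsub h)
      rw [h0 z h1, norm_zero]
      exact ht.le

end Pool.Agent.Split938.J2
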