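import Pool.Agent.Split938.Defs

set_option autoImplicit false
open MeasureTheory Metric Set Filter Topology

namespace Pool.Agent.Split938.J3a

theorem h400_cheb (g : ℂ → ℝ) (hg : Integrable g) (h0 : ∀ z, 0 ≤ g z) (ε : ℝ) (hε : 0 < ε) :
    volume {z | ε ≤ g z} ≤ ENNReal.ofReal ((∫ z, g z) / ε) := by
  have h1 := meas_ge_le_lintegral_div (μ := (volume : Measure ℂ))
    (f := fun z => ENNReal.ofReal (g z)) hg.1.aemeasurable.ennreal_ofReal
    (ε := ENNReal.ofReal ε) (by simpa using hε) ENNReal.ofReal_ne_top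
  rw [← ofReal_integral_eq_lintegral_ofReal hg (Filter.Eventually.of_forall h0),
    ← ENNReal.ofReal_div_of_pos hε] at h1
  refine le_trans (measure_mono ?_) h1
  intro z hz
  exact ENNReal.ofReal_le_ofReal hz

noncomputable def h400_h (s : ℝ) (w : ℂ) : ℝ := s / (s + ‖w‖) ^ 3

theorem h400_tail : ∃ I0 : ℝ, 0 ≤ I0 ∧ ∀ s : ℝ, 0 < s →
    Integrable (h400_h s) ∧ ∫ w, h400_h s w = I0 := by
  have h1 : Integrable (fun x : ℂ => (1 + ‖x‖) ^ (-(3:ℝ))) :=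
    integrable_one_add_norm (by rw [Complex.finrank_real_complex]; norm_num)
  have heq : (fun x : ℂ => (1 + ‖x‖) ^ (-(3:ℝ))) = fun x => ((1 + ‖x‖) ^ 3)⁻¹ := by
    funext x
    rw [Real.rpow_neg (by positivity)]
    congr 1
    exact_mod_cast Real.rpow_natCast (1 + ‖x‖) 3
  rw [heq] at h1
  refine ⟨∫ x : ℂ, ((1 + ‖x‖) ^ 3)⁻¹, integral_nonneg (fun x => by positivity), ?_⟩
  intro s hs
  have h2 : h400_h s = fun w => s⁻¹ ^ 2 * (fun x : ℂ => ((1 + ‖x‖) ^ 3)⁻¹) (s⁻¹ • w) := by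
    funext w
    show s / (s + ‖w‖) ^ 3 = s⁻¹ ^ 2 * ((1 + ‖s⁻¹ • w‖) ^ 3)⁻¹
    rw [norm_smul, Real.norm_eq_abs, abs_of_pos (inv_pos.mpr hs)]
    have h3 : 1 + s⁻¹ * ‖w‖ = s⁻¹ * (s + ‖w‖) := by
      field_simp
    rw [h3]
    have h4 : 0 < s + ‖w‖ := by positivity
    field_simp
  constructor
  · rw [h2]
    exact (h1.comp_smul (inv_ne_zero hs.ne')).const_mul _
  · have h6 := Measure.integral_comp_smul (volume : Measure ℂ)
      (fun x : ℂ => ((1 + ‖x‖) ^ 3)⁻¹) s⁻¹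
    rw [Complex.finrank_real_complex, smul_eq_mul, abs_of_pos (by positivity)] at h6
    have h5 : s⁻¹ ^ 2 * ((s⁻¹) ^ 2)⁻¹ = 1 := mul_inv_cancel₀ (by positivity)
    rw [h2]
    calc ∫ w : ℂ, s⁻¹ ^ 2 * (fun x : ℂ => ((1 + ‖x‖) ^ 3)⁻¹) (s⁻¹ • w)
        = s⁻¹ ^ 2 * ∫ w : ℂ, (fun x : ℂ => ((1 + ‖x‖) ^ 3)⁻¹) (s⁻¹ • w) :=
          integral_const_mul _ _
      _ = s⁻¹ ^ 2 * (((s⁻¹) ^ 2)⁻¹ * ∫ x : ℂ, ((1 + ‖x‖) ^ 3)⁻¹) :=
          congrArg (fun t => s⁻¹ ^ 2 * t) h6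
      _ = ∫ x : ℂ, ((1 + ‖x‖) ^ 3)⁻¹ := by
          rw [← mul_assoc, h5, one_mul]

theorem h400_sq (a : ℂ) (s : ℝ) (hs : 0 < s) :
    MeasurableSet (sq a s) ∧ volume (sq a s) = ENNReal.ofReal (s ^ 2) := by
  have h : sq a s = Complex.measurableEquivRealProd ⁻¹'
      (Set.Ico a.re (a.re + s) ×ˢ Set.Ico a.im (a.im + s)) := by
    ext z
    rw [Set.mem_preimage, Complex.measurableEquivRealProd_apply, Set.mem_prod, Set.mem_Ico,
      Set.mem_Ico]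
    constructor
    · rintro ⟨h1, h2, h3, h4⟩
      exact ⟨⟨h1, h2⟩, ⟨h3, h4⟩⟩
    · rintro ⟨⟨h1, h2⟩, ⟨h3, h4⟩⟩
      exact ⟨h1, h2, h3, h4⟩
  have hm : MeasurableSet (Set.Ico a.re (a.re + s) ×ˢ Set.Ico a.im (a.im + s)) :=
    measurableSet_Ico.prod measurableSet_Ico
  constructor
  · rw [h]
    exact Complex.measurableEquivRealProd.measurable hm
  · rw [h, Complex.volume_preserving_equiv_real_prod.measure_preimage hm.nullMeasurableSet,
      Measure.volume_eq_prod, Measure.prod_prod, Real.volume_Ico, Real.volume_Ico,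
      add_sub_cancel_left, add_sub_cancel_left, ← ENNReal.ofReal_mul hs.le, pow_two]

noncomputable def h400_av (E : ℂ → ℂ) (q : ℂ × ℝ) : ℂ :=
  ((q.2 ^ 2 : ℝ) : ℂ)⁻¹ * ∫ z in sq q.1 q.2, E z

noncomputable def h400_b (E : ℂ → ℂ) (q : ℂ × ℝ) : ℂ → ℂ :=
  (sq q.1 q.2).indicator (fun z => E z - h400_av E q)

theorem h400_b_props (E : ℂ → ℂ) (hE : Integrable E) (q : ℂ × ℝ) (hq : 0 < q.2) :
    Integrable (h400_b E q) ∧ ∫ z, h400_b E q z = 0 ∧
    ∫ z, ‖h400_b E q z‖ ≤ 2 * ∫ z in sq q.1 q.2, ‖E z‖ ∧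
    ‖h400_av E q‖ * q.2 ^ 2 ≤ ∫ z in sq q.1 q.2, ‖E z‖ := by
  obtain ⟨hm, hv⟩ := h400_sq q.1 q.2 hq
  have hfin : volume (sq q.1 q.2) ≠ ⊤ := by
    rw [hv]
    exact ENNReal.ofReal_ne_top
  have hreal : volume.real (sq q.1 q.2) = q.2 ^ 2 := by
    rw [Measure.real, hv, ENNReal.toReal_ofReal (by positivity)]
  have hcon : IntegrableOn (fun _ : ℂ => h400_av E q) (sq q.1 q.2) := integrableOn_const hfin
  have hcon2 : IntegrableOn (fun _ : ℂ => ‖h400_av E q‖) (sq q.1 q.2) := integrableOn_const hfin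
  have hin : IntegrableOn (fun z => E z - h400_av E q) (sq q.1 q.2) := hE.integrableOn.sub hcon
  have hq2 : 0 < q.2 ^ 2 := by positivity
  have hav : ‖h400_av E q‖ * q.2 ^ 2 ≤ ∫ z in sq q.1 q.2, ‖E z‖ := by
    unfold h400_av
    rw [norm_mul, norm_inv, Complex.norm_real, Real.norm_eq_abs, abs_of_pos hq2, mul_comm,
      ← mul_assoc, mul_inv_cancel₀ hq2.ne', one_mul]
    exact norm_integral_le_integral_norm _
  refine ⟨hin.integrable_indicator hm, ?_, ?_, hav⟩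
  · unfold h400_b
    rw [integral_indicator hm, integral_sub hE.integrableOn hcon, setIntegral_const, hreal]
    unfold h400_av
    rw [Complex.real_smul, ← mul_assoc, mul_inv_cancel₀ (by exact_mod_cast hq2.ne'), one_mul,
      sub_self]
  · have h1 : ∀ z, ‖h400_b E q z‖ =
        (sq q.1 q.2).indicator (fun z => ‖E z - h400_av E q‖) z := by
      intro z
      unfold h400_b
      rw [norm_indicator_eq_indicator_norm]
    simp_rw [h1]
    rw [integral_indicator hm]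
    have h2 : ∫ z in sq q.1 q.2, ‖E z - h400_av E q‖ ≤
        ∫ z in sq q.1 q.2, (‖E z‖ + ‖h400_av E q‖) :=
      integral_mono hin.norm (hE.integrableOn.norm.add hcon2) (fun z => norm_sub_le _ _)
    have h3 : ∫ z in sq q.1 q.2, (‖E z‖ + ‖h400_av E q‖) =
        (∫ z in sq q.1 q.2, ‖E z‖) + ‖h400_av E q‖ * q.2 ^ 2 := by
      rw [integral_add hE.integrableOn.norm hcon2, setIntegral_const, hreal, smul_eq_mul, mul_comm]
    linarith

theorem h400_int (δ : ℝ) (hc : Continuous (bk δ)) (hb : ∀ w, ‖bk δ w‖ ≤ 1 / δ ^ 2)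
    (E : ℂ → ℂ) (hE : Integrable E) (z : ℂ) : Integrable (fun ζ => bk δ (z - ζ) * E ζ) :=
  hE.bdd_mul (c := 1 / δ ^ 2)
    (hc.comp (continuous_const.sub continuous_id)).aestronglyMeasurable
    (Filter.Eventually.of_forall (fun ζ => hb (z - ζ)))

theorem h400_far (δ CK : ℝ) (hCK : 0 < CK) (hc : Continuous (bk δ))
    (hb : ∀ w, ‖bk δ w‖ ≤ 1 / δ ^ 2)
    (hlip : ∀ w w' : ℂ, w ≠ 0 → ‖w - w'‖ ≤ ‖w‖ / 2 →
      ‖bk δ w - bk δ w'‖ ≤ CK * ‖w - w'‖ / ‖w‖ ^ 3)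
    (b : ℂ → ℂ) (hb1 : Integrable b) (hb0 : ∫ z, b z = 0) (c z : ℂ) (s : ℝ) (hs : 0 < s)
    (hsupp : ∀ ζ, b ζ ≠ 0 → ‖ζ - c‖ ≤ s) (hz : 4 * s ≤ ‖z - c‖) :
    ‖Bk δ b z‖ ≤ 2 * CK * h400_h s (z - c) * ∫ ζ, ‖b ζ‖ := by
  have hpos : 0 < ‖z - c‖ := by linarith
  have hne : z - c ≠ 0 := norm_pos_iff.mp hpos
  have h1 : Bk δ b z = ∫ ζ, (bk δ (z - ζ) - bk δ (z - c)) * b ζ := by
    have h2 : (fun ζ => (bk δ (z - ζ) - bk δ (z - c)) * b ζ) =
        fun ζ => bk δ (z - ζ) * b ζ - bk δ (z - c) * b ζ := by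
      funext ζ
      ring
    rw [h2, integral_sub (h400_int δ hc hb b hb1 z) (hb1.const_mul _), integral_const_mul, hb0,
      mul_zero, sub_zero]
    rfl
  rw [h1]
  have h3 : ‖∫ ζ, (bk δ (z - ζ) - bk δ (z - c)) * b ζ‖ ≤
      ∫ ζ, (CK * s / ‖z - c‖ ^ 3) * ‖b ζ‖ := by
    apply norm_integral_le_of_norm_le (hb1.norm.const_mul _)
    refine Filter.Eventually.of_forall (fun ζ => ?_)
    rw [norm_mul]
    by_cases hζ : b ζ = 0
    · rw [hζ, norm_zero, mul_zero, mul_zero]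
    · apply mul_le_mul_of_nonneg_right _ (norm_nonneg _)
      have h4 := hsupp ζ hζ
      have h5 : (z - c) - (z - ζ) = ζ - c := by ring
      have h6 := hlip (z - c) (z - ζ) hne (by
        rw [h5]
        linarith)
      rw [h5] at h6
      rw [norm_sub_rev]
      refine h6.trans ?_
      apply div_le_div_of_nonneg_right _ (by positivity)
      exact mul_le_mul_of_nonneg_left h4 hCK.le
  refine h3.trans ?_
  rw [integral_const_mul]
  apply mul_le_mul_of_nonneg_right _ (integral_nonneg (fun ζ => norm_nonneg _))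
  unfold h400_h
  obtain ⟨r, hr⟩ : ∃ r, r = ‖z - c‖ := ⟨_, rfl⟩
  rw [← hr] at hz hpos ⊢
  have h7 : (s + r) ^ 3 ≤ 2 * r ^ 3 := by
    have h8 : s + r ≤ 5 / 4 * r := by linarith
    calc (s + r) ^ 3 ≤ (5 / 4 * r) ^ 3 := pow_le_pow_left₀ (by positivity) h8 3
      _ = 125 / 64 * r ^ 3 := by ring
      _ ≤ 2 * r ^ 3 := mul_le_mul_of_nonneg_right (by norm_num) (by positivity)
  have h9 : s / r ^ 3 ≤ 2 * (s / (s + r) ^ 3) := by
    rw [← mul_div_assoc, div_le_div_iff₀ (by positivity) (by positivity)]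
    nlinarith
  calc CK * s / r ^ 3 = CK * (s / r ^ 3) := by ring
    _ ≤ CK * (2 * (s / (s + r) ^ 3)) := mul_le_mul_of_nonneg_left h9 hCK.le
    _ = 2 * CK * (s / (s + r) ^ 3) := by ring

/-- centre of the square -/
noncomputable def h400_c (q : ℂ × ℝ) : ℂ := ⟨q.1.re + q.2 / 2, q.1.im + q.2 / 2⟩

theorem h400_c_le (q : ℂ × ℝ) (z : ℂ) (hz : z ∈ sq q.1 q.2) : ‖z - h400_c q‖ ≤ q.2 := by
  obtain ⟨h1, h2, h3, h4⟩ := hz
  refine (Complex.norm_le_abs_re_add_abs_im _).trans ?_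
  rw [Complex.sub_re, Complex.sub_im]
  show |z.re - (q.1.re + q.2 / 2)| + |z.im - (q.1.im + q.2 / 2)| ≤ q.2
  have h5 : |z.re - (q.1.re + q.2 / 2)| ≤ q.2 / 2 := by
    rw [abs_le]
    constructor <;> linarith
  have h6 : |z.im - (q.1.im + q.2 / 2)| ≤ q.2 / 2 := by
    rw [abs_le]
    constructor <;> linarith
  linarith

theorem h400_ball (c : ℂ) (r : ℝ) (hr : 0 ≤ r) :
    volume (ball c r) = ENNReal.ofReal (Real.pi * r ^ 2) := by
  rw [Complex.volume_ball, ← ENNReal.ofReal_pow hr, mul_comm Real.pi,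
    ENNReal.ofReal_mul (by positivity)]
  congr 1
  rw [← NNReal.coe_real_pi, ENNReal.ofReal_coe_nnreal]

/-- weak type (1,1) for step functions, from the `L²` bound and the CZ decomposition -/
theorem main
    (hL2 : ∃ C : ℝ, 0 < C ∧ ∀ δ : ℝ, 0 < δ → ∀ E : ℂ → ℂ, Integrable E → MemLp E 2 →
      MemLp (Bk δ E) 2 ∧ ∫ z, ‖Bk δ E z‖ ^ 2 ≤ C * ∫ ζ, ‖E ζ‖ ^ 2)
    (hK : ∃ C : ℝ, 0 < C ∧ ∀ δ : ℝ, 0 < δ → Continuous (bk δ) ∧ (∀ w, ‖bk δ w‖ ≤ 1 / δ ^ 2) ∧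
      (∀ w, ‖bk δ w‖ ≤ (‖w‖ ^ 2)⁻¹) ∧
      (∀ w w' : ℂ, w ≠ 0 → ‖w - w'‖ ≤ ‖w‖ / 2 → ‖bk δ w - bk δ w'‖ ≤ C * ‖w - w'‖ / ‖w‖ ^ 3))
    (hCZ : ∀ (n : ℕ) (a : ℂ) (s : ℝ), 0 < s → ∀ (E : ℂ → ℂ), StepOn E n a s →
      (∀ z, z ∉ sq a s → E z = 0) → ∀ (t : ℝ), 0 < t →
      ∃ F : Finset (ℂ × ℝ), (∀ q ∈ F, 0 < q.2 ∧ ∫ z in sq q.1 q.2, ‖E z‖ ≤ 4 * t * q.2 ^ 2) ∧
      (F : Set (ℂ × ℝ)).PairwiseDisjoint (fun q => sq q.1 q.2) ∧
      (∑ q ∈ F, q.2 ^ 2 ≤ (∫ z, ‖E z‖) / t) ∧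
      ∀ z, (∀ q ∈ F, z ∉ sq q.1 q.2) → ‖E z‖ ≤ t) :
    ∃ C : ℝ, 0 < C ∧ ∀ δ : ℝ, 0 < δ → ∀ (n : ℕ) (a : ℂ) (s : ℝ), 0 < s → ∀ (E : ℂ → ℂ),
      Integrable E → StepOn E n a s → (∀ z, z ∉ sq a s → E z = 0) → ∀ t : ℝ, 0 < t →
      volume {z : ℂ | t < ‖Bk δ E z‖} ≤ ENNReal.ofReal (C * (∫ ζ, ‖E ζ‖) / t) := by
  classical
  obtain ⟨C2, hC2, hL2⟩ := hL2
  obtain ⟨CK, hCK, hK⟩ := hK
  obtain ⟨I0, hI0, htail⟩ := h400_tail
  have hpi := Real.pi_pos
  refine ⟨48 * C2 + 16 * Real.pi + 8 * CK * I0, by positivity, ?_⟩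
  intro δ hδ n a s hs E hE hstep hsupp t ht
  obtain ⟨hc, hb, -, hlip⟩ := hK δ hδ
  obtain ⟨F, hF1, hFd, hFs, hF2⟩ := hCZ n a s hs E hstep hsupp t ht
  have hbp := fun q (hq : q ∈ F) => h400_b_props E hE q (hF1 q hq).1
  obtain ⟨M, hM⟩ : ∃ M, M = ∫ z, ‖E z‖ := ⟨_, rfl⟩
  have hM0 : 0 ≤ M := by
    rw [hM]
    exact integral_nonneg (fun z => norm_nonneg _)
  -- sums over the squares
  have hsum : ∑ q ∈ F, ∫ z in sq q.1 q.2, ‖E z‖ ≤ M := by
    rw [hM, ← integral_biUnion_finset F (fun q hq => (h400_sq q.1 q.2 (hF1 q hq).1).1) hFd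
      (fun q _ => hE.norm.integrableOn)]
    exact setIntegral_le_integral hE.norm (Filter.Eventually.of_forall (fun z => norm_nonneg _))
  have hbsum : ∑ q ∈ F, ∫ z, ‖h400_b E q z‖ ≤ 2 * M := by
    calc ∑ q ∈ F, ∫ z, ‖h400_b E q z‖ ≤ ∑ q ∈ F, 2 * ∫ z in sq q.1 q.2, ‖E z‖ :=
          Finset.sum_le_sum (fun q hq => (hbp q hq).2.2.1)
      _ = 2 * ∑ q ∈ F, ∫ z in sq q.1 q.2, ‖E z‖ := (Finset.mul_sum _ _ _).symm
      _ ≤ 2 * M := mul_le_mul_of_nonneg_left hsum (by norm_num)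
  obtain ⟨G, hG⟩ : ∃ G : ℂ → ℂ, G = fun z => E z - ∑ q ∈ F, h400_b E q z := ⟨_, rfl⟩
  have hbint : Integrable (fun z => ∑ q ∈ F, h400_b E q z) :=
    integrable_finset_sum F (fun q hq => (hbp q hq).1)
  have hGint : Integrable G := by
    rw [hG]
    exact hE.sub hbint
  have hGle : ∀ z, ‖G z‖ ≤ 4 * t := by
    intro z
    rw [hG]
    by_cases hz : ∃ q ∈ F, z ∈ sq q.1 q.2
    · obtain ⟨q0, hq0, hz0⟩ := hz
      have h1 : ∑ q ∈ F, h400_b E q z = E z - h400_av E q0 := by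
        rw [Finset.sum_eq_single_of_mem q0 hq0]
        · exact Set.indicator_of_mem hz0 _
        · intro q hq hne
          apply Set.indicator_of_notMem
          intro hzq
          exact (Set.disjoint_left.mp (hFd hq hq0 hne)) hzq hz0
      show ‖E z - ∑ q ∈ F, h400_b E q z‖ ≤ 4 * t
      rw [h1, sub_sub_cancel]
      have h2 := (hbp q0 hq0).2.2.2
      have h3 := (hF1 q0 hq0).2
      have h4 : 0 < q0.2 ^ 2 := pow_pos (hF1 q0 hq0).1 2
      exact le_of_mul_le_mul_right (h2.trans h3) h4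
    · push Not at hz
      have h1 : ∑ q ∈ F, h400_b E q z = 0 := by
        apply Finset.sum_eq_zero
        intro q hq
        exact Set.indicator_of_notMem (hz q hq) _
      show ‖E z - ∑ q ∈ F, h400_b E q z‖ ≤ 4 * t
      rw [h1, sub_zero]
      have h2 := hF2 z hz
      linarith
  have hGnorm : ∫ z, ‖G z‖ ≤ 3 * M := by
    have h1 : ∀ z, ‖G z‖ ≤ ‖E z‖ + ∑ q ∈ F, ‖h400_b E q z‖ := by
      intro z
      rw [hG]
      refine (norm_sub_le _ _).trans ?_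
      have := norm_sum_le F (fun q => h400_b E q z)
      linarith
    have h2 : Integrable (fun z => ∑ q ∈ F, ‖h400_b E q z‖) :=
      integrable_finset_sum F (fun q hq => (hbp q hq).1.norm)
    calc ∫ z, ‖G z‖ ≤ ∫ z, (‖E z‖ + ∑ q ∈ F, ‖h400_b E q z‖) :=
          integral_mono hGint.norm (hE.norm.add h2) h1
      _ = M + ∑ q ∈ F, ∫ z, ‖h400_b E q z‖ := by
          rw [integral_add hE.norm h2, ← hM, integral_finset_sum F (fun q hq => (hbp q hq).1.norm)]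
      _ ≤ 3 * M := by linarith
  have hG2i : Integrable (fun z => ‖G z‖ ^ 2) := by
    refine Integrable.mono' (hGint.norm.const_mul (4 * t)) (hGint.1.norm.pow 2)
      (Filter.Eventually.of_forall (fun z => ?_))
    rw [Real.norm_eq_abs, abs_of_nonneg (sq_nonneg _), pow_two]
    exact mul_le_mul_of_nonneg_right (hGle z) (norm_nonneg _)
  have hG2 : ∫ z, ‖G z‖ ^ 2 ≤ 12 * t * M := by
    calc ∫ z, ‖G z‖ ^ 2 ≤ ∫ z, (4 * t) * ‖G z‖ := by
          apply integral_mono hG2i (hGint.norm.const_mul (4 * t))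
          intro z
          show ‖G z‖ ^ 2 ≤ (4 * t) * ‖G z‖
          rw [pow_two]
          exact mul_le_mul_of_nonneg_right (hGle z) (norm_nonneg _)
      _ = (4 * t) * ∫ z, ‖G z‖ := integral_const_mul _ _
      _ ≤ (4 * t) * (3 * M) := mul_le_mul_of_nonneg_left hGnorm (by linarith)
      _ = 12 * t * M := by ring
  have hGL2 : MemLp G 2 := (memLp_two_iff_integrable_sq_norm hGint.1).mpr hG2i
  obtain ⟨hBG, hBGle⟩ := hL2 δ hδ G hGint hGL2
  have hBG2 : Integrable (fun z => ‖Bk δ G z‖ ^ 2) :=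
    (memLp_two_iff_integrable_sq_norm hBG.1).mp hBG
  have hBGle2 : ∫ z, ‖Bk δ G z‖ ^ 2 ≤ C2 * (12 * t * M) :=
    hBGle.trans (mul_le_mul_of_nonneg_left hG2 hC2.le)
  -- the bad part
  obtain ⟨H, hH⟩ : ∃ H : ℂ → ℝ, H = fun z => ∑ q ∈ F,
      (2 * CK * ∫ ζ, ‖h400_b E q ζ‖) * h400_h q.2 (z - h400_c q) := ⟨_, rfl⟩
  have hHi : ∀ q ∈ F, Integrable (fun z => h400_h q.2 (z - h400_c q)) :=
    fun q hq => (htail q.2 (hF1 q hq).1).1.comp_sub_right (h400_c q)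
  have hHint : Integrable H := by
    rw [hH]
    exact integrable_finset_sum F (fun q hq => (hHi q hq).const_mul _)
  have hH0 : ∀ z, 0 ≤ H z := by
    intro z
    rw [hH]
    apply Finset.sum_nonneg
    intro q hq
    apply mul_nonneg
    · apply mul_nonneg (by positivity)
      exact integral_nonneg (fun ζ => norm_nonneg _)
    · unfold h400_h
      have := (hF1 q hq).1
      positivity
  have hHle : ∫ z, H z ≤ 4 * CK * I0 * M := by
    rw [hH, integral_finset_sum F (fun q hq => (hHi q hq).const_mul _)]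
    have h1 : ∀ q ∈ F, ∫ z, (2 * CK * ∫ ζ, ‖h400_b E q ζ‖) * h400_h q.2 (z - h400_c q) =
        2 * CK * I0 * ∫ ζ, ‖h400_b E q ζ‖ := by
      intro q hq
      rw [integral_const_mul, integral_sub_right_eq_self (fun z => h400_h q.2 z) (h400_c q),
        (htail q.2 (hF1 q hq).1).2]
      ring
    rw [Finset.sum_congr rfl h1, ← Finset.mul_sum]
    calc 2 * CK * I0 * ∑ q ∈ F, ∫ ζ, ‖h400_b E q ζ‖ ≤ 2 * CK * I0 * (2 * M) :=
          mul_le_mul_of_nonneg_left hbsum (by positivity)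
      _ = 4 * CK * I0 * M := by ring
  have hlin : ∀ z, Bk δ E z = Bk δ G z + ∑ q ∈ F, Bk δ (h400_b E q) z := by
    intro z
    unfold Bk
    rw [← integral_finset_sum F (fun q hq => h400_int δ hc hb _ (hbp q hq).1 z),
      ← integral_add (h400_int δ hc hb G hGint z)
        (integrable_finset_sum F (fun q hq => h400_int δ hc hb _ (hbp q hq).1 z))]
    congr 1
    funext ζ
    rw [hG, ← Finset.mul_sum]
    ring
  have hfar : ∀ z, (∀ q ∈ F, z ∉ ball (h400_c q) (4 * q.2)) →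
      ‖∑ q ∈ F, Bk δ (h400_b E q) z‖ ≤ H z := by
    intro z hz
    refine (norm_sum_le _ _).trans ?_
    rw [hH]
    apply Finset.sum_le_sum
    intro q hq
    have h1 := h400_far δ CK hCK hc hb hlip (h400_b E q) (hbp q hq).1 (hbp q hq).2.1
      (h400_c q) z q.2 (hF1 q hq).1 (by
        intro ζ hζ
        apply h400_c_le
        by_contra hno
        exact hζ (Set.indicator_of_notMem hno _)) (by
        have h2 := hz q hq
        rw [mem_ball_iff_norm, not_lt] at h2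
        exact h2)
    refine h1.trans (le_of_eq ?_)
    ring
  have hsub : {z : ℂ | t < ‖Bk δ E z‖} ⊆ ({z | t ^ 2 / 4 ≤ ‖Bk δ G z‖ ^ 2} ∪
      ⋃ q ∈ F, ball (h400_c q) (4 * q.2)) ∪ {z | t / 2 ≤ H z} := by
    intro z hz
    have hz' : t < ‖Bk δ E z‖ := hz
    by_contra hno
    rw [Set.mem_union, Set.mem_union, not_or, not_or] at hno
    obtain ⟨⟨h1, h2⟩, h3⟩ := hno
    have h1' : ‖Bk δ G z‖ ^ 2 < t ^ 2 / 4 := not_le.mp h1
    have h3' : H z < t / 2 := not_le.mp h3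
    have h4 : ‖Bk δ G z‖ < t / 2 := by
      by_contra hge
      push Not at hge
      have : (t / 2) ^ 2 ≤ ‖Bk δ G z‖ ^ 2 := pow_le_pow_left₀ (by linarith) hge 2
      nlinarith
    have h5 := hfar z (by
      intro q hq hzq
      apply h2
      rw [Set.mem_iUnion₂]
      exact ⟨q, hq, hzq⟩)
    have h6 : ‖Bk δ E z‖ ≤ ‖Bk δ G z‖ + ‖∑ q ∈ F, Bk δ (h400_b E q) z‖ := by
      rw [hlin z]
      exact norm_add_le _ _
    linarith
  have hA := h400_cheb _ hBG2 (fun z => sq_nonneg _) (t ^ 2 / 4) (by positivity)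
  have hB := h400_cheb H hHint hH0 (t / 2) (by positivity)
  have hU : volume (⋃ q ∈ F, ball (h400_c q) (4 * q.2)) ≤
      ENNReal.ofReal (16 * Real.pi * (M / t)) := by
    refine (measure_biUnion_finset_le F _).trans ?_
    have h1 : ∀ q ∈ F, volume (ball (h400_c q) (4 * q.2)) =
        ENNReal.ofReal (Real.pi * (4 * q.2) ^ 2) := by
      intro q hq
      have := (hF1 q hq).1
      exact h400_ball _ _ (by linarith)
    rw [Finset.sum_congr rfl h1, ← ENNReal.ofReal_sum_of_nonneg (fun q _ => by positivity)]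
    apply ENNReal.ofReal_le_ofReal
    calc ∑ q ∈ F, Real.pi * (4 * q.2) ^ 2 = 16 * Real.pi * ∑ q ∈ F, q.2 ^ 2 := by
          rw [Finset.mul_sum]
          apply Finset.sum_congr rfl
          intro q _
          ring
      _ ≤ 16 * Real.pi * (M / t) := by
          rw [hM]
          exact mul_le_mul_of_nonneg_left hFs (by positivity)
  refine (measure_mono hsub).trans ((measure_union_le _ _).trans
    ((add_le_add ((measure_union_le _ _).trans (add_le_add hA hU)) hB).trans ?_))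
  have hn1 : 0 ≤ (∫ z, ‖Bk δ G z‖ ^ 2) / (t ^ 2 / 4) :=
    div_nonneg (integral_nonneg (fun z => sq_nonneg _)) (by positivity)
  have hn2 : 0 ≤ 16 * Real.pi * (M / t) := by positivity
  have hn3 : 0 ≤ (∫ z, H z) / (t / 2) := div_nonneg (integral_nonneg hH0) (by positivity)
  rw [← ENNReal.ofReal_add hn1 hn2, ← ENNReal.ofReal_add (by positivity) hn3, ← hM]
  apply ENNReal.ofReal_le_ofReal
  have e1 : (∫ z, ‖Bk δ G z‖ ^ 2) / (t ^ 2 / 4) ≤ 48 * C2 * M / t := by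
    rw [div_le_div_iff₀ (by positivity) ht]
    calc (∫ z, ‖Bk δ G z‖ ^ 2) * t ≤ (C2 * (12 * t * M)) * t :=
          mul_le_mul_of_nonneg_right hBGle2 ht.le
      _ = 48 * C2 * M * (t ^ 2 / 4) := by ring
  have e2 : (∫ z, H z) / (t / 2) ≤ 8 * CK * I0 * M / t := by
    rw [div_le_div_iff₀ (by positivity) ht]
    calc (∫ z, H z) * t ≤ (4 * CK * I0 * M) * t := mul_le_mul_of_nonneg_right hHle ht.le
      _ = 8 * CK * I0 * M * (t / 2) := by ring
  calc (∫ z, ‖Bk δ G z‖ ^ 2) / (t ^ 2 / 4) + 16 * Real.pi * (M / t) + (∫ z, H z) / (t / 2)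
      ≤ 48 * C2 * M / t + 16 * Real.pi * (M / t) + 8 * CK * I0 * M / t := by linarith
    _ = (48 * C2 + 16 * Real.pi + 8 * CK * I0) * M / t := by ring

end Pool.Agent.Split938.J3a
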