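import Pool.Agent.Split938.Defs

set_option autoImplicit false
open MeasureTheory Metric Set Filter Topology

namespace Pool.Agent.Split938.J3b

/-- lower-left corner of the grid square containing `z` -/
noncomputable def K (h : ℝ) (z : ℂ) : ℂ :=
  (((⌊z.re / h⌋ : ℝ) * h : ℝ) : ℂ) + (((⌊z.im / h⌋ : ℝ) * h : ℝ) : ℂ) * Complex.I

lemma K_re (h : ℝ) (z : ℂ) : (K h z).re = (⌊z.re / h⌋ : ℝ) * h := by
  unfold K
  rw [Complex.add_re, Complex.ofReal_re, Complex.re_ofReal_mul, Complex.I_re]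
  ring

lemma K_im (h : ℝ) (z : ℂ) : (K h z).im = (⌊z.im / h⌋ : ℝ) * h := by
  unfold K
  rw [Complex.add_im, Complex.ofReal_im, Complex.im_ofReal_mul, Complex.I_im]
  ring

lemma K_meas (h : ℝ) : Measurable (K h) := by
  unfold K
  have h1 : Measurable (fun z : ℂ => ((⌊z.re / h⌋ : ℤ) : ℝ)) :=
    (measurable_from_top (f := fun m : ℤ => (m : ℝ))).comp
      (Int.measurable_floor.comp (Complex.measurable_re.div_const h))
  have h2 : Measurable (fun z : ℂ => ((⌊z.im / h⌋ : ℤ) : ℝ)) :=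
    (measurable_from_top (f := fun m : ℤ => (m : ℝ))).comp
      (Int.measurable_floor.comp (Complex.measurable_im.div_const h))
  exact (Complex.measurable_ofReal.comp (h1.mul_const h)).add
    ((Complex.measurable_ofReal.comp (h2.mul_const h)).mul_const _)

lemma stepOn_K (f : ℂ → ℂ) (h : ℝ) (hh : 0 < h) : ∀ (n : ℕ) (i j : ℤ) (a : ℂ),
    a.re = i * h → a.im = j * h → StepOn (fun z => f (K h z)) n a (2 ^ n * h) := by
  intro n
  induction n with
  | zero =>
    intro i j a ha hb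
    refine ⟨f a, ?_⟩
    intro z hz
    obtain ⟨h1, h2, h3, h4⟩ := hz
    rw [ha] at h1 h2
    rw [hb] at h3 h4
    have e1 : ⌊z.re / h⌋ = i := by
      rw [Int.floor_eq_iff]
      constructor
      · rw [le_div_iff₀ hh]; exact h1
      · rw [div_lt_iff₀ hh]
        have : (2:ℝ) ^ 0 * h = h := by simp
        rw [this] at h2
        linarith
    have e2 : ⌊z.im / h⌋ = j := by
      rw [Int.floor_eq_iff]
      constructor
      · rw [le_div_iff₀ hh]; exact h3
      · rw [div_lt_iff₀ hh]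
        have : (2:ℝ) ^ 0 * h = h := by simp
        rw [this] at h4
        linarith
    have : K h z = a := by
      apply Complex.ext
      · rw [K_re, e1, ha]
      · rw [K_im, e2, hb]
    simp only [this]
  | succ n ih =>
    intro i j a ha hb
    have e : (2:ℝ) ^ (n + 1) * h / 2 = 2 ^ n * h := by ring
    have hc : ((i + 2 ^ n : ℤ) : ℝ) = (i : ℝ) + 2 ^ n := by push_cast; ring
    have hd : ((j + 2 ^ n : ℤ) : ℝ) = (j : ℝ) + 2 ^ n := by push_cast; ring
    show StepOn (fun z => f (K h z)) n a ((2:ℝ) ^ (n + 1) * h / 2) ∧ _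
    rw [e]
    refine ⟨ih i j a ha hb, ih (i + 2 ^ n) j _ ?_ ?_, ih i (j + 2 ^ n) _ ?_ ?_,
      ih (i + 2 ^ n) (j + 2 ^ n) _ ?_ ?_⟩
    · rw [hc, Complex.add_re, Complex.ofReal_re, ha]; ring
    · rw [Complex.add_im, Complex.ofReal_im, hb]; ring
    · rw [Complex.add_re, Complex.re_ofReal_mul, Complex.I_re, ha]; ring
    · rw [hd, Complex.add_im, Complex.im_ofReal_mul, Complex.I_im, hb]; ring
    · rw [hc, Complex.add_re, Complex.add_re, Complex.ofReal_re, Complex.re_ofReal_mul,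
        Complex.I_re, ha]; ring
    · rw [hd, Complex.add_im, Complex.add_im, Complex.ofReal_im, Complex.im_ofReal_mul,
        Complex.I_im, hb]; ring

lemma floor_near (h : ℝ) (hh : 0 < h) (x : ℝ) :
    (⌊x / h⌋ : ℝ) * h ≤ x ∧ x < (⌊x / h⌋ : ℝ) * h + h := by
  constructor
  · have := Int.floor_le (x / h)
    rwa [le_div_iff₀ hh] at this
  · have := Int.lt_floor_add_one (x / h)
    rw [div_lt_iff₀ hh] at this
    linarith

lemma K_near (h : ℝ) (hh : 0 < h) (z : ℂ) : ‖z - K h z‖ ≤ 2 * h := by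
  have h1 := floor_near h hh z.re
  have h2 := floor_near h hh z.im
  calc ‖z - K h z‖ ≤ |(z - K h z).re| + |(z - K h z).im| := Complex.norm_le_abs_re_add_abs_im _
    _ ≤ h + h := by
        rw [Complex.sub_re, Complex.sub_im, K_re, K_im]
        apply add_le_add
        · rw [abs_le]; constructor <;> linarith
        · rw [abs_le]; constructor <;> linarith
    _ = 2 * h := by ring

/-- outside the square the corner is outside the ball of radius `R` -/
lemma K_out (h : ℝ) (hh : 0 < h) (n : ℕ) (z a : ℂ) (ha : a.re = -(2 ^ n * h))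
    (hb : a.im = -(2 ^ n * h)) (hz : z ∉ sq a (2 ^ (n + 1) * h)) :
    2 ^ n * h ≤ ‖K h z‖ ∧ 2 ^ n * h ≤ ‖z‖ := by
  have key : ∀ x : ℝ, ¬ (-(2 ^ n * h) ≤ x ∧ x < 2 ^ n * h) →
      2 ^ n * h ≤ |(⌊x / h⌋ : ℝ) * h| ∧ 2 ^ n * h ≤ |x| := by
    intro x hx
    by_cases h1 : -(2 ^ n * h) ≤ x
    · have h2 : 2 ^ n * h ≤ x := by
        by_contra hc
        exact hx ⟨h1, not_le.mp hc⟩
      refine ⟨le_trans ?_ (le_abs_self _), le_trans h2 (le_abs_self _)⟩
      apply mul_le_mul_of_nonneg_right _ hh.le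
      have h3 : ((2 ^ n : ℤ) : ℝ) ≤ x / h := by
        rw [le_div_iff₀ hh]; push_cast; exact h2
      have h4 : (2 ^ n : ℤ) ≤ ⌊x / h⌋ := Int.le_floor.mpr h3
      have h5 : ((2 ^ n : ℤ) : ℝ) ≤ (⌊x / h⌋ : ℝ) := by exact_mod_cast h4
      push_cast at h5
      exact h5
    · have h2 : x < -(2 ^ n * h) := not_le.mp h1
      have h3 := (floor_near h hh x).1
      refine ⟨le_trans ?_ (neg_le_abs _), le_trans ?_ (neg_le_abs _)⟩ <;> linarith
  have hz' : ¬ ((-(2 ^ n * h) ≤ z.re ∧ z.re < 2 ^ n * h) ∧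
      (-(2 ^ n * h) ≤ z.im ∧ z.im < 2 ^ n * h)) := by
    intro hc
    apply hz
    refine ⟨?_, ?_, ?_, ?_⟩
    · rw [ha]; exact hc.1.1
    · rw [ha]; have := hc.1.2; rw [pow_succ]; linarith
    · rw [hb]; exact hc.2.1
    · rw [hb]; have := hc.2.2; rw [pow_succ]; linarith
  by_cases hr : (-(2 ^ n * h) ≤ z.re ∧ z.re < 2 ^ n * h)
  · have hi : ¬ (-(2 ^ n * h) ≤ z.im ∧ z.im < 2 ^ n * h) := fun hc => hz' ⟨hr, hc⟩
    have := key z.im hi
    refine ⟨le_trans ?_ (Complex.abs_im_le_norm _), le_trans this.2 (Complex.abs_im_le_norm _)⟩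
    rw [K_im]; exact this.1
  · have := key z.re hr
    refine ⟨le_trans ?_ (Complex.abs_re_le_norm _), le_trans this.2 (Complex.abs_re_le_norm _)⟩
    rw [K_re]; exact this.1

lemma bk_cont (δ : ℝ) (hδ : 0 < δ) : Continuous (bk δ) := by
  unfold bk
  refine (Continuous.mul continuous_const (Continuous.div ?_ ?_ ?_)).neg
  · exact (Complex.continuous_conj).pow 2
  · exact Complex.continuous_ofReal.comp (((continuous_norm.pow 2).add continuous_const).pow 2)
  · intro w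
    rw [Complex.ofReal_ne_zero]
    positivity

lemma bk_bound (δ : ℝ) (hδ : 0 < δ) (w : ℂ) : ‖bk δ w‖ ≤ 1 / δ ^ 2 := by
  unfold bk
  rw [norm_neg, norm_mul, norm_div, norm_pow, norm_inv, Complex.norm_conj, Complex.norm_real,
    Complex.norm_real, Real.norm_of_nonneg Real.pi_pos.le,
    Real.norm_of_nonneg (by positivity : (0:ℝ) ≤ (‖w‖ ^ 2 + δ ^ 2) ^ 2)]
  have h1 : Real.pi⁻¹ ≤ 1 := inv_le_one_of_one_le₀ (by linarith [Real.pi_gt_three])
  have h2 : ‖w‖ ^ 2 / (‖w‖ ^ 2 + δ ^ 2) ^ 2 ≤ 1 / δ ^ 2 := by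
    rw [div_le_div_iff₀ (by positivity) (by positivity)]
    nlinarith [sq_nonneg (‖w‖ ^ 2), sq_nonneg (δ ^ 2), mul_nonneg (sq_nonneg ‖w‖) (sq_nonneg δ)]
  have h3 : (0:ℝ) ≤ ‖w‖ ^ 2 / (‖w‖ ^ 2 + δ ^ 2) ^ 2 := by positivity
  calc Real.pi⁻¹ * (‖w‖ ^ 2 / (‖w‖ ^ 2 + δ ^ 2) ^ 2)
      ≤ 1 * (‖w‖ ^ 2 / (‖w‖ ^ 2 + δ ^ 2) ^ 2) := mul_le_mul_of_nonneg_right h1 h3
    _ ≤ 1 / δ ^ 2 := by rw [one_mul]; exact h2

lemma bk_int (δ : ℝ) (hδ : 0 < δ) (E : ℂ → ℂ) (hE : Integrable E) (z : ℂ) :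
    Integrable (fun ζ => bk δ (z - ζ) * E ζ) := by
  apply Integrable.bdd_mul (c := 1 / δ ^ 2) hE
  · exact ((bk_cont δ hδ).comp (continuous_const.sub continuous_id)).aestronglyMeasurable
  · exact Filter.Eventually.of_forall (fun ζ => bk_bound δ hδ _)

lemma Bk_diff (δ : ℝ) (hδ : 0 < δ) (E g : ℂ → ℂ) (hE : Integrable E) (hg : Integrable g) (z : ℂ) :
    ‖Bk δ E z - Bk δ g z‖ ≤ 1 / δ ^ 2 * ∫ ζ, ‖E ζ - g ζ‖ := by
  unfold Bk
  rw [← integral_sub (bk_int δ hδ E hE z) (bk_int δ hδ g hg z), ← integral_const_mul]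
  apply norm_integral_le_of_norm_le
  · exact ((hE.sub hg).norm).const_mul _
  · refine Filter.Eventually.of_forall (fun ζ => ?_)
    rw [← mul_sub, norm_mul]
    exact mul_le_mul_of_nonneg_right (bk_bound δ hδ _) (norm_nonneg _)

/-- approximation of an integrable function by dyadic step functions -/
lemma approx (E : ℂ → ℂ) (hE : Integrable E) (ε : ℝ) (hε : 0 < ε) :
    ∃ (n : ℕ) (a : ℂ) (s : ℝ) (g : ℂ → ℂ), 0 < s ∧ Integrable g ∧ StepOn g n a s ∧
      (∀ z, z ∉ sq a s → g z = 0) ∧ ∫ ζ, ‖E ζ - g ζ‖ ≤ 2 * ε := by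
  obtain ⟨f, hfc, hfE, hfcont, hfi⟩ := hE.exists_hasCompactSupport_integral_sub_le hε
  obtain ⟨R0, hR0⟩ := (hfc.isCompact).isBounded.subset_closedBall (0:ℂ)
  set R : ℝ := max R0 1 + 1 with hRdef
  have hR1 : 1 < R := by
    have := le_max_right R0 1
    linarith
  have hRpos : 0 < R := by linarith
  have hf0 : ∀ z : ℂ, R ≤ ‖z‖ → f z = 0 := by
    intro z hz
    by_contra hne
    have h1 : z ∈ tsupport f := subset_tsupport f hne
    have h2 := hR0 h1
    rw [mem_closedBall, dist_zero_right] at h2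
    have := le_max_left R0 1
    linarith
  set V : ℝ := (volume (closedBall (0:ℂ) (3 * R))).toReal with hV
  have hVfin : volume (closedBall (0:ℂ) (3 * R)) < ⊤ := measure_closedBall_lt_top
  have hV0 : 0 ≤ V := ENNReal.toReal_nonneg
  set η : ℝ := ε / (V + 1) with hη
  have hηpos : 0 < η := by positivity
  have huc : UniformContinuous f := hfc.uniformContinuous_of_continuous hfcont
  obtain ⟨d, hd, hfd⟩ := Metric.uniformContinuous_iff.mp huc η hηpos
  obtain ⟨n, hn⟩ := pow_unbounded_of_one_lt (2 * R / d) (one_lt_two (α := ℝ))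
  set h : ℝ := R / 2 ^ n with hh
  have h2n : (0:ℝ) < 2 ^ n := by positivity
  have hpos : 0 < h := by positivity
  have hRh : 2 ^ n * h = R := by rw [hh]; field_simp
  have h2h : 2 * h < d := by
    rw [div_lt_iff₀ hd] at hn
    have : 2 * h * 2 ^ n < d * 2 ^ n := by nlinarith
    exact lt_of_mul_lt_mul_right this h2n.le
  set a : ℂ := ⟨-(2 ^ n * h), -(2 ^ n * h)⟩ with ha
  set g : ℂ → ℂ := fun z => f (K h z) with hg
  have hgm : Measurable g := hfcont.measurable.comp (K_meas h)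
  have hdist : ∀ z, ‖f z - g z‖ ≤ η := by
    intro z
    have h1 := K_near h hpos z
    have h2 := hfd (a := z) (b := K h z) (by rw [dist_eq_norm]; linarith)
    rw [dist_eq_norm] at h2
    exact h2.le
  have hout : ∀ z, z ∉ sq a (2 ^ (n + 1) * h) → g z = 0 ∧ f z = 0 := by
    intro z hz
    have := K_out h hpos n z a rfl rfl hz
    rw [hRh] at this
    exact ⟨hf0 _ this.1, hf0 _ this.2⟩
  have hin : ∀ z, z ∈ sq a (2 ^ (n + 1) * h) → z ∈ closedBall (0:ℂ) (3 * R) := by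
    intro z hz
    obtain ⟨h1, h2, h3, h4⟩ := hz
    have ha1 : a.re = -(2 ^ n * h) := rfl
    have ha2 : a.im = -(2 ^ n * h) := rfl
    have hs : (2:ℝ) ^ (n + 1) * h = 2 * R := by rw [pow_succ]; linarith
    rw [ha1, hRh] at h1
    rw [ha1, hRh, hs] at h2
    rw [ha2, hRh] at h3
    rw [ha2, hRh, hs] at h4
    rw [mem_closedBall, dist_zero_right]
    calc ‖z‖ ≤ |z.re| + |z.im| := Complex.norm_le_abs_re_add_abs_im z
      _ ≤ R + R := by
          apply add_le_add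
          · rw [abs_le]; constructor <;> linarith
          · rw [abs_le]; constructor <;> linarith
      _ ≤ 3 * R := by linarith
  have hbd : ∀ z, ‖f z - g z‖ ≤ (closedBall (0:ℂ) (3 * R)).indicator (fun _ => η) z := by
    intro z
    by_cases hz : z ∈ sq a (2 ^ (n + 1) * h)
    · rw [indicator_of_mem (hin z hz)]
      exact hdist z
    · rw [(hout z hz).1, (hout z hz).2, sub_zero, norm_zero]
      exact indicator_nonneg (fun _ _ => hηpos.le) z
  have hind : Integrable ((closedBall (0:ℂ) (3 * R)).indicator (fun _ => η)) := by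
    rw [integrable_indicator_iff measurableSet_closedBall]
    exact integrableOn_const hVfin.ne
  have hfgi : Integrable (fun z => f z - g z) := by
    refine Integrable.mono' hind ?_ (Filter.Eventually.of_forall hbd)
    exact (hfcont.measurable.sub hgm).aestronglyMeasurable
  have hgi : Integrable g := by
    have := hfi.sub hfgi
    refine this.congr (Filter.Eventually.of_forall (fun z => ?_))
    simp
  refine ⟨n + 1, a, 2 ^ (n + 1) * h, g, by positivity, hgi, ?_, fun z hz => (hout z hz).1, ?_⟩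
  · apply stepOn_K f h hpos (n + 1) (-2 ^ n) (-2 ^ n) a
    · show -(2 ^ n * h) = _
      push_cast; ring
    · show -(2 ^ n * h) = _
      push_cast; ring
  · have h1 : ∫ ζ, ‖f ζ - g ζ‖ ≤ ε := by
      calc ∫ ζ, ‖f ζ - g ζ‖ ≤ ∫ ζ, (closedBall (0:ℂ) (3 * R)).indicator (fun _ => η) ζ :=
            integral_mono hfgi.norm hind hbd
        _ = V * η := by
            rw [integral_indicator measurableSet_closedBall, setIntegral_const]
            rfl
        _ ≤ ε := by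
            rw [hη, mul_div_assoc', div_le_iff₀ (by positivity)]
            nlinarith
    calc ∫ ζ, ‖E ζ - g ζ‖ ≤ ∫ ζ, (‖E ζ - f ζ‖ + ‖f ζ - g ζ‖) := by
          apply integral_mono (hE.sub hgi).norm ((hE.sub hfi).norm.add hfgi.norm)
          intro ζ
          simp only
          calc ‖E ζ - g ζ‖ = ‖(E ζ - f ζ) + (f ζ - g ζ)‖ := by congr 1; ring
            _ ≤ _ := norm_add_le _ _
      _ = (∫ ζ, ‖E ζ - f ζ‖) + ∫ ζ, ‖f ζ - g ζ‖ := integral_add (hE.sub hfi).norm hfgi.norm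
      _ ≤ ε + ε := add_le_add hfE h1
      _ = 2 * ε := by ring

/-- from step functions to all integrable functions -/
theorem main
    (hstep : ∃ C : ℝ, 0 < C ∧ ∀ δ : ℝ, 0 < δ → ∀ (n : ℕ) (a : ℂ) (s : ℝ), 0 < s → ∀ (E : ℂ → ℂ),
      Integrable E → StepOn E n a s → (∀ z, z ∉ sq a s → E z = 0) → ∀ t : ℝ, 0 < t →
      volume {z : ℂ | t < ‖Bk δ E z‖} ≤ ENNReal.ofReal (C * (∫ ζ, ‖E ζ‖) / t)) :
    ∃ C : ℝ, 0 < C ∧ ∀ δ : ℝ, 0 < δ → ∀ (E : ℂ → ℂ), Integrable E → ∀ t : ℝ, 0 < t →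
      volume {z : ℂ | t < ‖Bk δ E z‖} ≤ ENNReal.ofReal (C * (∫ ζ, ‖E ζ‖) / t) := by
  obtain ⟨C, hC, hst⟩ := hstep
  refine ⟨4 * C, by positivity, ?_⟩
  intro δ hδ E hE t ht
  have hI0 : 0 ≤ ∫ ζ, ‖E ζ‖ := integral_nonneg (fun _ => norm_nonneg _)
  rcases hI0.eq_or_lt with hI | hI
  · have hz : ∀ᵐ ζ : ℂ, E ζ = 0 := by
      have := (integral_eq_zero_iff_of_nonneg (fun ζ => norm_nonneg (E ζ)) hE.norm).mp hI.symm
      filter_upwards [this] with ζ hζ
      exact norm_eq_zero.mp hζ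
    have hB : ∀ z, Bk δ E z = 0 := by
      intro z
      unfold Bk
      rw [← integral_zero ℂ ℂ (μ := (volume : Measure ℂ))]
      apply integral_congr_ae
      filter_upwards [hz] with ζ hζ
      rw [hζ, mul_zero]
    have : {z : ℂ | t < ‖Bk δ E z‖} = ∅ := by
      ext z
      simp only [mem_ofPred_eq, mem_empty_iff_false, iff_false, not_lt]
      rw [hB z, norm_zero]
      exact ht.le
    rw [this, measure_empty]
    exact zero_le
  · set I : ℝ := ∫ ζ, ‖E ζ‖ with hIdef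
    obtain ⟨ε, hε, he1, he2⟩ : ∃ ε : ℝ, 0 < ε ∧ 2 * ε ≤ I ∧ 1 / δ ^ 2 * (2 * ε) ≤ t / 2 := by
      refine ⟨min (I / 2) (δ ^ 2 * t / 4), by positivity, ?_, ?_⟩
      · have := min_le_left (I / 2) (δ ^ 2 * t / 4)
        linarith
      · have h1 := min_le_right (I / 2) (δ ^ 2 * t / 4)
        calc 1 / δ ^ 2 * (2 * min (I / 2) (δ ^ 2 * t / 4))
            ≤ 1 / δ ^ 2 * (2 * (δ ^ 2 * t / 4)) := by
              apply mul_le_mul_of_nonneg_left _ (by positivity)
              linarith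
          _ = t / 2 := by field_simp; ring
    obtain ⟨n, a, s, g, hs, hgi, hgs, hg0, hEg⟩ := approx E hE ε hε
    have hsub : {z : ℂ | t < ‖Bk δ E z‖} ⊆ {z : ℂ | t / 2 < ‖Bk δ g z‖} := by
      intro z hz
      rw [mem_ofPred_eq] at hz ⊢
      have h1 := Bk_diff δ hδ E g hE hgi z
      have h2 : 1 / δ ^ 2 * ∫ ζ, ‖E ζ - g ζ‖ ≤ t / 2 :=
        le_trans (mul_le_mul_of_nonneg_left hEg (by positivity)) he2
      have h3 : ‖Bk δ E z‖ ≤ ‖Bk δ E z - Bk δ g z‖ + ‖Bk δ g z‖ := by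
        calc ‖Bk δ E z‖ = ‖(Bk δ E z - Bk δ g z) + Bk δ g z‖ := by congr 1; ring
          _ ≤ _ := norm_add_le _ _
      linarith
    have hgI : ∫ ζ, ‖g ζ‖ ≤ 2 * I := by
      calc ∫ ζ, ‖g ζ‖ ≤ ∫ ζ, (‖E ζ‖ + ‖E ζ - g ζ‖) := by
            apply integral_mono hgi.norm (hE.norm.add (hE.sub hgi).norm)
            intro ζ
            simp only
            calc ‖g ζ‖ = ‖E ζ - (E ζ - g ζ)‖ := by congr 1; ring
              _ ≤ _ := norm_sub_le _ _
        _ = I + ∫ ζ, ‖E ζ - g ζ‖ := integral_add hE.norm (hE.sub hgi).norm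
        _ ≤ 2 * I := by linarith
    calc volume {z : ℂ | t < ‖Bk δ E z‖} ≤ volume {z : ℂ | t / 2 < ‖Bk δ g z‖} :=
          measure_mono hsub
      _ ≤ ENNReal.ofReal (C * (∫ ζ, ‖g ζ‖) / (t / 2)) :=
          hst δ hδ n a s hs g hgi hgs hg0 (t / 2) (by positivity)
      _ ≤ ENNReal.ofReal (4 * C * I / t) := by
          apply ENNReal.ofReal_le_ofReal
          rw [div_le_div_iff₀ (by positivity) ht]
          have : C * (∫ ζ, ‖g ζ‖) ≤ C * (2 * I) := mul_le_mul_of_nonneg_left hgI hC.le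
          nlinarith

end Pool.Agent.Split938.J3b
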