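import Pool.Agent.Split938.Defs

set_option autoImplicit false
open MeasureTheory Metric Set Filter Topology

namespace Pool.Agent.Split938.J3c

theorem bk_cont (δ : ℝ) (hδ : 0 < δ) : Continuous (bk δ) := by
  unfold bk
  refine (continuous_const.mul (Continuous.div ?_ ?_ ?_)).neg
  · exact Complex.continuous_conj.pow 2
  · exact Complex.continuous_ofReal.comp (by fun_prop)
  · intro w
    have h : (0 : ℝ) < (‖w‖ ^ 2 + δ ^ 2) ^ 2 := by positivity
    exact_mod_cast h.ne'

theorem bk_bound (δ : ℝ) (hδ : 0 < δ) (w : ℂ) : ‖bk δ w‖ ≤ 1 / δ ^ 2 := by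
  have h1 : ‖bk δ w‖ = Real.pi⁻¹ * (‖w‖ ^ 2 / (‖w‖ ^ 2 + δ ^ 2) ^ 2) := by
    unfold bk
    rw [norm_neg, norm_mul, norm_div, norm_pow, norm_inv, Complex.norm_real, Complex.norm_real,
      RCLike.norm_conj, Real.norm_eq_abs, Real.norm_eq_abs, abs_of_pos Real.pi_pos,
      abs_of_nonneg (by positivity)]
  rw [h1]
  have h2 : ‖w‖ ^ 2 / (‖w‖ ^ 2 + δ ^ 2) ^ 2 ≤ 1 / δ ^ 2 := by
    rw [div_le_div_iff₀ (by positivity) (by positivity)]
    have h3 : 0 ≤ ‖w‖ ^ 2 := by positivity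
    have h4 : 0 ≤ δ ^ 2 := by positivity
    nlinarith [mul_nonneg h3 h4, sq_nonneg (‖w‖ ^ 2), sq_nonneg (δ ^ 2)]
  have h5 : Real.pi⁻¹ ≤ 1 := inv_le_one_of_one_le₀ (by linarith [Real.pi_gt_three])
  calc Real.pi⁻¹ * (‖w‖ ^ 2 / (‖w‖ ^ 2 + δ ^ 2) ^ 2)
      ≤ 1 * (‖w‖ ^ 2 / (‖w‖ ^ 2 + δ ^ 2) ^ 2) :=
        mul_le_mul_of_nonneg_right h5 (by positivity)
    _ ≤ 1 / δ ^ 2 := by rw [one_mul]; exact h2

theorem Bk_cont (δ : ℝ) (hδ : 0 < δ) (E : ℂ → ℂ) (hE : Integrable E) : Continuous (Bk δ E) := by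
  unfold Bk
  refine continuous_of_dominated (bound := fun ζ => (1 / δ ^ 2) * ‖E ζ‖) ?_ ?_ ?_ ?_
  · intro z
    exact ((bk_cont δ hδ).comp (continuous_const.sub continuous_id)).aestronglyMeasurable.mul
      hE.aestronglyMeasurable
  · intro z
    refine Filter.Eventually.of_forall (fun ζ => ?_)
    rw [norm_mul]
    exact mul_le_mul_of_nonneg_right (bk_bound δ hδ _) (norm_nonneg _)
  · exact hE.norm.const_mul _
  · exact Filter.Eventually.of_forall (fun ζ =>
      ((bk_cont δ hδ).comp (continuous_id.sub continuous_const)).mul continuous_const)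

/-- from weak type to `L^{1/2}` on balls -/
theorem main
    (hw : ∃ C : ℝ, 0 < C ∧ ∀ δ : ℝ, 0 < δ → ∀ (E : ℂ → ℂ), Integrable E → ∀ t : ℝ, 0 < t →
      volume {z : ℂ | t < ‖Bk δ E z‖} ≤ ENNReal.ofReal (C * (∫ ζ, ‖E ζ‖) / t))
    (R : ℝ) (hR : 0 < R) :
    ∃ C : ℝ, 0 < C ∧ ∀ δ : ℝ, 0 < δ → ∀ (E : ℂ → ℂ), Integrable E →
      IntegrableOn (fun z => Real.sqrt ‖Bk δ E z‖) (ball 0 R) ∧
      ∫ z in ball (0 : ℂ) R, Real.sqrt ‖Bk δ E z‖ ≤ C * Real.sqrt (∫ ζ, ‖E ζ‖) := by
  obtain ⟨C, hC, hw⟩ := hw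
  set V : ℝ := (volume (ball (0 : ℂ) R)).toReal with hV
  have hV0 : 0 ≤ V := ENNReal.toReal_nonneg
  have hVfin : volume (ball (0 : ℂ) R) ≠ ⊤ := measure_ball_lt_top.ne
  refine ⟨(V + 1) * Real.sqrt C, by positivity, fun δ hδ E hE => ?_⟩
  have hcont : Continuous (fun z => Real.sqrt ‖Bk δ E z‖) := (Bk_cont δ hδ E hE).norm.sqrt
  have hint : IntegrableOn (fun z => Real.sqrt ‖Bk δ E z‖) (ball 0 R) :=
    (hcont.continuousOn.integrableOn_compact (isCompact_closedBall (0 : ℂ) R)).mono_set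
      ball_subset_closedBall
  refine ⟨hint, ?_⟩
  have hE0 : 0 ≤ ∫ ζ, ‖E ζ‖ := integral_nonneg fun _ => norm_nonneg _
  set A : ℝ := C * ∫ ζ, ‖E ζ‖ with hAdef
  have hA : 0 ≤ A := mul_nonneg hC.le hE0
  have key : ∀ t0 : ℝ, 0 < t0 →
      ∫ z in ball (0 : ℂ) R, Real.sqrt ‖Bk δ E z‖ ≤ V * t0 + A / t0 := by
    intro t0 ht0
    rw [integral_eq_lintegral_of_nonneg_ae
      (Filter.Eventually.of_forall fun z => Real.sqrt_nonneg _) hcont.aestronglyMeasurable]
    apply ENNReal.toReal_le_of_le_ofReal (by positivity)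
    rw [lintegral_eq_lintegral_meas_lt _
      (Filter.Eventually.of_forall fun z => Real.sqrt_nonneg _) hcont.aemeasurable]
    rw [← Ioc_union_Ioi_eq_Ioi ht0.le]
    refine (lintegral_union_le _ _ _).trans ?_
    rw [ENNReal.ofReal_add (by positivity) (by positivity)]
    apply add_le_add
    · calc ∫⁻ t in Ioc 0 t0, (volume.restrict (ball (0 : ℂ) R)) {a | t < Real.sqrt ‖Bk δ E a‖}
          ≤ ∫⁻ t in Ioc 0 t0, volume (ball (0 : ℂ) R) := by
            apply lintegral_mono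
            intro t
            refine (measure_mono (subset_univ _)).trans ?_
            rw [Measure.restrict_apply_univ]
        _ = volume (ball (0 : ℂ) R) * ENNReal.ofReal t0 := by
            rw [setLIntegral_const, Real.volume_Ioc, sub_zero]
        _ ≤ ENNReal.ofReal (V * t0) := by
            rw [ENNReal.ofReal_mul hV0, hV, ENNReal.ofReal_toReal hVfin]
    · have hI : IntegrableOn (fun t : ℝ => A * t ^ (-2 : ℝ)) (Ioi t0) :=
        (integrableOn_Ioi_rpow_of_lt (by norm_num) ht0).const_mul A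
      calc ∫⁻ t in Ioi t0, (volume.restrict (ball (0 : ℂ) R)) {a | t < Real.sqrt ‖Bk δ E a‖}
          ≤ ∫⁻ t in Ioi t0, ENNReal.ofReal (A * t ^ (-2 : ℝ)) := by
            apply setLIntegral_mono' measurableSet_Ioi
            intro t ht
            have ht' : 0 < t := ht0.trans ht
            refine (Measure.restrict_apply_le _ _).trans ?_
            have h3 : {a : ℂ | t < Real.sqrt ‖Bk δ E a‖} = {a : ℂ | t ^ 2 < ‖Bk δ E a‖} := by
              ext a
              exact Real.lt_sqrt ht'.le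
            rw [h3]
            refine (hw δ hδ E hE (t ^ 2) (by positivity)).trans ?_
            apply ENNReal.ofReal_le_ofReal
            rw [Real.rpow_neg ht'.le, ← hAdef, div_eq_mul_inv]
            norm_num
        _ = ENNReal.ofReal (∫ t in Ioi t0, A * t ^ (-2 : ℝ)) := by
            rw [ofReal_integral_eq_lintegral_ofReal hI]
            refine (ae_restrict_mem measurableSet_Ioi).mono (fun t ht => ?_)
            have ht' : (0 : ℝ) < t := ht0.trans ht
            have := Real.rpow_nonneg ht'.le (-2 : ℝ)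
            exact mul_nonneg hA this
        _ ≤ ENNReal.ofReal (A / t0) := by
            apply ENNReal.ofReal_le_ofReal
            rw [integral_const_mul, integral_Ioi_rpow_of_lt (by norm_num) ht0]
            have : -t0 ^ ((-2 : ℝ) + 1) / (-2 + 1) = t0⁻¹ := by
              rw [show ((-2 : ℝ) + 1) = -1 by norm_num, Real.rpow_neg_one]
              norm_num
            rw [this, div_eq_mul_inv]
  have hs : (V + 1) * Real.sqrt C * Real.sqrt (∫ ζ, ‖E ζ‖) = (V + 1) * Real.sqrt A := by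
    rw [mul_assoc, ← Real.sqrt_mul hC.le]
  rw [hs]
  rcases hA.eq_or_lt with h0 | h0
  · rw [← h0, Real.sqrt_zero, mul_zero]
    apply le_of_forall_pos_le_add
    intro ε hε
    have h1 := key (ε / (V + 1)) (by positivity)
    rw [← h0, zero_div, add_zero] at h1
    have h2 : V * (ε / (V + 1)) ≤ ε := by
      rw [mul_div_assoc', div_le_iff₀ (by positivity)]
      nlinarith
    linarith
  · have h1 := key (Real.sqrt A) (Real.sqrt_pos.mpr h0)
    rw [Real.div_sqrt] at h1
    linarith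

end Pool.Agent.Split938.J3c
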