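import Pool.Agent.Split938.Defs

set_option autoImplicit false
open MeasureTheory Metric Set Filter Topology

namespace Pool.Agent.Split938.J6a

theorem kerInt : ∫⁻ w in ball (0 : ℂ) 1, ENNReal.ofReal (‖w‖⁻¹) < ⊤ := by
  have h : IntegrableOn (fun x : ℂ => ‖x‖⁻¹) (ball (0 : ℂ) 1) := by
    have := (integrableOn_fun_norm_addHaar (E := ℂ) (F := ℝ) (volume : Measure ℂ)
      (f := fun y : ℝ => y⁻¹) (r := 1)).mpr ?_
    · exact this
    · have h1 : IntegrableOn (fun _ : ℝ => (1 : ℝ)) (Ioo (0 : ℝ) 1) := by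
        simp [integrableOn_const_iff]
      refine h1.congr_fun ?_ measurableSet_Ioo
      intro y hy
      have hy0 : y ≠ 0 := ne_of_gt hy.1
      simp [Complex.finrank_real_complex, hy0]
  exact h.lintegral_lt_top

theorem kerB (R : ℝ) : ∃ C : ℝ, 0 < C ∧ ∀ x : ℂ,
    ∫⁻ z in ball (0 : ℂ) R, ENNReal.ofReal (‖z - x‖⁻¹) ≤ ENNReal.ofReal C := by
  have hfin : (∫⁻ w in ball (0 : ℂ) 1, ENNReal.ofReal (‖w‖⁻¹)) + volume (ball (0 : ℂ) R) ≠ ⊤ :=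
    ENNReal.add_ne_top.mpr ⟨kerInt.ne, measure_ball_lt_top.ne⟩
  refine ⟨((∫⁻ w in ball (0 : ℂ) 1, ENNReal.ofReal (‖w‖⁻¹)) + volume (ball (0 : ℂ) R)).toReal + 1,
    by positivity, fun x => ?_⟩
  have h1 : ∀ z : ℂ, ENNReal.ofReal (‖z - x‖⁻¹) ≤
      (ball (0 : ℂ) 1).indicator (fun w => ENNReal.ofReal (‖w‖⁻¹)) (z - x) + 1 := by
    intro z
    by_cases hz : z - x ∈ ball (0 : ℂ) 1
    · rw [Set.indicator_of_mem hz]
      exact le_self_add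
    · rw [Set.indicator_of_notMem hz, zero_add]
      rw [mem_ball_zero_iff, not_lt] at hz
      exact ENNReal.ofReal_le_one.mpr (inv_le_one_of_one_le₀ hz)
  calc ∫⁻ z in ball (0 : ℂ) R, ENNReal.ofReal (‖z - x‖⁻¹)
      ≤ ∫⁻ z in ball (0 : ℂ) R, ((ball (0 : ℂ) 1).indicator (fun w => ENNReal.ofReal (‖w‖⁻¹)) (z - x) + 1) :=
        lintegral_mono h1
    _ = (∫⁻ z in ball (0 : ℂ) R, (ball (0 : ℂ) 1).indicator (fun w => ENNReal.ofReal (‖w‖⁻¹)) (z - x)) +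
          ∫⁻ z in ball (0 : ℂ) R, 1 := by
        rw [lintegral_add_right _ measurable_const]
    _ ≤ (∫⁻ z, (ball (0 : ℂ) 1).indicator (fun w => ENNReal.ofReal (‖w‖⁻¹)) (z - x)) +
          volume (ball (0 : ℂ) R) := by
        refine add_le_add (setLIntegral_le_lintegral _ _) ?_
        simp
    _ = (∫⁻ w in ball (0 : ℂ) 1, ENNReal.ofReal (‖w‖⁻¹)) + volume (ball (0 : ℂ) R) := by
        rw [lintegral_sub_right_eq_self (fun z => (ball (0 : ℂ) 1).indicator (fun w => ENNReal.ofReal (‖w‖⁻¹)) z) x,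
          lintegral_indicator measurableSet_ball]
    _ = ENNReal.ofReal (((∫⁻ w in ball (0 : ℂ) 1, ENNReal.ofReal (‖w‖⁻¹)) + volume (ball (0 : ℂ) R)).toReal) := by
        rw [ENNReal.ofReal_toReal hfin]
    _ ≤ _ := ENNReal.ofReal_le_ofReal (by linarith)

theorem contK (κ : ℂ → ℂ) (hκ : Continuous κ) (M : ℝ) (hM : ∀ w, ‖κ w‖ ≤ M) (E : ℂ → ℂ)
    (hE : Integrable E) : Continuous (fun z => ∫ ζ : ℂ, κ (z - ζ) * E ζ) := by
  refine continuous_of_dominated (bound := fun ζ => M * ‖E ζ‖) ?_ ?_ (hE.norm.const_mul M) ?_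
  · intro z
    exact (hκ.comp (continuous_const.sub continuous_id)).aestronglyMeasurable.mul hE.1
  · intro z
    refine Filter.Eventually.of_forall fun ζ => ?_
    rw [norm_mul]
    exact mul_le_mul_of_nonneg_right (hM _) (norm_nonneg _)
  · refine Filter.Eventually.of_forall fun ζ => ?_
    exact (hκ.comp (continuous_id.sub continuous_const)).mul continuous_const

theorem intOn (g : ℂ → ℝ) (hg : Continuous g) (R : ℝ) : IntegrableOn g (ball 0 R) :=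
  (hg.continuousOn.integrableOn_compact (isCompact_closedBall (0 : ℂ) R)).mono_set ball_subset_closedBall

theorem normK (R C : ℝ) (hC : 0 < C) (hx : ∀ x : ℂ,
    ∫⁻ z in ball (0 : ℂ) R, ENNReal.ofReal (‖z - x‖⁻¹) ≤ ENNReal.ofReal C)
    (κ : ℂ → ℂ) (hκ : Continuous κ) (M : ℝ) (hM : ∀ w, ‖κ w‖ ≤ M) (hκ2 : ∀ w, ‖κ w‖ ≤ ‖w‖⁻¹)
    (E : ℂ → ℂ) (hE : Integrable E) :
    ∫ z in ball (0 : ℂ) R, ‖∫ ζ : ℂ, κ (z - ζ) * E ζ‖ ≤ C * ∫ ζ, ‖E ζ‖ := by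
  have hc := contK κ hκ M hM E hE
  have e1 := integral_norm_eq_lintegral_enorm (μ := volume.restrict (ball (0 : ℂ) R)) hc.aestronglyMeasurable
  have e2 := integral_norm_eq_lintegral_enorm (μ := (volume : Measure ℂ)) hE.1
  rw [e1, e2]
  have hEf : ∫⁻ ζ, ‖E ζ‖ₑ ≠ ⊤ := hE.2.ne
  rw [← ENNReal.toReal_ofReal hC.le, ← ENNReal.toReal_mul]
  refine ENNReal.toReal_mono (ENNReal.mul_ne_top ENNReal.ofReal_ne_top hEf) ?_
  calc ∫⁻ z in ball (0 : ℂ) R, ‖∫ ζ : ℂ, κ (z - ζ) * E ζ‖ₑ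
      ≤ ∫⁻ z in ball (0 : ℂ) R, ∫⁻ ζ, ‖κ (z - ζ)‖ₑ * ‖E ζ‖ₑ := by
        refine lintegral_mono fun z => ?_
        refine (enorm_integral_le_lintegral_enorm _).trans (le_of_eq ?_)
        simp only [enorm_mul]
    _ = ∫⁻ ζ, ∫⁻ z in ball (0 : ℂ) R, ‖κ (z - ζ)‖ₑ * ‖E ζ‖ₑ := by
        refine lintegral_lintegral_swap ?_
        have hm1 : AEMeasurable (fun p : ℂ × ℂ => ‖κ (p.1 - p.2)‖ₑ)
            ((volume.restrict (ball (0 : ℂ) R)).prod volume) :=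
          ((hκ.comp (continuous_fst.sub continuous_snd)).measurable.enorm).aemeasurable
        have hm2 : AEMeasurable (fun p : ℂ × ℂ => ‖E p.2‖ₑ)
            ((volume.restrict (ball (0 : ℂ) R)).prod volume) :=
          (hE.1.comp_snd).enorm
        exact hm1.mul hm2
    _ ≤ ∫⁻ ζ, ENNReal.ofReal C * ‖E ζ‖ₑ := by
        refine lintegral_mono fun ζ => ?_
        have hm : Measurable fun z : ℂ => ‖κ (z - ζ)‖ₑ :=
          (hκ.comp (continuous_id.sub continuous_const)).measurable.enorm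
        simp only []
        rw [lintegral_mul_const _ hm]
        refine mul_le_mul_left ?_ _
        refine (lintegral_mono fun z => ?_).trans (hx ζ)
        rw [← ofReal_norm]
        exact ENNReal.ofReal_le_ofReal (hκ2 _)
    _ = ENNReal.ofReal C * ∫⁻ ζ, ‖E ζ‖ₑ := by
        rw [lintegral_const_mul'' _ hE.1.enorm]

theorem csq (R : ℝ) (hR : 0 < R) (g : ℂ → ℝ) (hg : Continuous g) (hg0 : ∀ z, 0 ≤ g z) :
    ∫ z in ball (0 : ℂ) R, Real.sqrt (g z) ≤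
      Real.sqrt (volume.real (ball (0 : ℂ) R)) * Real.sqrt (∫ z in ball (0 : ℂ) R, g z) := by
  set V := volume.real (ball (0 : ℂ) R) with hV
  have hV0 : 0 < V := by
    rw [hV, Measure.real]
    exact ENNReal.toReal_pos (measure_ball_pos volume _ hR).ne' measure_ball_lt_top.ne
  set T := ∫ z in ball (0 : ℂ) R, Real.sqrt (g z) with hT
  have hs : Continuous fun z => Real.sqrt (g z) := hg.sqrt
  have h1 : 0 ≤ ∫ z in ball (0 : ℂ) R, (g z - (2 * (T / V)) * Real.sqrt (g z) + (T / V) ^ 2) := by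
    refine setIntegral_nonneg measurableSet_ball fun z _ => ?_
    have : g z - (2 * (T / V)) * Real.sqrt (g z) + (T / V) ^ 2 = (Real.sqrt (g z) - T / V) ^ 2 := by
      rw [sub_sq, Real.sq_sqrt (hg0 z)]; ring
    rw [this]
    positivity
  have h2 : ∫ z in ball (0 : ℂ) R, (g z - (2 * (T / V)) * Real.sqrt (g z) + (T / V) ^ 2) =
      (∫ z in ball (0 : ℂ) R, g z) - 2 * (T / V) * T + V * (T / V) ^ 2 := by
    have i1 : IntegrableOn (fun z => g z - 2 * (T / V) * Real.sqrt (g z)) (ball 0 R) :=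
      intOn _ (by fun_prop) R
    have i2 : IntegrableOn (fun z => 2 * (T / V) * Real.sqrt (g z)) (ball 0 R) :=
      intOn _ (by fun_prop) R
    rw [integral_add i1 (intOn _ continuous_const R), integral_sub (intOn g hg R) i2,
      integral_const_mul, ← hT, setIntegral_const, smul_eq_mul, ← hV]
  rw [h2] at h1
  have h3 : T ^ 2 ≤ V * ∫ z in ball (0 : ℂ) R, g z := by
    have e : (∫ z in ball (0 : ℂ) R, g z) - 2 * (T / V) * T + V * (T / V) ^ 2 =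
        (∫ z in ball (0 : ℂ) R, g z) - T ^ 2 / V := by field_simp; ring
    rw [e] at h1
    have : T ^ 2 / V ≤ ∫ z in ball (0 : ℂ) R, g z := by linarith
    rwa [div_le_iff₀ hV0, mul_comm] at this
  rw [← Real.sqrt_mul hV0.le]
  exact Real.le_sqrt_of_sq_le h3

theorem sqrt4 (a b c d K : ℝ) (ha : 0 ≤ a) (hb : 0 ≤ b) (hc : 0 ≤ c) (hd : 0 ≤ d) (hK : 0 ≤ K)
    (x : ℝ) (hx : x ≤ K * a + K * b + c + d) :
    Real.sqrt x ≤ Real.sqrt K * Real.sqrt a + Real.sqrt K * Real.sqrt b + Real.sqrt c + Real.sqrt d := by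
  have key : ∀ p q : ℝ, 0 ≤ p → 0 ≤ q → Real.sqrt (p + q) ≤ Real.sqrt p + Real.sqrt q := by
    intro p q hp hq
    rw [Real.sqrt_le_left (by positivity)]
    have h1 := Real.sq_sqrt hp
    have h2 := Real.sq_sqrt hq
    have h3 := mul_nonneg (Real.sqrt_nonneg p) (Real.sqrt_nonneg q)
    nlinarith
  calc Real.sqrt x ≤ Real.sqrt (K * a + K * b + c + d) := Real.sqrt_le_sqrt hx
    _ ≤ Real.sqrt (K * a + K * b + c) + Real.sqrt d := key _ _ (by positivity) hd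
    _ ≤ (Real.sqrt (K * a + K * b) + Real.sqrt c) + Real.sqrt d := by
        gcongr; exact key _ _ (by positivity) hc
    _ ≤ ((Real.sqrt (K * a) + Real.sqrt (K * b)) + Real.sqrt c) + Real.sqrt d := by
        gcongr; exact key _ _ (by positivity) (by positivity)
    _ = _ := by rw [Real.sqrt_mul hK, Real.sqrt_mul hK]

/-- `L^{1/2}` bound for the operator `Hd` -/
theorem main
    (hB : ∀ R : ℝ, 0 < R → ∃ C : ℝ, 0 < C ∧ ∀ δ : ℝ, 0 < δ → ∀ (E : ℂ → ℂ), Integrable E →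
      IntegrableOn (fun z => Real.sqrt ‖Bk δ E z‖) (ball 0 R) ∧
      ∫ z in ball (0 : ℂ) R, Real.sqrt ‖Bk δ E z‖ ≤ C * Real.sqrt (∫ ζ, ‖E ζ‖))
    (hK : ∃ C : ℝ, 0 < C ∧ ∀ δ : ℝ, 0 < δ →
    (Continuous (ck δ) ∧ Continuous (bk δ) ∧ Continuous (pk δ)) ∧
    (∀ w, ‖ck δ w‖ ≤ 1 / δ) ∧ (∀ w, ‖bk δ w‖ ≤ 1 / δ ^ 2) ∧ (∀ w, ‖pk δ w‖ ≤ 1 / δ ^ 2) ∧
    (∀ w, ‖ck δ w‖ ≤ ‖w‖⁻¹) ∧ (∀ w, ‖bk δ w‖ ≤ (‖w‖ ^ 2)⁻¹) ∧
    (∀ w w' : ℂ, w ≠ 0 → ‖w - w'‖ ≤ ‖w‖ / 2 → ‖ck δ w - ck δ w'‖ ≤ C * ‖w - w'‖ / ‖w‖ ^ 2) ∧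
    (∀ w w' : ℂ, w ≠ 0 → ‖w - w'‖ ≤ ‖w‖ / 2 → ‖bk δ w - bk δ w'‖ ≤ C * ‖w - w'‖ / ‖w‖ ^ 3) ∧
    (∀ w, ck δ (-w) = - ck δ w) ∧ (∀ w, bk δ (-w) = bk δ w) ∧ (∀ w, pk δ (-w) = pk δ w))
    (k m : ℂ → ℂ) (hk : Continuous k) (hk' : HasCompactSupport k) (hm : Continuous m)
    (hm' : HasCompactSupport m) (R : ℝ) (hR : 0 < R) :
    ∃ C : ℝ, 0 < C ∧ ∀ δ : ℝ, 0 < δ → δ < 1 → ∀ E₀ E₁ : ℂ → ℂ, Integrable E₀ → Integrable E₁ →
      IntegrableOn (fun z => Real.sqrt ‖Hd k m δ E₀ E₁ z‖) (ball 0 R) ∧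
      ∫ z in ball (0 : ℂ) R, Real.sqrt ‖Hd k m δ E₀ E₁ z‖ ≤
        C * Real.sqrt ((∫ ζ, ‖E₀ ζ‖) + ∫ ζ, ‖E₁ ζ‖) := by
  obtain ⟨CB, hCB, hB⟩ := hB R hR
  obtain ⟨_, _, hK⟩ := hK
  obtain ⟨CR, hCR, hx⟩ := kerB R
  obtain ⟨K1, hK1⟩ := hk'.exists_bound_of_continuous hk
  obtain ⟨K2, hK2⟩ := hm'.exists_bound_of_continuous hm
  obtain ⟨K, hK0, hkK, hmK⟩ : ∃ K : ℝ, 0 ≤ K ∧ (∀ z, ‖k z‖ ≤ K) ∧ ∀ z, ‖m z‖ ≤ K :=
    ⟨max 0 (max K1 K2), le_max_left _ _,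
      fun z => (hK1 z).trans ((le_max_left _ _).trans (le_max_right _ _)),
      fun z => (hK2 z).trans ((le_max_right _ _).trans (le_max_right _ _))⟩
  set V := volume.real (ball (0 : ℂ) R) with hV
  -- bound for Ck
  obtain ⟨A, hA0, hA⟩ : ∃ A : ℝ, 0 ≤ A ∧ ∀ δ : ℝ, 0 < δ → ∀ E : ℂ → ℂ, Integrable E →
      ∫ z in ball (0 : ℂ) R, Real.sqrt ‖Ck δ E z‖ ≤ A * Real.sqrt (∫ ζ, ‖E ζ‖) := by
    refine ⟨Real.sqrt V * Real.sqrt CR, by positivity, fun δ hδ E hE => ?_⟩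
    obtain ⟨⟨hc1, _, _⟩, hc2, _, _, hc3, _⟩ := hK δ hδ
    have hcont : Continuous (fun z => ‖Ck δ E z‖) := (contK (ck δ) hc1 _ hc2 E hE).norm
    have h1 := csq R hR _ hcont (fun z => norm_nonneg _)
    have h2 := normK R CR hCR hx (ck δ) hc1 _ hc2 hc3 E hE
    refine h1.trans ?_
    rw [mul_assoc, ← Real.sqrt_mul hCR.le]
    gcongr
    exact h2
  refine ⟨2 * Real.sqrt K * (A + CB) + 1, by positivity, fun δ hδ _ E₀ E₁ hE0 hE1 => ?_⟩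
  obtain ⟨⟨hc1, hb1, _⟩, hc2, hb2, _, hc3, _⟩ := hK δ hδ
  have hkE0 : Integrable (fun ζ => k ζ * E₀ ζ) :=
    hE0.bdd_mul hk.aestronglyMeasurable (Filter.Eventually.of_forall hkK)
  have hkE1 : Integrable (fun ζ => k ζ * E₁ ζ) :=
    hE1.bdd_mul hk.aestronglyMeasurable (Filter.Eventually.of_forall hkK)
  have hmE1 : Integrable (fun ζ => m ζ * E₁ ζ) :=
    hE1.bdd_mul hm.aestronglyMeasurable (Filter.Eventually.of_forall hmK)
  have hF : Integrable (fun ζ => k ζ * E₀ ζ + m ζ * E₁ ζ) := hkE0.add hmE1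
  have cC : ∀ E : ℂ → ℂ, Integrable E → Continuous (Ck δ E) := fun E hE => contK (ck δ) hc1 _ hc2 E hE
  have cB : ∀ E : ℂ → ℂ, Integrable E → Continuous (Bk δ E) := fun E hE => contK (bk δ) hb1 _ hb2 E hE
  have cH : Continuous (Hd k m δ E₀ E₁) := by
    unfold Hd
    exact ((hk.mul ((cC _ hE0).sub (cB _ hE1))).sub (cC _ hF)).add (cB _ hkE1)
  refine ⟨intOn _ cH.norm.sqrt R, ?_⟩
  set J0 := ∫ ζ, ‖E₀ ζ‖ with hJ0
  set J1 := ∫ ζ, ‖E₁ ζ‖ with hJ1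
  have hJ00 : 0 ≤ J0 := integral_nonneg fun _ => norm_nonneg _
  have hJ10 : 0 ≤ J1 := integral_nonneg fun _ => norm_nonneg _
  have nF : ∫ ζ, ‖k ζ * E₀ ζ + m ζ * E₁ ζ‖ ≤ K * (J0 + J1) := by
    have h1 : ∫ ζ, ‖k ζ * E₀ ζ + m ζ * E₁ ζ‖ ≤ ∫ ζ, (K * ‖E₀ ζ‖ + K * ‖E₁ ζ‖) := by
      refine integral_mono hF.norm ((hE0.norm.const_mul K).add (hE1.norm.const_mul K)) fun ζ => ?_
      refine (norm_add_le _ _).trans ?_
      rw [norm_mul, norm_mul]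
      exact add_le_add (mul_le_mul_of_nonneg_right (hkK _) (norm_nonneg _))
        (mul_le_mul_of_nonneg_right (hmK _) (norm_nonneg _))
    refine h1.trans (le_of_eq ?_)
    rw [integral_add (hE0.norm.const_mul K) (hE1.norm.const_mul K), integral_const_mul,
      integral_const_mul]
    ring
  have nE : ∫ ζ, ‖k ζ * E₁ ζ‖ ≤ K * (J0 + J1) := by
    have h1 : ∫ ζ, ‖k ζ * E₁ ζ‖ ≤ ∫ ζ, K * ‖E₁ ζ‖ := by
      refine integral_mono hkE1.norm (hE1.norm.const_mul K) fun ζ => ?_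
      simp only [norm_mul]
      exact mul_le_mul_of_nonneg_right (hkK _) (norm_nonneg _)
    refine h1.trans ?_
    rw [integral_const_mul]
    have := mul_nonneg hK0 hJ00
    nlinarith
  have i1 := intOn _ (cC _ hE0).norm.sqrt R
  have i2 := intOn _ (cB _ hE1).norm.sqrt R
  have i3 := intOn _ (cC _ hF).norm.sqrt R
  have i4 := intOn _ (cB _ hkE1).norm.sqrt R
  have j1 : IntegrableOn (fun z => Real.sqrt K * Real.sqrt ‖Ck δ E₀ z‖) (ball 0 R) := i1.const_mul _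
  have j2 : IntegrableOn (fun z => Real.sqrt K * Real.sqrt ‖Bk δ E₁ z‖) (ball 0 R) := i2.const_mul _
  have j12 : IntegrableOn (fun z => Real.sqrt K * Real.sqrt ‖Ck δ E₀ z‖ +
      Real.sqrt K * Real.sqrt ‖Bk δ E₁ z‖) (ball 0 R) := j1.add j2
  have j123 : IntegrableOn (fun z => Real.sqrt K * Real.sqrt ‖Ck δ E₀ z‖ +
      Real.sqrt K * Real.sqrt ‖Bk δ E₁ z‖ +
      Real.sqrt ‖Ck δ (fun ζ => k ζ * E₀ ζ + m ζ * E₁ ζ) z‖) (ball 0 R) := j12.add i3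
  have step : ∫ z in ball (0 : ℂ) R, Real.sqrt ‖Hd k m δ E₀ E₁ z‖ ≤
      ∫ z in ball (0 : ℂ) R, (Real.sqrt K * Real.sqrt ‖Ck δ E₀ z‖ +
        Real.sqrt K * Real.sqrt ‖Bk δ E₁ z‖ +
        Real.sqrt ‖Ck δ (fun ζ => k ζ * E₀ ζ + m ζ * E₁ ζ) z‖ +
        Real.sqrt ‖Bk δ (fun ζ => k ζ * E₁ ζ) z‖) := by
    refine integral_mono (intOn _ cH.norm.sqrt R) (j123.add i4) fun z => ?_
    refine sqrt4 _ _ _ _ _ (norm_nonneg _) (norm_nonneg _) (norm_nonneg _) (norm_nonneg _) hK0 _ ?_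
    unfold Hd
    refine (norm_add_le _ _).trans (add_le_add ?_ le_rfl)
    refine (norm_sub_le _ _).trans (add_le_add ?_ le_rfl)
    rw [norm_mul, ← mul_add]
    exact mul_le_mul (hkK z) (norm_sub_le _ _) (norm_nonneg _) hK0
  refine step.trans ?_
  rw [integral_add j123 i4, integral_add j12 i3, integral_add j1 j2, integral_const_mul,
    integral_const_mul]
  have b1 : ∫ z in ball (0 : ℂ) R, Real.sqrt ‖Ck δ E₀ z‖ ≤ A * Real.sqrt (J0 + J1) :=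
    (hA δ hδ _ hE0).trans (by gcongr; linarith)
  have b2 : ∫ z in ball (0 : ℂ) R, Real.sqrt ‖Bk δ E₁ z‖ ≤ CB * Real.sqrt (J0 + J1) :=
    (hB δ hδ _ hE1).2.trans (by gcongr; linarith)
  have b3 : ∫ z in ball (0 : ℂ) R, Real.sqrt ‖Ck δ (fun ζ => k ζ * E₀ ζ + m ζ * E₁ ζ) z‖ ≤
      A * (Real.sqrt K * Real.sqrt (J0 + J1)) := by
    refine (hA δ hδ _ hF).trans ?_
    rw [← Real.sqrt_mul hK0]
    gcongr
  have b4 : ∫ z in ball (0 : ℂ) R, Real.sqrt ‖Bk δ (fun ζ => k ζ * E₁ ζ) z‖ ≤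
      CB * (Real.sqrt K * Real.sqrt (J0 + J1)) := by
    refine (hB δ hδ _ hkE1).2.trans ?_
    rw [← Real.sqrt_mul hK0]
    gcongr
  have b1' := mul_le_mul_of_nonneg_left b1 (Real.sqrt_nonneg K)
  have b2' := mul_le_mul_of_nonneg_left b2 (Real.sqrt_nonneg K)
  have hs := Real.sqrt_nonneg (J0 + J1)
  nlinarith

end Pool.Agent.Split938.J6a
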