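import Pool.Agent.Split938.Defs

set_option autoImplicit false
open MeasureTheory Metric Set Filter Topology

namespace Pool.Agent.Split938.J6b

/-- integrable majorant -/
noncomputable def gq (z : ℂ) : ℝ := ‖z‖ ^ (-(3/2) : ℝ) * Real.exp (-‖z‖)

theorem gq_nonneg (z : ℂ) : 0 ≤ gq z := by unfold gq; positivity

theorem gq_int : Integrable gq := by
  have h2 := Complex.integral_rpow_mul_exp_neg_rpow (p := 1) (q := -(3/2)) le_rfl (by norm_num)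
  have h3 : ∫ x : ℂ, gq x = (2 * Real.pi / 1) * Real.Gamma ((-(3/2) + 2) / 1) := by
    rw [← h2]
    refine integral_congr_ae (Filter.Eventually.of_forall fun x => ?_)
    show ‖x‖ ^ (-(3/2) : ℝ) * Real.exp (-‖x‖) = ‖x‖ ^ (-(3/2) : ℝ) * Real.exp (-‖x‖ ^ (1:ℝ))
    rw [Real.rpow_one]
  by_contra h
  rw [integral_undef h] at h3
  have h4 : 0 < (2 * Real.pi / 1) * Real.Gamma ((-(3/2) + 2) / 1) := by
    have h5 := Real.Gamma_pos_of_pos (show (0:ℝ) < (-(3/2) + 2) / 1 by norm_num)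
    have h6 := Real.pi_pos
    positivity
  linarith

theorem qq_le (z : ℂ) : ‖z‖⁻¹ * (√‖z‖)⁻¹ ≤ Real.exp 1 * gq z + 1 := by
  rcases (norm_nonneg z).eq_or_lt with h0 | h0
  · rw [← h0]
    have := gq_nonneg z
    have := Real.exp_pos 1
    simp only [inv_zero, Real.sqrt_zero, mul_zero]
    positivity
  have h1 : ‖z‖⁻¹ * (√‖z‖)⁻¹ = ‖z‖ ^ (-(3/2) : ℝ) := by
    rw [Real.sqrt_eq_rpow, ← Real.rpow_neg_one, ← Real.rpow_neg h0.le, ← Real.rpow_add h0]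
    norm_num
  rw [h1]
  have h5 : 0 < ‖z‖ ^ (-(3/2) : ℝ) := Real.rpow_pos_of_pos h0 _
  rcases le_or_gt ‖z‖ 1 with h2 | h2
  · have h3 : 1 ≤ Real.exp 1 * Real.exp (-‖z‖) := by
      rw [← Real.exp_add]
      exact Real.one_le_exp (by linarith)
    unfold gq
    have h4 : ‖z‖ ^ (-(3/2) : ℝ) * 1 ≤
        ‖z‖ ^ (-(3/2) : ℝ) * (Real.exp 1 * Real.exp (-‖z‖)) :=
      mul_le_mul_of_nonneg_left h3 h5.le
    linarith [mul_left_comm (‖z‖ ^ (-(3/2) : ℝ)) (Real.exp 1) (Real.exp (-‖z‖))]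
  · have h3 : ‖z‖ ^ (-(3/2) : ℝ) ≤ 1 :=
      Real.rpow_le_one_of_one_le_of_nonpos h2.le (by norm_num)
    have h4 : 0 ≤ Real.exp 1 * gq z := mul_nonneg (Real.exp_pos 1).le (gq_nonneg z)
    linarith

theorem inv_le_gq (z : ℂ) : ‖z‖⁻¹ ≤ Real.exp 1 * gq z + 1 := by
  have h4 : 0 ≤ Real.exp 1 * gq z := mul_nonneg (Real.exp_pos 1).le (gq_nonneg z)
  rcases (norm_nonneg z).eq_or_lt with h0 | h0
  · rw [← h0, inv_zero]; linarith
  rcases le_or_gt ‖z‖ 1 with h2 | h2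
  · refine le_trans ?_ (qq_le z)
    have h3 : 1 ≤ (√‖z‖)⁻¹ := by
      rw [one_le_inv₀ (Real.sqrt_pos.2 h0)]
      exact Real.sqrt_le_one.2 h2
    exact le_mul_of_one_le_right (inv_nonneg.2 h0.le) h3
  · have : ‖z‖⁻¹ ≤ 1 := inv_le_one_of_one_le₀ h2.le
    linarith

theorem small_inv (ρ r : ℝ) (hρ : 0 ≤ ρ) (hr : 0 < r) (h : ρ ≤ 4 * r) :
    ρ⁻¹ ≤ 2 * √r * (ρ⁻¹ * (√ρ)⁻¹) := by
  rcases hρ.eq_or_lt with h0 | h0
  · rw [← h0]; simp
  have h1 : √ρ ≤ 2 * √r := by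
    rw [Real.sqrt_le_iff]
    refine ⟨by positivity, ?_⟩
    rw [mul_pow, Real.sq_sqrt hr.le]
    linarith
  have h2 : 0 < √ρ := Real.sqrt_pos.2 h0
  have h3 : ρ⁻¹ = √ρ * (ρ⁻¹ * (√ρ)⁻¹) := by field_simp
  calc ρ⁻¹ = √ρ * (ρ⁻¹ * (√ρ)⁻¹) := h3
    _ ≤ 2 * √r * (ρ⁻¹ * (√ρ)⁻¹) := by gcongr

theorem large_inv (ρ r : ℝ) (hr : 0 < r) (h : r ≤ ρ) :
    r / ρ ^ 2 ≤ √r * (ρ⁻¹ * (√ρ)⁻¹) := by
  have h0 : 0 < ρ := by linarith
  have h1 : √r ≤ √ρ := Real.sqrt_le_sqrt h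
  have h2 : 0 < √ρ := Real.sqrt_pos.2 h0
  have h3 : √r * √r = r := Real.mul_self_sqrt hr.le
  have h4 : √ρ * √ρ = ρ := Real.mul_self_sqrt h0.le
  have h5 : √ρ / ρ ^ 2 = ρ⁻¹ * (√ρ)⁻¹ := by
    field_simp
    nlinarith
  calc r / ρ ^ 2 = √r * (√r / ρ ^ 2) := by rw [← mul_div_assoc, h3]
    _ ≤ √r * (√ρ / ρ ^ 2) := by gcongr
    _ = _ := by rw [h5]

theorem pw {δ C : ℝ} (hC : 0 < C) (h1 : ∀ w, ‖ck δ w‖ ≤ ‖w‖⁻¹)
    (h2 : ∀ w w' : ℂ, w ≠ 0 → ‖w - w'‖ ≤ ‖w‖ / 2 → ‖ck δ w - ck δ w'‖ ≤ C * ‖w - w'‖ / ‖w‖ ^ 2)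
    (r : ℝ) (hr : 0 < r) (w w' : ℂ) (hw : ‖w - w'‖ ≤ r) :
    ‖ck δ w - ck δ w'‖ ≤ (C + 2) * √r *
      ((Real.exp 1 * gq w + 1) + (Real.exp 1 * gq w' + 1)) := by
  have hsr : 0 < √r := Real.sqrt_pos.2 hr
  have q1 := qq_le w
  have q2 := qq_le w'
  have q3 : 0 ≤ ‖w‖⁻¹ * (√‖w‖)⁻¹ := by positivity
  have q4 : 0 ≤ ‖w'‖⁻¹ * (√‖w'‖)⁻¹ := by positivity
  have key : ‖ck δ w - ck δ w'‖ ≤ (C + 2) * √r *
      (‖w‖⁻¹ * (√‖w‖)⁻¹ + ‖w'‖⁻¹ * (√‖w'‖)⁻¹) := by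
    rcases le_or_gt (2 * r) ‖w‖ with h | h
    · have hw0 : w ≠ 0 := by
        rintro rfl
        rw [norm_zero] at h
        linarith
      have h3 := h2 w w' hw0 (by linarith)
      have h4 := large_inv ‖w‖ r hr (by linarith)
      have hwp : 0 < ‖w‖ := norm_pos_iff.2 hw0
      calc ‖ck δ w - ck δ w'‖ ≤ C * ‖w - w'‖ / ‖w‖ ^ 2 := h3
        _ ≤ C * r / ‖w‖ ^ 2 := by gcongr
        _ = C * (r / ‖w‖ ^ 2) := by ring
        _ ≤ C * (√r * (‖w‖⁻¹ * (√‖w‖)⁻¹)) := by gcongr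
        _ ≤ _ := by nlinarith [mul_nonneg hsr.le q3, mul_nonneg hsr.le q4,
            mul_nonneg hC.le (mul_nonneg hsr.le q4)]
    · have h3 : ‖w'‖ ≤ ‖w‖ + ‖w - w'‖ := by
        have := norm_sub_le w (w - w')
        rwa [sub_sub_cancel] at this
      have h4 := small_inv ‖w‖ r (norm_nonneg _) hr (by linarith)
      have h5 := small_inv ‖w'‖ r (norm_nonneg _) hr (by linarith)
      calc ‖ck δ w - ck δ w'‖ ≤ ‖ck δ w‖ + ‖ck δ w'‖ := norm_sub_le _ _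
        _ ≤ ‖w‖⁻¹ + ‖w'‖⁻¹ := add_le_add (h1 w) (h1 w')
        _ ≤ 2 * √r * (‖w‖⁻¹ * (√‖w‖)⁻¹) + 2 * √r * (‖w'‖⁻¹ * (√‖w'‖)⁻¹) := add_le_add h4 h5
        _ ≤ _ := by nlinarith [mul_nonneg hC.le (mul_nonneg hsr.le q3),
            mul_nonneg hC.le (mul_nonneg hsr.le q4)]
  refine key.trans ?_
  gcongr

theorem maj_int (R : ℝ) (y : ℂ) :
    IntegrableOn (fun z => Real.exp 1 * gq (z - y) + 1) (ball (0 : ℂ) R) := by
  refine Integrable.add ?_ ?_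
  · exact ((gq_int.comp_sub_right y).const_mul _).integrableOn
  · exact integrableOn_const (measure_ball_lt_top.ne)

theorem maj_le (R : ℝ) (y : ℂ) :
    ∫ z in ball (0 : ℂ) R, (Real.exp 1 * gq (z - y) + 1) ≤
      Real.exp 1 * (∫ z, gq z) + volume.real (ball (0 : ℂ) R) := by
  have i1 : Integrable (fun z => Real.exp 1 * gq (z - y)) := (gq_int.comp_sub_right y).const_mul _
  rw [integral_add i1.integrableOn (integrableOn_const (measure_ball_lt_top.ne))]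
  refine add_le_add ?_ ?_
  · rw [← integral_sub_right_eq_self gq y, ← integral_const_mul]
    exact setIntegral_le_integral i1 (Filter.Eventually.of_forall fun z =>
      mul_nonneg (Real.exp_pos 1).le (gq_nonneg _))
  · simp


/-- integral bounds for the three kernels composed with `1 - Mr r`, uniformly in `δ`:
first the Cauchy kernel with a continuous compactly supported coefficient -/
theorem main
    (hK : ∃ C : ℝ, 0 < C ∧ ∀ δ : ℝ, 0 < δ →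
    (Continuous (ck δ) ∧ Continuous (bk δ) ∧ Continuous (pk δ)) ∧
    (∀ w, ‖ck δ w‖ ≤ 1 / δ) ∧ (∀ w, ‖bk δ w‖ ≤ 1 / δ ^ 2) ∧ (∀ w, ‖pk δ w‖ ≤ 1 / δ ^ 2) ∧
    (∀ w, ‖ck δ w‖ ≤ ‖w‖⁻¹) ∧ (∀ w, ‖bk δ w‖ ≤ (‖w‖ ^ 2)⁻¹) ∧
    (∀ w w' : ℂ, w ≠ 0 → ‖w - w'‖ ≤ ‖w‖ / 2 → ‖ck δ w - ck δ w'‖ ≤ C * ‖w - w'‖ / ‖w‖ ^ 2) ∧
    (∀ w w' : ℂ, w ≠ 0 → ‖w - w'‖ ≤ ‖w‖ / 2 → ‖bk δ w - bk δ w'‖ ≤ C * ‖w - w'‖ / ‖w‖ ^ 3) ∧
    (∀ w, ck δ (-w) = - ck δ w) ∧ (∀ w, bk δ (-w) = bk δ w) ∧ (∀ w, pk δ (-w) = pk δ w))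
    (k : ℂ → ℂ) (hk : Continuous k) (hk' : HasCompactSupport k) (R : ℝ) (hR : 0 < R)
    (ε : ℝ) (hε : 0 < ε) :
    ∃ r₀ : ℝ, 0 < r₀ ∧ ∀ δ : ℝ, 0 < δ → δ < 1 → ∀ r : ℝ, 0 < r → r ≤ r₀ →
      ∀ y y' : ℂ, ‖y - y'‖ ≤ r →
      ∫ z in ball (0 : ℂ) R, ‖k y * ck δ (z - y) - k y' * ck δ (z - y')‖ ≤ ε ∧
      ∫ z in ball (0 : ℂ) R, ‖ck δ (z - y) - ck δ (z - y')‖ ≤ ε := by
  obtain ⟨C, hC, hKC⟩ := hK
  obtain ⟨M, hM⟩ := hk.bounded_above_of_compact_support hk'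
  have hM0 : 0 ≤ M := (norm_nonneg _).trans (hM 0)
  have huc : UniformContinuous k := hk'.uniformContinuous_of_continuous hk
  obtain ⟨A, hA⟩ : ∃ A, A = Real.exp 1 * (∫ z, gq z) + volume.real (ball (0 : ℂ) R) + 1 := ⟨_, rfl⟩
  have hI0 : 0 ≤ ∫ z, gq z := integral_nonneg gq_nonneg
  have hA0 : 0 < A := by
    have h1 : 0 ≤ volume.real (ball (0 : ℂ) R) := measureReal_nonneg
    have h2 : 0 ≤ Real.exp 1 * (∫ z, gq z) := mul_nonneg (Real.exp_pos 1).le hI0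
    rw [hA]; linarith
  have hmaj : ∀ y : ℂ, ∫ z in ball (0 : ℂ) R, (Real.exp 1 * gq (z - y) + 1) ≤ A := by
    intro y
    have := maj_le R y
    rw [hA]; linarith
  obtain ⟨η, hη, hηk⟩ := Metric.uniformContinuous_iff.1 huc (ε / (2 * A)) (by positivity)
  obtain ⟨T, hT⟩ : ∃ T, T = (C + 2) * (2 * A) * (2 * (M + 1)) := ⟨_, rfl⟩
  have hT0 : 0 < T := by rw [hT]; positivity
  refine ⟨min ((ε / T) ^ 2) (η / 2), by positivity, ?_⟩
  intro δ hδ hδ1 r hr hrr y y' hyy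
  obtain ⟨-, -, -, -, hck, -, hckd, -⟩ := hKC δ hδ
  have hsr : √r ≤ ε / T := by
    rw [Real.sqrt_le_iff]
    exact ⟨by positivity, hrr.trans (min_le_left _ _)⟩
  have hsr0 : 0 < √r := Real.sqrt_pos.2 hr
  have hsT : √r * T ≤ ε := by
    rw [le_div_iff₀ hT0] at hsr; exact hsr
  have hpw : ∀ z : ℂ, ‖ck δ (z - y) - ck δ (z - y')‖ ≤ (C + 2) * √r *
      ((Real.exp 1 * gq (z - y) + 1) + (Real.exp 1 * gq (z - y') + 1)) := by
    intro z
    refine pw hC hck hckd r hr _ _ ?_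
    have : z - y - (z - y') = y' - y := by ring
    rw [this, norm_sub_rev]
    exact hyy
  have hkk : ‖k y - k y'‖ ≤ ε / (2 * A) := by
    have h1 : dist y y' < η := by
      rw [dist_eq_norm]
      have := hrr.trans (min_le_right _ _)
      linarith
    have h2 := hηk h1
    rw [dist_eq_norm] at h2
    exact h2.le
  have iy := maj_int R y
  have iy' := maj_int R y'
  have my := hmaj y
  have my' := hmaj y'
  have hkey : (C + 2) * √r * (A + A) ≤ √r * T / (2 * (M + 1)) := by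
    rw [hT, le_div_iff₀ (by positivity)]
    exact le_of_eq (by ring)
  constructor
  · have h1 : ∫ z in ball (0 : ℂ) R, ‖k y * ck δ (z - y) - k y' * ck δ (z - y')‖ ≤
        ∫ z in ball (0 : ℂ) R, (M * ((C + 2) * √r) *
          ((Real.exp 1 * gq (z - y) + 1) + (Real.exp 1 * gq (z - y') + 1)) +
          ε / (2 * A) * (Real.exp 1 * gq (z - y') + 1)) := by
      refine integral_mono_of_nonneg (Filter.Eventually.of_forall fun z => norm_nonneg _)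
        (((iy.add iy').const_mul _).add (iy'.const_mul _)) (Filter.Eventually.of_forall fun z => ?_)
      show ‖k y * ck δ (z - y) - k y' * ck δ (z - y')‖ ≤ M * ((C + 2) * √r) *
          ((Real.exp 1 * gq (z - y) + 1) + (Real.exp 1 * gq (z - y') + 1)) +
          ε / (2 * A) * (Real.exp 1 * gq (z - y') + 1)
      have e1 : k y * ck δ (z - y) - k y' * ck δ (z - y') =
          k y * (ck δ (z - y) - ck δ (z - y')) + (k y - k y') * ck δ (z - y') := by ring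
      rw [e1]
      refine (norm_add_le _ _).trans (add_le_add ?_ ?_)
      · rw [norm_mul, mul_assoc]
        exact mul_le_mul (hM y) (hpw z) (norm_nonneg _) hM0
      · rw [norm_mul]
        exact mul_le_mul hkk ((hck _).trans (inv_le_gq _)) (norm_nonneg _) (by positivity)
    have i1 : IntegrableOn (fun z => M * ((C + 2) * √r) *
        ((Real.exp 1 * gq (z - y) + 1) + (Real.exp 1 * gq (z - y') + 1))) (ball 0 R) :=
      (iy.add iy').const_mul _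
    have i2 : IntegrableOn (fun z => ε / (2 * A) * (Real.exp 1 * gq (z - y') + 1)) (ball 0 R) :=
      iy'.const_mul _
    rw [integral_add i1 i2, integral_const_mul,
      integral_const_mul, integral_add iy iy'] at h1
    refine h1.trans ?_
    have h2 : M * ((C + 2) * √r) * ((∫ z in ball (0 : ℂ) R, (Real.exp 1 * gq (z - y) + 1)) +
        ∫ z in ball (0 : ℂ) R, (Real.exp 1 * gq (z - y') + 1)) ≤ M * ((C + 2) * √r) * (A + A) :=
      mul_le_mul_of_nonneg_left (add_le_add my my') (by positivity)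
    have h3 : ε / (2 * A) * ∫ z in ball (0 : ℂ) R, (Real.exp 1 * gq (z - y') + 1) ≤
        ε / (2 * A) * A := by gcongr
    have h4 : ε / (2 * A) * A = ε / 2 := by field_simp
    have h5 : M * ((C + 2) * √r) * (A + A) ≤ ε / 2 := by
      calc M * ((C + 2) * √r) * (A + A) = M * ((C + 2) * √r * (A + A)) := by ring
        _ ≤ M * (√r * T / (2 * (M + 1))) := by gcongr
        _ ≤ M * (ε / (2 * (M + 1))) := by gcongr
        _ = (M / (M + 1)) * (ε / 2) := by field_simp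
        _ ≤ 1 * (ε / 2) := by
            gcongr
            rw [div_le_one (by linarith)]
            linarith
        _ = ε / 2 := one_mul _
    linarith
  · have h1 : ∫ z in ball (0 : ℂ) R, ‖ck δ (z - y) - ck δ (z - y')‖ ≤
        ∫ z in ball (0 : ℂ) R, ((C + 2) * √r) *
          ((Real.exp 1 * gq (z - y) + 1) + (Real.exp 1 * gq (z - y') + 1)) :=
      integral_mono_of_nonneg (Filter.Eventually.of_forall fun z => norm_nonneg _)
        ((iy.add iy').const_mul _) (Filter.Eventually.of_forall fun z => hpw z)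
    rw [integral_const_mul, integral_add iy iy'] at h1
    refine h1.trans ?_
    have h2 : ((C + 2) * √r) * ((∫ z in ball (0 : ℂ) R, (Real.exp 1 * gq (z - y) + 1)) +
        ∫ z in ball (0 : ℂ) R, (Real.exp 1 * gq (z - y') + 1)) ≤ ((C + 2) * √r) * (A + A) :=
      mul_le_mul_of_nonneg_left (add_le_add my my') (by positivity)
    have h3 : √r * T / (2 * (M + 1)) ≤ √r * T := by
      apply div_le_self (by positivity)
      linarith
    linarith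

end Pool.Agent.Split938.J6b
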