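import Pool.Agent.Split938.Defs

set_option autoImplicit false
open MeasureTheory Metric Set Filter Topology

namespace Pool.Agent.Split938.J6c

/-- auxiliary radial function -/
noncomputable def Gz (w : ℂ) : ℝ := √‖w‖ / ‖w‖ ^ 2

theorem Gz_nonneg (w : ℂ) : 0 ≤ Gz w := by unfold Gz; positivity

theorem Gz_int : IntegrableOn Gz (ball (0:ℂ) 1) := by
  have hd : (1:ℕ) ≤ Module.finrank ℝ ℂ := by rw [Complex.finrank_real_complex]; norm_num
  have hα : (3/2:ℝ) < Module.finrank ℝ ℂ := by rw [Complex.finrank_real_complex]; norm_num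
  refine integrableOn_ball_of_norm_le_rpow (C := 1) (α := 3/2) hd hα ?_ ?_
  · refine Filter.Eventually.of_forall (fun w => ?_)
    rw [Real.norm_eq_abs, abs_of_nonneg (Gz_nonneg w), one_mul]
    unfold Gz
    rcases (norm_nonneg w).eq_or_lt with h | h
    · rw [← h]; simp
    · rw [Real.sqrt_eq_rpow, ← Real.rpow_natCast, ← Real.rpow_sub h]
      apply le_of_eq
      congr 1
      norm_num
  · apply Measurable.aestronglyMeasurable
    unfold Gz
    fun_prop

/-- truncation -/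
noncomputable def Hz : ℂ → ℝ := (ball (0:ℂ) 1).indicator Gz

theorem Hz_int : Integrable Hz := by
  unfold Hz
  rw [integrable_indicator_iff measurableSet_ball]
  exact Gz_int

theorem Hz_nonneg (w : ℂ) : 0 ≤ Hz w := by
  unfold Hz
  exact Set.indicator_nonneg (fun w _ => Gz_nonneg w) w

theorem Gz_le (w : ℂ) : Gz w ≤ Hz w + 1 := by
  unfold Hz
  by_cases h : w ∈ ball (0:ℂ) 1
  · rw [Set.indicator_of_mem h]; linarith
  · rw [Set.indicator_of_notMem h, zero_add]
    have h1 : 1 ≤ ‖w‖ := by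
      rw [mem_ball_zero_iff] at h
      linarith
    unfold Gz
    rw [div_le_one (by positivity)]
    have h2 : √‖w‖ ≤ ‖w‖ := by
      rw [Real.sqrt_le_left (by linarith)]
      nlinarith
    nlinarith

theorem tau_bd (L r τ : ℝ) (hL : 0 ≤ L) (h0 : 0 ≤ τ) (h1 : τ ≤ 3 * r) (hr : 0 < r) :
    L * τ * (τ ^ 2)⁻¹ ≤ 2 * L * √r * (√τ / τ ^ 2) := by
  have h2 : τ ≤ 2 * √r * √τ := by
    have e1 : √τ ≤ 2 * √r := by
      have : √τ ≤ √(3 * r) := Real.sqrt_le_sqrt h1
      have h3 : √(3 * r) ≤ 2 * √r := by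
        rw [Real.sqrt_le_left (by positivity), mul_pow, Real.sq_sqrt hr.le]
        linarith
      linarith
    calc τ = √τ * √τ := (Real.mul_self_sqrt h0).symm
      _ ≤ (2 * √r) * √τ := mul_le_mul_of_nonneg_right e1 (Real.sqrt_nonneg _)
  have h3 : 0 ≤ (τ ^ 2)⁻¹ := by positivity
  calc L * τ * (τ ^ 2)⁻¹ ≤ L * (2 * √r * √τ) * (τ ^ 2)⁻¹ := by gcongr
    _ = 2 * L * √r * (√τ / τ ^ 2) := by rw [div_eq_mul_inv]; ring

/-- the commutator kernel with a Lipschitz function -/
theorem main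
    (hK : ∃ C : ℝ, 0 < C ∧ ∀ δ : ℝ, 0 < δ →
    (Continuous (ck δ) ∧ Continuous (bk δ) ∧ Continuous (pk δ)) ∧
    (∀ w, ‖ck δ w‖ ≤ 1 / δ) ∧ (∀ w, ‖bk δ w‖ ≤ 1 / δ ^ 2) ∧ (∀ w, ‖pk δ w‖ ≤ 1 / δ ^ 2) ∧
    (∀ w, ‖ck δ w‖ ≤ ‖w‖⁻¹) ∧ (∀ w, ‖bk δ w‖ ≤ (‖w‖ ^ 2)⁻¹) ∧
    (∀ w w' : ℂ, w ≠ 0 → ‖w - w'‖ ≤ ‖w‖ / 2 → ‖ck δ w - ck δ w'‖ ≤ C * ‖w - w'‖ / ‖w‖ ^ 2) ∧
    (∀ w w' : ℂ, w ≠ 0 → ‖w - w'‖ ≤ ‖w‖ / 2 → ‖bk δ w - bk δ w'‖ ≤ C * ‖w - w'‖ / ‖w‖ ^ 3) ∧
    (∀ w, ck δ (-w) = - ck δ w) ∧ (∀ w, bk δ (-w) = bk δ w) ∧ (∀ w, pk δ (-w) = pk δ w))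
    (k : ℂ → ℂ) (L : NNReal) (hk : LipschitzWith L k) (R : ℝ) (hR : 0 < R)
    (ε : ℝ) (hε : 0 < ε) :
    ∃ r₀ : ℝ, 0 < r₀ ∧ ∀ δ : ℝ, 0 < δ → δ < 1 → ∀ r : ℝ, 0 < r → r ≤ r₀ →
      ∀ y y' : ℂ, ‖y - y'‖ ≤ r →
      ∫ z in ball (0 : ℂ) R,
        ‖(k z - k y) * bk δ (z - y) - (k z - k y') * bk δ (z - y')‖ ≤ ε := by
  obtain ⟨C, hC, hKK⟩ := hK
  set K : ℝ := L * (C + 4) with hKdef
  have hL0 : (0:ℝ) ≤ L := L.2
  have hK0 : 0 ≤ K := by rw [hKdef]; positivity
  set J : ℝ := (∫ w, Hz w) + (volume : Measure ℂ).real (ball 0 R) with hJ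
  have hJ0 : 0 ≤ J := by
    have : 0 ≤ ∫ w, Hz w := integral_nonneg Hz_nonneg
    rw [hJ]; positivity
  set q : ℝ := ε / (2 * K * J + 1) with hq
  have hden : 0 < 2 * K * J + 1 := by positivity
  have hq0 : 0 < q := div_pos hε hden
  refine ⟨q ^ 2, by positivity, fun δ hδ _ r hr hrq y y' hyy => ?_⟩
  obtain ⟨_, _, _, _, _, hb2, _, hb4, _, _, _⟩ := hKK δ hδ
  have hsr : √r ≤ q := by
    rw [Real.sqrt_le_left hq0.le]; exact hrq
  have hsr0 : 0 ≤ √r := Real.sqrt_nonneg r
  have hlip : ∀ a b : ℂ, ‖k a - k b‖ ≤ L * ‖a - b‖ := by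
    intro a b
    have := hk.dist_le_mul a b
    rwa [dist_eq_norm, dist_eq_norm] at this
  -- pointwise bound
  have hpt : ∀ z : ℂ, ‖(k z - k y) * bk δ (z - y) - (k z - k y') * bk δ (z - y')‖ ≤
      K * √r * (Gz (z - y) + Gz (z - y')) := by
    intro z
    have htt : ‖z - y'‖ ≤ ‖z - y‖ + r := by
      have : z - y' = (z - y) + (y - y') := by ring
      rw [this]
      exact (norm_add_le _ _).trans (by linarith)
    have htt2 : ‖z - y‖ ≤ ‖z - y'‖ + r := by
      have : z - y = (z - y') - (y - y') := by ring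
      rw [this]
      exact (norm_sub_le _ _).trans (by linarith)
    by_cases hcase : 2 * r ≤ ‖z - y‖
    · have ht0 : 0 < ‖z - y‖ := by linarith
      have hdec : (k z - k y) * bk δ (z - y) - (k z - k y') * bk δ (z - y') =
          (k z - k y) * (bk δ (z - y) - bk δ (z - y')) + (k y' - k y) * bk δ (z - y') := by ring
      rw [hdec]
      have hww : ‖(z - y) - (z - y')‖ ≤ r := by
        have : (z - y) - (z - y') = -(y - y') := by ring
        rw [this, norm_neg]; exact hyy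
      have h1 := hb4 (z - y) (z - y') (norm_pos_iff.1 ht0) (by linarith)
      have h2 : ‖bk δ (z - y) - bk δ (z - y')‖ ≤ C * r / ‖z - y‖ ^ 3 := by
        refine h1.trans ?_
        gcongr
      have h3 : ‖(k z - k y) * (bk δ (z - y) - bk δ (z - y'))‖ ≤
          (L * ‖z - y‖) * (C * r / ‖z - y‖ ^ 3) := by
        rw [norm_mul]
        exact mul_le_mul (hlip z y) h2 (norm_nonneg _) (by positivity)
      have h4 : ‖(k y' - k y) * bk δ (z - y')‖ ≤ (L * r) * (4 / ‖z - y‖ ^ 2) := by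
        rw [norm_mul]
        apply mul_le_mul _ _ (norm_nonneg _) (by positivity)
        · refine (hlip y' y).trans ?_
          rw [norm_sub_rev]
          gcongr
        · refine (hb2 (z - y')).trans ?_
          have h5 : ‖z - y‖ / 2 ≤ ‖z - y'‖ := by linarith
          rw [inv_eq_one_div, div_le_div_iff₀ (by
            have : 0 < ‖z - y'‖ := by linarith
            positivity) (by positivity)]
          nlinarith
      refine (norm_add_le _ _).trans ((add_le_add h3 h4).trans ?_)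
      have h5 : (L * ‖z - y‖) * (C * r / ‖z - y‖ ^ 3) + (L * r) * (4 / ‖z - y‖ ^ 2) =
          K * (r / ‖z - y‖ ^ 2) := by
        rw [hKdef]; field_simp
      rw [h5]
      have h6 : r ≤ √r * √‖z - y‖ := by
        have : √r ≤ √‖z - y‖ := Real.sqrt_le_sqrt (by linarith)
        calc r = √r * √r := (Real.mul_self_sqrt hr.le).symm
          _ ≤ √r * √‖z - y‖ := mul_le_mul_of_nonneg_left this hsr0
      have h7 : r / ‖z - y‖ ^ 2 ≤ √r * Gz (z - y) := by
        unfold Gz
        rw [← mul_div_assoc]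
        gcongr
      calc K * (r / ‖z - y‖ ^ 2) ≤ K * (√r * Gz (z - y)) := mul_le_mul_of_nonneg_left h7 hK0
        _ ≤ K * √r * (Gz (z - y) + Gz (z - y')) := by
          have := Gz_nonneg (z - y')
          have h8 : 0 ≤ K * √r := by positivity
          nlinarith
    · push Not at hcase
      have h1 : ‖(k z - k y) * bk δ (z - y)‖ ≤ 2 * L * √r * Gz (z - y) := by
        rw [norm_mul]
        refine (mul_le_mul (hlip z y) (hb2 (z - y)) (norm_nonneg _) (by positivity)).trans ?_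
        exact tau_bd L r ‖z - y‖ hL0 (norm_nonneg _) (by linarith) hr
      have h2 : ‖(k z - k y') * bk δ (z - y')‖ ≤ 2 * L * √r * Gz (z - y') := by
        rw [norm_mul]
        refine (mul_le_mul (hlip z y') (hb2 (z - y')) (norm_nonneg _) (by positivity)).trans ?_
        exact tau_bd L r ‖z - y'‖ hL0 (norm_nonneg _) (by linarith) hr
      refine (norm_sub_le _ _).trans ((add_le_add h1 h2).trans ?_)
      have h3 : 2 * (L:ℝ) ≤ K := by rw [hKdef]; nlinarith
      have h4 := Gz_nonneg (z - y)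
      have h5 := Gz_nonneg (z - y')
      calc 2 * L * √r * Gz (z - y) + 2 * L * √r * Gz (z - y') =
          (2 * L) * (√r * (Gz (z - y) + Gz (z - y'))) := by ring
        _ ≤ K * (√r * (Gz (z - y) + Gz (z - y'))) := mul_le_mul_of_nonneg_right h3 (by positivity)
        _ = K * √r * (Gz (z - y) + Gz (z - y')) := by ring
  have hI : ∀ a : ℂ, Integrable (fun z => Hz (z - a)) := fun a => Hz_int.comp_sub_right a
  have hIb : ∀ a : ℂ, IntegrableOn (fun z => Hz (z - a)) (ball 0 R) := fun a => (hI a).integrableOn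
  have hone : IntegrableOn (fun _ : ℂ => (1:ℝ)) (ball 0 R) := by
    exact integrableOn_const (by exact measure_ball_lt_top.ne)
  have hle : ∀ a : ℂ, ∫ z in ball (0:ℂ) R, (Hz (z - a) + 1) ≤ J := by
    intro a
    rw [integral_add (hIb a) hone, hJ]
    apply add_le_add
    · calc ∫ z in ball (0:ℂ) R, Hz (z - a) ≤ ∫ z, Hz (z - a) :=
          setIntegral_le_integral (hI a) (Filter.Eventually.of_forall (fun z => Hz_nonneg _))
        _ = ∫ w, Hz w := integral_sub_right_eq_self Hz a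
    · simp
  calc ∫ z in ball (0 : ℂ) R,
        ‖(k z - k y) * bk δ (z - y) - (k z - k y') * bk δ (z - y')‖ ≤
      ∫ z in ball (0 : ℂ) R, K * √r * ((Hz (z - y) + 1) + (Hz (z - y') + 1)) := by
        apply integral_mono_of_nonneg
        · exact Filter.Eventually.of_forall (fun z => norm_nonneg _)
        · exact (((hIb y).add hone).add ((hIb y').add hone)).const_mul _
        · refine Filter.Eventually.of_forall (fun z => (hpt z).trans ?_)
          have h1 := Gz_le (z - y)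
          have h2 := Gz_le (z - y')
          have h8 : 0 ≤ K * √r := by positivity
          exact mul_le_mul_of_nonneg_left (by linarith) h8
    _ = K * √r * ((∫ z in ball (0:ℂ) R, (Hz (z - y) + 1)) + ∫ z in ball (0:ℂ) R, (Hz (z - y') + 1)) := by
        rw [integral_const_mul]
        congr 1
        exact integral_add ((hIb y).add hone) ((hIb y').add hone)
    _ ≤ K * q * (J + J) := by
        apply mul_le_mul (mul_le_mul_of_nonneg_left hsr hK0) (add_le_add (hle y) (hle y'))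
        · exact add_nonneg (integral_nonneg (fun z => by have := Hz_nonneg (z - y); positivity))
            (integral_nonneg (fun z => by have := Hz_nonneg (z - y'); positivity))
        · positivity
    _ ≤ ε := by
        have : K * q * (J + J) = ε * ((2 * K * J) / (2 * K * J + 1)) := by
          rw [hq]; ring
        rw [this]
        have h9 : (2 * K * J) / (2 * K * J + 1) ≤ 1 := by
          rw [div_le_one hden]; linarith
        calc ε * ((2 * K * J) / (2 * K * J + 1)) ≤ ε * 1 := mul_le_mul_of_nonneg_left h9 hε.le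
          _ = ε := mul_one ε

end Pool.Agent.Split938.J6c
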