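import Pool.Agent.Split938.Defs

set_option autoImplicit false
open MeasureTheory Metric Set Filter Topology

namespace Pool.Agent.Split938.J6d

open scoped ENNReal

theorem shift_ball (γ : ℂ → ℂ) (r : ℝ) (ζ : ℂ) :
    ∫ w in ball (0 : ℂ) r, γ (ζ + w) = ∫ x in ball ζ r, γ x := by
  rw [← integral_indicator measurableSet_ball, ← integral_indicator measurableSet_ball,
    ← integral_add_left_eq_self (fun x => (ball ζ r).indicator γ x) ζ]
  congr 1
  funext w
  by_cases hw : w ∈ ball (0 : ℂ) r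
  · have h2 : ζ + w ∈ ball ζ r := by simpa [mem_ball, dist_eq_norm] using hw
    rw [indicator_of_mem hw, indicator_of_mem h2]
  · have h2 : ζ + w ∉ ball ζ r := by simpa [mem_ball, dist_eq_norm] using hw
    rw [indicator_of_notMem hw, indicator_of_notMem h2]

theorem shear_integrable (γ : ℂ → ℂ) (hγ : Integrable γ) (r : ℝ) :
    Integrable (fun p : ℂ × ℂ => γ (p.2 + p.1)) ((volume.restrict (ball (0 : ℂ) r)).prod volume) := by
  haveI : IsFiniteMeasure (volume.restrict (ball (0 : ℂ) r)) :=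
    ⟨by rw [Measure.restrict_apply_univ]; exact measure_ball_lt_top⟩
  have h1 : Integrable (fun p : ℂ × ℂ => γ p.2) ((volume.restrict (ball (0 : ℂ) r)).prod volume) :=
    hγ.comp_snd _
  have h2 := measurePreserving_prod_add (volume.restrict (ball (0 : ℂ) r)) (volume : Measure ℂ)
  have h3 := (h2.integrable_comp h1.aestronglyMeasurable).mpr h1
  refine h3.congr (Filter.Eventually.of_forall fun p => ?_)
  simp [add_comm]

/-- Fubini: a kernel whose columns vary little at scale `r` maps `γ - Mr r γ` to something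
small in `L¹(B)` -/
theorem main (κ : ℂ → ℂ → ℂ) (hκ : Continuous (fun p : ℂ × ℂ => κ p.1 p.2)) (M : ℝ)
    (hM : ∀ z y, ‖κ z y‖ ≤ M) (B : Set ℂ) (hB : MeasurableSet B) (hBf : volume B < ⊤)
    (r : ℝ) (hr : 0 < r) (ε : ℝ)
    (h : ∀ y y' : ℂ, ‖y - y'‖ ≤ r → ∫ z in B, ‖κ z y - κ z y'‖ ≤ ε)
    (γ : ℂ → ℂ) (hγ : Integrable γ) :
    ∫ z in B, ‖∫ ζ, κ z ζ * (γ ζ - Mr r γ ζ)‖ ≤ ε * ∫ ζ, ‖γ ζ‖ := by
  haveI hfin : IsFiniteMeasure (volume.restrict (ball (0 : ℂ) r)) :=
    ⟨by rw [Measure.restrict_apply_univ]; exact measure_ball_lt_top⟩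
  haveI hfinB : IsFiniteMeasure (volume.restrict B) :=
    ⟨by rw [Measure.restrict_apply_univ]; exact hBf⟩
  set μ := volume.restrict (ball (0 : ℂ) r) with hμ
  set V : ℝ := Real.pi * r ^ 2 with hV
  have hV0 : 0 < V := by positivity
  have hVol : μ.real univ = V := by
    rw [hμ, measureReal_restrict_apply_univ, Measure.real, Complex.volume_ball]
    simp [hV, hr.le, mul_comm]
  have hM0 : 0 ≤ M := (norm_nonneg _).trans (hM 0 0)
  have hcz : ∀ z, Continuous (κ z) := fun z => hκ.comp (Continuous.prodMk_right z)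
  have hγ2 : Integrable (fun p : ℂ × ℂ => γ p.2) (μ.prod volume) := hγ.comp_snd _
  have i1 : ∀ z, Integrable (fun p : ℂ × ℂ => κ z p.2 * γ p.2) (μ.prod volume) := fun z =>
    hγ2.bdd_mul (c := M) (by have := hcz z; fun_prop) (Filter.Eventually.of_forall fun p => hM _ _)
  have i2 : ∀ z, Integrable (fun p : ℂ × ℂ => κ z (p.2 - p.1) * γ p.2) (μ.prod volume) := fun z =>
    hγ2.bdd_mul (c := M) (by have := hcz z; fun_prop) (Filter.Eventually.of_forall fun p => hM _ _)
  have i3 : ∀ z, Integrable (fun p : ℂ × ℂ => κ z p.2 * γ (p.2 + p.1)) (μ.prod volume) := fun z =>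
    (shear_integrable γ hγ r).bdd_mul (c := M) (by have := hcz z; fun_prop) (Filter.Eventually.of_forall fun p => hM _ _)
  have e1 : ∀ z, ∫ p, κ z p.2 * γ p.2 ∂(μ.prod volume) = (V : ℂ) * ∫ ζ, κ z ζ * γ ζ := by
    intro z
    rw [integral_prod _ (i1 z)]
    simp [hVol]
  have e2 : ∀ z, ∫ p, κ z (p.2 - p.1) * γ p.2 ∂(μ.prod volume) =
      (V : ℂ) * ∫ ζ, κ z ζ * Mr r γ ζ := by
    intro z
    rw [integral_prod _ (i2 z)]
    have a1 : ∀ w : ℂ, ∫ ζ, κ z (ζ - w) * γ ζ = ∫ ζ, κ z ζ * γ (ζ + w) := by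
      intro w
      rw [← integral_add_right_eq_self _ w]
      simp
    simp only [a1]
    rw [integral_integral_swap (i3 z), ← integral_const_mul]
    congr 1
    funext ζ
    rw [integral_const_mul, hμ, shift_ball, Mr, ← hV]
    have : (V : ℂ) ≠ 0 := by exact_mod_cast hV0.ne'
    field_simp
  have i4 : ∀ z, Integrable (fun ζ => κ z ζ * γ ζ) := fun z =>
    hγ.bdd_mul (c := M) (hcz z).aestronglyMeasurable (Filter.Eventually.of_forall fun p => hM _ _)
  have i5 : ∀ z, Integrable (fun ζ => κ z ζ * Mr r γ ζ) := by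
    intro z
    have := (i3 z).integral_prod_right
    refine (this.const_mul ((V : ℂ)⁻¹)).congr (Filter.Eventually.of_forall fun ζ => ?_)
    simp only [integral_const_mul]
    rw [hμ, shift_ball, Mr, ← hV]
    ring
  have hD : ∀ z, ∫ ζ, κ z ζ * (γ ζ - Mr r γ ζ) =
      (V : ℂ)⁻¹ * ∫ p, (κ z p.2 - κ z (p.2 - p.1)) * γ p.2 ∂(μ.prod volume) := by
    intro z
    have : (V : ℂ) ≠ 0 := by exact_mod_cast hV0.ne'
    simp only [mul_sub, sub_mul]
    rw [integral_sub (i4 z) (i5 z), integral_sub (i1 z) (i2 z), e1, e2]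
    field_simp
  have hsmall : Integrable (fun q : ℂ × (ℂ × ℂ) => ‖κ q.1 q.2.2 - κ q.1 (q.2.2 - q.2.1)‖ * ‖γ q.2.2‖)
      ((volume.restrict B).prod (μ.prod volume)) := by
    have h1 : Integrable (fun q : ℂ × (ℂ × ℂ) => ‖γ q.2.2‖) ((volume.restrict B).prod (μ.prod volume)) :=
      (hγ2.comp_snd _).norm
    have c1 : Continuous (fun q : ℂ × (ℂ × ℂ) => κ q.1 q.2.2) :=
      hκ.comp (by fun_prop : Continuous fun q : ℂ × (ℂ × ℂ) => (q.1, q.2.2))
    have c2 : Continuous (fun q : ℂ × (ℂ × ℂ) => κ q.1 (q.2.2 - q.2.1)) :=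
      hκ.comp (by fun_prop : Continuous fun q : ℂ × (ℂ × ℂ) => (q.1, q.2.2 - q.2.1))
    refine h1.bdd_mul (c := 2 * M) (c1.sub c2).norm.aestronglyMeasurable
      (Filter.Eventually.of_forall fun q => ?_)
    rw [norm_norm]
    calc _ ≤ ‖κ q.1 q.2.2‖ + ‖κ q.1 (q.2.2 - q.2.1)‖ := norm_sub_le _ _
      _ ≤ 2 * M := by linarith [hM q.1 q.2.2, hM q.1 (q.2.2 - q.2.1)]
  have hε0 : 0 ≤ ε := by
    have := h 0 0 (by simpa using hr.le)
    simpa using this
  have hb : ∀ z, ‖∫ ζ, κ z ζ * (γ ζ - Mr r γ ζ)‖ ≤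
      V⁻¹ * ∫ p, ‖κ z p.2 - κ z (p.2 - p.1)‖ * ‖γ p.2‖ ∂(μ.prod volume) := by
    intro z
    rw [hD, norm_mul, norm_inv, Complex.norm_real, Real.norm_of_nonneg hV0.le]
    apply mul_le_mul_of_nonneg_left _ (by positivity)
    refine (norm_integral_le_integral_norm _).trans (le_of_eq ?_)
    simp only [norm_mul]
  have hR := hsmall.integral_prod_left
  calc ∫ z in B, ‖∫ ζ, κ z ζ * (γ ζ - Mr r γ ζ)‖
      ≤ ∫ z in B, V⁻¹ * ∫ p, ‖κ z p.2 - κ z (p.2 - p.1)‖ * ‖γ p.2‖ ∂(μ.prod volume) := by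
        apply integral_mono_of_nonneg (Filter.Eventually.of_forall fun z => norm_nonneg _)
          (hR.const_mul _) (Filter.Eventually.of_forall fun z => hb z)
    _ = V⁻¹ * ∫ p, (∫ z in B, ‖κ z p.2 - κ z (p.2 - p.1)‖ * ‖γ p.2‖) ∂(μ.prod volume) := by
        rw [integral_const_mul, integral_integral_swap hsmall]
    _ ≤ V⁻¹ * ∫ p, ε * ‖γ p.2‖ ∂(μ.prod volume) := by
        apply mul_le_mul_of_nonneg_left _ (by positivity)
        apply integral_mono_ae hsmall.integral_prod_right (hγ2.norm.const_mul ε)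
        have hae : ∀ᵐ p ∂(μ.prod (volume : Measure ℂ)), p.1 ∈ ball (0 : ℂ) r := by
          have h1 : ∀ᵐ w ∂μ, w ∈ ball (0 : ℂ) r := ae_restrict_mem measurableSet_ball
          exact Measure.quasiMeasurePreserving_fst.ae h1
        filter_upwards [hae] with p hp
        rw [integral_mul_const]
        apply mul_le_mul_of_nonneg_right _ (norm_nonneg _)
        apply h
        simp only [mem_ball, dist_zero_right] at hp
        simpa using hp.le
    _ = ε * ∫ ζ, ‖γ ζ‖ := by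
        rw [integral_const_mul, integral_prod _ hγ2.norm]
        simp [hVol]
        field_simp

end Pool.Agent.Split938.J6d
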