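import Pool.Agent.Split938.Defs

set_option autoImplicit false
open MeasureTheory Metric Set Filter Topology

namespace Pool.Agent.Split938.J6e

private noncomputable def FF (r : ℝ) (γ : ℂ → ℂ) (p : ℂ × ℂ) : ℂ :=
  {q : ℂ × ℂ | dist q.2 q.1 < r}.indicator (fun q => γ q.2) p

private theorem FF_slice (r : ℝ) (γ : ℂ → ℂ) (z ζ : ℂ) :
    FF r γ (z, ζ) = (ball z r).indicator γ ζ := by
  unfold FF
  simp only [Set.indicator, mem_ball]
  rfl

private theorem FF_slice' (r : ℝ) (γ : ℂ → ℂ) (z ζ : ℂ) :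
    FF r γ (z, ζ) = (ball ζ r).indicator (fun _ => γ ζ) z := by
  unfold FF
  simp only [Set.indicator, mem_ball]
  by_cases h : dist ζ z < r
  · have h' : dist z ζ < r := by rwa [dist_comm]
    simp [h, h']
  · have h' : ¬ dist z ζ < r := by rwa [dist_comm]
    simp [h, h']

private theorem Mr_eq (r : ℝ) (γ : ℂ → ℂ) (z : ℂ) :
    Mr r γ z = ((Real.pi * r ^ 2 : ℝ) : ℂ)⁻¹ * ∫ ζ, FF r γ (z, ζ) := by
  unfold Mr
  congr 1
  rw [← integral_indicator measurableSet_ball]
  refine integral_congr_ae (Eventually.of_forall fun ζ => ?_)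
  simp only
  rw [FF_slice]

private theorem vol_ball (ζ : ℂ) (r : ℝ) (hr : 0 < r) : (volume : Measure ℂ).real (ball ζ r) = Real.pi * r ^ 2 := by
  rw [Measure.real, Complex.volume_ball, ENNReal.toReal_mul, ENNReal.toReal_pow,
    ENNReal.toReal_ofReal hr.le]
  simp
  ring

private theorem norm_int (r : ℝ) (hr : 0 < r) (γ : ℂ → ℂ) (ζ : ℂ) :
    (∫ z, ‖FF r γ (z, ζ)‖) = Real.pi * r ^ 2 * ‖γ ζ‖ := by
  have h1 : (fun z => ‖FF r γ (z, ζ)‖) = (ball ζ r).indicator (fun _ => ‖γ ζ‖) := by
    funext z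
    rw [FF_slice', norm_indicator_eq_indicator_norm]
  rw [h1, integral_indicator measurableSet_ball, setIntegral_const, vol_ball ζ r hr, smul_eq_mul]

private theorem FF_meas (r : ℝ) (γ : ℂ → ℂ) (hγ : Integrable γ) :
    AEStronglyMeasurable (FF r γ) ((volume : Measure ℂ).prod (volume : Measure ℂ)) := by
  unfold FF
  have h1 : AEStronglyMeasurable (fun q : ℂ × ℂ => γ q.2) ((volume : Measure ℂ).prod (volume : Measure ℂ)) :=
    hγ.1.comp_snd
  refine h1.indicator ?_
  exact (isOpen_lt (by fun_prop) continuous_const).measurableSet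

private theorem FF_int (r : ℝ) (hr : 0 < r) (γ : ℂ → ℂ) (hγ : Integrable γ) :
    Integrable (FF r γ) ((volume : Measure ℂ).prod (volume : Measure ℂ)) := by
  rw [integrable_prod_iff' (FF_meas r γ hγ)]
  constructor
  · refine Eventually.of_forall fun ζ => ?_
    have h1 : (fun z => FF r γ (z, ζ)) = (ball ζ r).indicator (fun _ => γ ζ) := by
      funext z
      rw [FF_slice']
    rw [h1, integrable_indicator_iff measurableSet_ball]
    exact integrableOn_const (by exact measure_ball_lt_top.ne)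
  · have h1 : (fun ζ => ∫ z, ‖FF r γ (z, ζ)‖) = fun ζ => Real.pi * r ^ 2 * ‖γ ζ‖ := by
      funext ζ
      exact norm_int r hr γ ζ
    rw [h1]
    exact hγ.norm.const_mul _

/-- basic facts on the averaging operator -/
theorem main (r : ℝ) (hr : 0 < r) (γ : ℂ → ℂ) (hγ : Integrable γ) :
    Integrable (Mr r γ) ∧ (∫ z, ‖Mr r γ z‖) ≤ ∫ z, ‖γ z‖ ∧ Continuous (Mr r γ) := by
  have hFF := FF_int r hr γ hγ
  have hM : Mr r γ = fun z => ((Real.pi * r ^ 2 : ℝ) : ℂ)⁻¹ * ∫ ζ, FF r γ (z, ζ) := by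
    funext z
    exact Mr_eq r γ z
  have hpos : 0 < Real.pi * r ^ 2 := by positivity
  refine ⟨?_, ?_, ?_⟩
  · rw [hM]
    exact hFF.integral_prod_left.const_mul _
  · have h1 : ∀ z, ‖Mr r γ z‖ ≤ (Real.pi * r ^ 2)⁻¹ * ∫ ζ, ‖FF r γ (z, ζ)‖ := by
      intro z
      rw [Mr_eq, norm_mul, norm_inv, Complex.norm_real, Real.norm_of_nonneg hpos.le]
      exact mul_le_mul_of_nonneg_left (norm_integral_le_integral_norm _) (by positivity)
    have hn : Integrable (fun p : ℂ × ℂ => ‖FF r γ p‖) ((volume : Measure ℂ).prod (volume : Measure ℂ)) :=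
      hFF.norm
    have hint1 : Integrable (fun z => ‖Mr r γ z‖) := by
      rw [hM]
      exact (hFF.integral_prod_left.const_mul _).norm
    calc (∫ z, ‖Mr r γ z‖) ≤ ∫ z, (Real.pi * r ^ 2)⁻¹ * ∫ ζ, ‖FF r γ (z, ζ)‖ :=
          integral_mono hint1 (hn.integral_prod_left.const_mul _) h1
      _ = (Real.pi * r ^ 2)⁻¹ * ∫ z, ∫ ζ, ‖FF r γ (z, ζ)‖ := by rw [integral_const_mul]
      _ = (Real.pi * r ^ 2)⁻¹ * ∫ ζ, ∫ z, ‖FF r γ (z, ζ)‖ := by
          congr 1
          exact integral_integral_swap (f := fun z ζ => ‖FF r γ (z, ζ)‖) hn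
      _ = (Real.pi * r ^ 2)⁻¹ * ∫ ζ, Real.pi * r ^ 2 * ‖γ ζ‖ := by
          congr 1
          refine integral_congr_ae (Eventually.of_forall fun ζ => ?_)
          exact norm_int r hr γ ζ
      _ = ∫ ζ, ‖γ ζ‖ := by
          rw [integral_const_mul, ← mul_assoc, inv_mul_cancel₀ hpos.ne', one_mul]
  · rw [hM]
    refine Continuous.mul continuous_const ?_
    rw [continuous_iff_continuousAt]
    intro z₀
    refine continuousAt_of_dominated (bound := fun ζ => ‖γ ζ‖) ?_ ?_ hγ.norm ?_
    · refine Eventually.of_forall fun z => ?_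
      have h1 : (fun ζ => FF r γ (z, ζ)) = (ball z r).indicator γ := by
        funext ζ
        rw [FF_slice]
      rw [h1]
      exact hγ.1.indicator measurableSet_ball
    · refine Eventually.of_forall fun z => Eventually.of_forall fun ζ => ?_
      rw [FF_slice]
      exact norm_indicator_le_norm_self _ _
    · have hs : (volume : Measure ℂ) (sphere z₀ r) = 0 := Measure.addHaar_sphere _ _ _
      have hae : ∀ᵐ ζ ∂(volume : Measure ℂ), ζ ∉ sphere z₀ r := by
        rw [ae_iff]
        simp only [not_not]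
        exact hs
      filter_upwards [hae] with ζ hζ
      rw [mem_sphere] at hζ
      rcases lt_or_gt_of_ne hζ with h | h
      · have hev : ∀ᶠ z in 𝓝 z₀, dist ζ z < r :=
          (isOpen_lt (by fun_prop) continuous_const).mem_nhds h
        have heq : (fun z => FF r γ (z, ζ)) =ᶠ[𝓝 z₀] fun _ => γ ζ := by
          filter_upwards [hev] with z hz
          rw [FF_slice, Set.indicator_of_mem (by simpa [mem_ball] using hz)]
        exact continuousAt_const.congr heq.symm
      · have hev : ∀ᶠ z in 𝓝 z₀, r < dist ζ z :=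
          (isOpen_lt continuous_const (by fun_prop)).mem_nhds h
        have heq : (fun z => FF r γ (z, ζ)) =ᶠ[𝓝 z₀] fun _ => (0 : ℂ) := by
          filter_upwards [hev] with z hz
          rw [FF_slice, Set.indicator_of_notMem (by simp [mem_ball]; exact hz.le)]
        exact continuousAt_const.congr heq.symm

end Pool.Agent.Split938.J6e
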