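import Pool.Agent.Split938.Defs

set_option autoImplicit false
open MeasureTheory Metric Set Filter Topology

namespace Pool.Agent.Split938.J6f

theorem aux_cont (κ : ℂ → ℂ → ℂ) (hκ : Continuous (fun p : ℂ × ℂ => κ p.1 p.2)) (M : ℝ)
    (hM : ∀ z y, ‖κ z y‖ ≤ M) (G : ℂ → ℂ) (hG : Integrable G) :
    Continuous (fun z => ∫ ζ, κ z ζ * G ζ) := by
  apply MeasureTheory.continuous_of_dominated (bound := fun ζ => M * ‖G ζ‖)
  · intro z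
    have h1 : Continuous (fun ζ => κ z ζ) :=
      hκ.comp (Continuous.prodMk continuous_const continuous_id)
    exact h1.aestronglyMeasurable.mul hG.aestronglyMeasurable
  · intro z
    filter_upwards with ζ
    rw [norm_mul]
    exact mul_le_mul_of_nonneg_right (hM z ζ) (norm_nonneg _)
  · exact hG.norm.const_mul M
  · filter_upwards with ζ
    have h1 : Continuous (fun z => κ z ζ) :=
      hκ.comp (Continuous.prodMk continuous_id continuous_const)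
    exact h1.mul continuous_const

theorem aux_int (κ : ℂ → ℂ → ℂ) (hκ : Continuous (fun p : ℂ × ℂ => κ p.1 p.2)) (M : ℝ)
    (hM : ∀ z y, ‖κ z y‖ ≤ M) (G : ℂ → ℂ) (hG : Integrable G) (z : ℂ) :
    Integrable (fun ζ => κ z ζ * G ζ) := by
  have h1 : Continuous (fun ζ => κ z ζ) :=
    hκ.comp (Continuous.prodMk continuous_const continuous_id)
  apply (hG.norm.const_mul M).mono' (h1.aestronglyMeasurable.mul hG.aestronglyMeasurable)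
  filter_upwards with ζ
  show ‖κ z ζ * G ζ‖ ≤ _
  rw [norm_mul]
  exact mul_le_mul_of_nonneg_right (hM z ζ) (norm_nonneg _)

theorem aux_ball_int (f : ℂ → ℝ) (hf : Continuous f) (R : ℝ) : IntegrableOn f (ball (0 : ℂ) R) :=
  (hf.continuousOn.integrableOn_compact (isCompact_closedBall (0 : ℂ) R)).mono_set
    ball_subset_closedBall

theorem aux_cs (f : ℂ → ℝ) (hf : Continuous f) (h0 : ∀ z, 0 ≤ f z) (R : ℝ) (hR : 0 < R) (I : ℝ)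
    (hI : ∫ z in ball (0 : ℂ) R, f z ≤ I) :
    ∫ z in ball (0 : ℂ) R, Real.sqrt (f z) ≤
      Real.sqrt ((volume (ball (0 : ℂ) R)).toReal * I) := by
  set V := (volume (ball (0 : ℂ) R)).toReal with hV
  have hV0 : 0 < V := ENNReal.toReal_pos (measure_ball_pos volume (0 : ℂ) hR).ne'
    measure_ball_lt_top.ne
  have hconc : ConcaveOn ℝ (Set.Ici (0 : ℝ)) Real.sqrt := Real.strictConcaveOn_sqrt.concaveOn
  have hJ := hconc.le_map_set_average (μ := volume) (t := ball (0 : ℂ) R) (f := f)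
    Real.continuous_sqrt.continuousOn isClosed_Ici (measure_ball_pos volume (0 : ℂ) hR).ne'
    measure_ball_lt_top.ne (by filter_upwards with z using h0 z) (aux_ball_int f hf R)
    (aux_ball_int _ (Real.continuous_sqrt.comp hf) R)
  rw [setAverage_eq, setAverage_eq, smul_eq_mul, smul_eq_mul] at hJ
  have hVr : volume.real (ball (0 : ℂ) R) = V := rfl
  rw [hVr] at hJ
  have hI0 : 0 ≤ ∫ z in ball (0 : ℂ) R, f z := by
    apply integral_nonneg_of_ae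
    filter_upwards with z using h0 z
  have h1 : ∫ z in ball (0 : ℂ) R, Real.sqrt (f z) ≤
      V * Real.sqrt (V⁻¹ * ∫ z in ball (0 : ℂ) R, f z) := by
    have h2 := mul_le_mul_of_nonneg_left hJ hV0.le
    rw [← mul_assoc, mul_inv_cancel₀ hV0.ne', one_mul] at h2
    exact h2
  refine h1.trans ?_
  have h3 : V * Real.sqrt (V⁻¹ * ∫ z in ball (0 : ℂ) R, f z) =
      Real.sqrt (V * ∫ z in ball (0 : ℂ) R, f z) := by
    have h4 : V = Real.sqrt (V ^ 2) := (Real.sqrt_sq hV0.le).symm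
    conv_lhs => rw [h4]
    rw [← Real.sqrt_mul (by positivity), Real.sqrt_sq hV0.le]
    congr 1
    field_simp
  rw [h3]
  exact Real.sqrt_le_sqrt (mul_le_mul_of_nonneg_left hI hV0.le)

theorem aux_piece (X G ε : ℝ) (hε : 0 < ε) (hG : 0 ≤ G) (hX : X ≤ (ε / 6) ^ 2) :
    Real.sqrt (X * G) ≤ ε / 6 * Real.sqrt G := by
  have h1 : X * G ≤ (ε / 6) ^ 2 * G := mul_le_mul_of_nonneg_right hX hG
  refine (Real.sqrt_le_sqrt h1).trans ?_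
  rw [Real.sqrt_mul (by positivity), Real.sqrt_sq (by positivity)]

theorem aux_lip (k : ℂ → ℂ) (hk : Continuous k) (hk' : HasCompactSupport k) (η : ℝ) (hη : 0 < η) :
    ∃ (ks : ℂ → ℂ) (L : NNReal), LipschitzWith L ks ∧ Continuous ks ∧ HasCompactSupport ks ∧
      ∀ x, ‖k x - ks x‖ ≤ η := by
  have hu : UniformContinuous k := hk'.uniformContinuous_of_continuous hk
  obtain ⟨δ, hδ, hfδ⟩ := Metric.uniformContinuous_iff.mp hu η hη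
  obtain ⟨g, hgc, hg⟩ := hk.exists_contDiff_dist_le_of_forall_mem_ball_dist_le hδ
  have hgs : HasCompactSupport g := by
    apply HasCompactSupport.intro (K := cthickening δ (tsupport k))
    · exact hk'.isCompact.cthickening
    · intro x hx
      have hzero : ∀ y ∈ ball x δ, k y = 0 := by
        intro y hy
        by_contra hne
        apply hx
        apply mem_cthickening_of_dist_le x y δ _ (subset_tsupport _ hne)
        rw [dist_comm]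
        exact (mem_ball.mp hy).le
      have h1 := hg x 0 (by
        intro y hy
        rw [hzero y hy, hzero x (mem_ball_self hδ)]
        simp)
      rw [hzero x (mem_ball_self hδ)] at h1
      exact dist_le_zero.mp h1
  obtain ⟨L, hL⟩ := ContDiff.lipschitzWith_of_hasCompactSupport (𝕂 := ℝ) hgs hgc (by simp)
  refine ⟨g, L, hL, hgc.continuous, hgs, ?_⟩
  intro x
  rw [← dist_eq_norm, dist_comm]
  exact hg x η (fun y hy => (hfδ (mem_ball.mp hy)).le)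

theorem aux_split (B : Set ℂ) (f1 f2 f3 f4 f5 f6 : ℂ → ℝ) (h1 : IntegrableOn f1 B)
    (h2 : IntegrableOn f2 B) (h3 : IntegrableOn f3 B) (h4 : IntegrableOn f4 B)
    (h5 : IntegrableOn f5 B) (h6 : IntegrableOn f6 B) :
    ∫ z in B, (f1 z + f2 z + f3 z + f4 z + f5 z + f6 z) =
      (∫ z in B, f1 z) + (∫ z in B, f2 z) + (∫ z in B, f3 z) + (∫ z in B, f4 z) +
        (∫ z in B, f5 z) + (∫ z in B, f6 z) := by
  have a2 : IntegrableOn (fun z => f1 z + f2 z) B := h1.add h2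
  have a3 : IntegrableOn (fun z => f1 z + f2 z + f3 z) B := a2.add h3
  have a4 : IntegrableOn (fun z => f1 z + f2 z + f3 z + f4 z) B := a3.add h4
  have a5 : IntegrableOn (fun z => f1 z + f2 z + f3 z + f4 z + f5 z) B := a4.add h5
  rw [integral_add a5 h6, integral_add a4 h5, integral_add a3 h4, integral_add a2 h3,
    integral_add h1 h2]

theorem aux_sqrt_add (a b : ℝ) (ha : 0 ≤ a) (hb : 0 ≤ b) :
    Real.sqrt (a + b) ≤ Real.sqrt a + Real.sqrt b := by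
  rw [Real.sqrt_le_left (by positivity)]
  have h1 := Real.sq_sqrt ha
  have h2 := Real.sq_sqrt hb
  nlinarith [Real.sqrt_nonneg a, Real.sqrt_nonneg b]

theorem aux_sqrt_le6 (x a b c d e f : ℝ) (ha : 0 ≤ a) (hb : 0 ≤ b) (hc : 0 ≤ c) (hd : 0 ≤ d)
    (he : 0 ≤ e) (hf : 0 ≤ f) (h : x ≤ a + b + c + d + e + f) :
    Real.sqrt x ≤ Real.sqrt a + Real.sqrt b + Real.sqrt c + Real.sqrt d + Real.sqrt e +
      Real.sqrt f := by
  have h1 := aux_sqrt_add (a + b + c + d + e) f (by positivity) hf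
  have h2 := aux_sqrt_add (a + b + c + d) e (by positivity) he
  have h3 := aux_sqrt_add (a + b + c) d (by positivity) hd
  have h4 := aux_sqrt_add (a + b) c (by positivity) hc
  have h5 := aux_sqrt_add a b ha hb
  have h6 := Real.sqrt_le_sqrt h
  linarith

/-- smallness of `Hd` on `γ - Mr r γ`, from the kernel lemmas J6a..J6e -/
theorem main
    (hB : ∀ R : ℝ, 0 < R → ∃ C : ℝ, 0 < C ∧ ∀ δ : ℝ, 0 < δ → ∀ (E : ℂ → ℂ), Integrable E →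
      IntegrableOn (fun z => Real.sqrt ‖Bk δ E z‖) (ball 0 R) ∧
      ∫ z in ball (0 : ℂ) R, Real.sqrt ‖Bk δ E z‖ ≤ C * Real.sqrt (∫ ζ, ‖E ζ‖))
    (hK : ∃ C : ℝ, 0 < C ∧ ∀ δ : ℝ, 0 < δ →
    (Continuous (ck δ) ∧ Continuous (bk δ) ∧ Continuous (pk δ)) ∧
    (∀ w, ‖ck δ w‖ ≤ 1 / δ) ∧ (∀ w, ‖bk δ w‖ ≤ 1 / δ ^ 2) ∧ (∀ w, ‖pk δ w‖ ≤ 1 / δ ^ 2) ∧
    (∀ w, ‖ck δ w‖ ≤ ‖w‖⁻¹) ∧ (∀ w, ‖bk δ w‖ ≤ (‖w‖ ^ 2)⁻¹) ∧
    (∀ w w' : ℂ, w ≠ 0 → ‖w - w'‖ ≤ ‖w‖ / 2 → ‖ck δ w - ck δ w'‖ ≤ C * ‖w - w'‖ / ‖w‖ ^ 2) ∧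
    (∀ w w' : ℂ, w ≠ 0 → ‖w - w'‖ ≤ ‖w‖ / 2 → ‖bk δ w - bk δ w'‖ ≤ C * ‖w - w'‖ / ‖w‖ ^ 3) ∧
    (∀ w, ck δ (-w) = - ck δ w) ∧ (∀ w, bk δ (-w) = bk δ w) ∧ (∀ w, pk δ (-w) = pk δ w))
    (h6b : ∀ (k : ℂ → ℂ), Continuous k → HasCompactSupport k → ∀ (R : ℝ), 0 < R → ∀ (ε : ℝ), 0 < ε →
      ∃ r₀ : ℝ, 0 < r₀ ∧ ∀ δ : ℝ, 0 < δ → δ < 1 → ∀ r : ℝ, 0 < r → r ≤ r₀ →
      ∀ y y' : ℂ, ‖y - y'‖ ≤ r →
      ∫ z in ball (0 : ℂ) R, ‖k y * ck δ (z - y) - k y' * ck δ (z - y')‖ ≤ ε ∧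
      ∫ z in ball (0 : ℂ) R, ‖ck δ (z - y) - ck δ (z - y')‖ ≤ ε)
    (h6c : ∀ (k : ℂ → ℂ) (L : NNReal), LipschitzWith L k → ∀ (R : ℝ), 0 < R → ∀ (ε : ℝ), 0 < ε →
      ∃ r₀ : ℝ, 0 < r₀ ∧ ∀ δ : ℝ, 0 < δ → δ < 1 → ∀ r : ℝ, 0 < r → r ≤ r₀ →
      ∀ y y' : ℂ, ‖y - y'‖ ≤ r →
      ∫ z in ball (0 : ℂ) R,
        ‖(k z - k y) * bk δ (z - y) - (k z - k y') * bk δ (z - y')‖ ≤ ε)
    (h6d : ∀ (κ : ℂ → ℂ → ℂ), Continuous (fun p : ℂ × ℂ => κ p.1 p.2) → ∀ (M : ℝ),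
      (∀ z y, ‖κ z y‖ ≤ M) → ∀ (B : Set ℂ), MeasurableSet B → volume B < ⊤ →
      ∀ (r : ℝ), 0 < r → ∀ (ε : ℝ), (∀ y y' : ℂ, ‖y - y'‖ ≤ r → ∫ z in B, ‖κ z y - κ z y'‖ ≤ ε) →
      ∀ (γ : ℂ → ℂ), Integrable γ →
      ∫ z in B, ‖∫ ζ, κ z ζ * (γ ζ - Mr r γ ζ)‖ ≤ ε * ∫ ζ, ‖γ ζ‖)
    (h6e : ∀ (r : ℝ), 0 < r → ∀ (γ : ℂ → ℂ), Integrable γ →
      Integrable (Mr r γ) ∧ (∫ z, ‖Mr r γ z‖) ≤ ∫ z, ‖γ z‖ ∧ Continuous (Mr r γ))
    (k m : ℂ → ℂ) (hk : Continuous k) (hk' : HasCompactSupport k) (hm : Continuous m)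
    (hm' : HasCompactSupport m) (R : ℝ) (hR : 0 < R) (ε : ℝ) (hε : 0 < ε) :
    ∃ r : ℝ, 0 < r ∧ ∀ δ : ℝ, 0 < δ → δ < 1 → ∀ γ₀ γ₁ : ℂ → ℂ, Integrable γ₀ → Integrable γ₁ →
      ∫ z in ball (0 : ℂ) R, Real.sqrt ‖Hd k m δ (fun z => γ₀ z - Mr r γ₀ z)
        (fun z => γ₁ z - Mr r γ₁ z) z‖ ≤
        ε * Real.sqrt ((∫ ζ, ‖γ₀ ζ‖) + ∫ ζ, ‖γ₁ ζ‖) := by
  obtain ⟨C, hC, hBC⟩ := hB R hR
  obtain ⟨CK, hCK, hKδ⟩ := hK
  obtain ⟨Mk, hMk⟩ := hk'.exists_bound_of_continuous hk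
  obtain ⟨Mm, hMm⟩ := hm'.exists_bound_of_continuous hm
  have hMk0 : 0 ≤ Mk := (norm_nonneg _).trans (hMk 0)
  have hMm0 : 0 ≤ Mm := (norm_nonneg _).trans (hMm 0)
  set V := (volume (ball (0 : ℂ) R)).toReal with hV
  have hV0 : 0 < V := ENNReal.toReal_pos (measure_ball_pos volume (0 : ℂ) hR).ne'
    measure_ball_lt_top.ne
  set η : ℝ := (ε / 6) ^ 2 / (2 * C ^ 2) with hηdef
  have hη : 0 < η := by positivity
  obtain ⟨ks, L, hLip, hksc, hkss, hkks⟩ := aux_lip k hk hk' η hη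
  obtain ⟨Ms, hMs⟩ := hkss.exists_bound_of_continuous hksc
  have hMs0 : 0 ≤ Ms := (norm_nonneg _).trans (hMs 0)
  set ε₁ : ℝ := (ε / 6) ^ 2 / ((V + 1) * (Mk + 1)) with hε₁def
  have hε₁ : 0 < ε₁ := by positivity
  have hx1 : V * (Mk * ε₁) ≤ (ε / 6) ^ 2 := by
    rw [hε₁def]
    have e : V * (Mk * ((ε / 6) ^ 2 / ((V + 1) * (Mk + 1)))) =
        (V * Mk) * (ε / 6) ^ 2 / ((V + 1) * (Mk + 1)) := by ring
    rw [e, div_le_iff₀ (by positivity)]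
    have h1 : V * Mk ≤ (V + 1) * (Mk + 1) := by nlinarith
    have h2 := mul_le_mul_of_nonneg_right h1 (by positivity : 0 ≤ (ε / 6) ^ 2)
    linarith
  have hx2 : V * ε₁ ≤ (ε / 6) ^ 2 := by
    rw [hε₁def]
    have e : V * ((ε / 6) ^ 2 / ((V + 1) * (Mk + 1))) =
        V * (ε / 6) ^ 2 / ((V + 1) * (Mk + 1)) := by ring
    rw [e, div_le_iff₀ (by positivity)]
    have h1 : V ≤ (V + 1) * (Mk + 1) := by nlinarith
    have h2 := mul_le_mul_of_nonneg_right h1 (by positivity : 0 ≤ (ε / 6) ^ 2)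
    linarith
  obtain ⟨r1, hr1, H1⟩ := h6b k hk hk' R hR ε₁ hε₁
  obtain ⟨r2, hr2, H2⟩ := h6b m hm hm' R hR ε₁ hε₁
  obtain ⟨r3, hr3, H3⟩ := h6c ks L hLip R hR ε₁ hε₁
  set r := min r1 (min r2 r3) with hr
  have hr0 : 0 < r := by positivity
  have hrr1 : r ≤ r1 := min_le_left _ _
  have hrr2 : r ≤ r2 := (min_le_right _ _).trans (min_le_left _ _)
  have hrr3 : r ≤ r3 := (min_le_right _ _).trans (min_le_right _ _)
  refine ⟨r, hr0, ?_⟩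
  intro δ hδ hδ1 γ₀ γ₁ hγ₀ hγ₁
  obtain ⟨⟨hckc, hbkc, hpkc⟩, hckb, hbkb, hpkb, -⟩ := hKδ δ hδ
  obtain ⟨hm0i, hm0b, hm0c⟩ := h6e r hr0 γ₀ hγ₀
  obtain ⟨hm1i, hm1b, hm1c⟩ := h6e r hr0 γ₁ hγ₁
  set G₀ : ℂ → ℂ := fun z => γ₀ z - Mr r γ₀ z with hG₀
  set G₁ : ℂ → ℂ := fun z => γ₁ z - Mr r γ₁ z with hG₁
  have hG₀i : Integrable G₀ := hγ₀.sub hm0i
  have hG₁i : Integrable G₁ := hγ₁.sub hm1i
  have hg₀ : 0 ≤ ∫ ζ, ‖γ₀ ζ‖ := integral_nonneg fun _ => norm_nonneg _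
  have hg₁ : 0 ≤ ∫ ζ, ‖γ₁ ζ‖ := integral_nonneg fun _ => norm_nonneg _
  have hG₁b : ∫ ζ, ‖G₁ ζ‖ ≤ 2 * ∫ ζ, ‖γ₁ ζ‖ := by
    calc ∫ ζ, ‖G₁ ζ‖ ≤ ∫ ζ, (‖γ₁ ζ‖ + ‖Mr r γ₁ ζ‖) :=
          integral_mono hG₁i.norm (hγ₁.norm.add hm1i.norm) (fun ζ => norm_sub_le _ _)
      _ = (∫ ζ, ‖γ₁ ζ‖) + ∫ ζ, ‖Mr r γ₁ ζ‖ := integral_add hγ₁.norm hm1i.norm
      _ ≤ 2 * ∫ ζ, ‖γ₁ ζ‖ := by linarith
  set g₀ := ∫ ζ, ‖γ₀ ζ‖ with hg₀def
  set g₁ := ∫ ζ, ‖γ₁ ζ‖ with hg₁def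
  have hGG : 0 ≤ g₀ + g₁ := by linarith
  -- the kernels
  have hκ1c : Continuous (fun p : ℂ × ℂ => ck δ (p.1 - p.2)) :=
    hckc.comp (continuous_fst.sub continuous_snd)
  have hκb : Continuous (fun p : ℂ × ℂ => bk δ (p.1 - p.2)) :=
    hbkc.comp (continuous_fst.sub continuous_snd)
  have hκ2c : Continuous (fun p : ℂ × ℂ => k p.2 * ck δ (p.1 - p.2)) :=
    (hk.comp continuous_snd).mul hκ1c
  have hκ3c : Continuous (fun p : ℂ × ℂ => m p.2 * ck δ (p.1 - p.2)) :=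
    (hm.comp continuous_snd).mul hκ1c
  have hκ4c : Continuous (fun p : ℂ × ℂ => (ks p.1 - ks p.2) * bk δ (p.1 - p.2)) :=
    ((hksc.comp continuous_fst).sub (hksc.comp continuous_snd)).mul hκb
  have hκ1b : ∀ z y : ℂ, ‖ck δ (z - y)‖ ≤ 1 / δ := fun z y => hckb _
  have hκbb : ∀ z y : ℂ, ‖bk δ (z - y)‖ ≤ 1 / δ ^ 2 := fun z y => hbkb _
  have hκ2b : ∀ z y : ℂ, ‖k y * ck δ (z - y)‖ ≤ Mk * (1 / δ) := fun z y => by
    rw [norm_mul]; exact mul_le_mul (hMk y) (hckb _) (norm_nonneg _) hMk0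
  have hκ3b : ∀ z y : ℂ, ‖m y * ck δ (z - y)‖ ≤ Mm * (1 / δ) := fun z y => by
    rw [norm_mul]; exact mul_le_mul (hMm y) (hckb _) (norm_nonneg _) hMm0
  have hκ4b : ∀ z y : ℂ, ‖(ks z - ks y) * bk δ (z - y)‖ ≤ (Ms + Ms) * (1 / δ ^ 2) := fun z y => by
    rw [norm_mul]
    exact mul_le_mul ((norm_sub_le _ _).trans (add_le_add (hMs z) (hMs y))) (hbkb _)
      (norm_nonneg _) (by positivity)
  -- functions
  set F1 : ℂ → ℂ := fun z => ∫ ζ, ck δ (z - ζ) * G₀ ζ with hF1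
  set F2 : ℂ → ℂ := fun z => ∫ ζ, (k ζ * ck δ (z - ζ)) * G₀ ζ with hF2
  set F3 : ℂ → ℂ := fun z => ∫ ζ, (m ζ * ck δ (z - ζ)) * G₁ ζ with hF3
  set F4 : ℂ → ℂ := fun z => ∫ ζ, ((ks z - ks ζ) * bk δ (z - ζ)) * G₁ ζ with hF4
  set E₁ : ℂ → ℂ := fun ζ => (k ζ - ks ζ) * G₁ ζ with hE₁
  have hF1c : Continuous F1 := aux_cont (fun z y => ck δ (z - y)) hκ1c _ hκ1b G₀ hG₀i
  have hF2c : Continuous F2 := aux_cont (fun z y => k y * ck δ (z - y)) hκ2c _ hκ2b G₀ hG₀i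
  have hF3c : Continuous F3 := aux_cont (fun z y => m y * ck δ (z - y)) hκ3c _ hκ3b G₁ hG₁i
  have hF4c : Continuous F4 :=
    aux_cont (fun z y => (ks z - ks y) * bk δ (z - y)) hκ4c _ hκ4b G₁ hG₁i
  have hBc : Continuous (Bk δ G₁) := aux_cont (fun z y => bk δ (z - y)) hκb _ hκbb G₁ hG₁i
  have hE₁i : Integrable E₁ := by
    apply (hG₁i.norm.const_mul η).mono'
      ((hk.sub hksc).aestronglyMeasurable.mul hG₁i.aestronglyMeasurable)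
    filter_upwards with ζ
    show ‖(k ζ - ks ζ) * G₁ ζ‖ ≤ _
    rw [norm_mul]
    exact mul_le_mul_of_nonneg_right (hkks ζ) (norm_nonneg _)
  have hE₁b : ∫ ζ, ‖E₁ ζ‖ ≤ η * (2 * g₁) := by
    calc ∫ ζ, ‖E₁ ζ‖ ≤ ∫ ζ, η * ‖G₁ ζ‖ := by
          apply integral_mono hE₁i.norm (hG₁i.norm.const_mul η)
          intro ζ
          simp only [hE₁]
          rw [norm_mul]
          exact mul_le_mul_of_nonneg_right (hkks ζ) (norm_nonneg _)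
      _ = η * ∫ ζ, ‖G₁ ζ‖ := integral_const_mul _ _
      _ ≤ η * (2 * g₁) := mul_le_mul_of_nonneg_left hG₁b hη.le
  have hBEc : Continuous (Bk δ E₁) := aux_cont (fun z y => bk δ (z - y)) hκb _ hκbb E₁ hE₁i
  -- L1 bounds
  have hballm : MeasurableSet (ball (0 : ℂ) R) := measurableSet_ball
  have hballf : volume (ball (0 : ℂ) R) < ⊤ := measure_ball_lt_top
  have L1 : ∫ z in ball (0 : ℂ) R, ‖F1 z‖ ≤ ε₁ * g₀ :=
    h6d (fun z y => ck δ (z - y)) hκ1c _ hκ1b _ hballm hballf r hr0 ε₁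
      (fun y y' hy => (H1 δ hδ hδ1 r hr0 hrr1 y y' hy).2) γ₀ hγ₀
  have L2 : ∫ z in ball (0 : ℂ) R, ‖F2 z‖ ≤ ε₁ * g₀ :=
    h6d (fun z y => k y * ck δ (z - y)) hκ2c _ hκ2b _ hballm hballf r hr0 ε₁
      (fun y y' hy => (H1 δ hδ hδ1 r hr0 hrr1 y y' hy).1) γ₀ hγ₀
  have L3 : ∫ z in ball (0 : ℂ) R, ‖F3 z‖ ≤ ε₁ * g₁ :=
    h6d (fun z y => m y * ck δ (z - y)) hκ3c _ hκ3b _ hballm hballf r hr0 ε₁
      (fun y y' hy => (H2 δ hδ hδ1 r hr0 hrr2 y y' hy).1) γ₁ hγ₁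
  have L4 : ∫ z in ball (0 : ℂ) R, ‖F4 z‖ ≤ ε₁ * g₁ :=
    h6d (fun z y => (ks z - ks y) * bk δ (z - y)) hκ4c _ hκ4b _ hballm hballf r hr0 ε₁
      (fun y y' hy => H3 δ hδ hδ1 r hr0 hrr3 y y' hy) γ₁ hγ₁
  -- the pointwise identity
  have hid : ∀ z, Hd k m δ G₀ G₁ z = k z * F1 z - F2 z - F3 z - F4 z
      - (k z - ks z) * Bk δ G₁ z + Bk δ E₁ z := by
    intro z
    have i1 := aux_int (fun z y => ck δ (z - y)) hκ1c _ hκ1b G₀ hG₀i z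
    have i2 := aux_int (fun z y => k y * ck δ (z - y)) hκ2c _ hκ2b G₀ hG₀i z
    have i3 := aux_int (fun z y => m y * ck δ (z - y)) hκ3c _ hκ3b G₁ hG₁i z
    have i5 := aux_int (fun z y => bk δ (z - y)) hκb _ hκbb G₁ hG₁i z
    have i6 := aux_int (fun z y => bk δ (z - y)) hκb _ hκbb E₁ hE₁i z
    have hksG : Integrable (fun ζ => bk δ (z - ζ) * (ks ζ * G₁ ζ)) := by
      have hh : Integrable (fun ζ => ks ζ * G₁ ζ) := by
        apply (hG₁i.norm.const_mul Ms).mono'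
          (hksc.aestronglyMeasurable.mul hG₁i.aestronglyMeasurable)
        filter_upwards with ζ
        show ‖ks ζ * G₁ ζ‖ ≤ _
        rw [norm_mul]
        exact mul_le_mul_of_nonneg_right (hMs ζ) (norm_nonneg _)
      exact aux_int (fun z y => bk δ (z - y)) hκb _ hκbb _ hh z
    have e1 : Ck δ G₀ z = F1 z := rfl
    have e2 : Ck δ (fun ζ => k ζ * G₀ ζ + m ζ * G₁ ζ) z = F2 z + F3 z := by
      unfold Ck
      simp only [hF2, hF3]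
      rw [← integral_add i2 i3]
      congr 1
      funext ζ
      ring
    have e3 : Bk δ (fun ζ => k ζ * G₁ ζ) z = Bk δ E₁ z + ∫ ζ, bk δ (z - ζ) * (ks ζ * G₁ ζ) := by
      unfold Bk
      rw [← integral_add i6 hksG]
      congr 1
      funext ζ
      simp only [hE₁]
      ring
    have e4 : F4 z = ks z * Bk δ G₁ z - ∫ ζ, bk δ (z - ζ) * (ks ζ * G₁ ζ) := by
      unfold Bk
      simp only [hF4]
      rw [← integral_const_mul, ← integral_sub (i5.const_mul (ks z)) hksG]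
      congr 1
      funext ζ
      ring
    unfold Hd
    rw [e1, e2, e3, e4]
    ring
  -- pointwise bound
  have hpt : ∀ z, Real.sqrt ‖Hd k m δ G₀ G₁ z‖ ≤
      Real.sqrt (Mk * ‖F1 z‖) + Real.sqrt ‖F2 z‖ + Real.sqrt ‖F3 z‖ + Real.sqrt ‖F4 z‖ +
        Real.sqrt η * Real.sqrt ‖Bk δ G₁ z‖ + Real.sqrt ‖Bk δ E₁ z‖ := by
    intro z
    rw [← Real.sqrt_mul hη.le]
    apply aux_sqrt_le6 _ _ _ _ _ _ _ (by positivity) (norm_nonneg _) (norm_nonneg _)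
      (norm_nonneg _) (by positivity) (norm_nonneg _)
    rw [hid z]
    have n1 : ‖k z * F1 z‖ ≤ Mk * ‖F1 z‖ := by
      rw [norm_mul]; exact mul_le_mul_of_nonneg_right (hMk z) (norm_nonneg _)
    have n2 : ‖(k z - ks z) * Bk δ G₁ z‖ ≤ η * ‖Bk δ G₁ z‖ := by
      rw [norm_mul]; exact mul_le_mul_of_nonneg_right (hkks z) (norm_nonneg _)
    have t1 := norm_add_le (k z * F1 z - F2 z - F3 z - F4 z - (k z - ks z) * Bk δ G₁ z) (Bk δ E₁ z)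
    have t2 := norm_sub_le (k z * F1 z - F2 z - F3 z - F4 z) ((k z - ks z) * Bk δ G₁ z)
    have t3 := norm_sub_le (k z * F1 z - F2 z - F3 z) (F4 z)
    have t4 := norm_sub_le (k z * F1 z - F2 z) (F3 z)
    have t5 := norm_sub_le (k z * F1 z) (F2 z)
    linarith
  -- continuity of pieces
  have c1 : Continuous (fun z => Real.sqrt (Mk * ‖F1 z‖)) :=
    Real.continuous_sqrt.comp (continuous_const.mul hF1c.norm)
  have c2 : Continuous (fun z => Real.sqrt ‖F2 z‖) := Real.continuous_sqrt.comp hF2c.norm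
  have c3 : Continuous (fun z => Real.sqrt ‖F3 z‖) := Real.continuous_sqrt.comp hF3c.norm
  have c4 : Continuous (fun z => Real.sqrt ‖F4 z‖) := Real.continuous_sqrt.comp hF4c.norm
  have c5 : Continuous (fun z => Real.sqrt η * Real.sqrt ‖Bk δ G₁ z‖) :=
    continuous_const.mul (Real.continuous_sqrt.comp hBc.norm)
  have c6 : Continuous (fun z => Real.sqrt ‖Bk δ E₁ z‖) := Real.continuous_sqrt.comp hBEc.norm
  have j1 := aux_ball_int _ c1 R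
  have j2 := aux_ball_int _ c2 R
  have j3 := aux_ball_int _ c3 R
  have j4 := aux_ball_int _ c4 R
  have j5 := aux_ball_int _ c5 R
  have j6 := aux_ball_int _ c6 R
  have step : ∫ z in ball (0 : ℂ) R, Real.sqrt ‖Hd k m δ G₀ G₁ z‖ ≤
      ∫ z in ball (0 : ℂ) R, (Real.sqrt (Mk * ‖F1 z‖) + Real.sqrt ‖F2 z‖ + Real.sqrt ‖F3 z‖ +
        Real.sqrt ‖F4 z‖ + Real.sqrt η * Real.sqrt ‖Bk δ G₁ z‖ + Real.sqrt ‖Bk δ E₁ z‖) := by
    apply integral_mono_of_nonneg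
    · filter_upwards with z using Real.sqrt_nonneg _
    · exact ((((j1.add j2).add j3).add j4).add j5).add j6
    · filter_upwards with z using hpt z
  have split : ∫ z in ball (0 : ℂ) R, (Real.sqrt (Mk * ‖F1 z‖) + Real.sqrt ‖F2 z‖ +
        Real.sqrt ‖F3 z‖ + Real.sqrt ‖F4 z‖ + Real.sqrt η * Real.sqrt ‖Bk δ G₁ z‖ +
        Real.sqrt ‖Bk δ E₁ z‖) =
      (∫ z in ball (0 : ℂ) R, Real.sqrt (Mk * ‖F1 z‖)) + (∫ z in ball (0 : ℂ) R, Real.sqrt ‖F2 z‖)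
        + (∫ z in ball (0 : ℂ) R, Real.sqrt ‖F3 z‖) + (∫ z in ball (0 : ℂ) R, Real.sqrt ‖F4 z‖)
        + (∫ z in ball (0 : ℂ) R, Real.sqrt η * Real.sqrt ‖Bk δ G₁ z‖)
        + (∫ z in ball (0 : ℂ) R, Real.sqrt ‖Bk δ E₁ z‖) := by
    exact aux_split _ _ _ _ _ _ _ j1 j2 j3 j4 j5 j6
  -- bounds
  have b1 : ∫ z in ball (0 : ℂ) R, Real.sqrt (Mk * ‖F1 z‖) ≤ ε / 6 * Real.sqrt (g₀ + g₁) := by
    have h1 : ∫ z in ball (0 : ℂ) R, Mk * ‖F1 z‖ ≤ Mk * (ε₁ * (g₀ + g₁)) := by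
      rw [integral_const_mul]
      apply mul_le_mul_of_nonneg_left _ hMk0
      refine L1.trans ?_
      exact mul_le_mul_of_nonneg_left (by linarith) hε₁.le
    refine (aux_cs (fun z => Mk * ‖F1 z‖) (continuous_const.mul hF1c.norm)
      (fun z => by positivity) R hR _ h1).trans ?_
    have e : V * (Mk * (ε₁ * (g₀ + g₁))) = (V * (Mk * ε₁)) * (g₀ + g₁) := by ring
    rw [← hV, e]
    exact aux_piece _ _ ε hε hGG hx1
  have b2 : ∫ z in ball (0 : ℂ) R, Real.sqrt ‖F2 z‖ ≤ ε / 6 * Real.sqrt (g₀ + g₁) := by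
    have h1 : ∫ z in ball (0 : ℂ) R, ‖F2 z‖ ≤ ε₁ * (g₀ + g₁) :=
      L2.trans (mul_le_mul_of_nonneg_left (by linarith) hε₁.le)
    refine (aux_cs (fun z => ‖F2 z‖) hF2c.norm (fun z => norm_nonneg _) R hR _ h1).trans ?_
    have e : V * (ε₁ * (g₀ + g₁)) = (V * ε₁) * (g₀ + g₁) := by ring
    rw [← hV, e]
    exact aux_piece _ _ ε hε hGG hx2
  have b3 : ∫ z in ball (0 : ℂ) R, Real.sqrt ‖F3 z‖ ≤ ε / 6 * Real.sqrt (g₀ + g₁) := by
    have h1 : ∫ z in ball (0 : ℂ) R, ‖F3 z‖ ≤ ε₁ * (g₀ + g₁) :=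
      L3.trans (mul_le_mul_of_nonneg_left (by linarith) hε₁.le)
    refine (aux_cs (fun z => ‖F3 z‖) hF3c.norm (fun z => norm_nonneg _) R hR _ h1).trans ?_
    have e : V * (ε₁ * (g₀ + g₁)) = (V * ε₁) * (g₀ + g₁) := by ring
    rw [← hV, e]
    exact aux_piece _ _ ε hε hGG hx2
  have b4 : ∫ z in ball (0 : ℂ) R, Real.sqrt ‖F4 z‖ ≤ ε / 6 * Real.sqrt (g₀ + g₁) := by
    have h1 : ∫ z in ball (0 : ℂ) R, ‖F4 z‖ ≤ ε₁ * (g₀ + g₁) :=
      L4.trans (mul_le_mul_of_nonneg_left (by linarith) hε₁.le)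
    refine (aux_cs (fun z => ‖F4 z‖) hF4c.norm (fun z => norm_nonneg _) R hR _ h1).trans ?_
    have e : V * (ε₁ * (g₀ + g₁)) = (V * ε₁) * (g₀ + g₁) := by ring
    rw [← hV, e]
    exact aux_piece _ _ ε hε hGG hx2
  have hηC : η * (C ^ 2 * 2) = (ε / 6) ^ 2 := by
    rw [hηdef]; field_simp
  have b5 : ∫ z in ball (0 : ℂ) R, Real.sqrt η * Real.sqrt ‖Bk δ G₁ z‖ ≤
      ε / 6 * Real.sqrt (g₀ + g₁) := by
    rw [integral_const_mul]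
    have h1 := (hBC δ hδ G₁ hG₁i).2
    have h2 : Real.sqrt (∫ ζ, ‖G₁ ζ‖) ≤ Real.sqrt (2 * (g₀ + g₁)) :=
      Real.sqrt_le_sqrt (hG₁b.trans (by linarith))
    have h3 := h1.trans (mul_le_mul_of_nonneg_left h2 hC.le)
    have h4 := mul_le_mul_of_nonneg_left h3 (Real.sqrt_nonneg η)
    refine h4.trans ?_
    have e : Real.sqrt η * (C * Real.sqrt (2 * (g₀ + g₁))) =
        Real.sqrt ((η * (C ^ 2 * 2)) * (g₀ + g₁)) := by
      have hCs : C = Real.sqrt (C ^ 2) := (Real.sqrt_sq hC.le).symm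
      conv_lhs => rw [hCs]
      rw [← Real.sqrt_mul (by positivity), ← Real.sqrt_mul hη.le]
      congr 1
      ring
    rw [e]
    exact aux_piece _ _ ε hε hGG hηC.le
  have b6 : ∫ z in ball (0 : ℂ) R, Real.sqrt ‖Bk δ E₁ z‖ ≤ ε / 6 * Real.sqrt (g₀ + g₁) := by
    have h1 := (hBC δ hδ E₁ hE₁i).2
    have h2 : Real.sqrt (∫ ζ, ‖E₁ ζ‖) ≤ Real.sqrt (η * (2 * (g₀ + g₁))) :=
      Real.sqrt_le_sqrt (hE₁b.trans (mul_le_mul_of_nonneg_left (by linarith) hη.le))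
    have h3 := h1.trans (mul_le_mul_of_nonneg_left h2 hC.le)
    refine h3.trans ?_
    have e : C * Real.sqrt (η * (2 * (g₀ + g₁))) =
        Real.sqrt ((η * (C ^ 2 * 2)) * (g₀ + g₁)) := by
      have hCs : C = Real.sqrt (C ^ 2) := (Real.sqrt_sq hC.le).symm
      conv_lhs => rw [hCs]
      rw [← Real.sqrt_mul (by positivity)]
      congr 1
      ring
    rw [e]
    exact aux_piece _ _ ε hε hGG hηC.le
  rw [split] at step
  linarith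

end Pool.Agent.Split938.J6f
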