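import Pool.Agent.Split938.J0
import Pool.Agent.Split938.J1a
import Pool.Agent.Split938.J1b
import Pool.Agent.Split938.J2
import Pool.Agent.Split938.J3a
import Pool.Agent.Split938.J3b
import Pool.Agent.Split938.J3c
import Pool.Agent.Split938.J6a
import Pool.Agent.Split938.J6b
import Pool.Agent.Split938.J6c
import Pool.Agent.Split938.J6d
import Pool.Agent.Split938.J6e
import Pool.Agent.Split938.J6f

set_option autoImplicit false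
open MeasureTheory Metric Set Filter Topology

namespace Pool.Agent.Split938

theorem hKer : ∃ C : ℝ, 0 < C ∧ ∀ δ : ℝ, 0 < δ →
    (Continuous (ck δ) ∧ Continuous (bk δ) ∧ Continuous (pk δ)) ∧
    (∀ w, ‖ck δ w‖ ≤ 1 / δ) ∧ (∀ w, ‖bk δ w‖ ≤ 1 / δ ^ 2) ∧ (∀ w, ‖pk δ w‖ ≤ 1 / δ ^ 2) ∧
    (∀ w, ‖ck δ w‖ ≤ ‖w‖⁻¹) ∧ (∀ w, ‖bk δ w‖ ≤ (‖w‖ ^ 2)⁻¹) ∧
    (∀ w w' : ℂ, w ≠ 0 → ‖w - w'‖ ≤ ‖w‖ / 2 → ‖ck δ w - ck δ w'‖ ≤ C * ‖w - w'‖ / ‖w‖ ^ 2) ∧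
    (∀ w w' : ℂ, w ≠ 0 → ‖w - w'‖ ≤ ‖w‖ / 2 → ‖bk δ w - bk δ w'‖ ≤ C * ‖w - w'‖ / ‖w‖ ^ 3) ∧
    (∀ w, ck δ (-w) = - ck δ w) ∧ (∀ w, bk δ (-w) = bk δ w) ∧ (∀ w, pk δ (-w) = pk δ w) := J0.main

theorem hL2 : ∃ C : ℝ, 0 < C ∧ ∀ δ : ℝ, 0 < δ → ∀ E : ℂ → ℂ, Integrable E → MemLp E 2 →
      MemLp (Bk δ E) 2 ∧ ∫ z, ‖Bk δ E z‖ ^ 2 ≤ C * ∫ ζ, ‖E ζ‖ ^ 2 := J1b.main (fun δ hδ a b => J1a.main δ hδ a b)

theorem hKer' : ∃ C : ℝ, 0 < C ∧ ∀ δ : ℝ, 0 < δ → Continuous (bk δ) ∧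
      (∀ w, ‖bk δ w‖ ≤ 1 / δ ^ 2) ∧ (∀ w, ‖bk δ w‖ ≤ (‖w‖ ^ 2)⁻¹) ∧
      (∀ w w' : ℂ, w ≠ 0 → ‖w - w'‖ ≤ ‖w‖ / 2 → ‖bk δ w - bk δ w'‖ ≤ C * ‖w - w'‖ / ‖w‖ ^ 3) := by
  obtain ⟨C, hC, h⟩ := hKer
  refine ⟨C, hC, fun δ hδ => ?_⟩
  obtain ⟨⟨_, h1, _⟩, _, h2, _, _, h3, _, h4, _⟩ := h δ hδ
  exact ⟨h1, h2, h3, h4⟩

theorem hStep : ∃ C : ℝ, 0 < C ∧ ∀ δ : ℝ, 0 < δ → ∀ (n : ℕ) (a : ℂ) (s : ℝ), 0 < s →
      ∀ (E : ℂ → ℂ), Integrable E → StepOn E n a s → (∀ z, z ∉ sq a s → E z = 0) →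
      ∀ t : ℝ, 0 < t →
      volume {z : ℂ | t < ‖Bk δ E z‖} ≤ ENNReal.ofReal (C * (∫ ζ, ‖E ζ‖) / t) := J3a.main hL2 hKer' (fun n a s hs E hE h0 t ht => J2.main n a s hs E hE h0 t ht)

theorem hWeak : ∃ C : ℝ, 0 < C ∧ ∀ δ : ℝ, 0 < δ → ∀ (E : ℂ → ℂ), Integrable E → ∀ t : ℝ, 0 < t →
      volume {z : ℂ | t < ‖Bk δ E z‖} ≤ ENNReal.ofReal (C * (∫ ζ, ‖E ζ‖) / t) := J3b.main hStep

theorem hBall : ∀ R : ℝ, 0 < R → ∃ C : ℝ, 0 < C ∧ ∀ δ : ℝ, 0 < δ → ∀ (E : ℂ → ℂ), Integrable E →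
      IntegrableOn (fun z => Real.sqrt ‖Bk δ E z‖) (ball 0 R) ∧
      ∫ z in ball (0 : ℂ) R, Real.sqrt ‖Bk δ E z‖ ≤ C * Real.sqrt (∫ ζ, ‖E ζ‖) :=
  fun R hR => J3c.main hWeak R hR

theorem hHd (k m : ℂ → ℂ) (hk : Continuous k) (hk' : HasCompactSupport k) (hm : Continuous m)
    (hm' : HasCompactSupport m) (R : ℝ) (hR : 0 < R) :
    ∃ C : ℝ, 0 < C ∧ ∀ δ : ℝ, 0 < δ → δ < 1 → ∀ E₀ E₁ : ℂ → ℂ, Integrable E₀ → Integrable E₁ →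
      IntegrableOn (fun z => Real.sqrt ‖Hd k m δ E₀ E₁ z‖) (ball 0 R) ∧
      ∫ z in ball (0 : ℂ) R, Real.sqrt ‖Hd k m δ E₀ E₁ z‖ ≤
        C * Real.sqrt ((∫ ζ, ‖E₀ ζ‖) + ∫ ζ, ‖E₁ ζ‖) :=
  J6a.main hBall hKer k m hk hk' hm hm' R hR

theorem hSmall (k m : ℂ → ℂ) (hk : Continuous k) (hk' : HasCompactSupport k) (hm : Continuous m)
    (hm' : HasCompactSupport m) (R : ℝ) (hR : 0 < R) (ε : ℝ) (hε : 0 < ε) :
    ∃ r : ℝ, 0 < r ∧ ∀ δ : ℝ, 0 < δ → δ < 1 → ∀ γ₀ γ₁ : ℂ → ℂ, Integrable γ₀ → Integrable γ₁ →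
      ∫ z in ball (0 : ℂ) R, Real.sqrt ‖Hd k m δ (fun z => γ₀ z - Mr r γ₀ z)
        (fun z => γ₁ z - Mr r γ₁ z) z‖ ≤
        ε * Real.sqrt ((∫ ζ, ‖γ₀ ζ‖) + ∫ ζ, ‖γ₁ ζ‖) :=
  J6f.main hBall hKer (fun k hk hk' R hR ε hε => J6b.main hKer k hk hk' R hR ε hε)
    (fun k L hk R hR ε hε => J6c.main hKer k L hk R hR ε hε)
    (fun κ hκ M hM B hB hBf r hr ε h γ hγ => J6d.main κ hκ M hM B hB hBf r hr ε h γ hγ)
    (fun r hr γ hγ => J6e.main r hr γ hγ) k m hk hk' hm hm' R hR ε hε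

section lin

variable {δ : ℝ}

theorem int_ck (hδ : 0 < δ) {E : ℂ → ℂ} (hE : Integrable E) (z : ℂ) :
    Integrable (fun ζ => ck δ (z - ζ) * E ζ) := by
  obtain ⟨C, hC, h⟩ := hKer
  obtain ⟨⟨h1, _, _⟩, h2, _⟩ := h δ hδ
  refine hE.bdd_mul (c := 1 / δ) ?_ ?_
  · exact (h1.comp (continuous_const.sub continuous_id)).aestronglyMeasurable
  · exact Filter.Eventually.of_forall fun ζ => h2 _

theorem int_bk (hδ : 0 < δ) {E : ℂ → ℂ} (hE : Integrable E) (z : ℂ) :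
    Integrable (fun ζ => bk δ (z - ζ) * E ζ) := by
  obtain ⟨C, hC, h⟩ := hKer
  obtain ⟨⟨_, h1, _⟩, _, h2, _⟩ := h δ hδ
  refine hE.bdd_mul (c := 1 / δ ^ 2) ?_ ?_
  · exact (h1.comp (continuous_const.sub continuous_id)).aestronglyMeasurable
  · exact Filter.Eventually.of_forall fun ζ => h2 _

theorem Ck_add (hδ : 0 < δ) {E E' : ℂ → ℂ} (hE : Integrable E) (hE' : Integrable E') (z : ℂ) :
    Ck δ (fun ζ => E ζ + E' ζ) z = Ck δ E z + Ck δ E' z := by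
  unfold Ck
  rw [← integral_add (int_ck hδ hE z) (int_ck hδ hE' z)]
  congr 1; ext ζ; ring

theorem Bk_add (hδ : 0 < δ) {E E' : ℂ → ℂ} (hE : Integrable E) (hE' : Integrable E') (z : ℂ) :
    Bk δ (fun ζ => E ζ + E' ζ) z = Bk δ E z + Bk δ E' z := by
  unfold Bk
  rw [← integral_add (int_bk hδ hE z) (int_bk hδ hE' z)]
  congr 1; ext ζ; ring

theorem Ck_congr {E E' : ℂ → ℂ} (h : E =ᵐ[volume] E') (z : ℂ) : Ck δ E z = Ck δ E' z := by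
  unfold Ck
  apply integral_congr_ae
  filter_upwards [h] with ζ hζ
  rw [hζ]

theorem Bk_congr {E E' : ℂ → ℂ} (h : E =ᵐ[volume] E') (z : ℂ) : Bk δ E z = Bk δ E' z := by
  unfold Bk
  apply integral_congr_ae
  filter_upwards [h] with ζ hζ
  rw [hζ]

theorem mul_int {k : ℂ → ℂ} (hk : Continuous k) (hk' : HasCompactSupport k) {E : ℂ → ℂ}
    (hE : Integrable E) : Integrable (fun ζ => k ζ * E ζ) := by
  obtain ⟨M, hM⟩ := hk'.exists_bound_of_continuous hk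
  exact hE.bdd_mul (c := M) hk.aestronglyMeasurable (Filter.Eventually.of_forall hM)

theorem Hd_congr {k m : ℂ → ℂ} {E₀ E₀' E₁ E₁' : ℂ → ℂ} (h₀ : E₀ =ᵐ[volume] E₀')
    (h₁ : E₁ =ᵐ[volume] E₁') (z : ℂ) : Hd k m δ E₀ E₁ z = Hd k m δ E₀' E₁' z := by
  unfold Hd
  rw [Ck_congr h₀, Bk_congr h₁]
  congr 1
  · congr 1
    apply Ck_congr
    filter_upwards [h₀, h₁] with ζ a b
    rw [a, b]
  · apply Bk_congr
    filter_upwards [h₁] with ζ b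
    rw [b]

theorem Hd_add {k m : ℂ → ℂ} (hk : Continuous k) (hk' : HasCompactSupport k) (hm : Continuous m)
    (hm' : HasCompactSupport m) (hδ : 0 < δ) {E₀ E₀' E₁ E₁' : ℂ → ℂ} (h₀ : Integrable E₀)
    (h₀' : Integrable E₀') (h₁ : Integrable E₁) (h₁' : Integrable E₁') (z : ℂ) :
    Hd k m δ (fun z => E₀ z + E₀' z) (fun z => E₁ z + E₁' z) z =
      Hd k m δ E₀ E₁ z + Hd k m δ E₀' E₁' z := by
  unfold Hd
  rw [Ck_add hδ h₀ h₀', Bk_add hδ h₁ h₁']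
  have e1 : (fun ζ => k ζ * (E₀ ζ + E₀' ζ) + m ζ * (E₁ ζ + E₁' ζ)) =
      fun ζ => (k ζ * E₀ ζ + m ζ * E₁ ζ) + (k ζ * E₀' ζ + m ζ * E₁' ζ) := by
    ext ζ; ring
  have e2 : (fun ζ => k ζ * (E₁ ζ + E₁' ζ)) = fun ζ => k ζ * E₁ ζ + k ζ * E₁' ζ := by
    ext ζ; ring
  have e3 := Ck_add hδ (E := fun ζ => k ζ * E₀ ζ + m ζ * E₁ ζ)
    (E' := fun ζ => k ζ * E₀' ζ + m ζ * E₁' ζ) ((mul_int hk hk' h₀).add (mul_int hm hm' h₁))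
    ((mul_int hk hk' h₀').add (mul_int hm hm' h₁')) z
  have e4 := Bk_add hδ (mul_int hk hk' h₁) (mul_int hk hk' h₁') z
  rw [e1, e2, e3, e4]
  ring

end lin

theorem sqrt_add_le' (a b : ℂ) : Real.sqrt ‖a + b‖ ≤ Real.sqrt ‖a‖ + Real.sqrt ‖b‖ :=
  (Real.sqrt_le_sqrt (norm_add_le a b)).trans (by
    have ha := Real.sqrt_nonneg ‖a‖
    have hb := Real.sqrt_nonneg ‖b‖
    rw [Real.sqrt_le_left (by positivity)]
    nlinarith [Real.sq_sqrt (norm_nonneg a), Real.sq_sqrt (norm_nonneg b), mul_nonneg ha hb])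

theorem int_sqrt_add {B : Set ℂ} {a b : ℂ → ℂ} (ha : IntegrableOn (fun z => Real.sqrt ‖a z‖) B)
    (hb : IntegrableOn (fun z => Real.sqrt ‖b z‖) B) :
    ∫ z in B, Real.sqrt ‖a z + b z‖ ≤ (∫ z in B, Real.sqrt ‖a z‖) + ∫ z in B, Real.sqrt ‖b z‖ := by
  rw [← integral_add ha hb]
  apply integral_mono_of_nonneg
  · exact Filter.Eventually.of_forall fun z => Real.sqrt_nonneg _
  · exact ha.add hb
  · exact Filter.Eventually.of_forall fun z => sqrt_add_le' _ _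

/-- the a priori estimate along decompositions -/
theorem apriori (k m : ℂ → ℂ) (hk : Continuous k) (hk' : HasCompactSupport k) (hm : Continuous m)
    (hm' : HasCompactSupport m) (R : ℝ) (hR : 0 < R) :
    ∃ (r : ℕ → ℝ) (C : ℝ), (∀ j, 0 < r j) ∧ 0 < C ∧ ∀ δ : ℝ, 0 < δ → δ < 1 → ∀ E₀ E₁ : ℂ → ℂ,
      Integrable E₀ → Integrable E₁ → ∀ J : ℕ, ∀ A₀ A₁ : ℂ → ℂ, ∀ γ₀ γ₁ : ℕ → ℂ → ℂ,
      Integrable A₀ → Integrable A₁ →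
      (∀ j, Integrable (γ₀ j)) → (∀ j, Integrable (γ₁ j)) →
      (E₀ =ᵐ[volume] fun z => A₀ z + ∑ j ∈ Finset.range J, (γ₀ j z - Mr (r j) (γ₀ j) z)) →
      (E₁ =ᵐ[volume] fun z => A₁ z + ∑ j ∈ Finset.range J, (γ₁ j z - Mr (r j) (γ₁ j) z)) →
      ∫ z in ball (0 : ℂ) R, Real.sqrt ‖Hd k m δ E₀ E₁ z‖ ≤
        C * Real.sqrt ((∫ z, ‖A₀ z‖) + (∫ z, ‖A₁ z‖) +
        ∑ j ∈ Finset.range J, (1 / 2 : ℝ) ^ j * ((∫ z, ‖γ₀ j z‖) + ∫ z, ‖γ₁ j z‖)) := by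
  obtain ⟨C, hC, hb⟩ := hHd k m hk hk' hm hm' R hR
  have hs := fun j : ℕ => hSmall k m hk hk' hm hm' R hR ((1 / 4 : ℝ) ^ j) (by positivity)
  choose r hr hs using hs
  refine ⟨r, C + 2, hr, by positivity, ?_⟩
  intro δ hδ hδ1 E₀ E₁ hE₀ hE₁ J A₀ A₁ γ₀ γ₁ hA₀ hA₁ hγ₀ hγ₁ h₀ h₁
  have hM : ∀ (j : ℕ) (γ : ℂ → ℂ), Integrable γ → Integrable (fun z => γ z - Mr (r j) γ z) :=
    fun j γ hγ => hγ.sub (J6e.main (r j) (hr j) γ hγ).1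
  -- step 1: triangle inequality
  have key : ∀ J : ℕ, ∫ z in ball (0 : ℂ) R, Real.sqrt ‖Hd k m δ
      (fun z => A₀ z + ∑ j ∈ Finset.range J, (γ₀ j z - Mr (r j) (γ₀ j) z))
      (fun z => A₁ z + ∑ j ∈ Finset.range J, (γ₁ j z - Mr (r j) (γ₁ j) z)) z‖ ≤
      C * Real.sqrt ((∫ z, ‖A₀ z‖) + (∫ z, ‖A₁ z‖)) +
      ∑ j ∈ Finset.range J, (1 / 4 : ℝ) ^ j * Real.sqrt ((∫ z, ‖γ₀ j z‖) + ∫ z, ‖γ₁ j z‖) := by
    intro J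
    induction J with
    | zero =>
      simp only [Finset.range_zero, Finset.sum_empty, add_zero]
      exact (hb δ hδ hδ1 A₀ A₁ hA₀ hA₁).2
    | succ J ih =>
      have i0 : Integrable (fun z => A₀ z + ∑ j ∈ Finset.range J, (γ₀ j z - Mr (r j) (γ₀ j) z)) :=
        hA₀.add (integrable_finset_sum _ fun j _ => hM j _ (hγ₀ j))
      have i1 : Integrable (fun z => A₁ z + ∑ j ∈ Finset.range J, (γ₁ j z - Mr (r j) (γ₁ j) z)) :=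
        hA₁.add (integrable_finset_sum _ fun j _ => hM j _ (hγ₁ j))
      have j0 := hM J _ (hγ₀ J)
      have j1 := hM J _ (hγ₁ J)
      have e : ∀ z, Hd k m δ
          (fun z => A₀ z + ∑ j ∈ Finset.range (J + 1), (γ₀ j z - Mr (r j) (γ₀ j) z))
          (fun z => A₁ z + ∑ j ∈ Finset.range (J + 1), (γ₁ j z - Mr (r j) (γ₁ j) z)) z =
          Hd k m δ (fun z => A₀ z + ∑ j ∈ Finset.range J, (γ₀ j z - Mr (r j) (γ₀ j) z))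
          (fun z => A₁ z + ∑ j ∈ Finset.range J, (γ₁ j z - Mr (r j) (γ₁ j) z)) z +
          Hd k m δ (fun z => γ₀ J z - Mr (r J) (γ₀ J) z) (fun z => γ₁ J z - Mr (r J) (γ₁ J) z) z := by
        intro z
        rw [← Hd_add hk hk' hm hm' hδ i0 j0 i1 j1]
        congr 1
        · ext z; rw [Finset.sum_range_succ]; ring
        · ext z; rw [Finset.sum_range_succ]; ring
      have b1 := hb δ hδ hδ1 _ _ i0 i1
      have b2 := hb δ hδ hδ1 _ _ j0 j1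
      have st := int_sqrt_add b1.1 b2.1
      have ee : ∫ z in ball (0 : ℂ) R, Real.sqrt ‖Hd k m δ
          (fun z => A₀ z + ∑ j ∈ Finset.range (J + 1), (γ₀ j z - Mr (r j) (γ₀ j) z))
          (fun z => A₁ z + ∑ j ∈ Finset.range (J + 1), (γ₁ j z - Mr (r j) (γ₁ j) z)) z‖ =
          ∫ z in ball (0 : ℂ) R, Real.sqrt ‖Hd k m δ
            (fun z => A₀ z + ∑ j ∈ Finset.range J, (γ₀ j z - Mr (r j) (γ₀ j) z))
            (fun z => A₁ z + ∑ j ∈ Finset.range J, (γ₁ j z - Mr (r j) (γ₁ j) z)) z +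
            Hd k m δ (fun z => γ₀ J z - Mr (r J) (γ₀ J) z)
              (fun z => γ₁ J z - Mr (r J) (γ₁ J) z) z‖ := by
        congr 1; ext z
        rw [e z]
      rw [ee]
      refine st.trans ?_
      rw [Finset.sum_range_succ]
      have := hs J δ hδ hδ1 (γ₀ J) (γ₁ J) (hγ₀ J) (hγ₁ J)
      linarith [ih]
  have e0 : ∫ z in ball (0 : ℂ) R, Real.sqrt ‖Hd k m δ E₀ E₁ z‖ = ∫ z in ball (0 : ℂ) R,
      Real.sqrt ‖Hd k m δ (fun z => A₀ z + ∑ j ∈ Finset.range J, (γ₀ j z - Mr (r j) (γ₀ j) z))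
      (fun z => A₁ z + ∑ j ∈ Finset.range J, (γ₁ j z - Mr (r j) (γ₁ j) z)) z‖ := by
    congr 1; ext z
    rw [Hd_congr h₀ h₁]
  rw [e0]
  refine (key J).trans ?_
  set S := (∫ z, ‖A₀ z‖) + (∫ z, ‖A₁ z‖) +
        ∑ j ∈ Finset.range J, (1 / 2 : ℝ) ^ j * ((∫ z, ‖γ₀ j z‖) + ∫ z, ‖γ₁ j z‖) with hS
  have hg : ∀ j, 0 ≤ (∫ z, ‖γ₀ j z‖) + ∫ z, ‖γ₁ j z‖ := fun j =>
    add_nonneg (integral_nonneg fun _ => norm_nonneg _) (integral_nonneg fun _ => norm_nonneg _)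
  have hA : 0 ≤ (∫ z, ‖A₀ z‖) + (∫ z, ‖A₁ z‖) :=
    add_nonneg (integral_nonneg fun _ => norm_nonneg _) (integral_nonneg fun _ => norm_nonneg _)
  have hsum : 0 ≤ ∑ j ∈ Finset.range J, (1 / 2 : ℝ) ^ j * ((∫ z, ‖γ₀ j z‖) + ∫ z, ‖γ₁ j z‖) :=
    Finset.sum_nonneg fun j _ => mul_nonneg (by positivity) (hg j)
  have t1 : Real.sqrt ((∫ z, ‖A₀ z‖) + (∫ z, ‖A₁ z‖)) ≤ Real.sqrt S :=
    Real.sqrt_le_sqrt (by rw [hS]; linarith)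
  have t2 : ∀ j ∈ Finset.range J, (1 / 4 : ℝ) ^ j *
      Real.sqrt ((∫ z, ‖γ₀ j z‖) + ∫ z, ‖γ₁ j z‖) ≤ (1 / 2 : ℝ) ^ j * Real.sqrt S := by
    intro j hj
    have h1 : (1 / 2 : ℝ) ^ j * ((∫ z, ‖γ₀ j z‖) + ∫ z, ‖γ₁ j z‖) ≤ S := by
      have := Finset.single_le_sum (f := fun j => (1 / 2 : ℝ) ^ j *
        ((∫ z, ‖γ₀ j z‖) + ∫ z, ‖γ₁ j z‖))
        (fun j _ => mul_nonneg (by positivity) (hg j)) hj
      rw [hS]; linarith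
    have h2 : ((1 / 2 : ℝ) ^ j) * Real.sqrt ((∫ z, ‖γ₀ j z‖) + ∫ z, ‖γ₁ j z‖) ≤ Real.sqrt S := by
      apply Real.le_sqrt_of_sq_le
      rw [mul_pow, Real.sq_sqrt (hg j)]
      refine le_trans ?_ h1
      apply mul_le_mul_of_nonneg_right _ (hg j)
      have : (1 / 2 : ℝ) ^ j ≤ 1 := pow_le_one₀ (by norm_num) (by norm_num)
      have h3 : 0 ≤ (1 / 2 : ℝ) ^ j := by positivity
      nlinarith
    have h3 : (1 / 4 : ℝ) ^ j = (1 / 2 : ℝ) ^ j * (1 / 2 : ℝ) ^ j := by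
      rw [← mul_pow]; norm_num
    rw [h3, mul_assoc]
    exact mul_le_mul_of_nonneg_left h2 (by positivity)
  have t3 : ∑ j ∈ Finset.range J, (1 / 2 : ℝ) ^ j * Real.sqrt S ≤ 2 * Real.sqrt S := by
    rw [← Finset.sum_mul]
    apply mul_le_mul_of_nonneg_right _ (Real.sqrt_nonneg _)
    have := Summable.sum_le_tsum (Finset.range J) (f := fun j : ℕ => (1 / 2 : ℝ) ^ j)
      (fun j _ => by positivity) (summable_geometric_two)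
    rwa [tsum_geometric_two] at this
  have t4 := Finset.sum_le_sum t2
  have t5 : C * Real.sqrt ((∫ z, ‖A₀ z‖) + (∫ z, ‖A₁ z‖)) ≤ C * Real.sqrt S :=
    mul_le_mul_of_nonneg_left t1 hC.le
  linarith

end Pool.Agent.Split938
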