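import Pool.Agent.Split938.Defs

set_option autoImplicit false
open MeasureTheory Metric Set Filter Topology

namespace Pool.Agent.Split938.J10

theorem bump (a : ℂ) (r : ℝ) (hr : 0 < r) : ∃ β : ℂ → ℝ, ContDiff ℝ 2 β ∧
    tsupport β ⊆ ball a r ∧ ∀ z ∈ ball a (r / 2), β z = 1 := by
  let f : ContDiffBump a := ⟨r / 2, 3 * r / 4, by linarith, by linarith⟩
  refine ⟨f, f.contDiff, ?_, ?_⟩
  · rw [f.tsupport_eq]
    exact closedBall_subset_ball (show 3 * r / 4 < r by linarith)
  · intro z hz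
    exact f.one_of_mem_closedBall (ball_subset_closedBall hz)

theorem partition (F : Finset ℂ) (β : ℂ → ℂ → ℝ) (hβ : ∀ a ∈ F, ContDiff ℝ 2 (β a)) :
    ∃ η : ℂ → ℂ → ℝ, (∀ a ∈ F, ContDiff ℝ 2 (η a)) ∧
      (∀ a ∈ F, tsupport (η a) ⊆ tsupport (β a)) ∧
      ∀ z, ∑ a ∈ F, η a z = 1 - ∏ a ∈ F, (1 - β a z) := by
  classical
  induction F using Finset.induction_on with
  | empty => exact ⟨fun _ _ => 0, by simp, by simp, by simp⟩
  | insert a F ha ih =>
    obtain ⟨η, h1, h2, h3⟩ := ih (fun b hb => hβ b (Finset.mem_insert_of_mem hb))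
    refine ⟨fun x => if x = a then (fun z => β a z * ∏ b ∈ F, (1 - β b z)) else η x, ?_, ?_, ?_⟩
    · intro b hb
      by_cases hba : b = a
      · simp only [hba, if_true]
        apply (hβ a (Finset.mem_insert_self a F)).mul
        apply contDiff_prod
        intro c hc
        exact contDiff_const.sub (hβ c (Finset.mem_insert_of_mem hc))
      · simp only [hba, if_false]
        exact h1 b (Finset.mem_of_mem_insert_of_ne hb hba)
    · intro b hb
      by_cases hba : b = a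
      · simp only [hba, if_true]
        apply closure_mono
        intro z hz
        rw [Function.mem_support] at hz ⊢
        exact left_ne_zero_of_mul hz
      · simp only [hba, if_false]
        exact h2 b (Finset.mem_of_mem_insert_of_ne hb hba)
    · intro z
      rw [Finset.sum_insert ha, Finset.prod_insert ha]
      have h4 : ∑ x ∈ F, (if x = a then (fun z => β a z * ∏ b ∈ F, (1 - β b z)) else η x) z =
          ∑ x ∈ F, η x z := by
        apply Finset.sum_congr rfl
        intro x hx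
        have hxa : x ≠ a := fun e => ha (e ▸ hx)
        rw [if_neg hxa]
      rw [h4, h3]
      simp only [if_true]
      ring

/-- finite smooth partition of unity on a compact set, subordinate to given balls -/
theorem main (K : Set ℂ) (hK : IsCompact K) (ρ : ℂ → ℝ) (hρ : ∀ a ∈ K, 0 < ρ a) :
    ∃ (F : Finset ℂ) (η : ℂ → ℂ → ℝ), (∀ a ∈ F, a ∈ K) ∧ (∀ a ∈ F, ContDiff ℝ 2 (η a)) ∧
      (∀ a ∈ F, tsupport (η a) ⊆ ball a (ρ a)) ∧ ∀ z ∈ K, ∑ a ∈ F, η a z = 1 := by
  have hb : ∀ a, ∃ β : ℂ → ℝ, a ∈ K → ContDiff ℝ 2 β ∧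
      tsupport β ⊆ ball a (ρ a) ∧ ∀ z ∈ ball a (ρ a / 2), β z = 1 := by
    intro a
    by_cases ha : a ∈ K
    · obtain ⟨β, h⟩ := bump a (ρ a) (hρ a ha)
      exact ⟨β, fun _ => h⟩
    · exact ⟨fun _ => 0, fun h => absurd h ha⟩
  choose β hβ using hb
  obtain ⟨F, hF1, hF2⟩ := hK.elim_nhds_subcover (fun a => ball a (ρ a / 2))
    (fun a ha => ball_mem_nhds a (by have := hρ a ha; linarith))
  obtain ⟨η, h1, h2, h3⟩ := partition F β (fun a ha => (hβ a (hF1 a ha)).1)
  refine ⟨F, η, hF1, h1, fun a ha => (h2 a ha).trans (hβ a (hF1 a ha)).2.1, ?_⟩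
  intro z hz
  rw [h3]
  have hz' := hF2 hz
  rw [mem_iUnion₂] at hz'
  obtain ⟨a, ha, hza⟩ := hz'
  have h4 : ∏ a ∈ F, (1 - β a z) = 0 := by
    apply Finset.prod_eq_zero ha
    rw [(hβ a (hF1 a ha)).2.2 z hza, sub_self]
  rw [h4, sub_zero]

end Pool.Agent.Split938.J10
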