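import Pool.Agent.Split938.Defs

set_option autoImplicit false
open MeasureTheory Metric Set Filter Topology

namespace Pool.Agent.Split938.J11

theorem fder_cont {P : ℂ → ℂ} (hP : ContDiff ℝ 2 P) (v : ℂ) :
    Continuous (fun z => fderiv ℝ P z v) :=
  (hP.continuous_fderiv (by norm_num)).clm_apply continuous_const

theorem dbar_cont {P : ℂ → ℂ} (hP : ContDiff ℝ 2 P) : Continuous (dbar P) := by
  unfold dbar
  exact ((fder_cont hP 1).add (continuous_const.mul (fder_cont hP Complex.I))).div_const 2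

theorem dz_cont {P : ℂ → ℂ} (hP : ContDiff ℝ 2 P) : Continuous (dz P) := by
  unfold dz
  exact ((fder_cont hP 1).sub (continuous_const.mul (fder_cont hP Complex.I))).div_const 2

theorem fder_zero {P : ℂ → ℂ} {z : ℂ} (hz : z ∉ tsupport P) : fderiv ℝ P z = 0 := by
  by_contra h
  exact hz (support_fderiv_subset ℝ h)

theorem dbar_supp {P : ℂ → ℂ} (hPc : HasCompactSupport P) : HasCompactSupport (dbar P) := by
  apply HasCompactSupport.intro hPc.isCompact
  intro z hz
  unfold dbar
  rw [fder_zero hz]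
  simp

theorem dz_supp {P : ℂ → ℂ} (hPc : HasCompactSupport P) : HasCompactSupport (dz P) := by
  apply HasCompactSupport.intro hPc.isCompact
  intro z hz
  unfold dz
  rw [fder_zero hz]
  simp

theorem int_mul {a Q : ℂ → ℂ} (ha : Continuous a) (hQ : Continuous Q) (hQc : HasCompactSupport Q) :
    Integrable (fun z => a z * Q z) :=
  (ha.mul hQ).integrable_of_hasCompactSupport hQc.mul_left

/-- integrals against test functions commute with locally uniform sums -/
theorem tsum_test (a : ℕ → ℂ → ℂ) (ha : ∀ n, Continuous (a n))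
    (hb : ∀ n : ℕ, 3 ≤ n → ∀ z : ℂ, ‖z‖ < (n : ℝ) - 2 → ‖a n z‖ ≤ (1 / 2 : ℝ) ^ n)
    (Q : ℂ → ℂ) (hQ : Continuous Q) (hQc : HasCompactSupport Q) :
    HasSum (fun n => ∫ z, a n z * Q z) (∫ z, (∑' n, a n z) * Q z) := by
  obtain ⟨R, hR⟩ : ∃ R, tsupport Q ⊆ closedBall 0 R := hQc.isCompact.isBounded.subset_closedBall 0
  obtain ⟨N, hN⟩ := exists_nat_gt (R + 3)
  have h1 : HasSum (fun n => ∫ z, a n z * Q z) (∫ z, ∑' n, (a n z * Q z)) := by
    apply hasSum_integral_of_summable_integral_norm (fun n => int_mul (ha n) hQ hQc)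
    have hs : Summable (fun n : ℕ => (1 / 2 : ℝ) ^ n * ∫ z, ‖Q z‖) :=
      summable_geometric_two.mul_right _
    refine Summable.of_norm_bounded_eventually_nat hs ?_
    filter_upwards [eventually_ge_atTop (max N 3)] with n hn
    have hn3 : 3 ≤ n := le_trans (le_max_right _ _) hn
    have hnN : (N : ℝ) ≤ n := by exact_mod_cast le_trans (le_max_left _ _) hn
    rw [Real.norm_of_nonneg (integral_nonneg (fun _ => norm_nonneg _)), ← integral_const_mul]
    apply integral_mono (int_mul (ha n) hQ hQc).norm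
    · exact ((hQ.norm).integrable_of_hasCompactSupport hQc.norm).const_mul _
    · intro z
      show ‖a n z * Q z‖ ≤ (1 / 2 : ℝ) ^ n * ‖Q z‖
      rw [norm_mul]
      by_cases hz : z ∈ tsupport Q
      · have h2 := mem_closedBall_zero_iff.1 (hR hz)
        exact mul_le_mul_of_nonneg_right (hb n hn3 z (by linarith)) (norm_nonneg _)
      · rw [image_eq_zero_of_notMem_tsupport hz, norm_zero, mul_zero, mul_zero]
  simp_rw [tsum_mul_right] at h1
  exact h1

theorem tsum_cont (a : ℕ → ℂ → ℂ) (ha : ∀ n, Continuous (a n))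
    (hb : ∀ n : ℕ, 3 ≤ n → ∀ z : ℂ, ‖z‖ < (n : ℝ) - 2 → ‖a n z‖ ≤ (1 / 2 : ℝ) ^ n) :
    Continuous (fun z => ∑' n, a n z) := by
  rw [continuous_iff_continuousAt]
  intro z
  obtain ⟨N, hN⟩ := exists_nat_gt (‖z‖ + 3)
  have hN3 : 3 ≤ N := by
    have h1 := norm_nonneg z
    have h2 : (3 : ℝ) < N := by linarith
    exact_mod_cast h2.le
  have hs : Summable (fun n : ℕ => (1 / 2 : ℝ) ^ (n + N)) :=
    (summable_nat_add_iff N).2 summable_geometric_two
  have hbb : ∀ (n : ℕ) (y : ℂ), y ∈ ball (0 : ℂ) ((N : ℝ) - 2) →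
      ‖a (n + N) y‖ ≤ (1 / 2 : ℝ) ^ (n + N) := by
    intro n y hy
    have h1 := mem_ball_zero_iff.1 hy
    refine hb (n + N) (by omega) y ?_
    push_cast
    have : (0 : ℝ) ≤ n := Nat.cast_nonneg n
    linarith
  have hsumm : ∀ y ∈ ball (0 : ℂ) ((N : ℝ) - 2), Summable (fun n => a n y) := by
    intro y hy
    rw [← summable_nat_add_iff N]
    exact Summable.of_norm_bounded hs (fun n => hbb n y hy)
  have heq : ∀ y ∈ ball (0 : ℂ) ((N : ℝ) - 2),
      ∑' n, a n y = ∑ n ∈ Finset.range N, a n y + ∑' n, a (n + N) y :=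
    fun y hy => ((hsumm y hy).sum_add_tsum_nat_add N).symm
  have hc : ContinuousOn (fun y => ∑ n ∈ Finset.range N, a n y + ∑' n, a (n + N) y)
      (ball (0 : ℂ) ((N : ℝ) - 2)) := by
    apply ContinuousOn.add
    · exact (continuous_finsetSum _ (fun n _ => ha n)).continuousOn
    · exact continuousOn_tsum (fun n => (ha _).continuousOn) hs hbb
  have hc2 : ContinuousOn (fun y => ∑' n, a n y) (ball (0 : ℂ) ((N : ℝ) - 2)) := hc.congr heq
  exact hc2.continuousAt (isOpen_ball.mem_nhds (by rw [mem_ball_zero_iff]; linarith))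

theorem approx (u v : ℂ → ℂ) (r R : ℝ) (hr : 0 < r) (hR : r < R)
    (h : ∀ z ∈ ball (0 : ℂ) R, HasDerivAt u (v z) z) (ε : ℝ) (hε : 0 < ε) :
    ∃ q q' : ℂ → ℂ, (∀ z, HasDerivAt q (q' z) z) ∧ Continuous q' ∧
      ∀ z : ℂ, ‖z‖ < r → ‖u z - q z‖ ≤ ε ∧ ‖v z - q' z‖ ≤ ε := by
  have hdu : DifferentiableOn ℂ u (ball 0 R) :=
    fun z hz => (h z hz).differentiableAt.differentiableWithinAt
  have hdv : DifferentiableOn ℂ v (ball 0 R) :=
    (hdu.deriv isOpen_ball).congr (fun z hz => (h z hz).deriv.symm)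
  obtain ⟨r1, hr1, hr1R⟩ := exists_between hR
  have hr10 : 0 < r1 := hr.trans hr1
  lift r to NNReal using hr.le
  lift r1 to NNReal using hr10.le
  have hfp : HasFPowerSeriesOnBall v (cauchyPowerSeries v 0 r1) 0 r1 :=
    (hdv.mono (closedBall_subset_ball hr1R)).hasFPowerSeriesOnBall (by exact_mod_cast hr10)
  have hlt : (r : ENNReal) < r1 := by
    have : r < r1 := by exact_mod_cast hr1
    exact_mod_cast this
  have hu1 := hfp.tendstoUniformlyOn hlt
  rw [Metric.tendstoUniformlyOn_iff] at hu1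
  have hr0 : (0 : ℝ) ≤ r := r.2
  have hδ : 0 < ε / ((r : ℝ) + 1) := by positivity
  obtain ⟨N, hN⟩ := (hu1 _ hδ).exists
  set c : ℕ → ℂ := fun i => (cauchyPowerSeries v 0 r1).coeff i with hc
  have hps : ∀ y : ℂ, (cauchyPowerSeries v 0 r1).partialSum N y =
      ∑ i ∈ Finset.range N, y ^ i * c i := by
    intro y
    unfold FormalMultilinearSeries.partialSum
    apply Finset.sum_congr rfl
    intro i _
    rw [FormalMultilinearSeries.apply_eq_pow_smul_coeff, smul_eq_mul]
  have hq : ∀ z : ℂ, HasDerivAt (fun y : ℂ => u 0 + ∑ i ∈ Finset.range N,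
      y ^ (i + 1) / ((i : ℂ) + 1) * c i) (∑ i ∈ Finset.range N, z ^ i * c i) z := by
    intro z
    apply HasDerivAt.const_add
    apply HasDerivAt.fun_sum
    intro i _
    have h1 : HasDerivAt (fun y : ℂ => y ^ (i + 1)) (((i + 1 : ℕ) : ℂ) * z ^ i) z := by
      simpa using hasDerivAt_pow (i + 1) z
    have h2 := (h1.div_const ((i : ℂ) + 1)).mul_const (c i)
    have h3 : ((i : ℂ) + 1) ≠ 0 := Nat.cast_add_one_ne_zero i
    have h4 : ((i + 1 : ℕ) : ℂ) * z ^ i / ((i : ℂ) + 1) * c i = z ^ i * c i := by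
      push_cast
      rw [mul_div_cancel_left₀ _ h3]
    rw [h4] at h2
    exact h2
  have hbd : ∀ z : ℂ, ‖z‖ < r → ‖v z - ∑ i ∈ Finset.range N, z ^ i * c i‖ ≤
      ε / ((r : ℝ) + 1) := by
    intro z hz
    have h1 := hN z (by rw [mem_ball_zero_iff]; exact hz)
    rw [zero_add, dist_eq_norm, hps] at h1
    exact h1.le
  refine ⟨_, _, hq, by fun_prop, ?_⟩
  intro z hz
  have hδε : ε / ((r : ℝ) + 1) ≤ ε := div_le_self hε.le (by linarith)
  refine ⟨?_, (hbd z hz).trans hδε⟩
  have hmv := (convex_ball (0 : ℂ) (r : ℝ)).norm_image_sub_le_of_norm_hasDerivWithin_le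
    (f := fun y => u y - (u 0 + ∑ i ∈ Finset.range N, y ^ (i + 1) / ((i : ℂ) + 1) * c i))
    (f' := fun y => v y - ∑ i ∈ Finset.range N, y ^ i * c i) (C := ε / ((r : ℝ) + 1))
    (x := 0) (y := z)
    (fun y hy => ((h y (ball_subset_ball hR.le hy)).sub (hq y)).hasDerivWithinAt)
    (fun y hy => hbd y (mem_ball_zero_iff.1 hy))
    (mem_ball_self hr) (mem_ball_zero_iff.2 hz)
  have h0 : u 0 - (u 0 + ∑ i ∈ Finset.range N, (0 : ℂ) ^ (i + 1) / ((i : ℂ) + 1) * c i) = 0 := by
    have : ∑ i ∈ Finset.range N, (0 : ℂ) ^ (i + 1) / ((i : ℂ) + 1) * c i = 0 := by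
      apply Finset.sum_eq_zero
      intro i _
      rw [zero_pow (Nat.succ_ne_zero i), zero_div, zero_mul]
    rw [this, add_zero, sub_self]
  rw [h0, sub_zero, sub_zero] at hmv
  refine hmv.trans ?_
  rw [div_mul_eq_mul_div, div_le_iff₀ (by linarith)]
  nlinarith [norm_nonneg z]

theorem entire_test (q q' : ℂ → ℂ) (hq : ∀ z, HasDerivAt q (q' z) z) (hq' : Continuous q')
    (P : ℂ → ℂ) (hP : ContDiff ℝ 2 P) (hPc : HasCompactSupport P) :
    (∫ z, q z * dbar P z = 0) ∧ (∫ z, q z * dz P z = - ∫ z, q' z * P z) := by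
  have hqR : ∀ z, HasFDerivAt q ((ContinuousLinearMap.toSpanSingleton ℂ (q' z)).restrictScalars ℝ) z :=
    fun z => (hq z).hasFDerivAt.restrictScalars ℝ
  have hf : ∀ z v, fderiv ℝ q z v = v * q' z := by
    intro z v
    rw [(hqR z).fderiv]
    simp
  have hqc : Continuous q := by
    rw [continuous_iff_continuousAt]
    exact fun z => (hq z).continuousAt
  have K1 : ∀ v : ℂ, ∫ z, q z * fderiv ℝ P z v = - (v * ∫ z, q' z * P z) := by
    intro v
    rw [integral_mul_fderiv_eq_neg_fderiv_mul_of_integrable]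
    · rw [← integral_const_mul]
      congr 1
      apply integral_congr_ae
      filter_upwards with z
      rw [hf]
      ring
    · have : (fun z => fderiv ℝ q z v * P z) = fun z => (v * q' z) * P z := by
        funext z; rw [hf]
      rw [this]
      exact int_mul (continuous_const.mul hq') hP.continuous hPc
    · exact int_mul hqc (fder_cont hP v) (hPc.fderiv_apply (𝕜 := ℝ) v)
    · exact int_mul hqc hP.continuous hPc
    · intro z _
      exact (hqR z).differentiableAt
    · intro z _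
      exact (hP.differentiable (by norm_num)).differentiableAt
  have i1 : Integrable (fun z => q z * fderiv ℝ P z 1) :=
    int_mul hqc (fder_cont hP 1) (hPc.fderiv_apply (𝕜 := ℝ) 1)
  have i2 : Integrable (fun z => q z * fderiv ℝ P z Complex.I) :=
    int_mul hqc (fder_cont hP _) (hPc.fderiv_apply (𝕜 := ℝ) _)
  constructor
  · have e1 : (fun z => q z * dbar P z) = fun z =>
        (1 / 2 : ℂ) * (q z * fderiv ℝ P z 1 + Complex.I * (q z * fderiv ℝ P z Complex.I)) := by
      funext z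
      unfold dbar
      ring
    rw [e1, integral_const_mul, integral_add i1 (i2.const_mul _), integral_const_mul, K1, K1]
    linear_combination (-1 / 2 * ∫ z, q' z * P z) * Complex.I_mul_I
  · have e1 : (fun z => q z * dz P z) = fun z =>
        (1 / 2 : ℂ) * (q z * fderiv ℝ P z 1 - Complex.I * (q z * fderiv ℝ P z Complex.I)) := by
      funext z
      unfold dz
      ring
    rw [e1, integral_const_mul, integral_sub i1 (i2.const_mul _), integral_const_mul, K1, K1]
    linear_combination (1 / 2 * ∫ z, q' z * P z) * Complex.I_mul_I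

/-- gluing the solutions over annuli (Mittag-Leffler) -/
theorem main
    (weyl : ∀ (h h₁ : ℂ → ℂ) (U : Set ℂ), IsOpen U → Continuous h → Continuous h₁ →
      (∀ P : ℂ → ℂ, ContDiff ℝ 2 P → HasCompactSupport P → tsupport P ⊆ U →
        ∫ z, h z * dbar P z = 0) →
      (∀ P : ℂ → ℂ, ContDiff ℝ 2 P → HasCompactSupport P → tsupport P ⊆ U →
        ∫ z, h z * dz P z = - ∫ z, h₁ z * P z) → ∀ z ∈ U, HasDerivAt h (h₁ z) z)
    (F : Set ℂ) (hF : IsClosed F) (w : ℂ → ℂ) (hw : Continuous w)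
    (H : ∀ n : ℕ, ∀ ξ : ℂ → ℝ, ContDiff ℝ 2 ξ → HasCompactSupport ξ →
      (∀ z ∈ tsupport ξ, (n : ℝ) ≤ ‖z‖ ∧ ‖z‖ ≤ n + 2) →
      ∃ u v, WSol (F ∩ {z | (n : ℝ) - 1 ≤ ‖z‖ ∧ ‖z‖ ≤ n + 3}) (fun z => (ξ z : ℂ) * w z) u v) :
    ∃ u v, WSol F w u v := by
  classical
  -- cut-off functions
  obtain ⟨X, hX1, hX2, hX3⟩ : ∃ X : ℕ → ℂ → ℝ, (∀ n, ContDiff ℝ 2 (X n)) ∧
      (∀ (n : ℕ) (z : ℂ), ‖z‖ ≤ (n : ℝ) + 1 → X n z = 1) ∧
      (∀ (n : ℕ) (z : ℂ), (n : ℝ) + 2 ≤ ‖z‖ → X n z = 0) := by
    let B : ∀ n : ℕ, ContDiffBump (0 : ℂ) := fun n =>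
      ⟨(n : ℝ) + 1, (n : ℝ) + 2, by positivity, by linarith⟩
    refine ⟨fun n => B n, fun n => (B n).contDiff, ?_, ?_⟩
    · intro n z hz
      exact (B n).one_of_mem_closedBall (mem_closedBall_zero_iff.2 hz)
    · intro n z hz
      exact (B n).zero_of_le_dist (by rw [dist_zero_right]; exact hz)
  let ξ : ℕ → ℂ → ℝ := fun n => match n with
    | 0 => X 0
    | (m + 1) => fun z => X (m + 1) z - X m z
  have hξsum : ∀ (n : ℕ) (z : ℂ), ∑ k ∈ Finset.range (n + 1), ξ k z = X n z := by
    intro n z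
    induction n with
    | zero => simp [ξ]
    | succ n ih =>
      rw [Finset.sum_range_succ, ih]
      show X n z + (X (n + 1) z - X n z) = X (n + 1) z
      ring
  have hξC : ∀ n, ContDiff ℝ 2 (ξ n) := by
    intro n
    cases n with
    | zero => exact hX1 0
    | succ m => exact (hX1 (m + 1)).sub (hX1 m)
  have hξ0 : ∀ (n : ℕ) (z : ℂ), ‖z‖ < n → ξ n z = 0 := by
    intro n z hz
    cases n with
    | zero =>
      exfalso
      have := norm_nonneg z
      simp at hz
      linarith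
    | succ m =>
      push_cast at hz
      show X (m + 1) z - X m z = 0
      rw [hX2 m z hz.le, hX2 (m + 1) z (by push_cast; linarith), sub_self]
  have hξ1 : ∀ (n : ℕ) (z : ℂ), (n : ℝ) + 2 ≤ ‖z‖ → ξ n z = 0 := by
    intro n z hz
    cases n with
    | zero => exact hX3 0 z hz
    | succ m =>
      push_cast at hz
      show X (m + 1) z - X m z = 0
      rw [hX3 m z (by linarith), hX3 (m + 1) z (by push_cast; linarith), sub_self]
  have hξt : ∀ n : ℕ, ∀ z ∈ tsupport (ξ n), (n : ℝ) ≤ ‖z‖ ∧ ‖z‖ ≤ n + 2 := by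
    intro n
    have hcl : IsClosed {z : ℂ | (n : ℝ) ≤ ‖z‖ ∧ ‖z‖ ≤ n + 2} :=
      (isClosed_le continuous_const continuous_norm).inter
        (isClosed_le continuous_norm continuous_const)
    have hsub : Function.support (ξ n) ⊆ {z : ℂ | (n : ℝ) ≤ ‖z‖ ∧ ‖z‖ ≤ n + 2} := by
      intro z hz
      constructor
      · by_contra h
        exact hz (hξ0 n z (not_le.1 h))
      · by_contra h
        exact hz (hξ1 n z (not_le.1 h).le)
    exact fun z hz => closure_minimal hsub hcl hz
  have hξc : ∀ n, HasCompactSupport (ξ n) := by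
    intro n
    apply HasCompactSupport.intro (isCompact_closedBall (0 : ℂ) ((n : ℝ) + 2))
    intro z hz
    apply hξ1
    rw [mem_closedBall_zero_iff, not_le] at hz
    exact hz.le
  choose u v huv using fun n => H n (ξ n) (hξC n) (hξc n) (hξt n)
  -- holomorphy near the origin
  have hhol : ∀ n : ℕ, ∀ z ∈ ball (0 : ℂ) ((n : ℝ) - 1), HasDerivAt (u n) (v n z) z := by
    intro n
    have hdis : ∀ P : ℂ → ℂ, tsupport P ⊆ ball (0 : ℂ) ((n : ℝ) - 1) →
        Disjoint (tsupport P) (F ∩ {z | (n : ℝ) - 1 ≤ ‖z‖ ∧ ‖z‖ ≤ n + 3}) := by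
      intro P hPU
      rw [Set.disjoint_left]
      intro z hz hz2
      have h1 := mem_ball_zero_iff.1 (hPU hz)
      have h2 := hz2.2.1
      linarith
    apply weyl (u n) (v n) _ isOpen_ball (huv n).1 (huv n).2.1
    · intro P hP hPc hPU
      rw [((huv n).2.2 P hP hPc (hdis P hPU)).1]
      have : (fun z => (ξ n z : ℂ) * w z * P z) = fun _ => 0 := by
        funext z
        by_cases hz : z ∈ tsupport P
        · have h1 := mem_ball_zero_iff.1 (hPU hz)
          rw [hξ0 n z (by linarith)]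
          simp
        · rw [image_eq_zero_of_notMem_tsupport hz, mul_zero]
      rw [this]
      simp
    · intro P hP hPc hPU
      exact ((huv n).2.2 P hP hPc (hdis P hPU)).2
  have happ : ∀ n : ℕ, ∃ q q' : ℂ → ℂ, (∀ z, HasDerivAt q (q' z) z) ∧ Continuous q' ∧
      (3 ≤ n → ∀ z : ℂ, ‖z‖ < (n : ℝ) - 2 →
        ‖u n z - q z‖ ≤ (1 / 2 : ℝ) ^ n ∧ ‖v n z - q' z‖ ≤ (1 / 2 : ℝ) ^ n) := by
    intro n
    by_cases hn : 3 ≤ n
    · have hn' : (3 : ℝ) ≤ n := by exact_mod_cast hn
      obtain ⟨q, q', h1, h2, h3⟩ := approx (u n) (v n) ((n : ℝ) - 2) ((n : ℝ) - 1) (by linarith)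
        (by linarith) (hhol n) ((1 / 2 : ℝ) ^ n) (by positivity)
      exact ⟨q, q', h1, h2, fun _ => h3⟩
    · exact ⟨fun _ => 0, fun _ => 0, fun z => hasDerivAt_const z 0, continuous_const,
        fun h => absurd h hn⟩
  choose q q' hq hq'c hqb using happ
  have hqc : ∀ n, Continuous (q n) := by
    intro n
    rw [continuous_iff_continuousAt]
    exact fun z => (hq n z).continuousAt
  have hac : ∀ n, Continuous (fun z => u n z - q n z) := fun n => (huv n).1.sub (hqc n)
  have hbc : ∀ n, Continuous (fun z => v n z - q' n z) := fun n => (huv n).2.1.sub (hq'c n)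
  have hab : ∀ n : ℕ, 3 ≤ n → ∀ z : ℂ, ‖z‖ < (n : ℝ) - 2 →
      ‖(fun z => u n z - q n z) z‖ ≤ (1 / 2 : ℝ) ^ n := fun n hn z hz => (hqb n hn z hz).1
  have hbb : ∀ n : ℕ, 3 ≤ n → ∀ z : ℂ, ‖z‖ < (n : ℝ) - 2 →
      ‖(fun z => v n z - q' n z) z‖ ≤ (1 / 2 : ℝ) ^ n := fun n hn z hz => (hqb n hn z hz).2
  refine ⟨fun z => ∑' n, (fun z => u n z - q n z) z, fun z => ∑' n, (fun z => v n z - q' n z) z,
    tsum_cont (fun n z => u n z - q n z) hac hab, tsum_cont (fun n z => v n z - q' n z) hbc hbb, ?_⟩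
  intro P hP hPc hPF
  have hPF' : ∀ n : ℕ, Disjoint (tsupport P) (F ∩ {z | (n : ℝ) - 1 ≤ ‖z‖ ∧ ‖z‖ ≤ n + 3}) :=
    fun n => hPF.mono_right inter_subset_left
  have hPcont := hP.continuous
  have e1 : ∀ n, ∫ z, (fun z => u n z - q n z) z * dbar P z = - ∫ z, (ξ n z : ℂ) * w z * P z := by
    intro n
    have : (fun z => (fun z => u n z - q n z) z * dbar P z) =
        fun z => u n z * dbar P z - q n z * dbar P z := by
      funext z; ring
    rw [this, integral_sub (int_mul (huv n).1 (dbar_cont hP) (dbar_supp hPc))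
      (int_mul (hqc n) (dbar_cont hP) (dbar_supp hPc)), ((huv n).2.2 P hP hPc (hPF' n)).1,
      (entire_test (q n) (q' n) (hq n) (hq'c n) P hP hPc).1, sub_zero]
  have e2 : ∀ n, ∫ z, (fun z => u n z - q n z) z * dz P z =
      - ∫ z, (fun z => v n z - q' n z) z * P z := by
    intro n
    have : (fun z => (fun z => u n z - q n z) z * dz P z) =
        fun z => u n z * dz P z - q n z * dz P z := by
      funext z; ring
    have h2 : (fun z => (fun z => v n z - q' n z) z * P z) =
        fun z => v n z * P z - q' n z * P z := by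
      funext z; ring
    rw [this, integral_sub (int_mul (huv n).1 (dz_cont hP) (dz_supp hPc))
      (int_mul (hqc n) (dz_cont hP) (dz_supp hPc)), ((huv n).2.2 P hP hPc (hPF' n)).2,
      (entire_test (q n) (q' n) (hq n) (hq'c n) P hP hPc).2, h2,
      integral_sub (int_mul (huv n).2.1 hPcont hPc) (int_mul (hq'c n) hPcont hPc)]
    ring
  constructor
  · have s1 := tsum_test (fun n z => u n z - q n z) hac hab (dbar P) (dbar_cont hP) (dbar_supp hPc)
    have s2 : HasSum (fun n => ∫ z, (ξ n z : ℂ) * w z * P z) (∫ z, w z * P z) := by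
      obtain ⟨R, hR⟩ : ∃ R, tsupport P ⊆ closedBall 0 R :=
        hPc.isCompact.isBounded.subset_closedBall 0
      obtain ⟨M, hM⟩ := exists_nat_gt R
      have h0 : ∀ n ∉ Finset.range (M + 1), ∫ z, (ξ n z : ℂ) * w z * P z = 0 := by
        intro n hn
        rw [Finset.mem_range, not_lt] at hn
        have hn' : (M : ℝ) + 1 ≤ n := by exact_mod_cast hn
        have : (fun z => (ξ n z : ℂ) * w z * P z) = fun _ => 0 := by
          funext z
          by_cases hz : z ∈ tsupport P
          · have h1 := mem_closedBall_zero_iff.1 (hR hz)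
            rw [hξ0 n z (by linarith)]
            simp
          · rw [image_eq_zero_of_notMem_tsupport hz, mul_zero]
        rw [this]
        simp
      have h1 : HasSum (fun n => ∫ z, (ξ n z : ℂ) * w z * P z)
          (∑ n ∈ Finset.range (M + 1), ∫ z, (ξ n z : ℂ) * w z * P z) :=
        hasSum_sum_of_ne_finset_zero h0
      have hξcont : ∀ n, Continuous (fun z => (ξ n z : ℂ) * w z) := fun n =>
        (Complex.continuous_ofReal.comp (hξC n).continuous).mul hw
      have h2 : ∑ n ∈ Finset.range (M + 1), ∫ z, (ξ n z : ℂ) * w z * P z = ∫ z, w z * P z := by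
        rw [← integral_finsetSum _ (fun n _ => int_mul (hξcont n) hPcont hPc)]
        congr 1
        funext z
        rw [← Finset.sum_mul, ← Finset.sum_mul, ← Complex.ofReal_sum, hξsum]
        by_cases hz : z ∈ tsupport P
        · have h1 := mem_closedBall_zero_iff.1 (hR hz)
          rw [hX2 M z (by linarith)]
          simp
        · rw [image_eq_zero_of_notMem_tsupport hz, mul_zero, mul_zero]
      rw [h2] at h1
      exact h1
    have s3 := s2.neg
    have s4 : (fun n => - ∫ z, (ξ n z : ℂ) * w z * P z) =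
        fun n => ∫ z, (fun n z => u n z - q n z) n z * dbar P z := by
      funext n
      exact (e1 n).symm
    rw [s4] at s3
    exact s1.unique s3
  · have s1 := tsum_test (fun n z => u n z - q n z) hac hab (dz P) (dz_cont hP) (dz_supp hPc)
    have s2 := (tsum_test (fun n z => v n z - q' n z) hbc hbb P hPcont hPc).neg
    have s4 : (fun n => - ∫ z, (fun n z => v n z - q' n z) n z * P z) =
        fun n => ∫ z, (fun n z => u n z - q n z) n z * dz P z := by
      funext n
      exact (e2 n).symm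
    rw [s4] at s2
    exact s1.unique s2


end Pool.Agent.Split938.J11
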