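import Pool.Agent.Split938.Defs

set_option autoImplicit false
open MeasureTheory Metric Set Filter Topology

namespace Pool.Agent.Split938.J8


open scoped Convolution

/-- complex derivative from the real one -/
theorem hasDerivAt_of_real {f : ℂ → ℂ} {z : ℂ} {L : ℂ →L[ℝ] ℂ} (hf : HasFDerivAt f L z)
    (h : L 1 + Complex.I * L Complex.I = 0) : HasDerivAt f (L 1) z := by
  have hI : L Complex.I = Complex.I * L 1 := by
    linear_combination (-Complex.I) * h + L Complex.I * Complex.I_sq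
  have hL : ∀ v : ℂ, L v = v * L 1 := by
    intro v
    have e : v = v.re • (1 : ℂ) + v.im • Complex.I := by
      apply Complex.ext <;> simp
    have e2 : L v = v.re • L 1 + v.im • L Complex.I := by
      rw [← map_smul, ← map_smul, ← map_add, ← e]
    rw [e2, hI, Complex.real_smul, Complex.real_smul]
    linear_combination (L 1) * Complex.re_add_im v
  rw [hasDerivAt_iff_hasFDerivAt]
  refine hasFDerivAt_of_restrictScalars ℝ hf ?_
  refine ContinuousLinearMap.ext fun v => ?_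
  rw [ContinuousLinearMap.coe_restrictScalars', hL v]
  rfl

theorem conv_fderiv (φ : ContDiffBump (0 : ℂ)) (h : ℂ → ℂ) (hc : Continuous h) (z : ℂ) :
    ∃ L : ℂ →L[ℝ] ℂ,
      HasFDerivAt (φ.normed volume ⋆[ContinuousLinearMap.lsmul ℝ ℝ, volume] h) L z ∧
      ∀ v, L v = ∫ ζ : ℂ, (fderiv ℝ (φ.normed volume) (z - ζ) v) • h ζ := by
  have hli : LocallyIntegrable h volume := hc.locallyIntegrable
  have hcs : HasCompactSupport (φ.normed volume : ℂ → ℝ) := φ.hasCompactSupport_normed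
  have hcd : ContDiff ℝ 1 (φ.normed volume : ℂ → ℝ) := φ.contDiff_normed
  refine ⟨_, hcs.hasFDerivAt_convolution_left (ContinuousLinearMap.lsmul ℝ ℝ) hcd hli z, ?_⟩
  intro v
  have hint := (hcs.fderiv (𝕜 := ℝ)).convolutionExists_left
    ((ContinuousLinearMap.lsmul ℝ ℝ : ℝ →L[ℝ] ℂ →L[ℝ] ℂ).precompL ℂ)
    (hcd.continuous_fderiv (by norm_num)) hli z
  rw [convolution, ContinuousLinearMap.integral_apply hint]
  have e : ∀ t : ℂ, (((ContinuousLinearMap.lsmul ℝ ℝ : ℝ →L[ℝ] ℂ →L[ℝ] ℂ).precompL ℂ)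
      (fderiv ℝ (φ.normed volume) t) (h (z - t))) v =
      (fun s => (fderiv ℝ (φ.normed volume) (z - s) v) • h s) (z - t) := by
    intro t
    simp [ContinuousLinearMap.precompL_apply]
  simp_rw [e]
  exact integral_sub_left_eq_self
    (fun s => (fderiv ℝ (φ.normed volume) (z - s) v) • h s) volume z

/-- the test function -/
noncomputable def tf (φ : ContDiffBump (0 : ℂ)) (z ζ : ℂ) : ℂ :=
  ((φ.normed volume (z - ζ) : ℝ) : ℂ)

theorem tf_contDiff (φ : ContDiffBump (0 : ℂ)) (z : ℂ) : ContDiff ℝ 2 (tf φ z) := by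
  have h1 : ContDiff ℝ 2 (φ.normed volume : ℂ → ℝ) := φ.contDiff_normed
  exact Complex.ofRealCLM.contDiff.comp (h1.comp (contDiff_const.sub contDiff_id))

theorem tf_support (φ : ContDiffBump (0 : ℂ)) (z : ℂ) :
    Function.support (tf φ z) ⊆ closedBall z φ.rOut := by
  intro ζ hζ
  have h1 : φ.normed volume (z - ζ) ≠ 0 := by
    intro h0
    apply hζ
    simp [tf, h0]
  have h2 : z - ζ ∈ Function.support (φ.normed volume) := h1
  rw [φ.support_normed_eq, mem_ball_zero_iff] at h2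
  rw [mem_closedBall, dist_comm, dist_eq_norm]
  exact h2.le

theorem tf_tsupport (φ : ContDiffBump (0 : ℂ)) (z : ℂ) :
    tsupport (tf φ z) ⊆ closedBall z φ.rOut :=
  closure_minimal (tf_support φ z) isClosed_closedBall

theorem tf_compact (φ : ContDiffBump (0 : ℂ)) (z : ℂ) : HasCompactSupport (tf φ z) :=
  (isCompact_closedBall z φ.rOut).of_isClosed_subset (isClosed_tsupport _) (tf_tsupport φ z)

theorem tf_fderiv (φ : ContDiffBump (0 : ℂ)) (z ζ v : ℂ) :
    fderiv ℝ (tf φ z) ζ v = -((fderiv ℝ (φ.normed volume) (z - ζ) v : ℝ) : ℂ) := by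
  have hcd : ContDiff ℝ 1 (φ.normed volume : ℂ → ℝ) := φ.contDiff_normed
  have h1 : HasFDerivAt (φ.normed volume) (fderiv ℝ (φ.normed volume) (z - ζ)) (z - ζ) :=
    ((hcd.differentiable (by norm_num)) (z - ζ)).hasFDerivAt
  have h2 : HasFDerivAt (fun ζ : ℂ => z - ζ) (-(ContinuousLinearMap.id ℝ ℂ)) ζ :=
    (hasFDerivAt_id ζ).const_sub z
  have h3 := Complex.ofRealCLM.hasFDerivAt.comp ζ (h1.comp ζ h2)
  have h4 : fderiv ℝ (tf φ z) ζ = _ := h3.fderiv
  rw [h4]
  simp

theorem conv_eq (φ : ContDiffBump (0 : ℂ)) (h : ℂ → ℂ) (z : ℂ) :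
    (φ.normed volume ⋆[ContinuousLinearMap.lsmul ℝ ℝ, volume] h) z =
      ∫ ζ : ℂ, h ζ * tf φ z ζ := by
  rw [convolution]
  have e : ∀ t : ℂ, (ContinuousLinearMap.lsmul ℝ ℝ) (φ.normed volume t) (h (z - t)) =
      (fun s => h s * tf φ z s) (z - t) := by
    intro t
    simp [tf, mul_comm]
  simp_rw [e]
  exact integral_sub_left_eq_self (fun s => h s * tf φ z s) volume z

theorem step (φ : ContDiffBump (0 : ℂ)) (h h₁ : ℂ → ℂ) (hc : Continuous h) (z : ℂ)
    (e0 : ∫ ζ, h ζ * dbar (tf φ z) ζ = 0)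
    (e1 : ∫ ζ, h ζ * dz (tf φ z) ζ = - ∫ ζ, h₁ ζ * tf φ z ζ) :
    HasDerivAt (φ.normed volume ⋆[ContinuousLinearMap.lsmul ℝ ℝ, volume] h)
      ((φ.normed volume ⋆[ContinuousLinearMap.lsmul ℝ ℝ, volume] h₁) z) z := by
  obtain ⟨L, hL, hLv⟩ := conv_fderiv φ h hc z
  have hint : ∀ v, Integrable (fun ζ : ℂ => h ζ * fderiv ℝ (tf φ z) ζ v) := by
    intro v
    apply Continuous.integrable_of_hasCompactSupport
    · have h1 : Continuous (fderiv ℝ (tf φ z)) := (tf_contDiff φ z).continuous_fderiv (by norm_num)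
      exact hc.mul (h1.clm_apply continuous_const)
    · have h2 : HasCompactSupport (fderiv ℝ (tf φ z)) := (tf_compact φ z).fderiv (𝕜 := ℝ)
      have h3 : HasCompactSupport (fun ζ => fderiv ℝ (tf φ z) ζ v) :=
        h2.comp_left (g := fun M : ℂ →L[ℝ] ℂ => M v) (by simp)
      exact h3.mul_left
  have hLv' : ∀ v, L v = -∫ ζ, h ζ * fderiv ℝ (tf φ z) ζ v := by
    intro v
    rw [hLv, ← integral_neg]
    congr 1
    ext ζ
    rw [tf_fderiv, Complex.real_smul]
    ring
  have h0 : L 1 + Complex.I * L Complex.I = 0 := by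
    have : ∫ ζ, h ζ * dbar (tf φ z) ζ = ((∫ ζ, h ζ * fderiv ℝ (tf φ z) ζ 1) +
        Complex.I * ∫ ζ, h ζ * fderiv ℝ (tf φ z) ζ Complex.I) / 2 := by
      rw [← integral_const_mul, ← integral_add (hint 1) ((hint Complex.I).const_mul _),
        ← integral_div]
      congr 1
      ext ζ
      rw [dbar]; ring
    rw [e0] at this
    rw [hLv', hLv']
    linear_combination (-2 : ℂ) * this.symm
  have h1 : L 1 = (φ.normed volume ⋆[ContinuousLinearMap.lsmul ℝ ℝ, volume] h₁) z := by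
    have : ∫ ζ, h ζ * dz (tf φ z) ζ = ((∫ ζ, h ζ * fderiv ℝ (tf φ z) ζ 1) -
        Complex.I * ∫ ζ, h ζ * fderiv ℝ (tf φ z) ζ Complex.I) / 2 := by
      rw [← integral_const_mul, ← integral_sub (hint 1) ((hint Complex.I).const_mul _),
        ← integral_div]
      congr 1
      ext ζ
      rw [dz]; ring
    rw [e1, ← conv_eq] at this
    have a1 := hLv' 1
    have a2 := hLv' Complex.I
    have a3 : ∫ ζ, h ζ * fderiv ℝ (tf φ z) ζ 1 = - L 1 := by rw [a1, neg_neg]
    have a4 : ∫ ζ, h ζ * fderiv ℝ (tf φ z) ζ Complex.I = - L Complex.I := by rw [a2, neg_neg]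
    rw [a3, a4] at this
    linear_combination this + h0 / 2
  rw [← h1]
  exact hasDerivAt_of_real hL h0

noncomputable def bump (n : ℕ) : ContDiffBump (0 : ℂ) where
  rIn := 1 / (2 * ((n : ℝ) + 1))
  rOut := 1 / ((n : ℝ) + 1)
  rIn_pos := by positivity
  rIn_lt_rOut := by
    apply one_div_lt_one_div_of_lt
    · positivity
    · have : (0 : ℝ) ≤ n := Nat.cast_nonneg n
      linarith

theorem bump_rOut (n : ℕ) : (bump n).rOut = 1 / ((n : ℝ) + 1) := rfl

theorem tendsto_rOut : Tendsto (fun n => (bump n).rOut) atTop (𝓝 0) :=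
  tendsto_one_div_add_atTop_nhds_zero_nat

theorem tendsto_conv (h : ℂ → ℂ) (hc : Continuous h) (z₀ : ℂ) (r : ℝ) :
    TendstoUniformlyOn (fun n => ((bump n).normed volume
      ⋆[ContinuousLinearMap.lsmul ℝ ℝ, volume] h)) h atTop (ball z₀ r) := by
  rw [Metric.tendstoUniformlyOn_iff]
  intro ε hε
  have huc : UniformContinuousOn h (closedBall z₀ (r + 1)) :=
    (isCompact_closedBall z₀ (r + 1)).uniformContinuousOn_of_continuous hc.continuousOn
  obtain ⟨d, hd, hd'⟩ := Metric.uniformContinuousOn_iff.1 huc (ε / 2) (by positivity)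
  have h1 : ∀ᶠ n in atTop, (bump n).rOut < min d 1 :=
    tendsto_rOut.eventually (gt_mem_nhds (by positivity))
  filter_upwards [h1] with n hn x hx
  rw [dist_comm]
  refine lt_of_le_of_lt (ContDiffBump.dist_normed_convolution_le
    (hc.aestronglyMeasurable) (ε := ε / 2) ?_) (by linarith)
  intro y hy
  have hx' : dist x z₀ < r := hx
  have hy' : dist y x < (bump n).rOut := hy
  have hn1 : (bump n).rOut < d := lt_of_lt_of_le hn (min_le_left _ _)
  have hn2 : (bump n).rOut < 1 := lt_of_lt_of_le hn (min_le_right _ _)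
  refine (hd' y ?_ x ?_ (hy'.trans hn1)).le
  · rw [mem_closedBall]
    linarith [dist_triangle y x z₀]
  · rw [mem_closedBall]
    linarith

/-- Weyl's lemma for the pair of equations `∂̄h = 0`, `∂h = h₁` -/
theorem main (h h₁ : ℂ → ℂ) (U : Set ℂ) (hU : IsOpen U) (hc : Continuous h)
    (hc₁ : Continuous h₁)
    (hw : ∀ P : ℂ → ℂ, ContDiff ℝ 2 P → HasCompactSupport P → tsupport P ⊆ U →
      ∫ z, h z * dbar P z = 0)
    (hw₁ : ∀ P : ℂ → ℂ, ContDiff ℝ 2 P → HasCompactSupport P → tsupport P ⊆ U →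
      ∫ z, h z * dz P z = - ∫ z, h₁ z * P z) :
    ∀ z ∈ U, HasDerivAt h (h₁ z) z := by
  intro z₀ hz₀
  obtain ⟨r, hr, hrU⟩ := Metric.isOpen_iff.1 hU z₀ hz₀
  have h1 : ∀ᶠ n in atTop, ∀ z ∈ ball z₀ (r / 2),
      HasDerivAt ((bump n).normed volume ⋆[ContinuousLinearMap.lsmul ℝ ℝ, volume] h)
      (((bump n).normed volume ⋆[ContinuousLinearMap.lsmul ℝ ℝ, volume] h₁) z) z := by
    have h1 : ∀ᶠ n in atTop, (bump n).rOut < r / 2 :=
      tendsto_rOut.eventually (gt_mem_nhds (by positivity))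
    filter_upwards [h1] with n hn z hz
    have hsub : tsupport (tf (bump n) z) ⊆ U := by
      refine (tf_tsupport (bump n) z).trans (subset_trans ?_ hrU)
      intro y hy
      rw [mem_closedBall] at hy
      rw [mem_ball] at hz ⊢
      linarith [dist_triangle y z z₀]
    exact step (bump n) h h₁ hc z (hw _ (tf_contDiff _ z) (tf_compact _ z) hsub)
      (hw₁ _ (tf_contDiff _ z) (tf_compact _ z) hsub)
  exact hasDerivAt_of_tendstoUniformlyOn (isOpen_ball) (tendsto_conv h₁ hc₁ z₀ (r / 2)) h1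
    (fun x hx => (tendsto_conv h hc z₀ (r / 2)).tendsto_at hx) (mem_ball_self (by positivity))

end Pool.Agent.Split938.J8
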