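import Pool.Agent.Split938.Loc3
import Pool.Agent.Split938.J8
import Pool.Agent.Split938.J10
import Pool.Agent.Split938.J11

set_option autoImplicit false
open MeasureTheory Metric Set Filter Topology

namespace Pool.Agent.Split938

theorem WSol.mono {F F' : Set ℂ} {w u v : ℂ → ℂ} (h : WSol F w u v) (hF : F ⊆ F') :
    WSol F' w u v :=
  ⟨h.1, h.2.1, fun P h1 h2 h3 => h.2.2 P h1 h2 (h3.mono_right hF)⟩

theorem int_test {a P : ℂ → ℂ} (ha : Continuous a) (hP : Continuous P) (hc : HasCompactSupport P) :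
    Integrable (fun z => a z * P z) :=
  (ha.mul hP).integrable_of_hasCompactSupport hc.mul_left

theorem WSol.add {F : Set ℂ} {w u v w' u' v' : ℂ → ℂ} (hw : Continuous w) (hw' : Continuous w')
    (h : WSol F w u v) (h' : WSol F w' u' v') :
    WSol F (fun z => w z + w' z) (fun z => u z + u' z) (fun z => v z + v' z) := by
  refine ⟨h.1.add h'.1, h.2.1.add h'.2.1, fun P h1 h2 h3 => ?_⟩
  obtain ⟨a1, a2⟩ := h.2.2 P h1 h2 h3
  obtain ⟨b1, b2⟩ := h'.2.2 P h1 h2 h3
  have c1 := dbar_continuous (cd1 h1)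
  have c2 := dz_continuous (cd1 h1)
  constructor
  · simp only [add_mul]
    rw [integral_add (int_test h.1 c1 (dbar_hcs h2)) (int_test h'.1 c1 (dbar_hcs h2)),
      integral_add (int_test hw h1.continuous h2) (int_test hw' h1.continuous h2), a1, b1]
    ring
  · simp only [add_mul]
    rw [integral_add (int_test h.1 c2 (dz_hcs h2)) (int_test h'.1 c2 (dz_hcs h2)),
      integral_add (int_test h.2.1 h1.continuous h2) (int_test h'.2.1 h1.continuous h2), a2, b2]
    ring

theorem WSol.neg {F : Set ℂ} {w u v : ℂ → ℂ} (h : WSol F w u v) :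
    WSol F (fun z => -w z) (fun z => -u z) (fun z => -v z) := by
  refine ⟨h.1.neg, h.2.1.neg, fun P h1 h2 h3 => ?_⟩
  obtain ⟨a1, a2⟩ := h.2.2 P h1 h2 h3
  simp only [neg_mul, integral_neg]
  exact ⟨by rw [a1], by rw [a2]⟩

theorem WSol.zero {F : Set ℂ} : WSol F (fun _ => 0) (fun _ => 0) (fun _ => 0) :=
  ⟨continuous_const, continuous_const, fun P _ _ _ => by simp⟩

theorem WSol.sum {F : Set ℂ} (s : Finset ℂ) (w : ℂ → ℂ → ℂ) (hw : ∀ a ∈ s, Continuous (w a))
    (h : ∀ a ∈ s, ∃ u v, WSol F (w a) u v) : ∃ u v, WSol F (fun z => ∑ a ∈ s, w a z) u v := by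
  classical
  induction s using Finset.induction_on with
  | empty => exact ⟨_, _, by simpa using WSol.zero⟩
  | insert a s ha ih =>
    obtain ⟨u, v, huv⟩ := ih (fun b hb => hw b (Finset.mem_insert_of_mem hb))
      (fun b hb => h b (Finset.mem_insert_of_mem hb))
    obtain ⟨u', v', huv'⟩ := h a (Finset.mem_insert_self a s)
    have hc : Continuous fun z => ∑ a ∈ s, w a z :=
      continuous_finset_sum _ fun b hb => hw b (Finset.mem_insert_of_mem hb)
    refine ⟨fun z => u' z + u z, fun z => v' z + v z, ?_⟩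
    simp only [Finset.sum_insert ha]
    exact WSol.add (hw a (Finset.mem_insert_self a s)) hc huv' huv

/-- `z` is relatively interior to both pieces, quantitatively -/
theorem local_radius {S S₁ S₂ : Set ℂ} (hS : IsClosed S) (z : ℂ)
    (h : z ∈ S → (∃ U ∈ 𝓝 z, U ∩ S ⊆ S₁) ∧ (∃ U ∈ 𝓝 z, U ∩ S ⊆ S₂)) :
    ∃ ρ : ℝ, 0 < ρ ∧ 3 * ρ ≤ 1 ∧ S ∩ closedBall z (3 * ρ) ⊆ S₁ ∩ S₂ := by
  by_cases hz : z ∈ S
  · obtain ⟨⟨U, hU, hU1⟩, ⟨V, hV, hV1⟩⟩ := h hz
    obtain ⟨ε, hε, hb⟩ := Metric.mem_nhds_iff.1 (inter_mem hU hV)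
    refine ⟨min (ε / 4) (1 / 4), by positivity, ?_, ?_⟩
    · have := min_le_right (ε / 4) (1 / 4 : ℝ)
      linarith
    · rintro w ⟨hw, hw'⟩
      have : w ∈ ball z ε := by
        rw [mem_closedBall] at hw'
        rw [mem_ball]
        have := min_le_left (ε / 4) (1 / 4 : ℝ)
        linarith
      exact ⟨hU1 ⟨(hb this).1, hw⟩, hV1 ⟨(hb this).2, hw⟩⟩
  · obtain ⟨ε, hε, hb⟩ := Metric.mem_nhds_iff.1 (hS.isOpen_compl.mem_nhds hz)
    refine ⟨min (ε / 4) (1 / 4), by positivity, ?_, ?_⟩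
    · have := min_le_right (ε / 4) (1 / 4 : ℝ)
      linarith
    · rintro w ⟨hw, hw'⟩
      have : w ∈ ball z ε := by
        rw [mem_closedBall] at hw'
        rw [mem_ball]
        have := min_le_left (ε / 4) (1 / 4 : ℝ)
        linarith
      exact absurd hw (hb this)

/-- the global solution -/
theorem global {S S₁ S₂ : Set ℂ} (hS : IsClosed S) (h₁ : IsClosed S₁) (h₂ : IsClosed S₂)
    {f g : ℂ → ℂ} (hf : Continuous f) (hg : Continuous g)
    (hd : ∀ z ∉ S, HasDerivAt f (g z) z) {q : ℂ → ℂ} (hq : ContDiff ℝ 2 q)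
    (hqS : ∀ z ∈ tsupport q, z ∈ S → (∃ U ∈ 𝓝 z, U ∩ S ⊆ S₁) ∧ (∃ U ∈ 𝓝 z, U ∩ S ⊆ S₂)) :
    ∃ u v, WSol (S₁ ∩ S₂) (fun z => f z * q z) u v := by
  refine J11.main (fun h h₁ U hU hc hc₁ hw hw₁ => J8.main h h₁ U hU hc hc₁ hw hw₁) (S₁ ∩ S₂)
    (h₁.inter h₂) (fun z => f z * q z) (hf.mul hq.continuous) ?_
  intro n ξ hξ hξc hξs
  set K : Set ℂ := tsupport ξ ∩ tsupport q with hK
  have hKc : IsCompact K := hξc.inter_right (isClosed_tsupport q)
  have hex : ∀ z : ℂ, ∃ ρ : ℝ, z ∈ K → (0 < ρ ∧ 3 * ρ ≤ 1 ∧ S ∩ closedBall z (3 * ρ) ⊆ S₁ ∩ S₂) := by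
    intro z
    by_cases hz : z ∈ K
    · obtain ⟨ρ, hρ⟩ := local_radius hS z (hqS z hz.2)
      exact ⟨ρ, fun _ => hρ⟩
    · exact ⟨0, fun h => absurd h hz⟩
  choose ρ hρ using hex
  obtain ⟨Fs, η, hFK, hη, hηs, hη1⟩ := J10.main K hKc ρ (fun a ha => (hρ a ha).1)
  have hξ' : ContDiff ℝ 2 fun z => ((ξ z : ℝ) : ℂ) := Complex.ofRealCLM.contDiff.comp hξ
  have hηd : ∀ a ∈ Fs, ContDiff ℝ 2 fun z => ((η a z : ℝ) : ℂ) := fun a ha =>
    Complex.ofRealCLM.contDiff.comp (hη a ha)
  have hψd : ∀ a ∈ Fs, ContDiff ℝ 2 fun z => ((η a z : ℝ) : ℂ) * (((ξ z : ℝ) : ℂ) * q z) :=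
    fun a ha => (hηd a ha).mul (hξ'.mul hq)
  have hψs : ∀ a ∈ Fs, tsupport (fun z => ((η a z : ℝ) : ℂ) * (((ξ z : ℝ) : ℂ) * q z)) ⊆
      ball a (ρ a) := by
    intro a ha
    refine Subset.trans (closure_mono ?_) (hηs a ha)
    intro z hz
    simp only [Function.mem_support, ne_eq, mul_eq_zero, not_or, Complex.ofReal_eq_zero] at hz ⊢
    exact hz.1
  have hsol : ∀ a ∈ Fs, ∃ u v, WSol (S₁ ∩ S₂ ∩ {z | (n : ℝ) - 1 ≤ ‖z‖ ∧ ‖z‖ ≤ n + 3})
      (fun z => f z * (((η a z : ℝ) : ℂ) * (((ξ z : ℝ) : ℂ) * q z))) u v := by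
    intro a ha
    have haK := hFK a ha
    obtain ⟨r1, r2, r3⟩ := hρ a haK
    obtain ⟨u, v, huv⟩ := loc hS hf hg hd a (ρ a) r1 (hψd a ha) (hψs a ha)
    refine ⟨u, v, huv.mono ?_⟩
    rintro w ⟨hw, hw'⟩
    refine ⟨r3 ⟨hw, hw'⟩, ?_⟩
    have ha' := hξs a haK.1
    have hdist : ‖w - a‖ ≤ 1 := by
      rw [mem_closedBall_iff_norm] at hw'
      linarith
    have t1 : ‖w‖ ≤ ‖w - a‖ + ‖a‖ := by simpa using norm_add_le (w - a) a
    have t2 : ‖a‖ ≤ ‖w - a‖ + ‖w‖ := by
      have := norm_add_le (a - w) w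
      rw [norm_sub_rev a w] at this
      simpa using this
    exact ⟨by linarith [ha'.1, ha'.2], by linarith [ha'.1, ha'.2]⟩
  have hsum := WSol.sum Fs (fun a z => f z * (((η a z : ℝ) : ℂ) * (((ξ z : ℝ) : ℂ) * q z)))
    (fun a ha => hf.mul (hψd a ha).continuous) hsol
  have e : (fun z => ∑ a ∈ Fs, f z * (((η a z : ℝ) : ℂ) * (((ξ z : ℝ) : ℂ) * q z))) =
      fun z => ((ξ z : ℝ) : ℂ) * (f z * q z) := by
    ext z
    by_cases hz : z ∈ K
    · have h1 : (∑ a ∈ Fs, ((η a z : ℝ) : ℂ)) = 1 := by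
        have := hη1 z hz
        exact_mod_cast congrArg (fun x : ℝ => (x : ℂ)) this
      calc ∑ a ∈ Fs, f z * (((η a z : ℝ) : ℂ) * (((ξ z : ℝ) : ℂ) * q z))
          = (∑ a ∈ Fs, ((η a z : ℝ) : ℂ)) * (f z * (((ξ z : ℝ) : ℂ) * q z)) := by
            rw [Finset.sum_mul]
            refine Finset.sum_congr rfl fun a _ => ?_
            ring
        _ = _ := by rw [h1]; ring
    · have h0 : ((ξ z : ℝ) : ℂ) * q z = 0 := by
        by_cases h1 : z ∈ tsupport ξ
        · have : z ∉ tsupport q := fun h2 => hz ⟨h1, h2⟩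
          rw [image_eq_zero_of_notMem_tsupport this, mul_zero]
        · rw [image_eq_zero_of_notMem_tsupport h1]; simp
      have h2 : ((ξ z : ℝ) : ℂ) * (f z * q z) = 0 := by
        linear_combination f z * h0
      rw [h2]
      refine Finset.sum_eq_zero fun a _ => ?_
      rw [h0]; ring
  rw [e] at hsum
  exact hsum

/-- from the weak solution to the holomorphic piece -/
theorem piece {S S' F : Set ℂ} (hS : IsClosed S) (hS' : IsClosed S')
    {f g : ℂ → ℂ} (hf : Continuous f) (hg : Continuous g)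
    (hd : ∀ z ∉ S, HasDerivAt f (g z) z) {θ : ℂ → ℂ} (hθ : ContDiff ℝ 2 θ)
    (hθ0 : ∀ z ∈ S, z ∉ S' → θ =ᶠ[𝓝 z] fun _ => 0) (hF : F ⊆ S') {u v : ℂ → ℂ}
    (hw : WSol F (fun z => f z * dbar θ z) u v) :
    ∀ z ∉ S', HasDerivAt (fun z => θ z * f z - u z) (θ z * g z + dz θ z * f z - v z) z := by
  have reg : ∀ P : ℂ → ℂ, ContDiff ℝ 2 P → tsupport P ⊆ S'ᶜ →
      ContDiff ℝ 2 (fun z => (θ z * f z) * P z) ∧
      (∀ z, dbar (fun z => (θ z * f z) * P z) z = (θ z * f z) * dbar P z + (f z * dbar θ z) * P z) ∧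
      ∀ z, dz (fun z => (θ z * f z) * P z) z =
        (θ z * f z) * dz P z + (θ z * g z + dz θ z * f z) * P z := by
    intro P hP hPs
    have tri : ∀ z, z ∉ tsupport P ∨ (θ =ᶠ[𝓝 z] fun _ => 0) ∨ z ∉ S := by
      intro z
      by_cases h1 : z ∈ tsupport P
      · by_cases h2 : z ∈ S
        · exact Or.inr (Or.inl (hθ0 z h2 (hPs h1)))
        · exact Or.inr (Or.inr h2)
      · exact Or.inl h1
    refine ⟨?_, ?_, ?_⟩
    · rw [contDiff_iff_contDiffAt]
      intro z
      rcases tri z with h | h | h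
      · have : (fun z => (θ z * f z) * P z) =ᶠ[𝓝 z] fun _ => 0 := by
          filter_upwards [ev0 h] with w hw
          rw [hw, mul_zero]
        exact contDiffAt_const.congr_of_eventuallyEq this
      · have : (fun z => (θ z * f z) * P z) =ᶠ[𝓝 z] fun _ => 0 := by
          filter_upwards [h] with w hw
          rw [hw, zero_mul, zero_mul]
        exact contDiffAt_const.congr_of_eventuallyEq this
      · exact (hθ.contDiffAt.mul (cda_f hS hd h)).mul hP.contDiffAt
    · intro z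
      rcases tri z with h | h | h
      · have : (fun z => (θ z * f z) * P z) =ᶠ[𝓝 z] fun _ => 0 := by
          filter_upwards [ev0 h] with w hw
          rw [hw, mul_zero]
        rw [dbar_congr this, dbar_zero_off h, (ev0 h).self_of_nhds]
        simp [dbar]
      · have : (fun z => (θ z * f z) * P z) =ᶠ[𝓝 z] fun _ => 0 := by
          filter_upwards [h] with w hw
          rw [hw, zero_mul, zero_mul]
        rw [dbar_congr this, dbar_congr h, h.self_of_nhds]
        simp [dbar]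
      · have hfd : DifferentiableAt ℝ f z := (cda_f hS hd h).differentiableAt (by norm_num)
        have hm : DifferentiableAt ℝ (fun z => θ z * f z) z := (dfa hθ z).mul hfd
        rw [dbar_mul hm (dfa hP z), dbar_mul (dfa hθ z) hfd, dbar_of_hasDerivAt (hd z h)]
        ring
    · intro z
      rcases tri z with h | h | h
      · have : (fun z => (θ z * f z) * P z) =ᶠ[𝓝 z] fun _ => 0 := by
          filter_upwards [ev0 h] with w hw
          rw [hw, mul_zero]
        rw [dz_congr this, dz_zero_off h, (ev0 h).self_of_nhds]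
        simp [dz]
      · have : (fun z => (θ z * f z) * P z) =ᶠ[𝓝 z] fun _ => 0 := by
          filter_upwards [h] with w hw
          rw [hw, zero_mul, zero_mul]
        rw [dz_congr this, dz_congr h, h.self_of_nhds]
        simp [dz]
      · have hfd : DifferentiableAt ℝ f z := (cda_f hS hd h).differentiableAt (by norm_num)
        have hm : DifferentiableAt ℝ (fun z => θ z * f z) z := (dfa hθ z).mul hfd
        rw [dz_mul hm (dfa hP z), dz_mul (dfa hθ z) hfd, dz_of_hasDerivAt (hd z h)]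
  have one : ∀ h : ℂ → ℂ, ContDiff ℝ 2 h → HasCompactSupport h →
      (∫ z, dbar h z = 0) ∧ ∫ z, dz h z = 0 := by
    intro h hh hc
    have := J11.entire_test (fun _ => 1) (fun _ => 0) (fun z => hasDerivAt_const z 1)
      continuous_const h hh hc
    simpa using this
  have cθ := dbar_continuous (cd1 hθ)
  have cθ' := dz_continuous (cd1 hθ)
  refine J8.main (fun z => θ z * f z - u z) (fun z => θ z * g z + dz θ z * f z - v z) S'ᶜ
    hS'.isOpen_compl ((hθ.continuous.mul hf).sub hw.1)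
    (((hθ.continuous.mul hg).add (cθ'.mul hf)).sub hw.2.1) ?_ ?_
  · intro P hP hPc hPs
    obtain ⟨r1, r2, _⟩ := reg P hP hPs
    obtain ⟨o1, _⟩ := one _ r1 hPc.mul_left
    have w1 := (hw.2.2 P hP hPc (disjoint_compl_left.mono hPs hF)).1
    have cP := dbar_continuous (cd1 hP)
    have i1 : Integrable fun z => (θ z * f z) * dbar P z :=
      int_test (hθ.continuous.mul hf) cP (dbar_hcs hPc)
    have i2 : Integrable fun z => (f z * dbar θ z) * P z :=
      int_test (hf.mul cθ) hP.continuous hPc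
    have i3 : Integrable fun z => u z * dbar P z := int_test hw.1 cP (dbar_hcs hPc)
    have e1 : ∫ z, dbar (fun z => (θ z * f z) * P z) z =
        (∫ z, (θ z * f z) * dbar P z) + ∫ z, (f z * dbar θ z) * P z := by
      rw [← integral_add i1 i2]; congr 1; ext z; exact r2 z
    have e2 : ∫ z, (θ z * f z - u z) * dbar P z =
        (∫ z, (θ z * f z) * dbar P z) - ∫ z, u z * dbar P z := by
      rw [← integral_sub i1 i3]; congr 1; ext z; ring
    rw [e2, w1]
    rw [o1] at e1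
    linear_combination -e1
  · intro P hP hPc hPs
    obtain ⟨r1, _, r2⟩ := reg P hP hPs
    obtain ⟨_, o1⟩ := one _ r1 hPc.mul_left
    have w1 := (hw.2.2 P hP hPc (disjoint_compl_left.mono hPs hF)).2
    have cP := dz_continuous (cd1 hP)
    have i1 : Integrable fun z => (θ z * f z) * dz P z :=
      int_test (hθ.continuous.mul hf) cP (dz_hcs hPc)
    have i2 : Integrable fun z => (θ z * g z + dz θ z * f z) * P z :=
      int_test ((hθ.continuous.mul hg).add (cθ'.mul hf)) hP.continuous hPc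
    have i3 : Integrable fun z => u z * dz P z := int_test hw.1 cP (dz_hcs hPc)
    have i4 : Integrable fun z => v z * P z := int_test hw.2.1 hP.continuous hPc
    have e1 : ∫ z, dz (fun z => (θ z * f z) * P z) z =
        (∫ z, (θ z * f z) * dz P z) + ∫ z, (θ z * g z + dz θ z * f z) * P z := by
      rw [← integral_add i1 i2]; congr 1; ext z; exact r2 z
    have e2 : ∫ z, (θ z * f z - u z) * dz P z =
        (∫ z, (θ z * f z) * dz P z) - ∫ z, u z * dz P z := by
      rw [← integral_sub i1 i3]; congr 1; ext z; ring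
    have e3 : ∫ z, (θ z * g z + dz θ z * f z - v z) * P z =
        (∫ z, (θ z * g z + dz θ z * f z) * P z) - ∫ z, v z * P z := by
      rw [← integral_sub i2 i4]; congr 1; ext z; ring
    rw [e2, w1, e3]
    rw [o1] at e1
    linear_combination -e1

end Pool.Agent.Split938
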