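import Pool.Agent.Split938.Defs

set_option autoImplicit false
open MeasureTheory Metric Set Filter Topology

namespace Pool.Agent.Split938.J0

/-- auxiliary kernel `w̄/(|w|²+δ²)` -/
noncomputable def ak (δ : ℝ) (w : ℂ) : ℂ := (starRingEnd ℂ) w / ((‖w‖ ^ 2 + δ ^ 2 : ℝ) : ℂ)

theorem ck_eq (δ : ℝ) (w : ℂ) : ck δ w = (Real.pi : ℂ)⁻¹ * ak δ w := rfl

theorem bk_eq (δ : ℝ) (w : ℂ) : bk δ w = -((Real.pi : ℂ)⁻¹ * (ak δ w) ^ 2) := by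
  unfold bk ak
  rw [div_pow]
  push_cast
  rfl

theorem D_pos {δ : ℝ} (hδ : 0 < δ) (w : ℂ) : 0 < ‖w‖ ^ 2 + δ ^ 2 := by positivity

theorem norm_ak {δ : ℝ} (hδ : 0 < δ) (w : ℂ) : ‖ak δ w‖ = ‖w‖ / (‖w‖ ^ 2 + δ ^ 2) := by
  unfold ak
  rw [norm_div, Complex.norm_real, Real.norm_eq_abs, abs_of_pos (D_pos hδ w)]
  congr 1
  exact RCLike.norm_conj w

theorem norm_pi_inv : ‖((Real.pi : ℂ)⁻¹)‖ ≤ 1 := by
  rw [norm_inv, Complex.norm_real, Real.norm_eq_abs, abs_of_pos Real.pi_pos]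
  exact inv_le_one_of_one_le₀ (by linarith [Real.pi_gt_three])

theorem pi_inv_le : Real.pi⁻¹ ≤ 1 := inv_le_one_of_one_le₀ (by linarith [Real.pi_gt_three])

theorem norm_ck_le {δ : ℝ} (w : ℂ) : ‖ck δ w‖ ≤ ‖ak δ w‖ := by
  rw [ck_eq, norm_mul]
  calc _ ≤ 1 * ‖ak δ w‖ := mul_le_mul_of_nonneg_right norm_pi_inv (norm_nonneg _)
    _ = _ := one_mul _

theorem norm_bk_le {δ : ℝ} (w : ℂ) : ‖bk δ w‖ ≤ ‖ak δ w‖ ^ 2 := by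
  rw [bk_eq, norm_neg, norm_mul, norm_pow]
  calc _ ≤ 1 * ‖ak δ w‖ ^ 2 := mul_le_mul_of_nonneg_right norm_pi_inv (by positivity)
    _ = _ := one_mul _

theorem ak_le {δ : ℝ} (hδ : 0 < δ) (w : ℂ) : ‖ak δ w‖ ≤ 1 / δ := by
  rw [norm_ak hδ, div_le_div_iff₀ (D_pos hδ w) hδ]
  nlinarith [sq_nonneg (‖w‖ - δ), norm_nonneg w]

theorem ak_le' {δ : ℝ} (hδ : 0 < δ) (w : ℂ) : ‖ak δ w‖ ≤ ‖w‖⁻¹ := by
  rcases eq_or_ne w 0 with rfl | hw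
  · simp [ak]
  · have h : 0 < ‖w‖ := norm_pos_iff.mpr hw
    rw [norm_ak hδ, ← one_div, div_le_div_iff₀ (D_pos hδ w) h]
    nlinarith [sq_nonneg δ]

theorem ak_diff {δ : ℝ} (hδ : 0 < δ) (w w' : ℂ) (hw : w ≠ 0) (h : ‖w - w'‖ ≤ ‖w‖ / 2) :
    ‖ak δ w - ak δ w'‖ ≤ 4 * ‖w - w'‖ / ‖w‖ ^ 2 := by
  have hp : 0 < ‖w‖ := norm_pos_iff.mpr hw
  have h1 : ‖w‖ ≤ ‖w'‖ + ‖w - w'‖ := by
    have := norm_add_le w' (w - w')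
    rwa [add_sub_cancel] at this
  have hq : ‖w‖ / 2 ≤ ‖w'‖ := by linarith
  have hq0 : 0 < ‖w'‖ := by linarith
  have h2 : |‖w‖ - ‖w'‖| ≤ ‖w - w'‖ := abs_norm_sub_norm_le w w'
  have e : ak δ w - ak δ w' = ((starRingEnd ℂ) (w - w')) / ((‖w‖ ^ 2 + δ ^ 2 : ℝ) : ℂ) +
      (starRingEnd ℂ) w' * ((‖w'‖ ^ 2 - ‖w‖ ^ 2 : ℝ) : ℂ) /
        (((‖w‖ ^ 2 + δ ^ 2 : ℝ) : ℂ) * ((‖w'‖ ^ 2 + δ ^ 2 : ℝ) : ℂ)) := by
    have d1 : ((‖w‖ ^ 2 + δ ^ 2 : ℝ) : ℂ) ≠ 0 := by exact_mod_cast (D_pos hδ w).ne'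
    have d2 : ((‖w'‖ ^ 2 + δ ^ 2 : ℝ) : ℂ) ≠ 0 := by exact_mod_cast (D_pos hδ w').ne'
    have d3 : ((‖w'‖ ^ 2 - ‖w‖ ^ 2 : ℝ) : ℂ) = ((‖w'‖ ^ 2 + δ ^ 2 : ℝ) : ℂ) - ((‖w‖ ^ 2 + δ ^ 2 : ℝ) : ℂ) := by
      push_cast; ring
    unfold ak
    rw [d3, map_sub]
    field_simp
    ring
  rw [e]
  refine (norm_add_le _ _).trans ?_
  have n1 : ‖((starRingEnd ℂ) (w - w')) / ((‖w‖ ^ 2 + δ ^ 2 : ℝ) : ℂ)‖ ≤ ‖w - w'‖ / ‖w‖ ^ 2 := by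
    rw [norm_div, Complex.norm_real, Real.norm_eq_abs, abs_of_pos (D_pos hδ w), RCLike.norm_conj]
    apply div_le_div_of_nonneg_left (norm_nonneg _) (by positivity)
    nlinarith [sq_nonneg δ]
  have n2 : ‖(starRingEnd ℂ) w' * ((‖w'‖ ^ 2 - ‖w‖ ^ 2 : ℝ) : ℂ) /
        (((‖w‖ ^ 2 + δ ^ 2 : ℝ) : ℂ) * ((‖w'‖ ^ 2 + δ ^ 2 : ℝ) : ℂ))‖ ≤
        3 * ‖w - w'‖ / ‖w‖ ^ 2 := by
    rw [norm_div, norm_mul, norm_mul, Complex.norm_real, Complex.norm_real, Complex.norm_real,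
      Real.norm_eq_abs, Real.norm_eq_abs, Real.norm_eq_abs, abs_of_pos (D_pos hδ w),
      abs_of_pos (D_pos hδ w'), RCLike.norm_conj]
    have a1 : |‖w'‖ ^ 2 - ‖w‖ ^ 2| ≤ ‖w - w'‖ * (‖w‖ + ‖w'‖) := by
      have : ‖w'‖ ^ 2 - ‖w‖ ^ 2 = -((‖w‖ - ‖w'‖) * (‖w‖ + ‖w'‖)) := by ring
      rw [this, abs_neg, abs_mul, abs_of_pos (by positivity : 0 < ‖w‖ + ‖w'‖)]
      exact mul_le_mul_of_nonneg_right h2 (by positivity)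
    have a2 : ‖w'‖ * |‖w'‖ ^ 2 - ‖w‖ ^ 2| ≤ ‖w'‖ * (‖w - w'‖ * (3 * ‖w'‖)) := by
      apply mul_le_mul_of_nonneg_left _ hq0.le
      refine a1.trans (mul_le_mul_of_nonneg_left (by linarith) (norm_nonneg _))
    rw [div_le_div_iff₀ (mul_pos (D_pos hδ w) (D_pos hδ w')) (by positivity)]
    calc ‖w'‖ * |‖w'‖ ^ 2 - ‖w‖ ^ 2| * ‖w‖ ^ 2 ≤ ‖w'‖ * (‖w - w'‖ * (3 * ‖w'‖)) * ‖w‖ ^ 2 :=
          mul_le_mul_of_nonneg_right a2 (by positivity)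
      _ = 3 * ‖w - w'‖ * (‖w‖ ^ 2 * ‖w'‖ ^ 2) := by ring
      _ ≤ 3 * ‖w - w'‖ * ((‖w‖ ^ 2 + δ ^ 2) * (‖w'‖ ^ 2 + δ ^ 2)) := by
          apply mul_le_mul_of_nonneg_left _ (by positivity)
          apply mul_le_mul _ _ (by positivity) (by positivity)
          · nlinarith [sq_nonneg δ]
          · nlinarith [sq_nonneg δ]
  calc _ ≤ ‖w - w'‖ / ‖w‖ ^ 2 + 3 * ‖w - w'‖ / ‖w‖ ^ 2 := add_le_add n1 n2
    _ = _ := by ring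

theorem ak_neg (δ : ℝ) (w : ℂ) : ak δ (-w) = -ak δ w := by
  unfold ak
  rw [norm_neg, map_neg, neg_div]

theorem ak_cont {δ : ℝ} (hδ : 0 < δ) : Continuous (ak δ) := by
  unfold ak
  apply Continuous.div
  · exact Complex.continuous_conj
  · fun_prop
  · intro w
    exact_mod_cast (D_pos hδ w).ne'

/-- elementary estimates for the two kernels -/
theorem main : ∃ C : ℝ, 0 < C ∧ ∀ δ : ℝ, 0 < δ →
    (Continuous (ck δ) ∧ Continuous (bk δ) ∧ Continuous (pk δ)) ∧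
    (∀ w, ‖ck δ w‖ ≤ 1 / δ) ∧ (∀ w, ‖bk δ w‖ ≤ 1 / δ ^ 2) ∧ (∀ w, ‖pk δ w‖ ≤ 1 / δ ^ 2) ∧
    (∀ w, ‖ck δ w‖ ≤ ‖w‖⁻¹) ∧ (∀ w, ‖bk δ w‖ ≤ (‖w‖ ^ 2)⁻¹) ∧
    (∀ w w' : ℂ, w ≠ 0 → ‖w - w'‖ ≤ ‖w‖ / 2 → ‖ck δ w - ck δ w'‖ ≤ C * ‖w - w'‖ / ‖w‖ ^ 2) ∧
    (∀ w w' : ℂ, w ≠ 0 → ‖w - w'‖ ≤ ‖w‖ / 2 → ‖bk δ w - bk δ w'‖ ≤ C * ‖w - w'‖ / ‖w‖ ^ 3) ∧
    (∀ w, ck δ (-w) = - ck δ w) ∧ (∀ w, bk δ (-w) = bk δ w) ∧ (∀ w, pk δ (-w) = pk δ w) := by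
  refine ⟨12, by norm_num, fun δ hδ => ⟨⟨?_, ?_, ?_⟩, ?_, ?_, ?_, ?_, ?_, ?_, ?_, ?_, ?_, ?_⟩⟩
  · exact continuous_const.mul (ak_cont hδ)
  · have : bk δ = fun w => -((Real.pi : ℂ)⁻¹ * (ak δ w) ^ 2) := funext (bk_eq δ)
    rw [this]
    exact (continuous_const.mul ((ak_cont hδ).pow 2)).neg
  · unfold pk
    apply Complex.continuous_ofReal.comp
    apply continuous_const.mul
    apply Continuous.div continuous_const (by fun_prop)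
    intro w
    have := D_pos hδ w
    positivity
  · intro w
    exact (norm_ck_le w).trans (ak_le hδ w)
  · intro w
    refine (norm_bk_le w).trans ?_
    have := ak_le hδ w
    calc ‖ak δ w‖ ^ 2 ≤ (1 / δ) ^ 2 := pow_le_pow_left₀ (norm_nonneg _) this 2
      _ = 1 / δ ^ 2 := by rw [div_pow, one_pow]
  · intro w
    unfold pk
    rw [Complex.norm_real, Real.norm_eq_abs, abs_of_nonneg (by positivity)]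
    have hD := D_pos hδ w
    calc Real.pi⁻¹ * (δ ^ 2 / (‖w‖ ^ 2 + δ ^ 2) ^ 2) ≤ 1 * (δ ^ 2 / (‖w‖ ^ 2 + δ ^ 2) ^ 2) :=
          mul_le_mul_of_nonneg_right pi_inv_le (by positivity)
      _ ≤ 1 / δ ^ 2 := by
          rw [one_mul, div_le_div_iff₀ (by positivity) (by positivity)]
          nlinarith [sq_nonneg ‖w‖, sq_nonneg δ, mul_nonneg (sq_nonneg ‖w‖) (sq_nonneg δ),
            sq_nonneg (‖w‖ ^ 2)]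
  · intro w
    exact (norm_ck_le w).trans (ak_le' hδ w)
  · intro w
    refine (norm_bk_le w).trans ?_
    calc ‖ak δ w‖ ^ 2 ≤ (‖w‖⁻¹) ^ 2 := pow_le_pow_left₀ (norm_nonneg _) (ak_le' hδ w) 2
      _ = (‖w‖ ^ 2)⁻¹ := by rw [inv_pow]
  · intro w w' hw h
    have hp : 0 < ‖w‖ := norm_pos_iff.mpr hw
    rw [ck_eq, ck_eq, ← mul_sub, norm_mul]
    calc _ ≤ 1 * ‖ak δ w - ak δ w'‖ := mul_le_mul_of_nonneg_right norm_pi_inv (norm_nonneg _)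
      _ = ‖ak δ w - ak δ w'‖ := one_mul _
      _ ≤ 4 * ‖w - w'‖ / ‖w‖ ^ 2 := ak_diff hδ w w' hw h
      _ ≤ 12 * ‖w - w'‖ / ‖w‖ ^ 2 := by
          apply div_le_div_of_nonneg_right _ (by positivity)
          nlinarith [norm_nonneg (w - w')]
  · intro w w' hw h
    have hp : 0 < ‖w‖ := norm_pos_iff.mpr hw
    have h1 : ‖w‖ ≤ ‖w'‖ + ‖w - w'‖ := by
      have := norm_add_le w' (w - w')
      rwa [add_sub_cancel] at this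
    have hq : ‖w‖ / 2 ≤ ‖w'‖ := by linarith
    have hq0 : 0 < ‖w'‖ := by linarith
    have e : bk δ w - bk δ w' = -((Real.pi : ℂ)⁻¹ * ((ak δ w - ak δ w') * (ak δ w + ak δ w'))) := by
      rw [bk_eq, bk_eq]; ring
    rw [e, norm_neg, norm_mul, norm_mul]
    have h3 : ‖ak δ w + ak δ w'‖ ≤ 3 / ‖w‖ := by
      refine (norm_add_le _ _).trans ?_
      have a1 := ak_le' hδ w
      have a2 := ak_le' hδ w'
      have a3 : ‖w'‖⁻¹ ≤ (‖w‖ / 2)⁻¹ := inv_anti₀ (by positivity) hq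
      calc _ ≤ ‖w‖⁻¹ + (‖w‖ / 2)⁻¹ := add_le_add a1 (a2.trans a3)
        _ = 3 / ‖w‖ := by field_simp; norm_num
    calc _ ≤ 1 * (‖ak δ w - ak δ w'‖ * ‖ak δ w + ak δ w'‖) :=
          mul_le_mul_of_nonneg_right norm_pi_inv (by positivity)
      _ = ‖ak δ w - ak δ w'‖ * ‖ak δ w + ak δ w'‖ := one_mul _
      _ ≤ (4 * ‖w - w'‖ / ‖w‖ ^ 2) * (3 / ‖w‖) :=
          mul_le_mul (ak_diff hδ w w' hw h) h3 (norm_nonneg _) (by positivity)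
      _ = 12 * ‖w - w'‖ / ‖w‖ ^ 3 := by field_simp; ring
  · intro w
    rw [ck_eq, ck_eq, ak_neg, mul_neg]
  · intro w
    rw [bk_eq, bk_eq, ak_neg, neg_sq]
  · intro w
    unfold pk
    rw [norm_neg]

end Pool.Agent.Split938.J0
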