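import Pool.Agent.Split938.Defs

set_option autoImplicit false
open MeasureTheory Metric Set Filter Topology

namespace Pool.Agent.Split938.J4

theorem mean_disc (F : ℂ → ℂ) (r : ℝ) (hr : 0 < r) (hF : DifferentiableOn ℂ F (ball 0 r)) :
    ENNReal.ofReal (Real.pi * r ^ 2 * ‖F 0‖) ≤ ∫⁻ w in ball 0 r, ENNReal.ofReal ‖F w‖ := by
  rw [← lintegral_indicator measurableSet_ball, ← Complex.lintegral_comp_polarCoord_symm]
  have hsub : Ioo (0:ℝ) r ×ˢ Ioo (-Real.pi) Real.pi ⊆ polarCoord.target := by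
    rintro ⟨a, b⟩ ⟨ha, hb⟩
    exact ⟨ha.1, hb⟩
  refine le_trans ?_ (lintegral_mono_set hsub)
  have h1 : ∫⁻ p in Ioo (0:ℝ) r ×ˢ Ioo (-Real.pi) Real.pi, ENNReal.ofReal p.1 •
      (ball (0:ℂ) r).indicator (fun w => ENNReal.ofReal ‖F w‖) (Complex.polarCoord.symm p) =
      ∫⁻ p in Ioo (0:ℝ) r ×ˢ Ioo (-Real.pi) Real.pi,
        ENNReal.ofReal p.1 * ENNReal.ofReal ‖F (circleMap 0 p.1 p.2)‖ := by
    apply setLIntegral_congr_fun (measurableSet_Ioo.prod measurableSet_Ioo)
    rintro ⟨ρ, θ⟩ ⟨hρ, -⟩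
    simp only [mem_Ioo] at hρ
    simp only [smul_eq_mul]
    have hn : ‖Complex.polarCoord.symm (ρ, θ)‖ = ρ := by
      rw [Complex.norm_polarCoord_symm]; exact abs_of_pos hρ.1
    rw [indicator_of_mem (by rw [mem_ball, dist_zero_right, hn]; exact hρ.2)]
    congr 4
    rw [Complex.polarCoord_symm_apply, circleMap, zero_add, Complex.exp_mul_I]
    simp
  rw [h1, Measure.volume_eq_prod]
  have hmaps : ∀ p ∈ Ioo (0:ℝ) r ×ˢ Ioo (-Real.pi) Real.pi, circleMap 0 p.1 p.2 ∈ ball (0:ℂ) r := by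
    rintro ⟨ρ, θ⟩ ⟨hρ, -⟩
    simp only [mem_Ioo] at hρ
    rw [mem_ball, dist_zero_right, norm_circleMap_zero]
    rw [abs_of_pos hρ.1]; exact hρ.2
  have hcm : Continuous (fun p : ℝ × ℝ => circleMap 0 p.1 p.2) := by
    unfold circleMap; fun_prop
  have hcont : ContinuousOn (fun p : ℝ × ℝ => ‖F (circleMap 0 p.1 p.2)‖)
      (Ioo (0:ℝ) r ×ˢ Ioo (-Real.pi) Real.pi) :=
    (hF.continuousOn.comp hcm.continuousOn hmaps).norm
  rw [setLIntegral_prod]
  swap
  · have h2 : AEMeasurable (fun p : ℝ × ℝ => ‖F (circleMap 0 p.1 p.2)‖)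
        ((volume : Measure (ℝ × ℝ)).restrict (Ioo (0:ℝ) r ×ˢ Ioo (-Real.pi) Real.pi)) :=
      hcont.aemeasurable (measurableSet_Ioo.prod measurableSet_Ioo)
    exact (measurable_fst.ennreal_ofReal.aemeasurable).mul h2.ennreal_ofReal
  have hinner : ∀ ρ ∈ Ioo (0:ℝ) r, ENNReal.ofReal ρ * ENNReal.ofReal (2 * Real.pi * ‖F 0‖) ≤
      ∫⁻ θ in Ioo (-Real.pi) Real.pi, ENNReal.ofReal ρ * ENNReal.ofReal ‖F (circleMap 0 ρ θ)‖ := by
    intro ρ hρ
    rw [lintegral_const_mul' _ _ ENNReal.ofReal_ne_top]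
    gcongr
    have hd : DiffContOnCl ℂ F (ball 0 |ρ|) := by
      rw [abs_of_pos hρ.1]
      apply DifferentiableOn.diffContOnCl
      rw [closure_ball _ hρ.1.ne']
      exact hF.mono (closedBall_subset_ball hρ.2)
    have hav := hd.circleAverage
    rw [Real.circleAverage_eq_integral_add (-Real.pi)] at hav
    rw [intervalIntegral.integral_comp_add_right (fun θ => F (circleMap 0 ρ θ))] at hav
    have hpi := Real.pi_pos
    have e1 : (0:ℝ) + -Real.pi = -Real.pi := by ring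
    have e2 : 2 * Real.pi + -Real.pi = Real.pi := by ring
    rw [e1, e2, intervalIntegral.integral_of_le (by linarith),
      integral_Ioc_eq_integral_Ioo] at hav
    have h3 : ((2 * Real.pi : ℝ)) • F 0 = ∫ θ in Ioo (-Real.pi) Real.pi, F (circleMap 0 ρ θ) := by
      rw [← hav, smul_smul, mul_inv_cancel₀ (by positivity), one_smul]
    have h4 := enorm_integral_le_lintegral_enorm
      (μ := volume.restrict (Ioo (-Real.pi) Real.pi)) (fun θ => F (circleMap 0 ρ θ))
    rw [← h3] at h4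
    have h5 : ‖(2 * Real.pi : ℝ) • F 0‖ₑ = ENNReal.ofReal (2 * Real.pi * ‖F 0‖) := by
      rw [← ofReal_norm, norm_smul, Real.norm_eq_abs, abs_of_pos (by positivity)]
    rw [h5] at h4
    refine h4.trans (le_of_eq ?_)
    apply lintegral_congr
    intro θ
    rw [ofReal_norm]
  refine le_trans ?_ (setLIntegral_mono' measurableSet_Ioo hinner)
  rw [lintegral_mul_const _ (by fun_prop)]
  have h6 : ∫⁻ ρ in Ioo (0:ℝ) r, ENNReal.ofReal ρ = ENNReal.ofReal (r ^ 2 / 2) := by
    rw [restrict_Ioo_eq_restrict_Ioc, ← ofReal_integral_eq_lintegral_ofReal]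
    · rw [← intervalIntegral.integral_of_le hr.le, integral_id]
      congr 1; ring
    · exact (continuous_id.integrableOn_Icc.mono_set Ioc_subset_Icc_self)
    · filter_upwards [ae_restrict_mem measurableSet_Ioc] with x hx
      exact hx.1.le
  rw [h6, ← ENNReal.ofReal_mul (by positivity)]
  apply ENNReal.ofReal_le_ofReal
  apply le_of_eq
  ring

theorem mean_disc' (H : ℂ → ℂ) (c : ℂ) (ρ : ℝ) (hρ : 0 < ρ) (hH : DifferentiableOn ℂ H (ball c ρ)) :
    ENNReal.ofReal (Real.pi * ρ ^ 2 * ‖H c‖) ≤ ∫⁻ w in ball c ρ, ENNReal.ofReal ‖H w‖ := by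
  have h1 : DifferentiableOn ℂ (fun w => H (c + w)) (ball 0 ρ) := by
    apply hH.comp
    · fun_prop
    · intro w hw
      simp only [mem_ball, dist_zero_right] at hw
      simpa [mem_ball, dist_eq_norm] using hw
  have h2 := mean_disc (fun w => H (c + w)) ρ hρ h1
  simp only [add_zero] at h2
  refine h2.trans (le_of_eq ?_)
  have hmp : MeasurePreserving (fun z : ℂ => c + z) volume volume :=
    measurePreserving_add_left volume c
  have h := hmp.setLIntegral_comp_preimage_emb (Homeomorph.addLeft c).measurableEmbedding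
    (fun z => ENNReal.ofReal ‖H z‖) (ball c ρ)
  rw [← h]
  congr 2
  ext z
  simp [mem_ball, dist_eq_norm]

/-- local sup bound of a holomorphic function by its `L^{1/2}` quasi-norm -/
theorem main : ∃ C : ℝ, 0 < C ∧ ∀ (a : ℂ) (r : ℝ), 0 < r → ∀ H : ℂ → ℂ,
    DifferentiableOn ℂ H (ball a r) → IntegrableOn (fun z => Real.sqrt ‖H z‖) (ball a r) →
    ∀ z ∈ closedBall a (r / 2),
      ‖H z‖ ≤ C / r ^ 4 * (∫ z in ball a r, Real.sqrt ‖H z‖) ^ 2 := by
  refine ⟨256 * (16 / Real.pi) ^ 2, by positivity, ?_⟩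
  intro a r hr H hH hint z hz
  set N : ℝ := ∫ z in ball a r, Real.sqrt ‖H z‖ with hN
  have hN0 : 0 ≤ N := integral_nonneg fun _ => Real.sqrt_nonneg _
  set r' : ℝ := 3 * r / 4 with hr'
  have hsub : closedBall a r' ⊆ ball a r := closedBall_subset_ball (by rw [hr']; linarith)
  have hcont : ContinuousOn (fun w => (r' - dist w a) ^ 4 * ‖H w‖) (closedBall a r') := by
    apply ContinuousOn.mul
    · fun_prop
    · exact (hH.continuousOn.mono hsub).norm
  obtain ⟨s, hs, hmax⟩ := (isCompact_closedBall a r').exists_isMaxOn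
    ⟨a, mem_closedBall_self (by rw [hr']; linarith)⟩ hcont
  have hzc : z ∈ closedBall a r' := closedBall_subset_closedBall (by rw [hr']; linarith) hz
  have hzd : dist z a ≤ r / 2 := hz
  have hkey : (r' - dist s a) ^ 4 * ‖H s‖ ≤ (16 / Real.pi) ^ 2 * N ^ 2 := by
    rcases (norm_nonneg (H s)).eq_or_lt with h0 | h0
    · rw [← h0, mul_zero]; positivity
    have hds : 0 ≤ r' - dist s a := by
      have : dist s a ≤ r' := hs
      linarith
    rcases hds.eq_or_lt with h1 | h1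
    · rw [← h1]; simp; positivity
    set d : ℝ := r' - dist s a with hd
    have hball : ball s (d / 2) ⊆ closedBall a r' := by
      intro w hw
      have h2 : dist w s < d / 2 := hw
      have h3 := dist_triangle w s a
      show dist w a ≤ r'
      linarith
    have hle : ∀ w ∈ ball s (d / 2), ‖H w‖ ≤ 16 * ‖H s‖ := by
      intro w hw
      have h2 : dist w s < d / 2 := hw
      have h3 := dist_triangle w s a
      have h4 : (r' - dist w a) ^ 4 * ‖H w‖ ≤ d ^ 4 * ‖H s‖ := hmax (hball hw)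
      have h5 : d / 2 ≤ r' - dist w a := by linarith
      have h6 : (d / 2) ^ 4 ≤ (r' - dist w a) ^ 4 := pow_le_pow_left₀ (by linarith) h5 4
      have h7 : (d / 2) ^ 4 * ‖H w‖ ≤ d ^ 4 * ‖H s‖ :=
        (mul_le_mul_of_nonneg_right h6 (norm_nonneg _)).trans h4
      have h8 : (d / 2) ^ 4 * ‖H w‖ = d ^ 4 * (‖H w‖ / 16) := by ring
      rw [h8] at h7
      have h9 := le_of_mul_le_mul_left h7 (by positivity)
      linarith
    have hm := mean_disc' H s (d / 2) (by linarith) (hH.mono (hball.trans hsub))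
    have hb : ∫⁻ w in ball s (d / 2), ENNReal.ofReal ‖H w‖ ≤
        ENNReal.ofReal (4 * Real.sqrt ‖H s‖ * N) := by
      calc ∫⁻ w in ball s (d / 2), ENNReal.ofReal ‖H w‖
          ≤ ∫⁻ w in ball s (d / 2), ENNReal.ofReal (4 * Real.sqrt ‖H s‖) *
              ENNReal.ofReal (Real.sqrt ‖H w‖) := by
            apply setLIntegral_mono' measurableSet_ball
            intro w hw
            rw [← ENNReal.ofReal_mul (by positivity)]
            apply ENNReal.ofReal_le_ofReal
            have e1 : Real.sqrt ‖H w‖ ≤ 4 * Real.sqrt ‖H s‖ := by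
              have e2 : Real.sqrt (16 * ‖H s‖) = 4 * Real.sqrt ‖H s‖ := by
                rw [Real.sqrt_mul (by norm_num)]
                congr 1
                rw [show (16 : ℝ) = 4 ^ 2 by norm_num]
                exact Real.sqrt_sq (by norm_num)
              rw [← e2]
              exact Real.sqrt_le_sqrt (hle w hw)
            calc ‖H w‖ = Real.sqrt ‖H w‖ * Real.sqrt ‖H w‖ :=
                  (Real.mul_self_sqrt (norm_nonneg _)).symm
              _ ≤ 4 * Real.sqrt ‖H s‖ * Real.sqrt ‖H w‖ :=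
                  mul_le_mul_of_nonneg_right e1 (Real.sqrt_nonneg _)
        _ = ENNReal.ofReal (4 * Real.sqrt ‖H s‖) *
              ∫⁻ w in ball s (d / 2), ENNReal.ofReal (Real.sqrt ‖H w‖) := by
            rw [lintegral_const_mul' _ _ ENNReal.ofReal_ne_top]
        _ ≤ ENNReal.ofReal (4 * Real.sqrt ‖H s‖) *
              ∫⁻ w in ball a r, ENNReal.ofReal (Real.sqrt ‖H w‖) := by
            gcongr
            exact hball.trans hsub
        _ = ENNReal.ofReal (4 * Real.sqrt ‖H s‖ * N) := by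
            rw [ENNReal.ofReal_mul (q := N) (show (0:ℝ) ≤ 4 * Real.sqrt ‖H s‖ by positivity), hN,
              ofReal_integral_eq_lintegral_ofReal hint
                (Eventually.of_forall fun _ => Real.sqrt_nonneg _)]
    have hfin : Real.pi * (d / 2) ^ 2 * ‖H s‖ ≤ 4 * Real.sqrt ‖H s‖ * N :=
      (ENNReal.ofReal_le_ofReal_iff (by positivity)).1 (hm.trans hb)
    set q : ℝ := Real.sqrt ‖H s‖ with hq
    have hq0 : 0 < q := Real.sqrt_pos.2 h0
    have hqq : ‖H s‖ = q * q := (Real.mul_self_sqrt (norm_nonneg _)).symm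
    rw [hqq] at hfin ⊢
    have h10 : q * (Real.pi * (d / 2) ^ 2 * q) ≤ q * (4 * N) := by nlinarith [hfin]
    have h11 := le_of_mul_le_mul_left h10 hq0
    have h12 : d ^ 2 * q ≤ (16 / Real.pi) * N := by
      rw [div_mul_eq_mul_div, le_div_iff₀ Real.pi_pos]
      nlinarith [h11]
    have h13 : (d ^ 2 * q) ^ 2 ≤ ((16 / Real.pi) * N) ^ 2 :=
      pow_le_pow_left₀ (by positivity) h12 2
    calc d ^ 4 * (q * q) = (d ^ 2 * q) ^ 2 := by ring
      _ ≤ ((16 / Real.pi) * N) ^ 2 := h13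
      _ = (16 / Real.pi) ^ 2 * N ^ 2 := by ring
  have hz4 : (r' - dist z a) ^ 4 * ‖H z‖ ≤ (16 / Real.pi) ^ 2 * N ^ 2 := (hmax hzc).trans hkey
  have hd4 : (r / 4) ^ 4 ≤ (r' - dist z a) ^ 4 :=
    pow_le_pow_left₀ (by positivity) (by rw [hr']; linarith) 4
  have hz5 : (r / 4) ^ 4 * ‖H z‖ ≤ (16 / Real.pi) ^ 2 * N ^ 2 :=
    (mul_le_mul_of_nonneg_right hd4 (norm_nonneg _)).trans hz4
  have hr4 : 0 < r ^ 4 := by positivity
  have e3 : 256 * (16 / Real.pi) ^ 2 / r ^ 4 * N ^ 2 =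
      (256 * ((16 / Real.pi) ^ 2 * N ^ 2)) / r ^ 4 := by ring
  rw [e3, le_div_iff₀ hr4]
  have e4 : (r / 4) ^ 4 * ‖H z‖ = (‖H z‖ * r ^ 4) / 256 := by ring
  rw [e4] at hz5
  linarith

end Pool.Agent.Split938.J4
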