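import Pool.Agent.Split938.Defs

set_option autoImplicit false
open MeasureTheory Metric Set Filter Topology

namespace Pool.Agent.Split938.J5a

theorem aux_Mr_congr (r : ℝ) {γ γ' : ℂ → ℂ} (h : γ =ᵐ[volume] γ') : Mr r γ = Mr r γ' := by
  funext z
  unfold Mr
  rw [integral_congr_ae (ae_restrict_of_ae h)]

theorem aux_Mr_int (r : ℝ) {γ : ℂ → ℂ} (h : Integrable γ) : Integrable (Mr r γ) := by
  have hg : Integrable ((ball (0:ℂ) r).indicator (fun _ => (1:ℂ))) := by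
    rw [integrable_indicator_iff measurableSet_ball]
    exact integrableOn_const (measure_ball_lt_top.ne)
  have hc := h.integrable_convolution (ContinuousLinearMap.mul ℂ ℂ) hg
  refine (hc.const_mul (((Real.pi * r ^ 2 : ℝ) : ℂ)⁻¹)).congr (ae_of_all _ fun z => ?_)
  unfold Mr
  simp only
  congr 1
  rw [convolution_def, ← integral_indicator measurableSet_ball]
  congr 1
  funext t
  by_cases ht : t ∈ ball z r
  · have ht' : z - t ∈ ball (0:ℂ) r := by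
      rw [mem_ball, dist_zero_right]
      rw [mem_ball, dist_comm, dist_eq_norm] at ht
      exact ht
    rw [Set.indicator_of_mem ht, Set.indicator_of_mem ht']
    simp
  · have ht' : z - t ∉ ball (0:ℂ) r := by
      rw [mem_ball, dist_zero_right]
      rw [mem_ball, dist_comm, dist_eq_norm] at ht
      exact ht
    rw [Set.indicator_of_notMem ht, Set.indicator_of_notMem ht']
    simp

theorem aux_Mr_add (r : ℝ) {f g : ℂ → ℂ} (hf : Integrable f) (hg : Integrable g) (z : ℂ) :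
    Mr r (f + g) z = Mr r f z + Mr r g z := by
  unfold Mr
  rw [← mul_add, ← integral_add hf.integrableOn hg.integrableOn]
  rfl

theorem aux_Mr_smul (r : ℝ) (c : ℂ) (f : ℂ → ℂ) (z : ℂ) :
    Mr r (c • f) z = c * Mr r f z := by
  unfold Mr
  have : ∫ ζ in ball z r, (c • f) ζ = c * ∫ ζ in ball z r, f ζ := by
    rw [← integral_const_mul]
    rfl
  rw [this]
  ring

/-- the averaging operator on `L¹` -/
noncomputable def MM (r : ℝ) :
    (Lp ℂ 1 (volume : Measure ℂ)) →ₗ[ℂ] (Lp ℂ 1 (volume : Measure ℂ)) where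
  toFun f := (aux_Mr_int r (L1.integrable_coeFn f)).toL1 _
  map_add' f g := by
    rw [← Integrable.toL1_add, Integrable.toL1_eq_toL1_iff]
    refine ae_of_all _ (fun z => ?_)
    rw [aux_Mr_congr r (Lp.coeFn_add f g)]
    exact aux_Mr_add r (L1.integrable_coeFn f) (L1.integrable_coeFn g) z
  map_smul' c f := by
    rw [RingHom.id_apply, ← Integrable.toL1_smul, Integrable.toL1_eq_toL1_iff]
    refine ae_of_all _ (fun z => ?_)
    rw [aux_Mr_congr r (Lp.coeFn_smul c f)]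
    exact aux_Mr_smul r c _ z

theorem MM_toL1 (r : ℝ) {γ : ℂ → ℂ} (h : Integrable γ) :
    MM r (h.toL1 γ) = (aux_Mr_int r h).toL1 _ := by
  show (aux_Mr_int r (L1.integrable_coeFn (h.toL1 γ))).toL1 _ = _
  rw [Integrable.toL1_eq_toL1_iff, aux_Mr_congr r h.coeFn_toL1]

theorem MM_coeFn (r : ℝ) (f : Lp ℂ 1 (volume : Measure ℂ)) :
    (MM r f : ℂ → ℂ) =ᵐ[volume] Mr r f :=
  (aux_Mr_int r (L1.integrable_coeFn f)).coeFn_toL1

theorem aux_HB {X E : Type} [AddCommGroup X] [Module ℂ X] [AddCommGroup E] [Module ℂ E]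
    (Φ : X →ₗ[ℂ] E) (lam : X →ₗ[ℂ] ℂ) (p : Seminorm ℂ E) (h : ∀ x, ‖lam x‖ ≤ p (Φ x)) :
    ∃ g : E →ₗ[ℂ] ℂ, (∀ x, g (Φ x) = lam x) ∧ ∀ y, ‖g y‖ ≤ p y := by
  have hker : LinearMap.ker Φ ≤ LinearMap.ker lam := by
    intro x hx
    rw [LinearMap.mem_ker] at hx ⊢
    have := h x
    rw [hx, map_zero] at this
    exact norm_le_zero_iff.1 this
  obtain ⟨f, hf⟩ : ∃ f : (LinearMap.range Φ) →ₗ[ℂ] ℂ, ∀ x, f ⟨Φ x, ⟨x, rfl⟩⟩ = lam x := by
    refine ⟨((LinearMap.ker Φ).liftQ lam hker).comp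
      (Φ.quotKerEquivRange.symm : _ →ₗ[ℂ] _), fun x => ?_⟩
    have h1 : (⟨Φ x, ⟨x, rfl⟩⟩ : LinearMap.range Φ) =
        Φ.quotKerEquivRange (Submodule.Quotient.mk x) := by
      apply Subtype.ext
      rw [LinearMap.quotKerEquivRange_apply_mk]
    rw [h1]
    simp
  obtain ⟨g, hg1, hg2⟩ := Module.Dual.exists_extension_of_le_seminorm (LinearMap.range Φ) f
    (p := p) (by
      rintro ⟨y, x, rfl⟩
      rw [hf]
      exact h x)
  refine ⟨g, fun x => ?_, hg2⟩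
  rw [← hf x]
  exact hg1 ⟨Φ x, ⟨x, rfl⟩⟩

abbrev LL : Type := (Lp ℂ 1 (volume : Measure ℂ)) × (Lp ℂ 1 (volume : Measure ℂ))

theorem aux_N2_add (g h : LL) : ‖(g + h).1‖ + ‖(g + h).2‖ ≤ (‖g.1‖ + ‖g.2‖) + (‖h.1‖ + ‖h.2‖) := by
  have h1 := norm_add_le g.1 h.1
  have h2 := norm_add_le g.2 h.2
  rw [Prod.fst_add, Prod.snd_add]
  linarith

theorem aux_N2_smul (c : ℂ) (g : LL) : ‖(c • g).1‖ + ‖(c • g).2‖ = ‖c‖ * (‖g.1‖ + ‖g.2‖) := by
  rw [Prod.smul_fst, Prod.smul_snd, norm_smul, norm_smul]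
  ring

/-- weighted sum of norms -/
noncomputable def wsum (γ : ℕ →₀ LL) : ℝ :=
  ∑ j ∈ γ.support, (1 / 2 : ℝ) ^ j * (‖(γ j).1‖ + ‖(γ j).2‖)

theorem wsum_eq (γ : ℕ →₀ LL) (s : Finset ℕ) (hs : γ.support ⊆ s) :
    wsum γ = ∑ j ∈ s, (1 / 2 : ℝ) ^ j * (‖(γ j).1‖ + ‖(γ j).2‖) := by
  unfold wsum
  refine Finset.sum_subset hs (fun j _ hj => ?_)
  rw [Finsupp.notMem_support_iff.1 hj]
  simp

theorem wsum_add (γ γ' : ℕ →₀ LL) : wsum (γ + γ') ≤ wsum γ + wsum γ' := by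
  classical
  rw [wsum_eq (γ + γ') (γ.support ∪ γ'.support) Finsupp.support_add,
    wsum_eq γ (γ.support ∪ γ'.support) Finset.subset_union_left,
    wsum_eq γ' (γ.support ∪ γ'.support) Finset.subset_union_right, ← Finset.sum_add_distrib]
  refine Finset.sum_le_sum (fun j _ => ?_)
  rw [← mul_add]
  refine mul_le_mul_of_nonneg_left ?_ (by positivity)
  exact aux_N2_add (γ j) (γ' j)

theorem wsum_smul (c : ℂ) (γ : ℕ →₀ LL) : wsum (c • γ) = ‖c‖ * wsum γ := by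
  rw [wsum_eq (c • γ) γ.support Finsupp.support_smul, wsum, Finset.mul_sum]
  refine Finset.sum_congr rfl (fun j _ => ?_)
  have h : (c • γ) j = c • γ j := rfl
  rw [h, aux_N2_smul]
  ring

/-- the seminorm on the big space -/
noncomputable def bigp (c : ℝ) (hc : 0 ≤ c) : Seminorm ℂ (LL × (ℕ →₀ LL)) :=
  Seminorm.of (fun x : LL × (ℕ →₀ LL) => c * ((‖x.1.1‖ + ‖x.1.2‖) + wsum x.2))
    (fun x y : LL × (ℕ →₀ LL) => by
      show c * ((‖(x + y).1.1‖ + ‖(x + y).1.2‖) + wsum (x + y).2) ≤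
        c * ((‖x.1.1‖ + ‖x.1.2‖) + wsum x.2) + c * ((‖y.1.1‖ + ‖y.1.2‖) + wsum y.2)
      rw [← mul_add]
      refine mul_le_mul_of_nonneg_left ?_ hc
      have h1 : ‖(x + y).1.1‖ + ‖(x + y).1.2‖ ≤ (‖x.1.1‖ + ‖x.1.2‖) + (‖y.1.1‖ + ‖y.1.2‖) :=
        aux_N2_add x.1 y.1
      have h2 : wsum (x + y).2 ≤ wsum x.2 + wsum y.2 := wsum_add x.2 y.2
      linarith)
    (fun (a : ℂ) (x : LL × (ℕ →₀ LL)) => by
      show c * ((‖(a • x).1.1‖ + ‖(a • x).1.2‖) + wsum (a • x).2) =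
        ‖a‖ * (c * ((‖x.1.1‖ + ‖x.1.2‖) + wsum x.2))
      have h1 : ‖(a • x).1.1‖ + ‖(a • x).1.2‖ = ‖a‖ * (‖x.1.1‖ + ‖x.1.2‖) := aux_N2_smul a x.1
      have h2 : wsum (a • x).2 = ‖a‖ * wsum x.2 := wsum_smul a x.2
      rw [h1, h2]
      ring)

/-- Hahn-Banach step -/
theorem main {V : Type} [AddCommGroup V] [Module ℂ V] (e₀ e₁ : V →ₗ[ℂ] (ℂ → ℂ))
    (Λ : V →ₗ[ℂ] ℂ) (hi₀ : ∀ v, Integrable (e₀ v)) (hi₁ : ∀ v, Integrable (e₁ v))
    (r : ℕ → ℝ) (hr : ∀ j, 0 < r j) (C : ℝ)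
    (hyp : ∀ v, ∀ J : ℕ, ∀ A₀ A₁ : ℂ → ℂ, ∀ γ₀ γ₁ : ℕ → ℂ → ℂ, Integrable A₀ → Integrable A₁ →
      (∀ j, Integrable (γ₀ j)) → (∀ j, Integrable (γ₁ j)) →
      (e₀ v =ᵐ[volume] fun z => A₀ z + ∑ j ∈ Finset.range J, (γ₀ j z - Mr (r j) (γ₀ j) z)) →
      (e₁ v =ᵐ[volume] fun z => A₁ z + ∑ j ∈ Finset.range J, (γ₁ j z - Mr (r j) (γ₁ j) z)) →
      ‖Λ v‖ ≤ C * ((∫ z, ‖A₀ z‖) + (∫ z, ‖A₁ z‖) +
        ∑ j ∈ Finset.range J, (1 / 2 : ℝ) ^ j * ((∫ z, ‖γ₀ j z‖) + ∫ z, ‖γ₁ j z‖))) :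
    ∃ ℓ₀ ℓ₁ : (Lp ℂ 1 (volume : Measure ℂ)) →L[ℂ] ℂ,
      (∀ v, Λ v = ℓ₀ ((hi₀ v).toL1 (e₀ v)) + ℓ₁ ((hi₁ v).toL1 (e₁ v))) ∧
      ∃ K : ℝ, ∀ j, ∀ γ : ℂ → ℂ, Integrable γ →
        ∀ hM : Integrable (fun z => γ z - Mr (r j) γ z),
        ‖ℓ₀ (hM.toL1 _)‖ ≤ K * (1 / 2 : ℝ) ^ j * ∫ z, ‖γ z‖ ∧
        ‖ℓ₁ (hM.toL1 _)‖ ≤ K * (1 / 2 : ℝ) ^ j * ∫ z, ‖γ z‖ := by
  classical
  -- the linear map `v ↦ (e₀ v, e₁ v)` into `L¹ × L¹`
  obtain ⟨ev, hev⟩ : ∃ ev : V →ₗ[ℂ] LL, ∀ v, ev v = ((hi₀ v).toL1 (e₀ v), (hi₁ v).toL1 (e₁ v)) := by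
    refine ⟨{ toFun := fun v => ((hi₀ v).toL1 (e₀ v), (hi₁ v).toL1 (e₁ v)),
              map_add' := fun v w => ?_, map_smul' := fun c v => ?_ }, fun v => rfl⟩
    · apply Prod.ext
      · rw [Prod.fst_add, ← Integrable.toL1_add, Integrable.toL1_eq_toL1_iff, map_add]
      · rw [Prod.snd_add, ← Integrable.toL1_add, Integrable.toL1_eq_toL1_iff, map_add]
    · apply Prod.ext
      · rw [RingHom.id_apply, Prod.smul_fst, ← Integrable.toL1_smul,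
          Integrable.toL1_eq_toL1_iff, map_smul]
        rfl
      · rw [RingHom.id_apply, Prod.smul_snd, ← Integrable.toL1_smul,
          Integrable.toL1_eq_toL1_iff, map_smul]
        rfl
  -- `γ ↦ ∑ (γ_j - M_j γ_j)`
  obtain ⟨D, hD⟩ : ∃ D : ℕ → LL →ₗ[ℂ] LL, ∀ j g, D j g = (g.1 - MM (r j) g.1, g.2 - MM (r j) g.2) :=
    ⟨fun j => LinearMap.prodMap (LinearMap.id - MM (r j)) (LinearMap.id - MM (r j)),
      fun j g => rfl⟩
  obtain ⟨S, hS⟩ : ∃ S : (ℕ →₀ LL) →ₗ[ℂ] LL, ∀ γ : ℕ →₀ LL, ∀ s : Finset ℕ, γ.support ⊆ s →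
      S γ = ∑ j ∈ s, D j (γ j) := by
    refine ⟨Finsupp.lsum ℂ D, fun γ s hs => ?_⟩
    rw [Finsupp.lsum_apply]
    exact Finsupp.sum_of_support_subset _ hs _ (fun j _ => map_zero _)
  obtain ⟨Φ, hΦ⟩ : ∃ Φ : (V × (ℕ →₀ LL)) →ₗ[ℂ] (LL × (ℕ →₀ LL)),
      ∀ x, Φ x = (ev x.1 - S x.2, x.2) :=
    ⟨LinearMap.prod (ev.comp (LinearMap.fst ℂ V (ℕ →₀ LL)) - S.comp (LinearMap.snd ℂ V (ℕ →₀ LL)))
      (LinearMap.snd ℂ V (ℕ →₀ LL)), fun x => rfl⟩
  have hcoe : ∀ (g : ℕ → Lp ℂ 1 (volume : Measure ℂ)) (J : ℕ),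
      ((∑ j ∈ Finset.range J, (g j - MM (r j) (g j)) : Lp ℂ 1 (volume : Measure ℂ)) : ℂ → ℂ)
        =ᵐ[volume] fun z => ∑ j ∈ Finset.range J, (g j z - Mr (r j) (g j) z) := by
    intro g J
    induction J with
    | zero =>
      simp only [Finset.range_zero, Finset.sum_empty]
      exact Lp.coeFn_zero ℂ 1 volume
    | succ J ih =>
      rw [Finset.sum_range_succ]
      filter_upwards [Lp.coeFn_add (∑ j ∈ Finset.range J, (g j - MM (r j) (g j)))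
        (g J - MM (r J) (g J)), ih, Lp.coeFn_sub (g J) (MM (r J) (g J)), MM_coeFn (r J) (g J)]
        with z h1 h2 h3 h4
      rw [h1, Pi.add_apply, h2, h3, Pi.sub_apply, h4, Finset.sum_range_succ]
  obtain ⟨g, hg1, hg2⟩ := aux_HB Φ (Λ.comp (LinearMap.fst ℂ V (ℕ →₀ LL)))
    (bigp |C| (abs_nonneg C)) (by
      rintro ⟨v, γ⟩
      obtain ⟨J, hJ⟩ : ∃ J : ℕ, γ.support ⊆ Finset.range J := by
        refine ⟨γ.support.sup id + 1, fun j hj => ?_⟩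
        rw [Finset.mem_range]
        exact Nat.lt_succ_of_le (Finset.le_sup (f := id) hj)
      have hSγ := hS γ _ hJ
      obtain ⟨A, hA⟩ : ∃ A : LL, A = ev v - S γ := ⟨_, rfl⟩
      have hA' : ev v = A + ∑ j ∈ Finset.range J, D j (γ j) := by rw [hA, ← hSγ]; abel
      have h0 : (hi₀ v).toL1 (e₀ v) = A.1 + ∑ j ∈ Finset.range J,
          ((γ j).1 - MM (r j) (γ j).1) := by
        have := congrArg Prod.fst hA'
        rw [hev, Prod.fst_add, Prod.fst_sum] at this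
        simpa only [hD] using this
      have h1 : (hi₁ v).toL1 (e₁ v) = A.2 + ∑ j ∈ Finset.range J,
          ((γ j).2 - MM (r j) (γ j).2) := by
        have := congrArg Prod.snd hA'
        rw [hev, Prod.snd_add, Prod.snd_sum] at this
        simpa only [hD] using this
      have hb := hyp v J A.1 A.2 (fun j => (γ j).1) (fun j => (γ j).2)
        (L1.integrable_coeFn _) (L1.integrable_coeFn _) (fun j => L1.integrable_coeFn _)
        (fun j => L1.integrable_coeFn _) (by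
          have e1 := (hi₀ v).coeFn_toL1
          rw [h0] at e1
          filter_upwards [e1, Lp.coeFn_add A.1 (∑ j ∈ Finset.range J,
            ((γ j).1 - MM (r j) (γ j).1)), hcoe (fun j => (γ j).1) J] with z h2 h3 h4
          rw [← h2, h3, Pi.add_apply, h4]) (by
          have e1 := (hi₁ v).coeFn_toL1
          rw [h1] at e1
          filter_upwards [e1, Lp.coeFn_add A.2 (∑ j ∈ Finset.range J,
            ((γ j).2 - MM (r j) (γ j).2)), hcoe (fun j => (γ j).2) J] with z h2 h3 h4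
          rw [← h2, h3, Pi.add_apply, h4])
      simp only [← L1.norm_eq_integral_norm] at hb
      rw [hΦ]
      show ‖Λ v‖ ≤ |C| * ((‖(ev v - S γ).1‖ + ‖(ev v - S γ).2‖) + wsum γ)
      rw [← hA, wsum_eq γ _ hJ]
      refine hb.trans (mul_le_mul_of_nonneg_right (le_abs_self C) ?_)
      positivity)
  have hb0 : ∀ a : Lp ℂ 1 (volume : Measure ℂ),
      ‖(g.comp ((LinearMap.inl ℂ LL (ℕ →₀ LL)).comp (LinearMap.inl ℂ _ _))) a‖ ≤ |C| * ‖a‖ := by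
    intro a
    refine (hg2 _).trans (le_of_eq ?_)
    show |C| * ((‖a‖ + ‖(0 : Lp ℂ 1 (volume : Measure ℂ))‖) + wsum 0) = |C| * ‖a‖
    simp [wsum]
  have hb1 : ∀ a : Lp ℂ 1 (volume : Measure ℂ),
      ‖(g.comp ((LinearMap.inl ℂ LL (ℕ →₀ LL)).comp (LinearMap.inr ℂ _ _))) a‖ ≤ |C| * ‖a‖ := by
    intro a
    refine (hg2 _).trans (le_of_eq ?_)
    show |C| * ((‖(0 : Lp ℂ 1 (volume : Measure ℂ))‖ + ‖a‖) + wsum 0) = |C| * ‖a‖
    simp [wsum]
  refine ⟨LinearMap.mkContinuous _ |C| hb0, LinearMap.mkContinuous _ |C| hb1, ?_, |C|, ?_⟩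
  · intro v
    have h1 := hg1 (v, 0)
    rw [hΦ, hev, map_zero, sub_zero] at h1
    show Λ v = g (((hi₀ v).toL1 (e₀ v), 0), 0) + g ((0, (hi₁ v).toL1 (e₁ v)), 0)
    rw [← map_add]
    have h2 : ((((hi₀ v).toL1 (e₀ v), 0), 0) + ((0, (hi₁ v).toL1 (e₁ v)), 0) :
        LL × (ℕ →₀ LL)) = (((hi₀ v).toL1 (e₀ v), (hi₁ v).toL1 (e₁ v)), 0) := by
      simp
    rw [h2]
    exact h1.symm
  · intro j γ hγ hM
    have hMeq : hM.toL1 _ = hγ.toL1 γ - MM (r j) (hγ.toL1 γ) := by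
      rw [MM_toL1, ← Integrable.toL1_sub, Integrable.toL1_eq_toL1_iff]
      rfl
    have hnorm : ‖hγ.toL1 γ‖ = ∫ z, ‖γ z‖ := by
      rw [L1.norm_eq_integral_norm]
      exact integral_congr_ae (by filter_upwards [hγ.coeFn_toL1] with z hz; rw [hz])
    have hsupp : ∀ b : LL, (Finsupp.single j b).support ⊆ {j} := fun b =>
      Finsupp.support_single_subset
    constructor
    · have h1 := hg1 (0, Finsupp.single j (hγ.toL1 γ, 0))
      rw [hΦ, hS _ _ (hsupp _), Finset.sum_singleton, Finsupp.single_eq_same, hD, map_zero,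
        zero_sub] at h1
      have h2 : g ((hγ.toL1 γ - MM (r j) (hγ.toL1 γ), 0), 0) =
          g (0, Finsupp.single j (hγ.toL1 γ, 0)) := by
        have h3 : ((-(hγ.toL1 γ - MM (r j) (hγ.toL1 γ), (0 : Lp ℂ 1 (volume : Measure ℂ)) -
            MM (r j) 0), Finsupp.single j (hγ.toL1 γ, 0)) : LL × (ℕ →₀ LL)) =
            (0, Finsupp.single j (hγ.toL1 γ, 0)) -
              ((hγ.toL1 γ - MM (r j) (hγ.toL1 γ), 0), 0) := by
          apply Prod.ext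
          · simp
          · simp
        rw [h3, map_sub] at h1
        have h4 : (Λ.comp (LinearMap.fst ℂ V (ℕ →₀ LL))) (0, Finsupp.single j (hγ.toL1 γ, 0)) = 0 := by
          simp
        rw [h4, sub_eq_zero] at h1
        exact h1.symm
      show ‖g ((hM.toL1 _, 0), 0)‖ ≤ _
      rw [hMeq, h2]
      refine (hg2 _).trans (le_of_eq ?_)
      show |C| * ((‖(0 : Lp ℂ 1 (volume : Measure ℂ))‖ + ‖(0 : Lp ℂ 1 (volume : Measure ℂ))‖) +
        wsum (Finsupp.single j (hγ.toL1 γ, 0))) = _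
      rw [wsum_eq _ _ (hsupp _), Finset.sum_singleton, Finsupp.single_eq_same, ← hnorm]
      simp only [norm_zero]
      ring
    · have h1 := hg1 (0, Finsupp.single j (0, hγ.toL1 γ))
      rw [hΦ, hS _ _ (hsupp _), Finset.sum_singleton, Finsupp.single_eq_same, hD, map_zero,
        zero_sub] at h1
      have h2 : g ((0, hγ.toL1 γ - MM (r j) (hγ.toL1 γ)), 0) =
          g (0, Finsupp.single j (0, hγ.toL1 γ)) := by
        have h3 : ((-((0 : Lp ℂ 1 (volume : Measure ℂ)) - MM (r j) 0,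
            hγ.toL1 γ - MM (r j) (hγ.toL1 γ)), Finsupp.single j (0, hγ.toL1 γ)) :
              LL × (ℕ →₀ LL)) =
            (0, Finsupp.single j (0, hγ.toL1 γ)) -
              ((0, hγ.toL1 γ - MM (r j) (hγ.toL1 γ)), 0) := by
          apply Prod.ext
          · simp
          · simp
        rw [h3, map_sub] at h1
        have h4 : (Λ.comp (LinearMap.fst ℂ V (ℕ →₀ LL))) (0, Finsupp.single j (0, hγ.toL1 γ)) = 0 := by
          simp
        rw [h4, sub_eq_zero] at h1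
        exact h1.symm
      show ‖g ((0, hM.toL1 _), 0)‖ ≤ _
      rw [hMeq, h2]
      refine (hg2 _).trans (le_of_eq ?_)
      show |C| * ((‖(0 : Lp ℂ 1 (volume : Measure ℂ))‖ + ‖(0 : Lp ℂ 1 (volume : Measure ℂ))‖) +
        wsum (Finsupp.single j (0, hγ.toL1 γ))) = _
      rw [wsum_eq _ _ (hsupp _), Finset.sum_singleton, Finsupp.single_eq_same, ← hnorm]
      simp only [norm_zero]
      ring

end Pool.Agent.Split938.J5a
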