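import Pool.Agent.Split938.Defs

set_option autoImplicit false
open MeasureTheory Metric Set Filter Topology

namespace Pool.Agent.Split938.J5b

/-- normalised indicator of the disc -/
noncomputable def kk (r : ℝ) (w : ℂ) : ℂ :=
  (ball (0:ℂ) r).indicator (fun _ => ((Real.pi * r ^ 2 : ℝ) : ℂ)⁻¹) w

theorem kk_int (r : ℝ) : Integrable (kk r) := by
  have h : IntegrableOn (fun _ : ℂ => ((Real.pi * r ^ 2 : ℝ) : ℂ)⁻¹) (ball (0:ℂ) r) :=
    integrableOn_const measure_ball_lt_top.ne
  exact h.integrable_indicator measurableSet_ball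

theorem kk_prod (r : ℝ) {γ : ℂ → ℂ} (hγ : Integrable γ) :
    Integrable (fun p : ℂ × ℂ => γ p.2 * kk r (p.1 - p.2)) (volume.prod volume) :=
  Integrable.convolution_integrand (ContinuousLinearMap.mul ℂ ℂ) hγ (kk_int r)

theorem Mr_eq (r : ℝ) (γ : ℂ → ℂ) (z : ℂ) : Mr r γ z = ∫ x, γ x * kk r (z - x) := by
  unfold Mr
  rw [← integral_indicator measurableSet_ball, ← integral_const_mul]
  refine integral_congr_ae (Eventually.of_forall fun x => ?_)
  beta_reduce
  unfold kk
  by_cases hx : x ∈ ball z r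
  · have h2 : z - x ∈ ball (0:ℂ) r := by
      rw [mem_ball_zero_iff, ← dist_eq_norm, dist_comm]; exact hx
    rw [Set.indicator_of_mem hx, Set.indicator_of_mem h2, mul_comm]
  · have h2 : z - x ∉ ball (0:ℂ) r := by
      rw [mem_ball_zero_iff, ← dist_eq_norm, dist_comm]; exact hx
    rw [Set.indicator_of_notMem hx, Set.indicator_of_notMem h2, mul_zero, mul_zero]

theorem Mr_int (r : ℝ) {γ : ℂ → ℂ} (hγ : Integrable γ) : Integrable (Mr r γ) := by
  have h1 := (kk_prod r hγ).integral_prod_left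
  refine h1.congr (Eventually.of_forall fun z => ?_)
  rw [Mr_eq]

/-- the normalised indicator of a disc as an element of `L¹` -/
noncomputable def rho (r : ℝ) (x : ℂ) : Lp ℂ 1 (volume : Measure ℂ) :=
  indicatorConstLp 1 (measurableSet_ball (x := x) (ε := r)) measure_ball_lt_top.ne
    (((Real.pi * r ^ 2 : ℝ) : ℂ)⁻¹)

theorem rho_coe (r : ℝ) (x : ℂ) : (rho r x : ℂ → ℂ) =ᵐ[volume] fun z => kk r (z - x) := by
  refine indicatorConstLp_coeFn.trans (Eventually.of_forall fun z => ?_)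
  unfold kk
  beta_reduce
  by_cases hz : z ∈ ball x r
  · have h2 : z - x ∈ ball (0:ℂ) r := by
      rw [mem_ball_zero_iff, ← dist_eq_norm]; exact hz
    rw [Set.indicator_of_mem hz, Set.indicator_of_mem h2]
  · have h2 : z - x ∉ ball (0:ℂ) r := by
      rw [mem_ball_zero_iff, ← dist_eq_norm]; exact hz
    rw [Set.indicator_of_notMem hz, Set.indicator_of_notMem h2]

theorem rho_symm_le (r : ℝ) (x y : ℂ) : volume (symmDiff (ball y r) (ball x r)) ≤
    2 * (ENNReal.ofReal (r + dist y x) ^ 2 * NNReal.pi - ENNReal.ofReal r ^ 2 * NNReal.pi) := by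
  have h : ∀ x y : ℂ, volume (ball y r \ ball x r) ≤
      ENNReal.ofReal (r + dist y x) ^ 2 * NNReal.pi - ENNReal.ofReal r ^ 2 * NNReal.pi := by
    intro x y
    have h1 : ball y r \ ball x r ⊆ ball x (r + dist y x) \ ball x r := by
      rintro z ⟨hz1, hz2⟩
      refine ⟨?_, hz2⟩
      rw [mem_ball] at hz1 ⊢
      have := dist_triangle z y x
      linarith
    refine (measure_mono h1).trans ?_
    rw [measure_sdiff (ball_subset_ball (by linarith [dist_nonneg (x := y) (y := x)]))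
      measurableSet_ball.nullMeasurableSet measure_ball_lt_top.ne, Complex.volume_ball,
      Complex.volume_ball]
  rw [Set.symmDiff_def, two_mul]
  refine (measure_union_le _ _).trans (add_le_add (h x y) ?_)
  have h2 := h y x
  rwa [dist_comm x y] at h2

theorem rho_cont (r : ℝ) : Continuous (rho r) := by
  rw [continuous_iff_continuousAt]
  intro x
  refine tendsto_indicatorConstLp_set (by norm_num) ?_
  have h1 : Tendsto (fun y : ℂ => 2 * (ENNReal.ofReal (r + dist y x) ^ 2 * NNReal.pi -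
      ENNReal.ofReal r ^ 2 * NNReal.pi)) (𝓝 x)
      (𝓝 (2 * (ENNReal.ofReal (r + dist x x) ^ 2 * NNReal.pi -
      ENNReal.ofReal r ^ 2 * NNReal.pi))) := by
    refine ENNReal.Tendsto.const_mul ?_ (Or.inr (by norm_num))
    have hfin : ENNReal.ofReal (r + dist x x) ^ 2 * (NNReal.pi : ENNReal) ≠ ⊤ :=
      ENNReal.mul_ne_top (ENNReal.pow_ne_top ENNReal.ofReal_ne_top) ENNReal.coe_ne_top
    refine ENNReal.Tendsto.sub ?_ tendsto_const_nhds (Or.inl hfin)
    refine ENNReal.Tendsto.mul_const ?_ (Or.inr ENNReal.coe_ne_top)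
    have h3 : Continuous (fun y : ℂ => ENNReal.ofReal (r + dist y x) ^ 2) :=
      (ENNReal.continuous_pow 2).comp (ENNReal.continuous_ofReal.comp (by fun_prop))
    exact h3.tendsto x
  rw [dist_self, add_zero, tsub_self, mul_zero] at h1
  exact tendsto_of_tendsto_of_tendsto_of_le_of_le tendsto_const_nhds h1 (fun _ => zero_le)
    (fun y => rho_symm_le r x y)

theorem rho_norm (r : ℝ) (x : ℂ) : ‖rho r x‖ = ‖rho r 0‖ := by
  unfold rho
  rw [norm_indicatorConstLp one_ne_zero ENNReal.one_ne_top,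
    norm_indicatorConstLp one_ne_zero ENNReal.one_ne_top]
  unfold Measure.real
  rw [Complex.volume_ball, Complex.volume_ball]

theorem Phi_int (r : ℝ) {γ : ℂ → ℂ} (hγ : Integrable γ) :
    Integrable (fun x => γ x • rho r x) := by
  refine (hγ.norm.mul_const ‖rho r 0‖).mono'
    (hγ.aestronglyMeasurable.smul (rho_cont r).aestronglyMeasurable) ?_
  refine Eventually.of_forall fun x => ?_
  rw [norm_smul, rho_norm]

/-- the integral over a set as a functional on `L¹` -/
theorem exists_setInt (S : Set ℂ) : ∃ T : (Lp ℂ 1 (volume : Measure ℂ)) →L[ℂ] ℂ,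
    ∀ f : Lp ℂ 1 (volume : Measure ℂ), T f = ∫ z in S, f z := by
  refine ⟨LinearMap.mkContinuous
    { toFun := fun f => ∫ z in S, f z
      map_add' := ?_
      map_smul' := ?_ } 1 ?_, fun f => rfl⟩
  · intro f g
    rw [← integral_add (L1.integrable_coeFn f).integrableOn (L1.integrable_coeFn g).integrableOn]
    exact integral_congr_ae (ae_restrict_of_ae (Lp.coeFn_add f g))
  · intro c f
    rw [RingHom.id_apply, ← integral_smul]
    exact integral_congr_ae (ae_restrict_of_ae (Lp.coeFn_smul c f))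
  · intro f
    rw [one_mul]
    show ‖∫ z in S, f z‖ ≤ ‖f‖
    rw [L1.norm_eq_integral_norm]
    refine (norm_integral_le_integral_norm _).trans ?_
    exact setIntegral_le_integral (L1.integrable_coeFn f).norm
      (Eventually.of_forall fun z => norm_nonneg _)

theorem Phi_eq (r : ℝ) {γ : ℂ → ℂ} (hγ : Integrable γ) :
    ∫ x, γ x • rho r x = (Mr_int r hγ).toL1 (Mr r γ) := by
  refine Lp.ext ?_
  refine Filter.EventuallyEq.trans ?_ (Integrable.coeFn_toL1 (Mr_int r hγ)).symm
  refine Integrable.ae_eq_of_forall_setIntegral_eq _ _ (L1.integrable_coeFn _) (Mr_int r hγ) ?_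
  intro S hS hSf
  obtain ⟨T, hT⟩ := exists_setInt S
  rw [← hT, ← T.integral_comp_comm (Phi_int r hγ)]
  have h1 : ∀ x, T (γ x • rho r x) = ∫ z in S, γ x * kk r (z - x) := by
    intro x
    rw [map_smul, hT, smul_eq_mul, ← integral_const_mul]
    refine integral_congr_ae (ae_restrict_of_ae ?_)
    filter_upwards [rho_coe r x] with z hz
    rw [hz]
  rw [integral_congr_ae (Eventually.of_forall h1)]
  have h2 : Integrable (fun p : ℂ × ℂ => γ p.2 * kk r (p.1 - p.2))
      ((volume.restrict S).prod volume) := by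
    have h3 := (kk_prod r hγ).mono_measure (μ := (volume.restrict S).prod volume)
      (Measure.prod_mono Measure.restrict_le_self le_rfl)
    exact h3
  have h4 := integral_integral_swap (μ := volume.restrict S) (ν := volume)
    (f := fun z x => γ x * kk r (z - x)) h2
  rw [← h4]
  refine integral_congr_ae (Eventually.of_forall fun z => ?_)
  beta_reduce
  rw [Mr_eq]

theorem ell_Mr (ℓ : (Lp ℂ 1 (volume : Measure ℂ)) →L[ℂ] ℂ) (r : ℝ) {γ : ℂ → ℂ}
    (hγ : Integrable γ) :
    ℓ ((Mr_int r hγ).toL1 (Mr r γ)) = ∫ x, γ x * ℓ (rho r x) := by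
  rw [← Phi_eq r hγ, ← ℓ.integral_comp_comm (Phi_int r hγ)]
  refine integral_congr_ae (Eventually.of_forall fun x => ?_)
  beta_reduce
  rw [map_smul, smul_eq_mul]

/-- a pointwise bound from bounds of the integrals over discs -/
theorem ptwise (w : ℂ → ℂ) (hw : Continuous w) (B : ℝ)
    (h : ∀ x : ℂ, ∀ ε > 0, ‖∫ z in ball x ε, w z‖ ≤ B * (volume (ball x ε)).toReal) (x : ℂ) :
    ‖w x‖ ≤ B := by
  refine le_of_forall_pos_le_add fun η hη => ?_
  obtain ⟨ε, hε, hb⟩ := Metric.continuousAt_iff.1 hw.continuousAt η hη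
  have hV : 0 < (volume (ball x ε)).toReal :=
    ENNReal.toReal_pos (measure_ball_pos volume x hε).ne' measure_ball_lt_top.ne
  have hint : IntegrableOn w (ball x ε) :=
    (hw.continuousOn.integrableOn_compact (isCompact_closedBall x ε)).mono_set ball_subset_closedBall
  have h1 : ∫ z in ball x ε, (w x - w z) = ((volume (ball x ε)).toReal : ℂ) * w x -
      ∫ z in ball x ε, w z := by
    have hc : IntegrableOn (fun _ : ℂ => w x) (ball x ε) volume :=
      integrableOn_const measure_ball_lt_top.ne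
    rw [integral_sub hc hint, setIntegral_const]
    rfl
  have h2 : ‖∫ z in ball x ε, (w x - w z)‖ ≤ η * (volume (ball x ε)).toReal := by
    refine norm_setIntegral_le_of_norm_le_const measure_ball_lt_top fun z hz => ?_
    rw [← dist_eq_norm, dist_comm]
    exact (hb hz).le
  have h3 : ‖((volume (ball x ε)).toReal : ℂ) * w x‖ ≤ (B + η) * (volume (ball x ε)).toReal := by
    have h4 : ((volume (ball x ε)).toReal : ℂ) * w x = (∫ z in ball x ε, (w x - w z)) +
      ∫ z in ball x ε, w z := by rw [h1]; ring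
    rw [h4]
    refine (norm_add_le _ _).trans ?_
    have h5 := h x ε hε
    linarith
  rw [norm_mul, Complex.norm_real, Real.norm_of_nonneg hV.le, mul_comm] at h3
  exact le_of_mul_le_mul_right h3 hV

/-- representation of a functional on `L¹` which is small on `γ - Mr (r j) γ`
by a continuous function -/
theorem main (ℓ : (Lp ℂ 1 (volume : Measure ℂ)) →L[ℂ] ℂ) (r : ℕ → ℝ) (hr : ∀ j, 0 < r j) (K : ℝ)
    (h : ∀ j, ∀ γ : ℂ → ℂ, Integrable γ → ∀ hM : Integrable (fun z => γ z - Mr (r j) γ z),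
        ‖ℓ (hM.toL1 _)‖ ≤ K * (1 / 2 : ℝ) ^ j * ∫ z, ‖γ z‖) :
    ∃ u : ℂ → ℂ, Continuous u ∧ (∃ M, ∀ z, ‖u z‖ ≤ M) ∧
      ∀ γ : ℂ → ℂ, Continuous γ → HasCompactSupport γ → ∀ hγ : Integrable γ,
        ℓ (hγ.toL1 γ) = ∫ z, u z * γ z := by
  obtain ⟨v, hv⟩ : ∃ v : ℕ → ℂ → ℂ, v = fun j x => ℓ (rho (r j) x) := ⟨_, rfl⟩
  have hvc : ∀ j, Continuous (v j) := by
    intro j
    rw [hv]
    exact ℓ.continuous.comp (rho_cont (r j))
  have hvb : ∀ j x, ‖v j x‖ ≤ ‖ℓ‖ * ‖rho (r j) 0‖ := by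
    intro j x
    rw [hv]
    beta_reduce
    refine (ℓ.le_opNorm _).trans ?_
    rw [rho_norm]
  have hid : ∀ j (γ : ℂ → ℂ) (hγ : Integrable γ),
      ‖ℓ (hγ.toL1 γ) - ∫ x, γ x * v j x‖ ≤ K * (1 / 2 : ℝ) ^ j * ∫ z, ‖γ z‖ := by
    intro j γ hγ
    have h1 := h j γ hγ (hγ.sub (Mr_int (r j) hγ))
    have h2 : (hγ.sub (Mr_int (r j) hγ)).toL1 (fun z => γ z - Mr (r j) γ z) =
        hγ.toL1 γ - (Mr_int (r j) hγ).toL1 (Mr (r j) γ) :=
      Integrable.toL1_sub γ (Mr (r j) γ) hγ (Mr_int (r j) hγ)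
    rw [h2, map_sub, ell_Mr ℓ (r j) hγ] at h1
    rw [hv]
    exact h1
  have hmulint : ∀ j (γ : ℂ → ℂ), Integrable γ → Integrable (fun x => γ x * v j x) := by
    intro j γ hγ
    exact hγ.mul_bdd (hvc j).aestronglyMeasurable (Eventually.of_forall (hvb j))
  have hdiff : ∀ j k (γ : ℂ → ℂ), Integrable γ →
      ‖∫ x, γ x * (v j x - v k x)‖ ≤ (K * (1 / 2 : ℝ) ^ j + K * (1 / 2 : ℝ) ^ k) * ∫ z, ‖γ z‖ := by
    intro j k γ hγ
    have h1 : ∫ x, γ x * (v j x - v k x) = (ℓ (hγ.toL1 γ) - ∫ x, γ x * v k x) -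
        (ℓ (hγ.toL1 γ) - ∫ x, γ x * v j x) := by
      have h2 : ∫ x, γ x * (v j x - v k x) = (∫ x, γ x * v j x) - ∫ x, γ x * v k x := by
        rw [← integral_sub (hmulint j γ hγ) (hmulint k γ hγ)]
        refine integral_congr_ae (Eventually.of_forall fun x => ?_)
        beta_reduce
        ring
      rw [h2]; ring
    rw [h1]
    refine (norm_sub_le _ _).trans ?_
    have h3 := hid j γ hγ
    have h4 := hid k γ hγ
    linarith
  have hpt : ∀ j k x, ‖v j x - v k x‖ ≤ K * (1 / 2 : ℝ) ^ j + K * (1 / 2 : ℝ) ^ k := by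
    intro j k
    refine ptwise (fun x => v j x - v k x) ((hvc j).sub (hvc k)) _ ?_
    intro x ε hε
    have hγ : Integrable ((ball x ε).indicator (fun _ : ℂ => (1 : ℂ))) :=
      (integrableOn_const measure_ball_lt_top.ne).integrable_indicator measurableSet_ball
    have h1 := hdiff j k _ hγ
    have h2 : ∫ z, (ball x ε).indicator (fun _ : ℂ => (1 : ℂ)) z * (v j z - v k z) =
        ∫ z in ball x ε, (v j z - v k z) := by
      rw [← integral_indicator measurableSet_ball]
      refine integral_congr_ae (Eventually.of_forall fun z => ?_)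
      beta_reduce
      by_cases hz : z ∈ ball x ε
      · rw [Set.indicator_of_mem hz, Set.indicator_of_mem hz, one_mul]
      · rw [Set.indicator_of_notMem hz, Set.indicator_of_notMem hz, zero_mul]
    have h3 : ∫ z, ‖(ball x ε).indicator (fun _ : ℂ => (1 : ℂ)) z‖ = (volume (ball x ε)).toReal := by
      have h4 : ∀ z, ‖(ball x ε).indicator (fun _ : ℂ => (1 : ℂ)) z‖ =
          (ball x ε).indicator (fun _ : ℂ => (1 : ℝ)) z := by
        intro z
        rw [norm_indicator_eq_indicator_norm]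
        simp
      rw [integral_congr_ae (Eventually.of_forall h4), integral_indicator measurableSet_ball,
        setIntegral_const, smul_eq_mul, mul_one]
      rfl
    rw [h2, h3] at h1
    exact h1
  have hpow : Tendsto (fun j : ℕ => K * (1 / 2 : ℝ) ^ j) atTop (𝓝 0) := by
    have h1 := (tendsto_pow_atTop_nhds_zero_of_lt_one (r := (1 / 2 : ℝ)) (by norm_num)
      (by norm_num)).const_mul K
    rwa [mul_zero] at h1
  have hcau : ∀ x, CauchySeq (fun j => v j x) := by
    intro x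
    rw [Metric.cauchySeq_iff']
    intro ε hε
    have h1 := hpow.eventually (gt_mem_nhds (half_pos hε))
    obtain ⟨N, hN⟩ := Filter.eventually_atTop.1 h1
    refine ⟨N, fun j hj => ?_⟩
    rw [dist_eq_norm]
    have h2 := hpt j N x
    have h3 := hN j hj
    have h4 := hN N le_rfl
    linarith
  choose u hu using fun x => cauchySeq_tendsto_of_complete (hcau x)
  have hlim : ∀ j x, ‖v j x - u x‖ ≤ K * (1 / 2 : ℝ) ^ j := by
    intro j x
    have h1 : Tendsto (fun k => ‖v j x - v k x‖) atTop (𝓝 ‖v j x - u x‖) :=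
      (tendsto_const_nhds.sub (hu x)).norm
    have h2 : Tendsto (fun k : ℕ => K * (1 / 2 : ℝ) ^ j + K * (1 / 2 : ℝ) ^ k) atTop
        (𝓝 (K * (1 / 2 : ℝ) ^ j + 0)) := tendsto_const_nhds.add hpow
    rw [add_zero] at h2
    exact le_of_tendsto_of_tendsto h1 h2 (Eventually.of_forall fun k => hpt j k x)
  have hunif : TendstoUniformly v u atTop := by
    rw [Metric.tendstoUniformly_iff]
    intro ε hε
    filter_upwards [hpow.eventually (gt_mem_nhds hε)] with j hj x
    rw [dist_comm, dist_eq_norm]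
    exact (hlim j x).trans_lt hj
  have huc : Continuous u := hunif.continuous (Frequently.of_forall hvc)
  have hub : ∀ x, ‖u x‖ ≤ ‖ℓ‖ * ‖rho (r 0) 0‖ + K * (1 / 2 : ℝ) ^ 0 := by
    intro x
    have h1 : u x = v 0 x - (v 0 x - u x) := by ring
    rw [h1]
    refine (norm_sub_le _ _).trans (add_le_add (hvb 0 x) (hlim 0 x))
  refine ⟨u, huc, ⟨_, hub⟩, ?_⟩
  intro γ _ _ hγ
  have huint : Integrable (fun x => γ x * u x) :=
    hγ.mul_bdd huc.aestronglyMeasurable (Eventually.of_forall hub)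
  have h5 : ∀ j, ‖ℓ (hγ.toL1 γ) - ∫ x, γ x * u x‖ ≤ (K * (1 / 2 : ℝ) ^ j * ∫ z, ‖γ z‖) +
      K * (1 / 2 : ℝ) ^ j * ∫ z, ‖γ z‖ := by
    intro j
    have h6 : ℓ (hγ.toL1 γ) - ∫ x, γ x * u x = (ℓ (hγ.toL1 γ) - ∫ x, γ x * v j x) +
        ∫ x, γ x * (v j x - u x) := by
      have h7 : ∫ x, γ x * (v j x - u x) = (∫ x, γ x * v j x) - ∫ x, γ x * u x := by
        rw [← integral_sub (hmulint j γ hγ) huint]
        refine integral_congr_ae (Eventually.of_forall fun x => ?_)
        beta_reduce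
        ring
      rw [h7]; ring
    rw [h6]
    refine (norm_add_le _ _).trans (add_le_add (hid j γ hγ) ?_)
    rw [← integral_const_mul]
    refine norm_integral_le_of_norm_le (hγ.norm.const_mul _) (Eventually.of_forall fun x => ?_)
    rw [norm_mul, mul_comm]
    exact mul_le_mul_of_nonneg_right (hlim j x) (norm_nonneg _)
  have h8 : Tendsto (fun j : ℕ => (K * (1 / 2 : ℝ) ^ j * ∫ z, ‖γ z‖) +
      K * (1 / 2 : ℝ) ^ j * ∫ z, ‖γ z‖) atTop (𝓝 0) := by
    have h9 := (hpow.mul_const (∫ z, ‖γ z‖)).add (hpow.mul_const (∫ z, ‖γ z‖))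
    rwa [zero_mul, add_zero] at h9
  have h10 : ‖ℓ (hγ.toL1 γ) - ∫ x, γ x * u x‖ ≤ 0 := ge_of_tendsto' h8 h5
  have h11 : ℓ (hγ.toL1 γ) - ∫ x, γ x * u x = 0 := norm_le_zero_iff.1 h10
  rw [sub_eq_zero.1 h11]
  refine integral_congr_ae (Eventually.of_forall fun x => ?_)
  beta_reduce
  ring

end Pool.Agent.Split938.J5b
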