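import Pool.Agent.Split938.Defs

set_option autoImplicit false
open MeasureTheory Metric Set Filter Topology

namespace Pool.Agent.Split938.J7a

theorem ck_hasFDerivAt (δ : ℝ) (hδ : 0 < δ) (w : ℂ) :
    HasFDerivAt (ck δ) ((Real.pi : ℂ)⁻¹ • (((‖w‖ ^ 2 + δ ^ 2)⁻¹ : ℝ) • (Complex.conjCLE : ℂ →L[ℝ] ℂ)
      + ((-((‖w‖ ^ 2 + δ ^ 2) ^ 2)⁻¹ : ℝ) • ((2 : ℝ) • innerSL ℝ w)).smulRight
        ((starRingEnd ℂ) w))) w := by
  have hN : ‖w‖ ^ 2 + δ ^ 2 ≠ 0 := by positivity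
  have h1 : HasFDerivAt (fun w : ℂ => ‖w‖ ^ 2 + δ ^ 2) ((2 : ℝ) • innerSL ℝ w) w := by
    have := (hasStrictFDerivAt_norm_sq w).hasFDerivAt.add_const (δ ^ 2)
    exact this.congr_fderiv (by rw [← Nat.cast_smul_eq_nsmul ℝ]; norm_num)
  have h2 : HasFDerivAt (fun w : ℂ => (‖w‖ ^ 2 + δ ^ 2)⁻¹)
      ((-((‖w‖ ^ 2 + δ ^ 2) ^ 2)⁻¹ : ℝ) • ((2 : ℝ) • innerSL ℝ w)) w := by
    have := (hasDerivAt_inv hN).comp_hasFDerivAt w h1
    exact this
  have h3 : HasFDerivAt (fun w : ℂ => (starRingEnd ℂ) w) (Complex.conjCLE : ℂ →L[ℝ] ℂ) w :=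
    (Complex.conjCLE : ℂ →L[ℝ] ℂ).hasFDerivAt
  have h4 := (h2.smul h3).const_smul ((Real.pi : ℂ)⁻¹)
  refine h4.congr_of_eventuallyEq (Eventually.of_forall fun v => ?_)
  simp only [ck, Pi.smul_apply', Pi.smul_apply, smul_eq_mul, Complex.real_smul]
  push_cast
  rw [div_eq_inv_mul]

theorem ck_contDiff (δ : ℝ) (hδ : 0 < δ) : ContDiff ℝ 1 (ck δ) := by
  have h1 : ContDiff ℝ 1 (fun w : ℂ => (‖w‖ ^ 2 + δ ^ 2)⁻¹) := by
    refine ContDiff.inv ((contDiff_norm_sq ℝ).add contDiff_const) fun w => ?_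
    positivity
  have h3 : ContDiff ℝ 1 (fun w : ℂ => (starRingEnd ℂ) w) :=
    (Complex.conjCLE : ℂ →L[ℝ] ℂ).contDiff
  have h4 := (h1.smul h3).const_smul ((Real.pi : ℂ)⁻¹)
  convert h4 using 1
  funext v
  simp only [ck, Pi.smul_apply', Pi.smul_apply, smul_eq_mul, Complex.real_smul]
  push_cast
  rw [div_eq_inv_mul]

theorem ck_dir (δ : ℝ) (hδ : 0 < δ) (h : ℂ → ℂ) (hh : ContDiff ℝ 1 h) (hc : HasCompactSupport h)
    (z v : ℂ) : Integrable (fun ζ => ck δ (z - ζ) * fderiv ℝ h ζ v) ∧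
      Integrable (fun ζ => fderiv ℝ (ck δ) (z - ζ) v * h ζ) ∧
      ∫ ζ, ck δ (z - ζ) * fderiv ℝ h ζ v = ∫ ζ, fderiv ℝ (ck δ) (z - ζ) v * h ζ := by
  have hck := ck_contDiff δ hδ
  have hsub : ContDiff ℝ 1 (fun ζ : ℂ => z - ζ) := contDiff_const.sub contDiff_id
  have hf : ContDiff ℝ 1 (fun ζ => ck δ (z - ζ)) := hck.comp hsub
  have hfd : ∀ ζ, fderiv ℝ (fun ζ => ck δ (z - ζ)) ζ v = - fderiv ℝ (ck δ) (z - ζ) v := by
    intro ζ
    have h1 : HasFDerivAt (fun ζ : ℂ => z - ζ) (-(ContinuousLinearMap.id ℝ ℂ)) ζ :=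
      (hasFDerivAt_id ζ).const_sub z
    have h2 : HasFDerivAt (ck δ) (fderiv ℝ (ck δ) (z - ζ)) (z - ζ) :=
      (hck.differentiable one_ne_zero _).hasFDerivAt
    have h3 := h2.comp ζ h1
    have h4 : fderiv ℝ (fun ζ => ck δ (z - ζ)) ζ
        = (fderiv ℝ (ck δ) (z - ζ)).comp (-(ContinuousLinearMap.id ℝ ℂ)) := h3.fderiv
    rw [h4]
    simp
  have i1 : Integrable (fun ζ => ck δ (z - ζ) * fderiv ℝ h ζ v) := by
    refine Continuous.integrable_of_hasCompactSupport ?_ ?_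
    · exact hf.continuous.mul ((hh.continuous_fderiv one_ne_zero).clm_apply continuous_const)
    · exact (hc.fderiv_apply ℝ v).mul_left
  have i2 : Integrable (fun ζ => fderiv ℝ (ck δ) (z - ζ) v * h ζ) := by
    refine Continuous.integrable_of_hasCompactSupport ?_ ?_
    · exact (((hck.continuous_fderiv one_ne_zero).comp hsub.continuous).clm_apply
        continuous_const).mul hh.continuous
    · exact hc.mul_left
  refine ⟨i1, i2, ?_⟩
  have i3 : Integrable (fun ζ => ck δ (z - ζ) * h ζ) := by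
    refine Continuous.integrable_of_hasCompactSupport ?_ ?_
    · exact hf.continuous.mul hh.continuous
    · exact hc.mul_left
  have key := integral_mul_fderiv_eq_neg_fderiv_mul_of_integrable (μ := (volume : Measure ℂ))
    (f := fun ζ => ck δ (z - ζ)) (g := h) (v := v) (by
      simp only [hfd]
      have := i2.neg
      refine this.congr (Eventually.of_forall fun ζ => ?_)
      simp) i1 i3
    (fun x _ => hf.differentiable one_ne_zero x) (fun x _ => hh.differentiable one_ne_zero x)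
  rw [key]
  simp only [hfd]
  rw [← integral_neg]
  refine integral_congr_ae (Eventually.of_forall fun ζ => ?_)
  simp

/-- integration by parts against the regularised kernels -/
theorem main (δ : ℝ) (hδ : 0 < δ) (h : ℂ → ℂ) (hh : ContDiff ℝ 1 h) (hc : HasCompactSupport h)
    (z : ℂ) : Ck δ (dbar h) z = Pk δ h z ∧ Ck δ (dz h) z = Bk δ h z := by
  obtain ⟨a1, b1, c1⟩ := ck_dir δ hδ h hh hc z 1
  obtain ⟨a2, b2, c2⟩ := ck_dir δ hδ h hh hc z Complex.I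
  have hd : ∀ w, fderiv ℝ (ck δ) w = ((Real.pi : ℂ)⁻¹ • (((‖w‖ ^ 2 + δ ^ 2)⁻¹ : ℝ) •
      (Complex.conjCLE : ℂ →L[ℝ] ℂ)
      + ((-((‖w‖ ^ 2 + δ ^ 2) ^ 2)⁻¹ : ℝ) • ((2 : ℝ) • innerSL ℝ w)).smulRight
        ((starRingEnd ℂ) w))) := fun w => (ck_hasFDerivAt δ hδ w).fderiv
  have e1 : ∀ w, fderiv ℝ (ck δ) w 1 = (Real.pi : ℂ)⁻¹ * ((((‖w‖ ^ 2 + δ ^ 2)⁻¹ : ℝ) : ℂ)
      + ((-((‖w‖ ^ 2 + δ ^ 2) ^ 2)⁻¹ * (2 * w.re) : ℝ) : ℂ) * (starRingEnd ℂ) w) := by
    intro w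
    rw [hd]
    simp [Complex.inner]
    ring
  have e2 : ∀ w, fderiv ℝ (ck δ) w Complex.I = (Real.pi : ℂ)⁻¹ *
      ((((‖w‖ ^ 2 + δ ^ 2)⁻¹ : ℝ) : ℂ) * (-Complex.I)
      + ((-((‖w‖ ^ 2 + δ ^ 2) ^ 2)⁻¹ * (2 * w.im) : ℝ) : ℂ) * (starRingEnd ℂ) w) := by
    intro w
    rw [hd]
    simp [Complex.inner]
    ring
  have hz : ∀ w : ℂ, (w.re : ℂ) + Complex.I * w.im = w := fun w => by
    rw [mul_comm]; exact Complex.re_add_im w
  have hcz : ∀ w : ℂ, (w.re : ℂ) - Complex.I * w.im = (starRingEnd ℂ) w := fun w => by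
    apply Complex.ext <;> simp
  have hnn : ∀ w : ℂ, w * (starRingEnd ℂ) w = ((‖w‖ ^ 2 : ℝ) : ℂ) := fun w => by
    rw [Complex.mul_conj, Complex.normSq_eq_norm_sq]
  have q1 : ∀ w, (fderiv ℝ (ck δ) w 1 + Complex.I * fderiv ℝ (ck δ) w Complex.I) / 2 = pk δ w := by
    intro w
    have hN : ((‖w‖ ^ 2 + δ ^ 2 : ℝ) : ℂ) ≠ 0 := by
      have : ‖w‖ ^ 2 + δ ^ 2 ≠ 0 := by positivity
      exact_mod_cast this
    have hpi : (Real.pi : ℂ) ≠ 0 := by exact_mod_cast Real.pi_ne_zero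
    have hw := hz w
    have hn := hnn w
    rw [e1, e2]
    unfold pk
    set N : ℝ := ‖w‖ ^ 2 + δ ^ 2 with hNdef
    have hn' : w * (starRingEnd ℂ) w = (N : ℂ) - (δ : ℂ) ^ 2 := by
      rw [hn, hNdef]; push_cast; ring
    push_cast
    field_simp
    have hI : Complex.I * Complex.I = -1 := Complex.I_mul_I
    have hI2 : Complex.I ^ 2 = -1 := Complex.I_sq
    have : (starRingEnd ℂ) w * ((w.re : ℂ) + Complex.I * w.im) = (N : ℂ) - (δ : ℂ) ^ 2 := by
      rw [hw, mul_comm]; exact hn'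
    linear_combination (-2 : ℂ) * this - (N : ℂ) * hI2
  have q2 : ∀ w, (fderiv ℝ (ck δ) w 1 - Complex.I * fderiv ℝ (ck δ) w Complex.I) / 2 = bk δ w := by
    intro w
    have hN : ((‖w‖ ^ 2 + δ ^ 2 : ℝ) : ℂ) ≠ 0 := by
      have : ‖w‖ ^ 2 + δ ^ 2 ≠ 0 := by positivity
      exact_mod_cast this
    have hpi : (Real.pi : ℂ) ≠ 0 := by exact_mod_cast Real.pi_ne_zero
    have hw := hcz w
    rw [e1, e2]
    unfold bk
    set N : ℝ := ‖w‖ ^ 2 + δ ^ 2 with hNdef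
    push_cast
    field_simp
    have hI2 : Complex.I ^ 2 = -1 := Complex.I_sq
    have : (starRingEnd ℂ) w * ((w.re : ℂ) - Complex.I * w.im) = (starRingEnd ℂ) w ^ 2 := by
      rw [hw, pow_two]
    linear_combination (-2 : ℂ) * this + (N : ℂ) * hI2
  constructor
  · unfold Ck Pk dbar
    calc ∫ ζ, ck δ (z - ζ) * ((fderiv ℝ h ζ 1 + Complex.I * fderiv ℝ h ζ Complex.I) / 2)
        = ∫ ζ, ((1 / 2 : ℂ) * (ck δ (z - ζ) * fderiv ℝ h ζ 1)
            + (Complex.I / 2) * (ck δ (z - ζ) * fderiv ℝ h ζ Complex.I)) := by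
          refine integral_congr_ae (Eventually.of_forall fun ζ => ?_)
          simp only
          ring
      _ = (1 / 2 : ℂ) * (∫ ζ, fderiv ℝ (ck δ) (z - ζ) 1 * h ζ)
            + (Complex.I / 2) * ∫ ζ, fderiv ℝ (ck δ) (z - ζ) Complex.I * h ζ := by
          rw [integral_add (a1.const_mul _) (a2.const_mul _), integral_const_mul,
            integral_const_mul, c1, c2]
      _ = ∫ ζ, ((1 / 2 : ℂ) * (fderiv ℝ (ck δ) (z - ζ) 1 * h ζ)
            + (Complex.I / 2) * (fderiv ℝ (ck δ) (z - ζ) Complex.I * h ζ)) := by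
          rw [integral_add (b1.const_mul _) (b2.const_mul _), integral_const_mul,
            integral_const_mul]
      _ = ∫ ζ, pk δ (z - ζ) * h ζ := by
          refine integral_congr_ae (Eventually.of_forall fun ζ => ?_)
          simp only
          rw [← q1]
          ring
  · unfold Ck Bk dz
    calc ∫ ζ, ck δ (z - ζ) * ((fderiv ℝ h ζ 1 - Complex.I * fderiv ℝ h ζ Complex.I) / 2)
        = ∫ ζ, ((1 / 2 : ℂ) * (ck δ (z - ζ) * fderiv ℝ h ζ 1)
            + (-Complex.I / 2) * (ck δ (z - ζ) * fderiv ℝ h ζ Complex.I)) := by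
          refine integral_congr_ae (Eventually.of_forall fun ζ => ?_)
          simp only
          ring
      _ = (1 / 2 : ℂ) * (∫ ζ, fderiv ℝ (ck δ) (z - ζ) 1 * h ζ)
            + (-Complex.I / 2) * ∫ ζ, fderiv ℝ (ck δ) (z - ζ) Complex.I * h ζ := by
          rw [integral_add (a1.const_mul _) (a2.const_mul _), integral_const_mul,
            integral_const_mul, c1, c2]
      _ = ∫ ζ, ((1 / 2 : ℂ) * (fderiv ℝ (ck δ) (z - ζ) 1 * h ζ)
            + (-Complex.I / 2) * (fderiv ℝ (ck δ) (z - ζ) Complex.I * h ζ)) := by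
          rw [integral_add (b1.const_mul _) (b2.const_mul _), integral_const_mul,
            integral_const_mul]
      _ = ∫ ζ, bk δ (z - ζ) * h ζ := by
          refine integral_congr_ae (Eventually.of_forall fun ζ => ?_)
          simp only
          rw [← q2]
          ring
end Pool.Agent.Split938.J7a
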