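import Pool.Agent.Split938.Defs

set_option autoImplicit false
open MeasureTheory Metric Set Filter Topology

namespace Pool.Agent.Split938.J7b

theorem rad_int : ∫ y in Ioi (0 : ℝ), y * (Real.pi⁻¹ * (1 / (y ^ 2 + 1) ^ 2)) = Real.pi⁻¹ / 2 := by
  have hd : ∀ x ∈ Ici (0 : ℝ), HasDerivAt (fun y : ℝ => -(Real.pi⁻¹ / 2) * (y ^ 2 + 1)⁻¹)
      (x * (Real.pi⁻¹ * (1 / (x ^ 2 + 1) ^ 2))) x := by
    intro x _
    have h0 : x ^ 2 + 1 ≠ 0 := by positivity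
    have h1 : HasDerivAt (fun y : ℝ => y ^ 2 + 1) (2 * x) x := by
      have := (hasDerivAt_pow 2 x).add_const 1
      refine this.congr_deriv ?_
      push_cast
      ring
    refine ((h1.fun_inv h0).const_mul (-(Real.pi⁻¹ / 2))).congr_deriv ?_
    field_simp
  have hpos : ∀ x ∈ Ioi (0 : ℝ), 0 ≤ x * (Real.pi⁻¹ * (1 / (x ^ 2 + 1) ^ 2)) := by
    intro x hx
    have hx' : 0 < x := hx
    have := Real.pi_pos
    positivity
  have hlim : Tendsto (fun y : ℝ => -(Real.pi⁻¹ / 2) * (y ^ 2 + 1)⁻¹) atTop (𝓝 0) := by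
    have h1 : Tendsto (fun y : ℝ => y ^ 2 + 1) atTop atTop :=
      tendsto_atTop_add_const_right _ _ (tendsto_pow_atTop two_ne_zero)
    have h2 := (tendsto_inv_atTop_zero.comp h1).const_mul (-(Real.pi⁻¹ / 2))
    rw [mul_zero] at h2
    exact h2
  rw [integral_Ioi_of_hasDerivAt_of_nonneg' hd hpos hlim]
  norm_num

theorem phi_int : ∫ w : ℂ, Real.pi⁻¹ * (1 / (‖w‖ ^ 2 + 1) ^ 2) = 1 := by
  have h := integral_fun_norm_addHaar (volume : Measure ℂ)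
    (fun r : ℝ => Real.pi⁻¹ * (1 / (r ^ 2 + 1) ^ 2))
  beta_reduce at h
  rw [h, Complex.finrank_real_complex]
  have h1 : (volume : Measure ℂ).real (ball 0 1) = Real.pi := by
    unfold Measure.real
    rw [Complex.volume_ball]
    simp
  have h2 : ∫ y in Ioi (0 : ℝ), y ^ (2 - 1) • (Real.pi⁻¹ * (1 / (y ^ 2 + 1) ^ 2)) =
      Real.pi⁻¹ / 2 := by
    rw [← rad_int]
    refine setIntegral_congr_fun measurableSet_Ioi fun y _ => ?_
    simp
  rw [h1, h2, nsmul_eq_mul, smul_eq_mul]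
  have := Real.pi_ne_zero
  push_cast
  field_simp

theorem phi_decay : Tendsto (fun w : ℂ => ‖w‖ ^ (Module.finrank ℝ ℂ) *
    (Real.pi⁻¹ * (1 / (‖w‖ ^ 2 + 1) ^ 2))) (Bornology.cobounded ℂ) (𝓝 0) := by
  rw [Complex.finrank_real_complex]
  have h1 : Tendsto (fun y : ℝ => y ^ 2 + 1) atTop atTop :=
    tendsto_atTop_add_const_right _ _ (tendsto_pow_atTop two_ne_zero)
  have h2 := (tendsto_inv_atTop_zero.comp h1).const_mul (Real.pi⁻¹)
  rw [mul_zero] at h2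
  have h3 := h2.comp (tendsto_norm_cobounded_atTop (E := ℂ))
  refine squeeze_zero (fun w => ?_) (fun w => ?_) h3
  · have := Real.pi_pos
    positivity
  · have hpi := inv_pos.2 Real.pi_pos
    change ‖w‖ ^ 2 * (Real.pi⁻¹ * (1 / (‖w‖ ^ 2 + 1) ^ 2)) ≤ Real.pi⁻¹ * (‖w‖ ^ 2 + 1)⁻¹
    have h0 : 0 < ‖w‖ ^ 2 + 1 := by positivity
    have h4 : ‖w‖ ^ 2 * (Real.pi⁻¹ * (1 / (‖w‖ ^ 2 + 1) ^ 2)) =
        Real.pi⁻¹ * (‖w‖ ^ 2 / (‖w‖ ^ 2 + 1) ^ 2) := by ring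
    rw [h4]
    refine mul_le_mul_of_nonneg_left ?_ hpi.le
    rw [inv_eq_one_div, div_le_div_iff₀ (by positivity) h0]
    nlinarith [sq_nonneg ‖w‖]

/-- `pk δ` is an approximate identity -/
theorem main (h : ℂ → ℂ) (hh : Continuous h) (hc : HasCompactSupport h) (z : ℂ) :
    Tendsto (fun δ => Pk δ h z) (𝓝[>] 0) (𝓝 (h z)) := by
  have hint : Integrable h := hh.integrable_of_hasCompactSupport hc
  have key := tendsto_integral_comp_smul_smul_of_integrable' (μ := (volume : Measure ℂ))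
    (φ := fun w : ℂ => Real.pi⁻¹ * (1 / (‖w‖ ^ 2 + 1) ^ 2)) (fun w => by
      have := Real.pi_pos
      positivity) phi_int phi_decay (x₀ := z) hint hh.continuousAt
  have key2 := key.comp (tendsto_inv_nhdsGT_zero (𝕜 := ℝ))
  refine key2.congr' ?_
  filter_upwards [self_mem_nhdsWithin] with δ hδ
  have hδ' : 0 < δ := hδ
  unfold Pk
  change ∫ x : ℂ, ((δ⁻¹) ^ Module.finrank ℝ ℂ *
    (Real.pi⁻¹ * (1 / (‖δ⁻¹ • (z - x)‖ ^ 2 + 1) ^ 2))) • h x = _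
  refine integral_congr_ae (Filter.Eventually.of_forall fun x => ?_)
  beta_reduce
  rw [Complex.finrank_real_complex, norm_smul, Real.norm_of_nonneg (inv_nonneg.2 hδ'.le),
    Complex.real_smul]
  unfold pk
  congr 2
  have h1 : (δ⁻¹ * ‖z - x‖) ^ 2 + 1 = (‖z - x‖ ^ 2 + δ ^ 2) / δ ^ 2 := by
    field_simp
  have h2 : 0 < ‖z - x‖ ^ 2 + δ ^ 2 := by positivity
  rw [h1]
  field_simp

end Pool.Agent.Split938.J7b
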