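import Pool.Agent.Split938.Defs

set_option autoImplicit false
open MeasureTheory Metric Set Filter Topology

namespace Pool.Agent.Split938.J7c

theorem locInt : LocallyIntegrable (fun w : ℂ => w⁻¹) volume := by
  intro x
  refine ⟨ball 0 (‖x‖ + 1), isOpen_ball.mem_nhds (by simp), ?_⟩
  have h1 : IntegrableOn (fun w : ℂ => (‖w‖)⁻¹) (ball 0 (‖x‖ + 1)) volume := by
    refine (integrableOn_fun_norm_addHaar (volume : Measure ℂ) (f := fun r : ℝ => r⁻¹)).2 ?_
    rw [Complex.finrank_real_complex]
    have : IntegrableOn (fun _ : ℝ => (1 : ℝ)) (Ioo 0 (‖x‖ + 1)) := by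
      refine integrableOn_const ?_ 
      simp
    refine this.congr_fun ?_ measurableSet_Ioo
    intro y hy
    have : y ≠ 0 := hy.1.ne'
    simp [this]
  refine h1.mono' (by fun_prop) ?_
  filter_upwards with w
  simp

theorem intg (h : ℂ → ℂ) (hh : Continuous h) (hc : HasCompactSupport h) (z : ℂ) :
    Integrable (fun ζ => (z - ζ)⁻¹ * h ζ) :=
  (hc.convolutionExists_right (ContinuousLinearMap.mul ℝ ℂ) locInt hh z).integrable_swap

theorem cont (h : ℂ → ℂ) (hh : Continuous h) (hc : HasCompactSupport h) : Continuous (C0 h) := by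
  have h1 : Continuous (fun z => ∫ t : ℂ, t⁻¹ * h (z - t)) :=
    hc.continuous_convolution_right (ContinuousLinearMap.mul ℝ ℂ) locInt hh
  have h2 : ∀ z, ∫ t : ℂ, t⁻¹ * h (z - t) = ∫ ζ : ℂ, (z - ζ)⁻¹ * h ζ := by
    intro z
    rw [← integral_sub_left_eq_self (fun t : ℂ => t⁻¹ * h (z - t)) volume z]
    simp
  unfold C0
  simp_rw [← h2]
  exact continuous_const.mul h1

theorem lim (h : ℂ → ℂ) (hh : Continuous h) (hc : HasCompactSupport h) (z : ℂ) :
    Tendsto (fun δ => Ck δ h z) (𝓝[>] 0) (𝓝 (C0 h z)) := by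
  have h0 : C0 h z = ∫ ζ : ℂ, (Real.pi : ℂ)⁻¹ * ((z - ζ)⁻¹ * h ζ) := by
    unfold C0
    rw [integral_const_mul]
  rw [h0]
  unfold Ck
  refine tendsto_integral_filter_of_dominated_convergence
    (fun ζ => ‖(Real.pi : ℂ)⁻¹ * ((z - ζ)⁻¹ * h ζ)‖) ?_ ?_ ?_ ?_
  · filter_upwards with δ
    refine AEStronglyMeasurable.mul ?_ hh.aestronglyMeasurable
    refine Measurable.aestronglyMeasurable ?_
    unfold ck
    have : Measurable (starRingEnd ℂ) := Complex.continuous_conj.measurable
    fun_prop
  · filter_upwards with δ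
    filter_upwards with ζ
    rw [norm_mul, ← mul_assoc, norm_mul]
    refine mul_le_mul_of_nonneg_right ?_ (norm_nonneg _)
    unfold ck
    rw [norm_mul, norm_mul]
    refine mul_le_mul_of_nonneg_left ?_ (norm_nonneg _)
    generalize z - ζ = w
    rw [norm_div, RCLike.norm_conj, norm_inv, Complex.norm_real, Real.norm_of_nonneg (by positivity)]
    by_cases hw : w = 0
    · simp [hw]
    · have hw' : 0 < ‖w‖ := norm_pos_iff.2 hw
      rw [inv_eq_one_div, div_le_div_iff₀ (by positivity) hw']
      nlinarith [sq_nonneg δ]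
  · exact ((intg h hh hc z).const_mul _).norm
  · filter_upwards with ζ
    rw [← mul_assoc]
    refine Tendsto.mul_const _ ?_
    generalize z - ζ = w
    unfold ck
    refine Tendsto.const_mul _ ?_
    by_cases hw : w = 0
    · simp [hw]
    · have h1 : w⁻¹ = (starRingEnd ℂ) w / ((‖w‖ ^ 2 + 0 ^ 2 : ℝ) : ℂ) := by
        have hn : (‖w‖ : ℂ) ≠ 0 := by simpa using hw
        rw [Complex.inv_def, Complex.normSq_eq_norm_sq]
        push_cast
        field_simp
        simp
      rw [h1]
      have hcont : ContinuousAt (fun δ : ℝ => (starRingEnd ℂ) w / ((‖w‖ ^ 2 + δ ^ 2 : ℝ) : ℂ)) 0 := by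
        refine ContinuousAt.div continuousAt_const ?_ ?_
        · fun_prop
        · have hw' : 0 < ‖w‖ := norm_pos_iff.2 hw
          have : (‖w‖ ^ 2 + 0 ^ 2 : ℝ) ≠ 0 := by positivity
          exact_mod_cast this
      exact hcont.tendsto.mono_left nhdsWithin_le_nhds

theorem hol (h : ℂ → ℂ) (hh : Continuous h) (hc : HasCompactSupport h) :
    DifferentiableOn ℂ (C0 h) (tsupport h)ᶜ := by
  intro z0 hz0
  refine DifferentiableAt.differentiableWithinAt ?_
  obtain ⟨r, hr, hb⟩ := Metric.isOpen_iff.1 (isClosed_tsupport h).isOpen_compl z0 hz0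
  have hfar : ∀ z ∈ ball z0 (r / 2), ∀ ζ, h ζ ≠ 0 → r / 2 ≤ ‖z - ζ‖ := by
    intro z hz ζ hζ
    by_contra hcon
    push Not at hcon
    have h1 : ζ ∈ ball z0 r := by
      rw [mem_ball] at hz ⊢
      calc dist ζ z0 ≤ dist ζ z + dist z z0 := dist_triangle _ _ _
        _ < r / 2 + r / 2 := by
          refine add_lt_add ?_ hz
          rw [dist_comm, dist_eq_norm]; exact hcon
        _ = r := by ring
    exact hb h1 (subset_tsupport _ hζ)
  have key := hasDerivAt_integral_of_dominated_loc_of_deriv_le (𝕜 := ℂ) (μ := (volume : Measure ℂ))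
    (F := fun z ζ => (z - ζ)⁻¹ * h ζ) (F' := fun z ζ => (-((z - ζ) ^ 2)⁻¹) * h ζ) (x₀ := z0)
    (s := ball z0 (r / 2)) (bound := fun ζ => ((r / 2) ^ 2)⁻¹ * ‖h ζ‖)
    (ball_mem_nhds _ (by positivity))
    (Eventually.of_forall fun z => (intg h hh hc z).aestronglyMeasurable)
    (intg h hh hc z0)
    (by
      refine AEStronglyMeasurable.mul ?_ hh.aestronglyMeasurable
      refine Measurable.aestronglyMeasurable ?_
      fun_prop)
    (by
      filter_upwards with ζ z hz
      by_cases hζ : h ζ = 0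
      · simp [hζ]
      · have h1 := hfar z hz ζ hζ
        rw [norm_mul, norm_neg, norm_inv, norm_pow]
        refine mul_le_mul_of_nonneg_right ?_ (norm_nonneg _)
        refine inv_anti₀ (by positivity) ?_
        exact pow_le_pow_left₀ (by positivity) h1 2)
    ((hh.integrable_of_hasCompactSupport hc).norm.const_mul _)
    (by
      filter_upwards with ζ z hz
      by_cases hζ : h ζ = 0
      · simp only [hζ, mul_zero]
        exact hasDerivAt_const _ _
      · have h1 := hfar z hz ζ hζ
        have h2 : z - ζ ≠ 0 := by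
          intro h0
          rw [h0, norm_zero] at h1
          linarith
        have h3 : HasDerivAt (fun z : ℂ => z - ζ) 1 z := (hasDerivAt_id z).sub_const ζ
        have h4 := (h3.inv h2).mul_const (h ζ)
        have h5 : (-((z - ζ) ^ 2)⁻¹) * h ζ = -1 / (z - ζ) ^ 2 * h ζ := by
          rw [neg_div, one_div]
        rw [h5]
        exact h4)
  unfold C0
  exact (key.2.differentiableAt).const_mul _

/-- the Cauchy transform of a continuous compactly supported function -/
theorem main (h : ℂ → ℂ) (hh : Continuous h) (hc : HasCompactSupport h) :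
    (∀ z, Tendsto (fun δ => Ck δ h z) (𝓝[>] 0) (𝓝 (C0 h z))) ∧ Continuous (C0 h) ∧
    DifferentiableOn ℂ (C0 h) (tsupport h)ᶜ :=
  ⟨lim h hh hc, cont h hh hc, hol h hh hc⟩

end Pool.Agent.Split938.J7c
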