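import Pool.Agent.Split938.Defs

set_option autoImplicit false
open MeasureTheory Metric Set Filter Topology

namespace Pool.Agent.Split938.J7d

theorem ker_ball (r : ℝ) : IntegrableOn (fun w : ℂ => w⁻¹) (ball (0 : ℂ) r) volume := by
  have h1 : IntegrableOn (fun w : ℂ => (fun y : ℝ => y⁻¹) ‖w‖) (ball (0 : ℂ) r) volume := by
    rw [integrableOn_fun_norm_addHaar (volume : Measure ℂ) (f := fun y : ℝ => y⁻¹) (r := r)]
    have h2 : IntegrableOn (fun _ : ℝ => (1 : ℝ)) (Ioo 0 r) volume :=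
      (continuous_const.integrableOn_Icc (a := 0) (b := r)).mono_set Ioo_subset_Icc_self
    refine h2.congr_fun ?_ measurableSet_Ioo
    intro y hy
    have hy0 : y ≠ 0 := hy.1.ne'
    show (1 : ℝ) = y ^ (Module.finrank ℝ ℂ - 1) • y⁻¹
    rw [Complex.finrank_real_complex]
    simp [hy0]
  refine Integrable.mono' h1 ?_ ?_
  · exact (measurable_id.inv).aestronglyMeasurable
  · filter_upwards with w
    rw [norm_inv]

theorem ker_li : LocallyIntegrable (fun w : ℂ => w⁻¹) volume := by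
  intro x
  refine ⟨ball 0 (‖x‖ + 1), ?_, ker_ball _⟩
  apply isOpen_ball.mem_nhds
  rw [mem_ball_zero_iff]
  linarith

theorem C0_conv (E : ℂ → ℂ) (z : ℂ) :
    C0 E z = (Real.pi : ℂ)⁻¹ *
      convolution (fun w : ℂ => w⁻¹) E (ContinuousLinearMap.mul ℝ ℂ) volume z := by
  unfold C0 convolution
  congr 1
  rw [← integral_sub_left_eq_self (fun t : ℂ => (ContinuousLinearMap.mul ℝ ℂ) t⁻¹ (E (z - t)))
    volume z]
  congr 1
  funext ζ
  show (z - ζ)⁻¹ * E ζ = (z - ζ)⁻¹ * E (z - (z - ζ))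
  rw [sub_sub_cancel]

theorem C0_cont (E : ℂ → ℂ) (h1 : Continuous E) (h2 : HasCompactSupport E) :
    Continuous (C0 E) := by
  have h3 := h2.continuous_convolution_right (ContinuousLinearMap.mul ℝ ℂ) ker_li h1
  have h4 : C0 E = fun z => (Real.pi : ℂ)⁻¹ *
      convolution (fun w : ℂ => w⁻¹) E (ContinuousLinearMap.mul ℝ ℂ) volume z :=
    funext (C0_conv E)
  rw [h4]
  exact continuous_const.mul h3

theorem C0_int (E : ℂ → ℂ) (h1 : Continuous E) (h2 : HasCompactSupport E) (z : ℂ) :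
    Integrable (fun ζ : ℂ => (z - ζ)⁻¹ * E ζ) volume := by
  have h3 := h2.convolutionExists_right (ContinuousLinearMap.mul ℝ ℂ) ker_li h1 z
  have h4 : Integrable (fun t : ℂ => t⁻¹ * E (z - t)) volume := h3
  have h5 := h4.comp_sub_left z
  refine h5.congr ?_
  filter_upwards with ζ
  show (z - ζ)⁻¹ * E (z - (z - ζ)) = (z - ζ)⁻¹ * E ζ
  rw [sub_sub_cancel]

theorem C0_sub_mul (E F : ℂ → ℂ) (hE : Continuous E) (hE2 : HasCompactSupport E)
    (hF : Continuous F) (hF2 : HasCompactSupport F) (c : ℂ) (z : ℂ) :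
    C0 (fun ζ => (E ζ - c * F ζ) / 2) z = (C0 E z - c * C0 F z) / 2 := by
  unfold C0
  have h1 : ∀ ζ, (z - ζ)⁻¹ * ((E ζ - c * F ζ) / 2) =
      (1 / 2 : ℂ) * ((z - ζ)⁻¹ * E ζ - c * ((z - ζ)⁻¹ * F ζ)) := fun ζ => by ring
  simp only [h1]
  rw [integral_const_mul, integral_sub (C0_int E hE hE2 z) ((C0_int F hF hF2 z).const_mul c),
    integral_const_mul]
  ring

theorem C0_hasFDerivAt (ψ : ℂ → ℂ) (h1 : ContDiff ℝ 1 ψ) (h2 : HasCompactSupport ψ) (z : ℂ) :
    DifferentiableAt ℝ (C0 ψ) z ∧ ∀ v, fderiv ℝ (C0 ψ) z v = C0 (fun a => fderiv ℝ ψ a v) z := by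
  have h3 := h2.hasFDerivAt_convolution_right (ContinuousLinearMap.mul ℝ ℂ) ker_li h1 z
  have h4 : C0 ψ = fun z => (Real.pi : ℂ)⁻¹ *
      convolution (fun w : ℂ => w⁻¹) ψ (ContinuousLinearMap.mul ℝ ℂ) volume z :=
    funext (C0_conv ψ)
  have h5 := h3.const_mul ((Real.pi : ℂ)⁻¹)
  rw [← h4] at h5
  refine ⟨h5.differentiableAt, ?_⟩
  intro v
  rw [h5.fderiv, C0_conv, ← convolution_precompR_apply (ContinuousLinearMap.mul ℝ ℂ) ker_li
    (h2.fderiv ℝ) (h1.continuous_fderiv one_ne_zero)]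
  rfl

theorem prod_int (h ψ : ℂ → ℂ) (h1 : Continuous h) (h2 : HasCompactSupport h)
    (h3 : Continuous ψ) (h4 : HasCompactSupport ψ) :
    Integrable (fun p : ℂ × ℂ => ψ p.1 * ((p.1 - p.2)⁻¹ * h p.2))
      ((volume : Measure ℂ).prod volume) := by
  obtain ⟨R, hR⟩ : ∃ R : ℝ, ∀ z, R ≤ ‖z‖ → h z = 0 ∧ ψ z = 0 := by
    obtain ⟨R1, hR1⟩ := h2.isCompact.isBounded.subset_ball (0 : ℂ)
    obtain ⟨R2, hR2⟩ := h4.isCompact.isBounded.subset_ball (0 : ℂ)
    refine ⟨max R1 R2, fun z hz => ⟨?_, ?_⟩⟩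
    · apply image_eq_zero_of_notMem_tsupport
      intro hm
      have := mem_ball_zero_iff.1 (hR1 hm)
      linarith [le_max_left R1 R2]
    · apply image_eq_zero_of_notMem_tsupport
      intro hm
      have := mem_ball_zero_iff.1 (hR2 hm)
      linarith [le_max_right R1 R2]
  have hk : Integrable ((ball (0 : ℂ) (2 * R)).indicator (fun w : ℂ => w⁻¹)) volume :=
    (integrable_indicator_iff measurableSet_ball).2 (ker_ball _)
  have hh : Integrable h volume := h1.integrable_of_hasCompactSupport h2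
  have hc := hh.convolution_integrand (ContinuousLinearMap.mul ℝ ℂ) hk
  obtain ⟨C, hC⟩ := h3.bounded_above_of_compact_support h4
  have hb : Integrable (fun p : ℂ × ℂ => ψ p.1 * ((ContinuousLinearMap.mul ℝ ℂ) (h p.2)
      ((ball (0 : ℂ) (2 * R)).indicator (fun w : ℂ => w⁻¹) (p.1 - p.2))))
      ((volume : Measure ℂ).prod volume) := by
    refine hc.bdd_mul (c := C) ?_ ?_
    · exact (h3.comp continuous_fst).aestronglyMeasurable
    · filter_upwards with p
      exact hC _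
  refine hb.congr ?_
  filter_upwards with p
  show ψ p.1 * (h p.2 * ((ball (0 : ℂ) (2 * R)).indicator (fun w : ℂ => w⁻¹) (p.1 - p.2))) =
    ψ p.1 * ((p.1 - p.2)⁻¹ * h p.2)
  by_cases hp1 : R ≤ ‖p.1‖
  · rw [(hR _ hp1).2, zero_mul, zero_mul]
  · by_cases hp2 : R ≤ ‖p.2‖
    · rw [(hR _ hp2).1, zero_mul, mul_zero, mul_zero, mul_zero]
    · have hm : p.1 - p.2 ∈ ball (0 : ℂ) (2 * R) := by
        rw [mem_ball_zero_iff]
        have := norm_sub_le p.1 p.2
        push Not at hp1 hp2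
        linarith
      rw [indicator_of_mem hm]
      ring

theorem part1 (h ψ : ℂ → ℂ) (h1 : Continuous h) (h2 : HasCompactSupport h)
    (h3 : Continuous ψ) (h4 : HasCompactSupport ψ) :
    ∫ z, ψ z * C0 h z = - ∫ z, h z * C0 ψ z := by
  have hint := prod_int h ψ h1 h2 h3 h4
  have e1 : ∀ z, ψ z * C0 h z = (Real.pi : ℂ)⁻¹ * ∫ ζ : ℂ, ψ z * ((z - ζ)⁻¹ * h ζ) := by
    intro z
    unfold C0
    rw [integral_const_mul]
    ring
  have e2 : ∀ ζ, h ζ * C0 ψ ζ = -((Real.pi : ℂ)⁻¹ * ∫ z : ℂ, ψ z * ((z - ζ)⁻¹ * h ζ)) := by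
    intro ζ
    unfold C0
    have e3 : ∀ z : ℂ, ψ z * ((z - ζ)⁻¹ * h ζ) = -(h ζ * ((ζ - z)⁻¹ * ψ z)) := by
      intro z
      rw [← neg_sub ζ z, inv_neg]
      ring
    simp only [e3]
    rw [integral_neg, integral_const_mul]
    ring
  simp only [e1, e2]
  rw [integral_neg, neg_neg, integral_const_mul, integral_const_mul]
  congr 1
  exact integral_integral_swap (f := fun z ζ => ψ z * ((z - ζ)⁻¹ * h ζ)) hint

theorem by_parts (h ψ : ℂ → ℂ) (h1 : ContDiff ℝ 1 h) (h2 : HasCompactSupport h)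
    (h3 : ContDiff ℝ 1 ψ) (h4 : HasCompactSupport ψ) (v : ℂ) :
    ∫ z, h z * C0 (fun a => fderiv ℝ ψ a v) z = - ∫ z, fderiv ℝ h z v * C0 ψ z := by
  have hd := fun z => C0_hasFDerivAt ψ h3 h4 z
  have hv : Continuous (fun a => fderiv ℝ ψ a v) :=
    (h3.continuous_fderiv one_ne_zero).clm_apply continuous_const
  have hv2 : HasCompactSupport (fun a => fderiv ℝ ψ a v) := h4.fderiv_apply ℝ v
  have hw : Continuous (fun a => fderiv ℝ h a v) :=
    (h1.continuous_fderiv one_ne_zero).clm_apply continuous_const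
  have hw2 : HasCompactSupport (fun a => fderiv ℝ h a v) := h2.fderiv_apply ℝ v
  have hc1 := C0_cont ψ h3.continuous h4
  have hc2 := C0_cont _ hv hv2
  have key := integral_smul_fderiv_eq_neg_fderiv_smul_of_integrable (μ := (volume : Measure ℂ))
    (𝕜 := ℂ) (f := h) (g := C0 ψ) (v := v) ?_ ?_ ?_ ?_ ?_
  · simp only [smul_eq_mul] at key
    rw [← key]
    apply integral_congr_ae
    filter_upwards with z
    rw [(hd z).2 v]
  · exact (hw.mul hc1).integrable_of_hasCompactSupport hw2.mul_right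
  · have : (fun x => h x • fderiv ℝ (C0 ψ) x v) = fun x => h x * C0 (fun a => fderiv ℝ ψ a v) x := by
      funext x
      rw [(hd x).2 v, smul_eq_mul]
    rw [this]
    exact (h1.continuous.mul hc2).integrable_of_hasCompactSupport h2.mul_right
  · exact (h1.continuous.mul hc1).integrable_of_hasCompactSupport h2.mul_right
  · intro x _
    exact (h1.differentiable one_ne_zero) x
  · intro x _
    exact (hd x).1

/-- antisymmetry of the Cauchy transform and its `∂`-version -/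
theorem main (h ψ : ℂ → ℂ) :
    (Continuous h → HasCompactSupport h → Continuous ψ → HasCompactSupport ψ →
      ∫ z, ψ z * C0 h z = - ∫ z, h z * C0 ψ z) ∧
    (ContDiff ℝ 1 h → HasCompactSupport h → ContDiff ℝ 1 ψ → HasCompactSupport ψ →
      ∫ z, ψ z * C0 (dz h) z = ∫ z, h z * C0 (dz ψ) z) := by
  refine ⟨part1 h ψ, ?_⟩
  intro h1 h2 h3 h4
  have hcv : ∀ (E : ℂ → ℂ) (hE : ContDiff ℝ 1 E) (v : ℂ), Continuous (fun a => fderiv ℝ E a v) :=
    fun E hE v => (hE.continuous_fderiv one_ne_zero).clm_apply continuous_const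
  have hcs : ∀ (E : ℂ → ℂ) (hE : HasCompactSupport E) (v : ℂ),
      HasCompactSupport (fun a => fderiv ℝ E a v) := fun E hE v => hE.fderiv_apply ℝ v
  have hdz : Continuous (dz h) := by
    unfold dz
    exact ((hcv h h1 1).sub (continuous_const.mul (hcv h h1 Complex.I))).div_const 2
  have hdzs : HasCompactSupport (dz h) := by
    have e1 : dz h = fun z => (1 / 2 : ℂ) * (fderiv ℝ h z 1 + (-Complex.I) * fderiv ℝ h z Complex.I) := by
      funext z
      unfold dz
      ring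
    rw [e1]
    exact ((hcs h h2 1).add ((hcs h h2 Complex.I).mul_left)).mul_left
  have p1 := part1 (dz h) ψ hdz hdzs h3.continuous h4
  rw [p1]
  have b1 := by_parts h ψ h1 h2 h3 h4 1
  have b2 := by_parts h ψ h1 h2 h3 h4 Complex.I
  have hc1 := C0_cont ψ h3.continuous h4
  have e2 : ∀ z, h z * C0 (dz ψ) z = (1 / 2 : ℂ) * (h z * C0 (fun a => fderiv ℝ ψ a 1) z -
      Complex.I * (h z * C0 (fun a => fderiv ℝ ψ a Complex.I) z)) := by
    intro z
    have e3 : C0 (dz ψ) z = (C0 (fun a => fderiv ℝ ψ a 1) z -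
        Complex.I * C0 (fun a => fderiv ℝ ψ a Complex.I) z) / 2 :=
      C0_sub_mul _ _ (hcv ψ h3 1) (hcs ψ h4 1) (hcv ψ h3 _) (hcs ψ h4 _) Complex.I z
    rw [e3]
    ring
  have e4 : ∀ z, dz h z * C0 ψ z = (1 / 2 : ℂ) * (fderiv ℝ h z 1 * C0 ψ z -
      Complex.I * (fderiv ℝ h z Complex.I * C0 ψ z)) := by
    intro z
    unfold dz
    ring
  simp only [e2, e4]
  rw [integral_const_mul, integral_const_mul, integral_sub, integral_sub, integral_const_mul,
    integral_const_mul, b1, b2]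
  · ring
  · exact (h1.continuous.mul (C0_cont _ (hcv ψ h3 1) (hcs ψ h4 1))).integrable_of_hasCompactSupport
      h2.mul_right
  · exact ((h1.continuous.mul (C0_cont _ (hcv ψ h3 _) (hcs ψ h4 _))).integrable_of_hasCompactSupport
      h2.mul_right).const_mul _
  · exact ((hcv h h1 1).mul hc1).integrable_of_hasCompactSupport (hcs h h2 1).mul_right
  · exact (((hcv h h1 Complex.I).mul hc1).integrable_of_hasCompactSupport
      (hcs h h2 Complex.I).mul_right).const_mul _

end Pool.Agent.Split938.J7d
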