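import Pool.Agent.Split938.Basic
import Pool.Agent.Split938.Chain
import Pool.Agent.Split938.J4
import Pool.Agent.Split938.J5a
import Pool.Agent.Split938.J5b
import Pool.Agent.Split938.J7a
import Pool.Agent.Split938.J7b
import Pool.Agent.Split938.J7c
import Pool.Agent.Split938.J7d

set_option autoImplicit false
open MeasureTheory Metric Set Filter Topology

namespace Pool.Agent.Split938

theorem C0_dbar {h : ℂ → ℂ} (hh : ContDiff ℝ 1 h) (hc : HasCompactSupport h) (z : ℂ) :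
    C0 (dbar h) z = h z := by
  have h1 := (J7c.main (dbar h) (dbar_continuous hh) (dbar_hcs hc)).1 z
  have h2 := J7b.main h hh.continuous hc z
  refine tendsto_nhds_unique (h1.congr' ?_) h2
  filter_upwards [self_mem_nhdsWithin] with δ hδ
  exact (J7a.main δ hδ h hh hc z).1

theorem Bk_lim {h : ℂ → ℂ} (hh : ContDiff ℝ 1 h) (hc : HasCompactSupport h) (z : ℂ) :
    Tendsto (fun δ => Bk δ h z) (𝓝[>] 0) (𝓝 (C0 (dz h) z)) := by
  have h1 := (J7c.main (dz h) (dz_continuous hh) (dz_hcs hc)).1 z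
  refine h1.congr' ?_
  filter_upwards [self_mem_nhdsWithin] with δ hδ
  exact (J7a.main δ hδ h hh hc z).2

theorem C0_add {h h' : ℂ → ℂ} (hh : Continuous h) (hc : HasCompactSupport h)
    (hh' : Continuous h') (hc' : HasCompactSupport h') (z : ℂ) :
    C0 (fun ζ => h ζ + h' ζ) z = C0 h z + C0 h' z := by
  have h1 := (J7c.main (fun ζ => h ζ + h' ζ) (hh.add hh') (hc.add hc')).1 z
  have h2 := ((J7c.main h hh hc).1 z).add ((J7c.main h' hh' hc').1 z)
  refine tendsto_nhds_unique (h1.congr' ?_) h2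
  filter_upwards [self_mem_nhdsWithin] with δ hδ
  exact Ck_add hδ (hh.integrable_of_hasCompactSupport hc)
    (hh'.integrable_of_hasCompactSupport hc') z

theorem C0_const_mul (c : ℂ) (h : ℂ → ℂ) (z : ℂ) :
    C0 (fun ζ => c * h ζ) z = c * C0 h z := by
  unfold C0
  have : (fun ζ => (z - ζ)⁻¹ * (c * h ζ)) = fun ζ => c * ((z - ζ)⁻¹ * h ζ) := by
    ext ζ; ring
  rw [this, integral_const_mul]
  ring

/-- test functions off `F` -/
def T (F : Set ℂ) : Submodule ℂ (ℂ → ℂ) where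
  carrier := {P | ContDiff ℝ 2 P ∧ HasCompactSupport P ∧ Disjoint (tsupport P) F}
  add_mem' := by
    rintro P Q ⟨h1, h2, h3⟩ ⟨g1, g2, g3⟩
    refine ⟨h1.add g1, h2.add g2, ?_⟩
    exact (h3.sup_left g3).mono_left (tsupport_add P Q)
  zero_mem' := by
    refine ⟨contDiff_const, HasCompactSupport.zero, ?_⟩
    have : tsupport (0 : ℂ → ℂ) = ∅ := by simp [tsupport]
    rw [this]; exact disjoint_bot_left
  smul_mem' := by
    rintro c P ⟨h1, h2, h3⟩
    refine ⟨contDiff_const.smul h1, ?_, ?_⟩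
    · exact h2.smul_left (f := fun _ => c)
    · refine h3.mono_left (closure_mono ?_)
      intro z hz
      simp only [Function.mem_support, Pi.smul_apply, smul_eq_mul, ne_eq, mul_eq_zero, not_or] at hz ⊢
      exact hz.2

theorem cd1 {P : ℂ → ℂ} (h : ContDiff ℝ 2 P) : ContDiff ℝ 1 P := h.of_le (by norm_num)

theorem dfa {P : ℂ → ℂ} (h : ContDiff ℝ 2 P) (z : ℂ) : DifferentiableAt ℝ P z :=
  (h.differentiable (by norm_num)).differentiableAt

/-- `E₀` -/
noncomputable def e₀ (F : Set ℂ) : (T F × T F) →ₗ[ℂ] (ℂ → ℂ) where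
  toFun v := fun z => dbar v.1 z + dz v.2 z
  map_add' := by
    rintro ⟨⟨P, hP⟩, ⟨Q, hQ⟩⟩ ⟨⟨P', hP'⟩, ⟨Q', hQ'⟩⟩
    ext z
    simp only [Prod.mk_add_mk, AddMemClass.mk_add_mk, Pi.add_apply]
    have h1 : dbar (P + P') z = dbar P z + dbar P' z := dbar_add (dfa hP.1 z) (dfa hP'.1 z)
    have h2 : dz (Q + Q') z = dz Q z + dz Q' z := dz_add (dfa hQ.1 z) (dfa hQ'.1 z)
    rw [h1, h2]; ring
  map_smul' := by
    rintro c ⟨⟨P, hP⟩, ⟨Q, hQ⟩⟩
    ext z
    simp only [Prod.smul_mk, SetLike.mk_smul_mk, Pi.smul_apply, smul_eq_mul, RingHom.id_apply]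
    have h1 : dbar (c • P) z = c * dbar P z := dbar_const_mul c (dfa hP.1 z)
    have h2 : dz (c • Q) z = c * dz Q z := dz_const_mul c (dfa hQ.1 z)
    rw [h1, h2]; ring

/-- `E₁` -/
noncomputable def e₁ (F : Set ℂ) : (T F × T F) →ₗ[ℂ] (ℂ → ℂ) where
  toFun v := v.2
  map_add' := by intros; rfl
  map_smul' := by intros; rfl

end Pool.Agent.Split938
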