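import Pool.Agent.Split938.Loc

set_option autoImplicit false
open MeasureTheory Metric Set Filter Topology

namespace Pool.Agent.Split938

section

variable {S : Set ℂ} {f g χ : ℂ → ℂ}

theorem cda_f (hS : IsClosed S) (hd : ∀ z ∉ S, HasDerivAt f (g z) z) {z : ℂ} (hz : z ∉ S) :
    ContDiffAt ℝ 2 f z := by
  have h1 : DifferentiableOn ℂ f Sᶜ := fun w hw =>
    (hd w hw).differentiableAt.differentiableWithinAt
  have h2 : ContDiffOn ℂ 2 f Sᶜ := h1.contDiffOn hS.isOpen_compl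
  have h3 : ContDiffAt ℂ 2 f z := h2.contDiffAt (hS.isOpen_compl.mem_nhds hz)
  exact h3.restrict_scalars ℝ

/-- the three possible positions of a point -/
theorem cases3 {F : Set ℂ} (hF : F = S ∩ tsupport χ) {P : ℂ → ℂ} (hP : P ∈ T F) (z : ℂ) :
    z ∉ tsupport P ∨ (z ∉ tsupport χ) ∨ z ∉ S := by
  by_contra h
  push Not at h
  obtain ⟨h1, h2, h3⟩ := h
  exact hP.2.2.le_bot ⟨h1, hF ▸ ⟨h3, h2⟩⟩

theorem ev0 {P : ℂ → ℂ} {z : ℂ} (hz : z ∉ tsupport P) : P =ᶠ[𝓝 z] fun _ => 0 :=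
  notMem_tsupport_iff_eventuallyEq.1 hz

theorem prod_reg (hS : IsClosed S) (hd : ∀ z ∉ S, HasDerivAt f (g z) z)
    (hχ : ContDiff ℝ 2 χ) {F : Set ℂ} (hF : F = S ∩ tsupport χ) {P : ℂ → ℂ} (hP : P ∈ T F) :
    ContDiff ℝ 2 (fun z => (χ z * f z) * P z) := by
  rw [contDiff_iff_contDiffAt]
  intro z
  rcases cases3 hF hP z with h | h | h
  · have : (fun z => (χ z * f z) * P z) =ᶠ[𝓝 z] fun _ => 0 := by
      filter_upwards [ev0 h] with w hw
      rw [hw, mul_zero]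
    exact contDiffAt_const.congr_of_eventuallyEq this
  · have : (fun z => (χ z * f z) * P z) =ᶠ[𝓝 z] fun _ => 0 := by
      filter_upwards [ev0 h] with w hw
      rw [hw, zero_mul, zero_mul]
    exact contDiffAt_const.congr_of_eventuallyEq this
  · exact (hχ.contDiffAt.mul (cda_f hS hd h)).mul hP.1.contDiffAt

theorem prod_hcs {F : Set ℂ} {P : ℂ → ℂ} (hP : P ∈ T F) :
    HasCompactSupport (fun z => (χ z * f z) * P z) :=
  hP.2.1.mul_left

theorem prod_dbar (hS : IsClosed S) (hd : ∀ z ∉ S, HasDerivAt f (g z) z)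
    (hχ : ContDiff ℝ 2 χ) {F : Set ℂ} (hF : F = S ∩ tsupport χ) {P : ℂ → ℂ} (hP : P ∈ T F) (z : ℂ) :
    dbar (fun z => (χ z * f z) * P z) z = (χ z * f z) * dbar P z + f z * dbar χ z * P z := by
  rcases cases3 hF hP z with h | h | h
  · have : (fun z => (χ z * f z) * P z) =ᶠ[𝓝 z] fun _ => 0 := by
      filter_upwards [ev0 h] with w hw
      rw [hw, mul_zero]
    rw [dbar_congr this, dbar_zero_off h, (ev0 h).self_of_nhds]
    simp [dbar]
  · have : (fun z => (χ z * f z) * P z) =ᶠ[𝓝 z] fun _ => 0 := by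
      filter_upwards [ev0 h] with w hw
      rw [hw, zero_mul, zero_mul]
    rw [dbar_congr this, dbar_zero_off h, (ev0 h).self_of_nhds]
    simp [dbar]
  · have hfd : DifferentiableAt ℝ f z := (cda_f hS hd h).differentiableAt (by norm_num)
    have hm : DifferentiableAt ℝ (fun z => χ z * f z) z := (dfa hχ z).mul hfd
    rw [dbar_mul hm (dfa hP.1 z), dbar_mul (dfa hχ z) hfd,
      dbar_of_hasDerivAt (hd z h)]
    ring

theorem prod_dz (hS : IsClosed S) (hd : ∀ z ∉ S, HasDerivAt f (g z) z)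
    (hχ : ContDiff ℝ 2 χ) {F : Set ℂ} (hF : F = S ∩ tsupport χ) {P : ℂ → ℂ} (hP : P ∈ T F) (z : ℂ) :
    dz (fun z => (χ z * f z) * P z) z =
      (χ z * f z) * dz P z + (dz χ z * f z + χ z * g z) * P z := by
  rcases cases3 hF hP z with h | h | h
  · have : (fun z => (χ z * f z) * P z) =ᶠ[𝓝 z] fun _ => 0 := by
      filter_upwards [ev0 h] with w hw
      rw [hw, mul_zero]
    rw [dz_congr this, dz_zero_off h, (ev0 h).self_of_nhds]
    simp [dz]
  · have : (fun z => (χ z * f z) * P z) =ᶠ[𝓝 z] fun _ => 0 := by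
      filter_upwards [ev0 h] with w hw
      rw [hw, zero_mul, zero_mul]
    rw [dz_congr this, dz_zero_off h, (ev0 h).self_of_nhds]
    simp [dz]
  · have hfd : DifferentiableAt ℝ f z := (cda_f hS hd h).differentiableAt (by norm_num)
    have hm : DifferentiableAt ℝ (fun z => χ z * f z) z := (dfa hχ z).mul hfd
    rw [dz_mul hm (dfa hP.1 z), dz_mul (dfa hχ z) hfd,
      dz_of_hasDerivAt (hd z h)]
    ring

/-- the boundary term -/
noncomputable def wP (f χ P : ℂ → ℂ) (z : ℂ) : ℂ := f z * dbar χ z * P z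

theorem wP_cont (hf : Continuous f) (hχ : ContDiff ℝ 2 χ) {F : Set ℂ} {P : ℂ → ℂ} (hP : P ∈ T F) :
    Continuous (wP f χ P) :=
  (hf.mul (dbar_continuous (cd1 hχ))).mul hP.1.continuous

theorem wP_hcs {F : Set ℂ} {P : ℂ → ℂ} (hP : P ∈ T F) :
    HasCompactSupport (wP f χ P) :=
  hP.2.1.mul_left

/-- the identity `kP = C0(kE₀+mE₁) + C0(w_P) - C0(∂(kE₁))` -/
theorem identity (hS : IsClosed S) (hf : Continuous f) (hg : Continuous g)
    (hd : ∀ z ∉ S, HasDerivAt f (g z) z)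
    (hχ : ContDiff ℝ 2 χ) {F : Set ℂ} (hF : F = S ∩ tsupport χ) {P Q : ℂ → ℂ} (hP : P ∈ T F)
    (hQ : Q ∈ T F) (z : ℂ) :
    (χ z * f z) * P z =
      C0 (fun ζ => (χ ζ * f ζ) * (dbar P ζ + dz Q ζ) + (dz χ ζ * f ζ + χ ζ * g ζ) * Q ζ) z +
      C0 (wP f χ P) z - C0 (dz (fun z => (χ z * f z) * Q z)) z := by
  have r1 := prod_reg hS hd hχ hF hP
  have r2 := prod_reg hS hd hχ hF hQ
  have c1 := prod_hcs (f := f) (χ := χ) hP
  have c2 := prod_hcs (f := f) (χ := χ) hQ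
  have e1 := C0_dbar (cd1 r1) c1 z
  have k1 : Continuous fun ζ => (χ ζ * f ζ) * (dbar P ζ + dz Q ζ) +
      (dz χ ζ * f ζ + χ ζ * g ζ) * Q ζ := by
    have := hχ.continuous
    have := dbar_continuous (cd1 hP.1)
    have := dz_continuous (cd1 hQ.1)
    have := dz_continuous (cd1 hχ)
    have := hQ.1.continuous
    fun_prop
  have k2 : HasCompactSupport fun ζ => (χ ζ * f ζ) * (dbar P ζ + dz Q ζ) +
      (dz χ ζ * f ζ + χ ζ * g ζ) * Q ζ := by
    apply HasCompactSupport.add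
    · exact ((dbar_hcs hP.2.1).add (dz_hcs hQ.2.1)).mul_left
    · exact hQ.2.1.mul_left
  have e2 := C0_add k1 k2 (wP_cont hf hχ hP) (wP_hcs (f := f) (χ := χ) hP) z
  have e3 := C0_add (dbar_continuous (cd1 r1)) (dbar_hcs c1) (dz_continuous (cd1 r2)) (dz_hcs c2) z
  have e4 : (fun ζ => dbar (fun z => (χ z * f z) * P z) ζ + dz (fun z => (χ z * f z) * Q z) ζ) =
      fun ζ => ((χ ζ * f ζ) * (dbar P ζ + dz Q ζ) +
      (dz χ ζ * f ζ + χ ζ * g ζ) * Q ζ) + wP f χ P ζ := by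
    ext ζ
    rw [prod_dbar hS hd hχ hF hP, prod_dz hS hd hχ hF hQ]
    unfold wP
    ring
  rw [e4] at e3
  rw [e2] at e3
  rw [← e1]
  linear_combination -e3

/-- the limit of `Hd` -/
theorem Hd_lim (hS : IsClosed S) (hf : Continuous f) (hg : Continuous g)
    (hd : ∀ z ∉ S, HasDerivAt f (g z) z)
    (hχ : ContDiff ℝ 2 χ) {F : Set ℂ} (hF : F = S ∩ tsupport χ) {P Q : ℂ → ℂ} (hP : P ∈ T F)
    (hQ : Q ∈ T F) (z : ℂ) :
    Tendsto (fun δ => Hd (fun z => χ z * f z) (fun z => dz χ z * f z + χ z * g z) δ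
      (fun z => dbar P z + dz Q z) Q z) (𝓝[>] 0) (𝓝 (C0 (wP f χ P) z)) := by
  have k1 : Continuous fun ζ => (χ ζ * f ζ) * (dbar P ζ + dz Q ζ) +
      (dz χ ζ * f ζ + χ ζ * g ζ) * Q ζ := by
    have := hχ.continuous
    have := dbar_continuous (cd1 hP.1)
    have := dz_continuous (cd1 hQ.1)
    have := dz_continuous (cd1 hχ)
    have := hQ.1.continuous
    fun_prop
  have k2 : HasCompactSupport fun ζ => (χ ζ * f ζ) * (dbar P ζ + dz Q ζ) +
      (dz χ ζ * f ζ + χ ζ * g ζ) * Q ζ := by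
    apply HasCompactSupport.add
    · exact ((dbar_hcs hP.2.1).add (dz_hcs hQ.2.1)).mul_left
    · exact hQ.2.1.mul_left
  have r2 := prod_reg hS hd hχ hF hQ
  have c2 := prod_hcs (f := f) (χ := χ) hQ
  have l1 := (J7c.main (fun z => dbar P z + dz Q z)
    ((dbar_continuous (cd1 hP.1)).add (dz_continuous (cd1 hQ.1)))
    ((dbar_hcs hP.2.1).add (dz_hcs hQ.2.1))).1 z
  have l2 := Bk_lim (cd1 hQ.1) hQ.2.1 z
  have l3 := (J7c.main _ k1 k2).1 z
  have l4 := Bk_lim (cd1 r2) c2 z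
  have e1 := C0_add (dbar_continuous (cd1 hP.1)) (dbar_hcs hP.2.1) (dz_continuous (cd1 hQ.1))
    (dz_hcs hQ.2.1) z
  have e2 := C0_dbar (cd1 hP.1) hP.2.1 z
  have e3 := identity hS hf hg hd hχ hF hP hQ z
  have l5 := (((l1.sub l2).const_mul (χ z * f z)).sub l3).add l4
  have e4 : (χ z * f z) * (C0 (fun z => dbar P z + dz Q z) z - C0 (dz Q) z) -
      C0 (fun ζ => (χ ζ * f ζ) * (dbar P ζ + dz Q ζ) + (dz χ ζ * f ζ + χ ζ * g ζ) * Q ζ) z +
      C0 (dz (fun z => (χ z * f z) * Q z)) z = C0 (wP f χ P) z := by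
    rw [e1, e2]
    linear_combination e3
  rw [e4] at l5
  exact l5

end

/-- Fatou in the form we need -/
theorem fatou_bound {B : Set ℂ} (hB : MeasurableSet B) {G : ℕ → ℂ → ℝ} {G' : ℂ → ℝ}
    (h0 : ∀ n z, 0 ≤ G n z) (h0' : ∀ z, 0 ≤ G' z) (hi : ∀ n, IntegrableOn (G n) B)
    (hi' : IntegrableOn G' B)
    (hl : ∀ z, Tendsto (fun n => G n z) atTop (𝓝 (G' z))) {K : ℝ} (hK : 0 ≤ K)
    (hb : ∀ n, ∫ z in B, G n z ≤ K) : ∫ z in B, G' z ≤ K := by
  have h1 : ∫⁻ z in B, ENNReal.ofReal (G' z) ≤ ENNReal.ofReal K := by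
    calc ∫⁻ z in B, ENNReal.ofReal (G' z)
        = ∫⁻ z in B, liminf (fun n => ENNReal.ofReal (G n z)) atTop := by
          congr 1; ext z
          exact ((ENNReal.continuous_ofReal.tendsto _).comp (hl z)).liminf_eq.symm
      _ ≤ liminf (fun n => ∫⁻ z in B, ENNReal.ofReal (G n z)) atTop := by
          apply lintegral_liminf_le'
          intro n
          exact (hi n).aestronglyMeasurable.aemeasurable.ennreal_ofReal
      _ ≤ ENNReal.ofReal K := by
          refine liminf_le_of_frequently_le' (Frequently.of_forall fun n => ?_)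
          rw [← ofReal_integral_eq_lintegral_ofReal (hi n) (Eventually.of_forall (h0 n))]
          exact ENNReal.ofReal_le_ofReal (hb n)
  rw [← ofReal_integral_eq_lintegral_ofReal hi' (Eventually.of_forall h0')] at h1
  exact (ENNReal.ofReal_le_ofReal_iff hK).1 h1

end Pool.Agent.Split938
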