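import Pool.Agent.Split938.Loc2

set_option autoImplicit false
open MeasureTheory Metric Set Filter Topology

namespace Pool.Agent.Split938

/-- `Λ (P, Q) = ∫ ψ C0(f ∂̄χ P)` -/
noncomputable def Lam (f χ ψ : ℂ → ℂ) (hf : Continuous f) (hχ : ContDiff ℝ 2 χ)
    (hψ : Continuous ψ) (hψc : HasCompactSupport ψ) (F : Set ℂ) : (T F × T F) →ₗ[ℂ] ℂ where
  toFun v := ∫ z, ψ z * C0 (wP f χ v.1) z
  map_add' := by
    rintro ⟨⟨P, hP⟩, Q⟩ ⟨⟨P', hP'⟩, Q'⟩
    simp only [Prod.mk_add_mk, AddMemClass.mk_add_mk]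
    have hc : ∀ {P : ℂ → ℂ}, P ∈ T F → Integrable (fun z => ψ z * C0 (wP f χ P) z) := by
      intro P hP
      apply Continuous.integrable_of_hasCompactSupport
      · exact hψ.mul (J7c.main _ (wP_cont hf hχ hP) (wP_hcs hP)).2.1
      · exact hψc.mul_right
    rw [← integral_add (hc hP) (hc hP')]
    congr 1; ext z
    have e : wP f χ (P + P') = fun ζ => wP f χ P ζ + wP f χ P' ζ := by
      ext ζ; unfold wP; simp only [Pi.add_apply]; ring
    rw [e, C0_add (wP_cont hf hχ hP) (wP_hcs hP) (wP_cont hf hχ hP') (wP_hcs hP')]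
    ring
  map_smul' := by
    rintro c ⟨⟨P, hP⟩, Q⟩
    simp only [Prod.smul_mk, SetLike.mk_smul_mk, RingHom.id_apply, smul_eq_mul]
    rw [← integral_const_mul]
    congr 1; ext z
    have e : wP f χ (c • P) = fun ζ => c * wP f χ P ζ := by
      ext ζ; unfold wP; simp only [Pi.smul_apply, smul_eq_mul]; ring
    rw [e, C0_const_mul]
    ring

theorem e0_cont {F : Set ℂ} (v : T F × T F) : Continuous (e₀ F v) ∧ HasCompactSupport (e₀ F v) := by
  obtain ⟨⟨P, hP⟩, ⟨Q, hQ⟩⟩ := v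
  exact ⟨(dbar_continuous (cd1 hP.1)).add (dz_continuous (cd1 hQ.1)),
    (dbar_hcs hP.2.1).add (dz_hcs hQ.2.1)⟩

theorem e1_cont {F : Set ℂ} (v : T F × T F) : Continuous (e₁ F v) ∧ HasCompactSupport (e₁ F v) := by
  obtain ⟨⟨P, hP⟩, ⟨Q, hQ⟩⟩ := v
  exact ⟨hQ.1.continuous, hQ.2.1⟩

/-- the basic bound for `Λ` -/
theorem Lam_bound {S : Set ℂ} (hS : IsClosed S) {f g χ : ℂ → ℂ} (hf : Continuous f)
    (hg : Continuous g) (hd : ∀ z ∉ S, HasDerivAt f (g z) z)
    (hχ : ContDiff ℝ 2 χ) (hχc : HasCompactSupport χ) {F : Set ℂ} (hF : F = S ∩ tsupport χ)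
    (a : ℂ) (ρ : ℝ) (hρ : 0 < ρ) (hχ1 : ∀ z ∈ ball a (2 * ρ), χ z = 1)
    {ψ : ℂ → ℂ} (hψ : Continuous ψ) (hψc : HasCompactSupport ψ) (hψs : tsupport ψ ⊆ ball a ρ) :
    ∃ (r : ℕ → ℝ) (C : ℝ), (∀ j, 0 < r j) ∧ ∀ v : T F × T F, ∀ J : ℕ, ∀ A₀ A₁ : ℂ → ℂ,
      ∀ γ₀ γ₁ : ℕ → ℂ → ℂ, Integrable A₀ → Integrable A₁ →
      (∀ j, Integrable (γ₀ j)) → (∀ j, Integrable (γ₁ j)) →
      (e₀ F v =ᵐ[volume] fun z => A₀ z + ∑ j ∈ Finset.range J, (γ₀ j z - Mr (r j) (γ₀ j) z)) →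
      (e₁ F v =ᵐ[volume] fun z => A₁ z + ∑ j ∈ Finset.range J, (γ₁ j z - Mr (r j) (γ₁ j) z)) →
      ‖Lam f χ ψ hf hχ hψ hψc F v‖ ≤ C * ((∫ z, ‖A₀ z‖) + (∫ z, ‖A₁ z‖) +
        ∑ j ∈ Finset.range J, (1 / 2 : ℝ) ^ j * ((∫ z, ‖γ₀ j z‖) + ∫ z, ‖γ₁ j z‖)) := by
  set k : ℂ → ℂ := fun z => χ z * f z with hk
  set m : ℂ → ℂ := fun z => dz χ z * f z + χ z * g z with hm
  have kc : Continuous k := hχ.continuous.mul hf
  have kc' : HasCompactSupport k := hχc.mul_right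
  have mc : Continuous m := ((dz_continuous (cd1 hχ)).mul hf).add (hχ.continuous.mul hg)
  have mc' : HasCompactSupport m := ((dz_hcs hχc).mul_right).add (hχc.mul_right)
  set R : ℝ := ‖a‖ + 2 * ρ + 1 with hR
  have hR0 : 0 < R := by positivity
  have hsub : ball a (2 * ρ) ⊆ ball (0 : ℂ) R := by
    intro z hz
    rw [mem_ball_iff_norm] at hz
    rw [mem_ball_zero_iff]
    have : ‖z‖ ≤ ‖z - a‖ + ‖a‖ := by
      have := norm_add_le (z - a) a
      simpa using this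
    rw [hR]; linarith
  obtain ⟨r, C, hr, hC, hap⟩ := apriori k m kc kc' mc mc' R hR0
  obtain ⟨C4, hC4, h4⟩ := J4.main
  obtain ⟨Cb, hCb, hbd⟩ := hHd k m kc kc' mc mc' R hR0
  refine ⟨r, C4 / (2 * ρ) ^ 4 * C ^ 2 * ∫ z, ‖ψ z‖, hr, ?_⟩
  rintro ⟨⟨P, hP⟩, ⟨Q, hQ⟩⟩ J A₀ A₁ γ₀ γ₁ hA₀ hA₁ hγ₀ hγ₁ h₀ h₁
  set Sg : ℝ := (∫ z, ‖A₀ z‖) + (∫ z, ‖A₁ z‖) +
        ∑ j ∈ Finset.range J, (1 / 2 : ℝ) ^ j * ((∫ z, ‖γ₀ j z‖) + ∫ z, ‖γ₁ j z‖) with hSg
  have hSg0 : 0 ≤ Sg := by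
    have h1 : ∀ h : ℂ → ℂ, 0 ≤ ∫ z, ‖h z‖ := fun h => integral_nonneg fun _ => norm_nonneg _
    have h2 : 0 ≤ ∑ j ∈ Finset.range J, (1 / 2 : ℝ) ^ j * ((∫ z, ‖γ₀ j z‖) + ∫ z, ‖γ₁ j z‖) :=
      Finset.sum_nonneg fun j _ => mul_nonneg (by positivity) (add_nonneg (h1 _) (h1 _))
    have := h1 A₀
    have := h1 A₁
    linarith
  set H : ℂ → ℂ := C0 (wP f χ P) with hH
  have wc := wP_cont hf hχ hP
  have whc := wP_hcs (f := f) (χ := χ) hP
  obtain ⟨_, Hc, Hd'⟩ := J7c.main _ wc whc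
  -- holomorphy on the ball
  have hts : ball a (2 * ρ) ⊆ (tsupport (wP f χ P))ᶜ := by
    intro z hz
    rw [mem_compl_iff, notMem_tsupport_iff_eventuallyEq]
    filter_upwards [isOpen_ball.mem_nhds hz] with w hw
    have : dbar χ w = 0 := by
      have e : χ =ᶠ[𝓝 w] fun _ => 1 := by
        filter_upwards [isOpen_ball.mem_nhds hw] with u hu
        exact hχ1 u hu
      rw [dbar_congr e]; simp [dbar]
    simp [wP, this]
  have Hdiff : DifferentiableOn ℂ H (ball a (2 * ρ)) := Hd'.mono hts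
  have Hint : IntegrableOn (fun z => Real.sqrt ‖H z‖) (ball a (2 * ρ)) := by
    have : ContinuousOn (fun z => Real.sqrt ‖H z‖) (closedBall a (2 * ρ)) :=
      (Real.continuous_sqrt.comp Hc.norm).continuousOn
    exact (this.integrableOn_compact (isCompact_closedBall a _)).mono_set ball_subset_closedBall
  -- Fatou
  have i0 : Integrable (fun z => dbar P z + dz Q z) :=
    (((dbar_continuous (cd1 hP.1)).add (dz_continuous (cd1 hQ.1)))).integrable_of_hasCompactSupport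
      ((dbar_hcs hP.2.1).add (dz_hcs hQ.2.1))
  have i1 : Integrable Q := hQ.1.continuous.integrable_of_hasCompactSupport hQ.2.1
  have hKb : ∫ z in ball a (2 * ρ), Real.sqrt ‖H z‖ ≤ C * Real.sqrt Sg := by
    have hδ : ∀ n : ℕ, (0 : ℝ) < 1 / ((n : ℝ) + 2) := fun n => by positivity
    have hδ1 : ∀ n : ℕ, 1 / ((n : ℝ) + 2) < 1 := fun n => by
      rw [div_lt_one (by positivity)]
      have : (0 : ℝ) ≤ n := Nat.cast_nonneg n
      linarith
    have hδt : Tendsto (fun n : ℕ => 1 / ((n : ℝ) + 2)) atTop (𝓝[>] 0) := by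
      rw [tendsto_nhdsWithin_iff]
      refine ⟨?_, Eventually.of_forall fun n => hδ n⟩
      have h1 := tendsto_one_div_add_atTop_nhds_zero_nat (𝕜 := ℝ)
      have h2 := h1.comp (tendsto_add_atTop_nat 1)
      refine h2.congr fun n => ?_
      simp only [Function.comp]
      push_cast
      ring
    refine fatou_bound measurableSet_ball
      (G := fun n z => Real.sqrt ‖Hd k m (1 / ((n : ℝ) + 2)) (fun z => dbar P z + dz Q z) Q z‖)
      (fun n z => Real.sqrt_nonneg _) (fun z => Real.sqrt_nonneg _) ?_ Hint ?_ (by positivity) ?_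
    · intro n
      exact (hbd _ (hδ n) (hδ1 n) _ _ i0 i1).1.mono_set hsub
    · intro z
      have := (Hd_lim hS hf hg hd hχ hF hP hQ z).comp hδt
      exact (Real.continuous_sqrt.tendsto _).comp this.norm
    · intro n
      have h1 := hap _ (hδ n) (hδ1 n) _ _ i0 i1 J A₀ A₁ γ₀ γ₁ hA₀ hA₁ hγ₀ hγ₁ h₀ h₁
      refine le_trans ?_ h1
      exact setIntegral_mono_set (hbd _ (hδ n) (hδ1 n) _ _ i0 i1).1
        (Eventually.of_forall fun z => Real.sqrt_nonneg _) hsub.eventuallyLE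
  -- sup bound
  have hsup : ∀ z ∈ closedBall a ρ, ‖H z‖ ≤ C4 / (2 * ρ) ^ 4 * (C ^ 2 * Sg) := by
    intro z hz
    have h1 := h4 a (2 * ρ) (by positivity) H Hdiff Hint z (by simpa using hz)
    refine h1.trans ?_
    apply mul_le_mul_of_nonneg_left _ (by positivity)
    have h0 : 0 ≤ ∫ z in ball a (2 * ρ), Real.sqrt ‖H z‖ :=
      integral_nonneg fun _ => Real.sqrt_nonneg _
    calc (∫ z in ball a (2 * ρ), Real.sqrt ‖H z‖) ^ 2 ≤ (C * Real.sqrt Sg) ^ 2 :=
          pow_le_pow_left₀ h0 hKb 2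
      _ = C ^ 2 * Sg := by rw [mul_pow, Real.sq_sqrt hSg0]
  have e : Lam f χ ψ hf hχ hψ hψc F (⟨P, hP⟩, ⟨Q, hQ⟩) = ∫ z, ψ z * H z := rfl
  rw [e]
  calc ‖∫ z, ψ z * H z‖ ≤ ∫ z, ‖ψ z * H z‖ := norm_integral_le_integral_norm _
    _ ≤ ∫ z, ‖ψ z‖ * (C4 / (2 * ρ) ^ 4 * (C ^ 2 * Sg)) := by
        apply integral_mono_of_nonneg
        · exact Eventually.of_forall fun z => norm_nonneg _
        · exact (hψ.norm.integrable_of_hasCompactSupport hψc.norm).mul_const _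
        · refine Eventually.of_forall fun z => ?_
          simp only [norm_mul]
          by_cases hz : z ∈ tsupport ψ
          · exact mul_le_mul_of_nonneg_left (hsup z (ball_subset_closedBall (hψs hz)))
              (norm_nonneg _)
          · rw [image_eq_zero_of_notMem_tsupport hz]; simp
    _ = C4 / (2 * ρ) ^ 4 * C ^ 2 * (∫ z, ‖ψ z‖) * Sg := by
        rw [integral_mul_const]; ring

/-- the local solution -/
theorem loc {S : Set ℂ} (hS : IsClosed S) {f g : ℂ → ℂ} (hf : Continuous f) (hg : Continuous g)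
    (hd : ∀ z ∉ S, HasDerivAt f (g z) z) (a : ℂ) (ρ : ℝ) (hρ : 0 < ρ) {ψ : ℂ → ℂ}
    (hψ : ContDiff ℝ 2 ψ) (hψs : tsupport ψ ⊆ ball a ρ) :
    ∃ u v, WSol (S ∩ closedBall a (3 * ρ)) (fun z => f z * ψ z) u v := by
  have hψc : HasCompactSupport ψ :=
    HasCompactSupport.of_support_subset_isCompact (isCompact_closedBall a ρ)
      ((subset_tsupport ψ).trans (hψs.trans ball_subset_closedBall))
  let b : ContDiffBump a := ⟨2 * ρ, 3 * ρ, by positivity, by linarith⟩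
  set χ : ℂ → ℂ := fun z => ((b z : ℝ) : ℂ) with hχdef
  have hχ : ContDiff ℝ 2 χ := Complex.ofRealCLM.contDiff.comp b.contDiff
  have hχts : tsupport χ = closedBall a (3 * ρ) := by
    have : Function.support χ = Function.support b := by
      ext z; simp [hχdef, Function.mem_support]
    rw [tsupport, this]
    exact b.tsupport_eq
  have hχc : HasCompactSupport χ := by
    rw [HasCompactSupport, hχts]; exact isCompact_closedBall _ _
  have hχ1 : ∀ z ∈ ball a (2 * ρ), χ z = 1 := by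
    intro z hz
    have : b z = 1 := b.one_of_mem_closedBall (ball_subset_closedBall hz)
    simp [hχdef, this]
  set F : Set ℂ := S ∩ closedBall a (3 * ρ) with hFdef
  have hF : F = S ∩ tsupport χ := by rw [hχts]
  obtain ⟨r, C, hr, hyp⟩ := Lam_bound hS hf hg hd hχ hχc hF a ρ hρ hχ1 hψ.continuous hψc hψs
  have hi₀ : ∀ v : T F × T F, Integrable (e₀ F v) := fun v =>
    (e0_cont v).1.integrable_of_hasCompactSupport (e0_cont v).2
  have hi₁ : ∀ v : T F × T F, Integrable (e₁ F v) := fun v =>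
    (e1_cont v).1.integrable_of_hasCompactSupport (e1_cont v).2
  obtain ⟨ℓ₀, ℓ₁, hℓ, K, hK⟩ := J5a.main (e₀ F) (e₁ F) (Lam f χ ψ hf hχ hψ.continuous hψc F)
    hi₀ hi₁ r hr C hyp
  obtain ⟨h₀, h₀c, _, hr₀⟩ := J5b.main ℓ₀ r hr K (fun j γ hγ hM => (hK j γ hγ hM).1)
  obtain ⟨h₁, h₁c, _, hr₁⟩ := J5b.main ℓ₁ r hr K (fun j γ hγ hM => (hK j γ hγ hM).2)
  have rep : ∀ v : T F × T F, ∫ z, ψ z * C0 (wP f χ v.1) z =
      (∫ z, h₀ z * e₀ F v z) + ∫ z, h₁ z * e₁ F v z := by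
    intro v
    have := hℓ v
    rw [hr₀ _ (e0_cont v).1 (e0_cont v).2, hr₁ _ (e1_cont v).1 (e1_cont v).2] at this
    exact this
  set k : ℂ → ℂ := fun z => χ z * f z with hk
  set m : ℂ → ℂ := fun z => dz χ z * f z + χ z * g z with hm
  have kc : Continuous k := hχ.continuous.mul hf
  have mc : Continuous m := ((dz_continuous (cd1 hχ)).mul hf).add (hχ.continuous.mul hg)
  have Cψ : Continuous (C0 ψ) := (J7c.main ψ hψ.continuous hψc).2.1
  have Cψ' : Continuous (C0 (dz ψ)) :=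
    (J7c.main (dz ψ) (dz_continuous (cd1 hψ)) (dz_hcs hψc)).2.1
  -- the integrated identity
  have main : ∀ P Q : ℂ → ℂ, P ∈ T F → Q ∈ T F →
      ∫ z, f z * ψ z * P z = (∫ z, (h₀ z - k z * C0 ψ z) * (dbar P z + dz Q z)) +
        ∫ z, (h₁ z - m z * C0 ψ z - k z * C0 (dz ψ) z) * Q z := by
    intro P Q hP hQ
    have id := identity hS hf hg hd hχ hF hP hQ
    have r2 := prod_reg hS hd hχ hF hQ
    have c2 := prod_hcs (f := f) (χ := χ) hQ
    have PQc : Continuous fun z => dbar P z + dz Q z :=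
      (dbar_continuous (cd1 hP.1)).add (dz_continuous (cd1 hQ.1))
    have PQs : HasCompactSupport fun z => dbar P z + dz Q z :=
      (dbar_hcs hP.2.1).add (dz_hcs hQ.2.1)
    have q1 : Continuous fun ζ => k ζ * (dbar P ζ + dz Q ζ) + m ζ * Q ζ :=
      (kc.mul PQc).add (mc.mul hQ.1.continuous)
    have q2 : HasCompactSupport fun ζ => k ζ * (dbar P ζ + dz Q ζ) + m ζ * Q ζ :=
      (PQs.mul_left).add hQ.2.1.mul_left
    have a1 := (J7d.main (fun ζ => k ζ * (dbar P ζ + dz Q ζ) + m ζ * Q ζ) ψ).1 q1 q2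
      hψ.continuous hψc
    have a2 := (J7d.main (fun z => k z * Q z) ψ).2 (cd1 r2) c2 (cd1 hψ) hψc
    have a3 := rep (⟨P, hP⟩, ⟨Q, hQ⟩)
    have a4 : ∫ z, f z * ψ z * P z = ∫ z, ψ z * (k z * P z) := by
      congr 1; ext z
      by_cases hz : z ∈ tsupport ψ
      · have : χ z = 1 := hχ1 z (ball_subset_ball (by linarith) (hψs hz))
        simp only [hk, this]; ring
      · rw [image_eq_zero_of_notMem_tsupport hz]; ring
    have ci : ∀ {h : ℂ → ℂ}, Continuous h → Integrable (fun z => ψ z * h z) := fun hh =>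
      (hψ.continuous.mul hh).integrable_of_hasCompactSupport hψc.mul_right
    have b1 : Continuous (C0 (fun ζ => k ζ * (dbar P ζ + dz Q ζ) + m ζ * Q ζ)) :=
      (J7c.main _ q1 q2).2.1
    have b2 : Continuous (C0 (wP f χ P)) :=
      (J7c.main _ (wP_cont hf hχ hP) (wP_hcs hP)).2.1
    have b3 : Continuous (C0 (dz (fun z => k z * Q z))) :=
      (J7c.main _ (dz_continuous (cd1 r2)) (dz_hcs c2)).2.1
    have a5 : ∫ z, ψ z * (k z * P z) =
        (∫ z, ψ z * C0 (fun ζ => k ζ * (dbar P ζ + dz Q ζ) + m ζ * Q ζ) z) +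
        (∫ z, ψ z * C0 (wP f χ P) z) - ∫ z, ψ z * C0 (dz (fun z => k z * Q z)) z := by
      have i12 : Integrable fun z => ψ z * C0 (fun ζ => k ζ * (dbar P ζ + dz Q ζ) + m ζ * Q ζ) z +
          ψ z * C0 (wP f χ P) z := (ci b1).add (ci b2)
      rw [← integral_add (ci b1) (ci b2), ← integral_sub i12 (ci b3)]
      congr 1; ext z
      have := id z
      simp only [hk, hm] at this ⊢
      rw [this]; ring
    have a6 : (∫ z, (h₀ z - k z * C0 ψ z) * (dbar P z + dz Q z)) =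
        (∫ z, h₀ z * (dbar P z + dz Q z)) - ∫ z, (k z * (dbar P z + dz Q z)) * C0 ψ z := by
      rw [← integral_sub]
      · congr 1; ext z; ring
      · exact (h₀c.mul PQc).integrable_of_hasCompactSupport PQs.mul_left
      · exact ((kc.mul PQc).mul Cψ).integrable_of_hasCompactSupport (PQs.mul_left).mul_right
    have a7 : ∫ z, (h₁ z - m z * C0 ψ z - k z * C0 (dz ψ) z) * Q z =
        (∫ z, h₁ z * Q z) - (∫ z, (m z * Q z) * C0 ψ z) - ∫ z, (k z * Q z) * C0 (dz ψ) z := by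
      have i1 : Integrable fun z => h₁ z * Q z :=
        (h₁c.mul hQ.1.continuous).integrable_of_hasCompactSupport hQ.2.1.mul_left
      have i2 : Integrable fun z => (m z * Q z) * C0 ψ z :=
        ((mc.mul hQ.1.continuous).mul Cψ).integrable_of_hasCompactSupport (hQ.2.1.mul_left).mul_right
      have i3 : Integrable fun z => (k z * Q z) * C0 (dz ψ) z :=
        ((kc.mul hQ.1.continuous).mul Cψ').integrable_of_hasCompactSupport
          (hQ.2.1.mul_left).mul_right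
      have i12 : Integrable fun z => h₁ z * Q z - (m z * Q z) * C0 ψ z := i1.sub i2
      rw [← integral_sub i1 i2, ← integral_sub i12 i3]
      congr 1; ext z; ring
    have a8 : ∫ z, (k z * (dbar P z + dz Q z) + m z * Q z) * C0 ψ z =
        (∫ z, (k z * (dbar P z + dz Q z)) * C0 ψ z) + ∫ z, (m z * Q z) * C0 ψ z := by
      have i1 : Integrable fun z => (k z * (dbar P z + dz Q z)) * C0 ψ z :=
        ((kc.mul PQc).mul Cψ).integrable_of_hasCompactSupport (PQs.mul_left).mul_right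
      have i2 : Integrable fun z => (m z * Q z) * C0 ψ z :=
        ((mc.mul hQ.1.continuous).mul Cψ).integrable_of_hasCompactSupport (hQ.2.1.mul_left).mul_right
      rw [← integral_add i1 i2]
      congr 1; ext z; ring
    have a3' : ∫ z, ψ z * C0 (wP f χ P) z =
      (∫ z, h₀ z * (dbar P z + dz Q z)) + ∫ z, h₁ z * Q z := a3
    rw [a4, a5, a6, a7, a1, a2, a3', a8]
    ring
  have zT : (0 : ℂ → ℂ) ∈ T F := (T F).zero_mem
  have z1 : ∀ z, dbar (0 : ℂ → ℂ) z = 0 := fun z => by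
    have : dbar (0 : ℂ → ℂ) z = dbar (fun _ => (0 : ℂ)) z := rfl
    rw [this]; simp [dbar]
  have z2 : ∀ z, dz (0 : ℂ → ℂ) z = 0 := fun z => by
    have : dz (0 : ℂ → ℂ) z = dz (fun _ => (0 : ℂ)) z := rfl
    rw [this]; simp [dz]
  refine ⟨fun z => -(h₀ z - k z * C0 ψ z), fun z => -(h₁ z - m z * C0 ψ z - k z * C0 (dz ψ) z),
    ?_, ?_, ?_⟩
  · exact (h₀c.sub (kc.mul Cψ)).neg
  · exact ((h₁c.sub (mc.mul Cψ)).sub (kc.mul Cψ')).neg
  · intro P hP1 hP2 hP3
    have hP : P ∈ T F := ⟨hP1, hP2, hP3⟩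
    constructor
    · have := main P 0 hP zT
      simp only [z2, add_zero, Pi.zero_apply, mul_zero, integral_zero] at this
      rw [this, ← integral_neg]
      congr 1; ext z; ring
    · have := main 0 P zT hP
      simp only [z1, zero_add, Pi.zero_apply, mul_zero, integral_zero] at this
      have e2 : ∫ z, -(h₀ z - k z * C0 ψ z) * dz P z = -∫ z, (h₀ z - k z * C0 ψ z) * dz P z := by
        rw [← integral_neg]; congr 1; ext z; ring
      have e3 : ∫ z, -(h₁ z - m z * C0 ψ z - k z * C0 (dz ψ) z) * P z =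
          -∫ z, (h₁ z - m z * C0 ψ z - k z * C0 (dz ψ) z) * P z := by
        rw [← integral_neg]; congr 1; ext z; ring
      rw [e2, e3]
      linear_combination this

end Pool.Agent.Split938
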