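import Pool.Agent.Split938.Fin

set_option autoImplicit false
open MeasureTheory Metric Set Filter Topology
open scoped Manifold ContDiff

namespace Pool.Agent.Split938

/-- splitting for functions given with continuous extensions of `f` and `f'` to the plane -/
theorem split {S S₁ S₂ : Set ℂ} (hS : IsClosed S) (h₁ : IsClosed S₁) (h₂ : IsClosed S₂)
    (hU : S = S₁ ∪ S₂)
    (hint : ∀ z ∈ S, (∃ U ∈ 𝓝 z, U ∩ S ⊆ S₁) ∨ (∃ U ∈ 𝓝 z, U ∩ S ⊆ S₂))
    {f g : ℂ → ℂ} (hf : Continuous f) (hg : Continuous g)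
    (hd : ∀ z ∉ S, HasDerivAt f (g z) z) :
    ∃ f₁ g₁ f₂ g₂ : ℂ → ℂ, Continuous f₁ ∧ Continuous g₁ ∧ Continuous f₂ ∧ Continuous g₂ ∧
      (∀ z ∉ S₁, HasDerivAt f₁ (g₁ z) z) ∧ (∀ z ∉ S₂, HasDerivAt f₂ (g₂ z) z) ∧
      ∀ z, f z = f₁ z + f₂ z := by
  -- the two disjoint closed sets
  set A : Set ℂ := S ∩ {z | ∃ U ∈ 𝓝 z, U ∩ S ⊆ S₂}ᶜ with hA
  set B : Set ℂ := S ∩ {z | ∃ U ∈ 𝓝 z, U ∩ S ⊆ S₁}ᶜ with hB
  have op : ∀ R : Set ℂ, IsOpen {z : ℂ | ∃ U ∈ 𝓝 z, U ∩ S ⊆ R} := by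
    intro R
    rw [isOpen_iff_mem_nhds]
    rintro z ⟨U, hUz, hUR⟩
    obtain ⟨V, hVU, hV, hzV⟩ := _root_.mem_nhds_iff.1 hUz
    filter_upwards [hV.mem_nhds hzV] with w hw
    exact ⟨V, hV.mem_nhds hw, (inter_subset_inter_left S hVU).trans hUR⟩
  have hAc : IsClosed A := hS.inter (op S₂).isClosed_compl
  have hBc : IsClosed B := hS.inter (op S₁).isClosed_compl
  have hAB : Disjoint B A := by
    rw [Set.disjoint_left]
    rintro z ⟨hz, hz1⟩ ⟨_, hz2⟩
    rcases hint z hz with h | h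
    · exact hz1 h
    · exact hz2 h
  obtain ⟨φ, hφ0, hφ1, _⟩ := exists_contMDiffMap_zero_one_nhds_of_isClosed (n := 3) 𝓘(ℝ, ℂ)
    hBc hAc hAB
  set θ : ℂ → ℂ := fun z => ((φ z : ℝ) : ℂ) with hθ
  have hφs : ContDiff ℝ 3 (φ : ℂ → ℝ) := φ.contMDiff.contDiff
  have hθ3 : ContDiff ℝ 3 θ := Complex.ofRealCLM.contDiff.comp hφs
  have hθ2 : ContDiff ℝ 2 θ := hθ3.of_le (by norm_num)
  have hB0 : ∀ z ∈ B, θ =ᶠ[𝓝 z] fun _ => 0 := by
    intro z hz
    have := hφ0.filter_mono (nhds_le_nhdsSet hz)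
    filter_upwards [this] with w hw
    simp [hθ, hw]
  have hA1 : ∀ z ∈ A, θ =ᶠ[𝓝 z] fun _ => 1 := by
    intro z hz
    have := hφ1.filter_mono (nhds_le_nhdsSet hz)
    filter_upwards [this] with w hw
    simp [hθ, hw]
  have hq : ContDiff ℝ 2 (dbar θ) := by
    have h1 : ContDiff ℝ 2 (fderiv ℝ θ) := hθ3.fderiv_right (by norm_num)
    have h2 : ContDiff ℝ 2 fun z => fderiv ℝ θ z 1 := h1.clm_apply contDiff_const
    have h3 : ContDiff ℝ 2 fun z => fderiv ℝ θ z Complex.I := h1.clm_apply contDiff_const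
    have h4 : ContDiff ℝ 2 fun z => (fderiv ℝ θ z 1 + Complex.I * fderiv ℝ θ z Complex.I) / 2 :=
      (h2.add (contDiff_const.mul h3)).div_const 2
    exact h4
  have hqA : ∀ z ∈ A, z ∉ tsupport (dbar θ) := by
    intro z hz
    rw [notMem_tsupport_iff_eventuallyEq]
    filter_upwards [(hA1 z hz).eventuallyEq_nhds] with w hw
    rw [dbar_congr hw]; simp [dbar]
  have hqB : ∀ z ∈ B, z ∉ tsupport (dbar θ) := by
    intro z hz
    rw [notMem_tsupport_iff_eventuallyEq]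
    filter_upwards [(hB0 z hz).eventuallyEq_nhds] with w hw
    rw [dbar_congr hw]; simp [dbar]
  obtain ⟨u, v, huv⟩ := global hS h₁ h₂ hf hg hd hq (by
    intro z hz hzS
    constructor
    · by_contra h
      exact hqB z ⟨hzS, h⟩ hz
    · by_contra h
      exact hqA z ⟨hzS, h⟩ hz)
  have p1 := piece hS h₁ hf hg hd hθ2 (by
    intro z hz hz1
    refine hB0 z ⟨hz, ?_⟩
    rintro ⟨U, hU', hUs⟩
    exact hz1 (hUs ⟨mem_of_mem_nhds hU', hz⟩)) (inter_subset_left) huv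
  have hθ2' : ContDiff ℝ 2 (fun z => 1 - θ z) := contDiff_const.sub hθ2
  have ed : ∀ z, dbar (fun z => 1 - θ z) z = -dbar θ z := by
    intro z
    unfold dbar
    rw [fderiv_const_sub]
    simp only [ContinuousLinearMap.neg_apply]
    ring
  have huv' : WSol (S₁ ∩ S₂) (fun z => f z * dbar (fun z => 1 - θ z) z) (fun z => -u z)
      (fun z => -v z) := by
    have := huv.neg
    have e : (fun z => f z * dbar (fun z => 1 - θ z) z) = fun z => -(f z * dbar θ z) := by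
      ext z; rw [ed]; ring
    rw [e]; exact this
  have p2 := piece hS h₂ hf hg hd hθ2' (by
    intro z hz hz1
    have hzA : z ∈ A := by
      refine ⟨hz, ?_⟩
      rintro ⟨U, hU', hUs⟩
      exact hz1 (hUs ⟨mem_of_mem_nhds hU', hz⟩)
    filter_upwards [hA1 z hzA] with w hw
    rw [hw]; simp) (inter_subset_right) huv'
  have cz1 := dz_continuous (cd1 hθ2)
  have cz2 := dz_continuous (cd1 hθ2')
  refine ⟨_, _, _, _, ?_, ?_, ?_, ?_, p1, p2, ?_⟩
  · exact (hθ2.continuous.mul hf).sub huv.1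
  · exact ((hθ2.continuous.mul hg).add (cz1.mul hf)).sub huv.2.1
  · exact (hθ2'.continuous.mul hf).sub huv'.1
  · exact ((hθ2'.continuous.mul hg).add (cz2.mul hf)).sub huv'.2.1
  · intro z; ring

/-- continuous extension from `Tᶜ ∪ frontier T` -/
theorem extend {T : Set ℂ} {g : ℂ → ℂ} (hg : ContinuousOn g (Tᶜ ∪ frontier T)) :
    ∃ G : ℂ → ℂ, Continuous G ∧ EqOn G g Tᶜ := by
  have hc : IsClosed (Tᶜ ∪ frontier T) := by
    have : Tᶜ ∪ frontier T = (interior T)ᶜ := by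
      ext z
      simp only [mem_union, mem_compl_iff, frontier, mem_diff]
      constructor
      · rintro (h | h)
        · exact fun h' => h (interior_subset h')
        · exact h.2
      · intro h
        by_cases hz : z ∈ T
        · exact Or.inr ⟨subset_closure hz, h⟩
        · exact Or.inl hz
    rw [this]; exact isOpen_interior.isClosed_compl
  obtain ⟨G, hG⟩ := ContinuousMap.exists_restrict_eq hc
    ⟨(Tᶜ ∪ frontier T).restrict g, continuousOn_iff_continuous_restrict.1 hg⟩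
  refine ⟨G, G.continuous, fun z hz => ?_⟩
  have := congrArg (fun h => h ⟨z, Or.inl hz⟩) hG
  exact this

theorem compl_frontier_mono {S T : Set ℂ} (h : T ⊆ S) : Sᶜ ∪ frontier S ⊆ Tᶜ ∪ frontier T := by
  intro z hz
  by_cases hT : z ∈ T
  · refine Or.inr ⟨subset_closure hT, fun hi => ?_⟩
    rcases hz with hz | hz
    · exact hz (h hT)
    · exact hz.2 (interior_mono h hi)
  · exact Or.inl hT

end Pool.Agent.Split938
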